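import Pool.Agent.KS6_53.V5.Cub
import Pool.Agent.KS6_53.V5.Box

set_option autoImplicit false
set_option linter.style.haveILetI false

namespace Pool.Agent.KS6_53.V5

open Finset

section nz

variable {ι : Type*} [Fintype ι]

theorem le_nz (x : ι → ℤ) (i : ι) : |(x i : ℝ)| ≤ nz x := by
  have := norm_le_pi_norm (rv x) i
  rwa [Real.norm_eq_abs] at this

theorem nz_nonneg (x : ι → ℤ) : 0 ≤ nz x := norm_nonneg _

theorem nz_le_iff {x : ι → ℤ} {X : ℝ} (hX : 0 ≤ X) : nz x ≤ X ↔ ∀ i, |(x i : ℝ)| ≤ X := by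
  rw [nz, pi_norm_le_iff_of_nonneg hX]
  rfl

theorem exists_nz [Nonempty ι] (x : ι → ℤ) : ∃ i, nz x = |(x i : ℝ)| := by
  obtain ⟨i, hi⟩ := Finite.exists_max fun i => |(x i : ℝ)|
  exact ⟨i, le_antisymm ((nz_le_iff (abs_nonneg _)).2 hi) (le_nz x i)⟩

theorem one_le_nz {x : ι → ℤ} (hx : x ≠ 0) : 1 ≤ nz x := by
  obtain ⟨i, hi⟩ := Function.ne_iff.1 hx
  refine le_trans ?_ (le_nz x i)
  have : (1 : ℤ) ≤ |x i| := Int.one_le_abs hi
  exact_mod_cast this

theorem unimod_ne {x : ι → ℤ} (hx : Unimod x) : x ≠ 0 := by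
  rintro rfl
  obtain ⟨a, ha⟩ := hx
  simp at ha

theorem one_le_nz' {x : ι → ℤ} (hx : Unimod x) : 1 ≤ nz x := one_le_nz (unimod_ne hx)

theorem nz_fin (X : ℝ) : {x : ι → ℤ | nz x ≤ X}.Finite := by
  by_cases hX : 0 ≤ X
  · refine (finite_box (fun _ => 0) X).subset fun x hx i => ?_
    rw [sub_zero]
    exact (nz_le_iff hX).1 hx i
  · convert Set.finite_empty
    ext x
    simp only [Set.mem_ofPred_eq, Set.mem_empty_iff_false, iff_false, not_le]
    exact lt_of_lt_of_le (not_le.1 hX) (nz_nonneg x)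

end nz

/-- windows -/
theorem window {α : Type*} (A : Finset α) (f : α → ℝ) (lo hi δ : ℝ) (hδ : 0 < δ) (hlh : lo ≤ hi)
    (hlo : ∀ a ∈ A, lo ≤ f a ∧ f a ≤ hi) (M : ℕ)
    (h : ∀ B ⊆ A, (∀ a ∈ B, ∀ b ∈ B, |f a - f b| < δ) → B.card ≤ M) :
    (A.card : ℝ) ≤ M * ((hi - lo) / δ + 1) := by
  classical
  have h1 := card_le_mul_card_image_of_maps_to (s := A) (f := fun a => ⌊(f a - lo) / δ⌋₊)
    (t := Finset.range (⌊(hi - lo) / δ⌋₊ + 1)) (fun a ha => by
      rw [Finset.mem_range]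
      refine Nat.lt_succ_of_le (Nat.floor_le_floor ?_)
      exact div_le_div_of_nonneg_right (by linarith [(hlo a ha).2]) hδ.le) M (fun k _ => by
      refine h _ (Finset.filter_subset _ _) fun a ha b hb => ?_
      rw [Finset.mem_filter] at ha hb
      have ea : 0 ≤ (f a - lo) / δ := div_nonneg (by linarith [(hlo a ha.1).1]) hδ.le
      have eb : 0 ≤ (f b - lo) / δ := div_nonneg (by linarith [(hlo b hb.1).1]) hδ.le
      have a1 := Nat.floor_le ea
      have a2 := Nat.lt_floor_add_one ((f a - lo) / δ)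
      have b1 := Nat.floor_le eb
      have b2 := Nat.lt_floor_add_one ((f b - lo) / δ)
      rw [ha.2] at a1 a2
      rw [hb.2] at b1 b2
      have e1 : |(f a - lo) / δ - (f b - lo) / δ| < 1 := by
        rw [abs_lt]
        constructor <;> linarith
      rw [← sub_div, abs_div, abs_of_pos hδ, div_lt_one hδ] at e1
      have e2 : f a - f b = f a - lo - (f b - lo) := by ring
      rwa [e2])
  rw [Finset.card_range] at h1
  have h2 : ((⌊(hi - lo) / δ⌋₊ : ℕ) : ℝ) ≤ (hi - lo) / δ :=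
    Nat.floor_le (div_nonneg (by linarith) hδ.le)
  calc (A.card : ℝ) ≤ ((M * (⌊(hi - lo) / δ⌋₊ + 1) : ℕ) : ℝ) := by exact_mod_cast h1
    _ = M * ((⌊(hi - lo) / δ⌋₊ : ℕ) + 1) := by push_cast; ring
    _ ≤ _ := mul_le_mul_of_nonneg_left (by linarith) (by positivity)

theorem prim_parallel' {ι : Type*} [Fintype ι] {x y : ι → ℤ} (hx : Unimod x) (hy : Unimod y)
    (h1 : ∀ i j, x i * y j = x j * y i) : y = x ∨ y = -x := by
  obtain ⟨a, ha⟩ := hx
  obtain ⟨b, hb⟩ := hy
  set c := ∑ i, a i * y i with hc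
  have h2 : ∀ j, y j = c * x j := by
    intro j
    calc y j = (∑ i, a i * x i) * y j := by rw [ha, one_mul]
      _ = ∑ i, a i * (x i * y j) := by
        rw [Finset.sum_mul]
        exact Finset.sum_congr rfl fun i _ => by ring
      _ = ∑ i, a i * (x j * y i) := by simp only [h1 _ j]
      _ = _ := by
        rw [hc, Finset.sum_mul]
        exact Finset.sum_congr rfl fun i _ => by ring
  have h3 : c * ∑ i, b i * x i = 1 := by
    rw [← hb, Finset.mul_sum]
    exact Finset.sum_congr rfl fun i _ => by rw [h2 i]; ring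
  rcases Int.isUnit_iff.1 (IsUnit.of_mul_eq_one _ h3) with h4 | h4
  · left
    funext j
    rw [h2, h4, one_mul]
  · right
    funext j
    rw [h2, h4, Pi.neg_apply]
    ring

theorem prim_parallel {x y : Fin 5 → ℤ} (hx : Unimod x) (hy : Unimod y) (h : wedge x y = 0) :
    y = x ∨ y = -x := by
  refine prim_parallel' hx hy fun i j => ?_
  have := congrFun h (i, j)
  simp only [wedge, Pi.zero_apply] at this
  linarith

/-- two vectors in the plane `c` -/
theorem wedge_in {c : Fin 5 × Fin 5 → ℤ} (hc : Unimod c) {z z' : Fin 5 → ℤ} (hz : In c z)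
    (hz' : In c z') : ∃ t : ℤ, wedge z z' = t • c := by
  have key : ∀ p q, wedge z z' p * c q = wedge z z' q * c p := by
    rintro ⟨i, j⟩ ⟨k, l⟩
    have e1 := hz i j k
    have e2 := hz i j l
    have e3 := hz' i k l
    have e4 := hz' j k l
    simp only [wedge]
    linear_combination z i * e4 - z j * e3 - z' l * e1 + z' k * e2
  obtain ⟨e, he⟩ := hc
  refine ⟨∑ p, e p * wedge z z' p, ?_⟩
  funext q
  rw [Pi.smul_apply, smul_eq_mul, Finset.sum_mul]
  calc wedge z z' q = wedge z z' q * ∑ p, e p * c p := by rw [he, mul_one]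
    _ = ∑ p, e p * (wedge z z' q * c p) := by
      rw [Finset.mul_sum]
      exact Finset.sum_congr rfl fun p _ => by ring
    _ = ∑ p, e p * (wedge z z' p * c q) := by simp only [key]
    _ = _ := Finset.sum_congr rfl fun p _ => by ring

/-- a quarter of the plane -/
theorem quarter (A : Finset (Fin 5 → ℤ)) (φ ψ : (Fin 5 → ℤ) → ℤ) (p : Fin 5 × Fin 5) (X E : ℝ)
    (hX : 0 < X) (hE : 0 < E) (M : ℕ)
    (h1 : ∀ z ∈ A, 0 < φ z ∧ |ψ z| ≤ φ z ∧ (φ z : ℝ) ≤ X)
    (h2 : ∀ z ∈ A, ∀ z' ∈ A, |φ z * ψ z' - ψ z * φ z'| = |wedge z z' p|)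
    (h3 : ∀ B ⊆ A, (∀ z ∈ B, ∀ z' ∈ B, |((wedge z z' p : ℤ) : ℝ)| < E) → B.card ≤ M) :
    (A.card : ℝ) ≤ M * (2 * X ^ 2 / E + 1) := by
  have key := window A (fun z => (ψ z : ℝ) / φ z) (-1) 1 (E / X ^ 2) (by positivity) (by norm_num)
    (fun z hz => by
      obtain ⟨a1, a2, -⟩ := h1 z hz
      have a1' : (0 : ℝ) < φ z := by exact_mod_cast a1
      have a2' : |(ψ z : ℝ)| ≤ φ z := by exact_mod_cast a2
      rw [← abs_le, abs_div, abs_of_pos a1']
      exact (div_le_one a1').2 a2') M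
    (fun B hB hd => h3 B hB fun z hz z' hz' => by
      have h4 := hd z hz z' hz'
      obtain ⟨a1, a2, a3⟩ := h1 z (hB hz)
      obtain ⟨b1, b2, b3⟩ := h1 z' (hB hz')
      have a1' : (0 : ℝ) < φ z := by exact_mod_cast a1
      have b1' : (0 : ℝ) < φ z' := by exact_mod_cast b1
      have e1 : |((wedge z z' p : ℤ) : ℝ)| = |(φ z : ℝ) * ψ z' - ψ z * φ z'| := by
        have := h2 z (hB hz) z' (hB hz')
        exact_mod_cast this.symm
      have e2 : |(φ z : ℝ) * ψ z' - ψ z * φ z'| = φ z * φ z' * |(ψ z : ℝ) / φ z - ψ z' / φ z'| := by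
        have e3 : (φ z : ℝ) * ψ z' - ψ z * φ z' =
            -((φ z : ℝ) * φ z' * ((ψ z : ℝ) / φ z - ψ z' / φ z')) := by
          field_simp
          ring
        rw [e3, abs_neg, abs_mul, abs_of_pos (mul_pos a1' b1')]
      rw [e1, e2]
      calc (φ z : ℝ) * φ z' * |(ψ z : ℝ) / φ z - ψ z' / φ z'| < (φ z : ℝ) * φ z' * (E / X ^ 2) :=
            mul_lt_mul_of_pos_left h4 (mul_pos a1' b1')
        _ ≤ X * X * (E / X ^ 2) := by
            refine mul_le_mul_of_nonneg_right ?_ (by positivity)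
            exact mul_le_mul a3 b3 b1'.le hX.le
        _ = E := by field_simp)
  have e : (1 - (-1)) / (E / X ^ 2) = 2 * X ^ 2 / E := by
    rw [div_div_eq_mul_div]
    norm_num
  rw [e] at key
  exact key

/-- the vectors of a plane -/
theorem plane_count' {w : Fin 5 × Fin 5 → ℤ} (hu : Unimod w) (A : Finset (Fin 5 → ℤ)) (X δ : ℝ)
    (hX : 0 < X) (hδ : 0 < δ) (M : ℕ) (hA : ∀ z ∈ A, z ≠ 0 ∧ In w z ∧ nz z ≤ X)
    (hpar : ∀ z ∈ A, ∀ z' ∈ A, wedge z z' = 0 → z' = z ∨ z' = -z)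
    (hB : ∀ B ⊆ A, (∀ z ∈ B, ∀ z' ∈ B, z ≠ z' → wedge z z' ≠ 0) →
      (∀ z ∈ B, ∀ z' ∈ B, nz (wedge z z') < δ * nz w) → B.card ≤ M) :
    (A.card : ℝ) ≤ 4 * (M * (2 * X ^ 2 / (δ * nz w) + 1)) := by
  classical
  obtain ⟨p, hp⟩ := exists_nz w
  have hwpos : 0 < nz w := lt_of_lt_of_le one_pos (one_le_nz' hu)
  have hwp : w p ≠ 0 := by
    intro h
    rw [h] at hp
    simp at hp
    linarith
  -- `wedge z z' = d • w`
  have hdet : ∀ z ∈ A, ∀ z' ∈ A, nz (wedge z z') = |((wedge z z' p : ℤ) : ℝ)| := by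
    intro z hz z' hz'
    obtain ⟨t, ht⟩ := wedge_in hu (hA z hz).2.1 (hA z' hz').2.1
    rw [ht, nz_smul, hp, Pi.smul_apply, smul_eq_mul]
    push_cast
    rw [abs_mul]
  -- coordinates
  have hcoord : ∀ z ∈ A, z p.1 ≠ 0 ∨ z p.2 ≠ 0 := by
    intro z hz
    by_contra hc
    push Not at hc
    apply (hA z hz).1
    funext k
    have := (hA z hz).2.1 p.1 p.2 k
    rw [hc.1, hc.2] at this
    simp at this
    exact this.resolve_right (by simpa using hwp)
  have hbase : ∀ (φ ψ : (Fin 5 → ℤ) → ℤ) (A' : Finset (Fin 5 → ℤ)), A' ⊆ A →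
      (∀ z ∈ A', 0 < φ z ∧ |ψ z| ≤ φ z) → (∀ z, ∃ i, |φ z| = |z i|) → (∀ z, φ (-z) = - φ z) →
      (∀ z z', |φ z * ψ z' - ψ z * φ z'| = |wedge z z' p|) →
      (A'.card : ℝ) ≤ M * (2 * X ^ 2 / (δ * nz w) + 1) := by
    intro φ ψ A' hA' hφ hφ2 hφ3 hφψ
    refine quarter A' φ ψ p X (δ * nz w) hX (by positivity) M ?_ (fun z _ z' _ => hφψ z z') ?_
    · intro z hz
      refine ⟨(hφ z hz).1, (hφ z hz).2, ?_⟩
      obtain ⟨i, hi⟩ := hφ2 z
      calc (φ z : ℝ) ≤ |(φ z : ℝ)| := le_abs_self _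
        _ = |(z i : ℝ)| := by exact_mod_cast hi
        _ ≤ nz z := le_nz z i
        _ ≤ X := (hA z (hA' hz)).2.2
    · intro B hBA hlt
      refine hB B (hBA.trans hA') ?_ ?_
      · intro z hz z' hz' hne h0
        rcases hpar z (hA' (hBA hz)) z' (hA' (hBA hz')) h0 with h | h
        · exact hne h.symm
        · have e1 := (hφ z (hBA hz)).1
          have e2 := (hφ z' (hBA hz')).1
          rw [h, hφ3] at e2
          linarith
      · intro z hz z' hz'
        rw [hdet z (hA' (hBA hz)) z' (hA' (hBA hz'))]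
        exact hlt z hz z' hz'
  set S := (M : ℝ) * (2 * X ^ 2 / (δ * nz w) + 1) with hS
  have q1 := hbase (fun z => z p.1) (fun z => z p.2) (A.filter fun z => |z p.2| ≤ z p.1)
    (Finset.filter_subset _ _) (fun z hz => by
      rw [Finset.mem_filter] at hz
      refine ⟨?_, hz.2⟩
      rcases (abs_nonneg (z p.2)).trans hz.2 |>.lt_or_eq with h | h
      · exact h
      · have h2 := hz.2
        rw [← h] at h2
        exfalso
        rcases hcoord z hz.1 with h3 | h3
        · exact h3 h.symm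
        · exact h3 (abs_nonpos_iff.1 h2))
    (fun z => ⟨p.1, rfl⟩) (fun z => by simp) (fun z z' => by
      simp only [wedge])
  have q2 := hbase (fun z => -z p.1) (fun z => z p.2) (A.filter fun z => |z p.2| ≤ -z p.1)
    (Finset.filter_subset _ _) (fun z hz => by
      rw [Finset.mem_filter] at hz
      refine ⟨?_, hz.2⟩
      rcases (abs_nonneg (z p.2)).trans hz.2 |>.lt_or_eq with h | h
      · exact h
      · have h2 := hz.2
        rw [← h] at h2
        exfalso
        rcases hcoord z hz.1 with h3 | h3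
        · exact h3 (by linarith)
        · exact h3 (abs_nonpos_iff.1 h2))
    (fun z => ⟨p.1, abs_neg _⟩) (fun z => by simp) (fun z z' => by
      simp only [wedge]
      rw [← abs_neg]
      congr 1
      ring)
  have q3 := hbase (fun z => z p.2) (fun z => z p.1) (A.filter fun z => |z p.1| ≤ z p.2)
    (Finset.filter_subset _ _) (fun z hz => by
      rw [Finset.mem_filter] at hz
      refine ⟨?_, hz.2⟩
      rcases (abs_nonneg (z p.1)).trans hz.2 |>.lt_or_eq with h | h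
      · exact h
      · have h2 := hz.2
        rw [← h] at h2
        exfalso
        rcases hcoord z hz.1 with h3 | h3
        · exact h3 (abs_nonpos_iff.1 h2)
        · exact h3 h.symm)
    (fun z => ⟨p.2, rfl⟩) (fun z => by simp) (fun z z' => by
      simp only [wedge]
      rw [← abs_neg]
      congr 1
      ring)
  have q4 := hbase (fun z => -z p.2) (fun z => z p.1) (A.filter fun z => |z p.1| ≤ -z p.2)
    (Finset.filter_subset _ _) (fun z hz => by
      rw [Finset.mem_filter] at hz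
      refine ⟨?_, hz.2⟩
      rcases (abs_nonneg (z p.1)).trans hz.2 |>.lt_or_eq with h | h
      · exact h
      · have h2 := hz.2
        rw [← h] at h2
        exfalso
        rcases hcoord z hz.1 with h3 | h3
        · exact h3 (abs_nonpos_iff.1 h2)
        · exact h3 (by linarith))
    (fun z => ⟨p.2, abs_neg _⟩) (fun z => by simp) (fun z z' => by
      simp only [wedge]
      congr 1
      ring)
  have hcov : A ⊆ (A.filter fun z => |z p.2| ≤ z p.1) ∪ ((A.filter fun z => |z p.2| ≤ -z p.1) ∪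
      ((A.filter fun z => |z p.1| ≤ z p.2) ∪ (A.filter fun z => |z p.1| ≤ -z p.2))) := by
    intro z hz
    simp only [Finset.mem_union, Finset.mem_filter, hz, true_and]
    rcases le_total |z p.1| |z p.2| with h | h
    · rcases abs_choice (z p.2) with h' | h' <;> rw [h'] at h <;> tauto
    · rcases abs_choice (z p.1) with h' | h' <;> rw [h'] at h <;> tauto
  have hc := Finset.card_le_card hcov
  have u1 := Finset.card_union_le (A.filter fun z => |z p.2| ≤ z p.1)
    ((A.filter fun z => |z p.2| ≤ -z p.1) ∪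
      ((A.filter fun z => |z p.1| ≤ z p.2) ∪ (A.filter fun z => |z p.1| ≤ -z p.2)))
  have u2 := Finset.card_union_le (A.filter fun z => |z p.2| ≤ -z p.1)
      ((A.filter fun z => |z p.1| ≤ z p.2) ∪ (A.filter fun z => |z p.1| ≤ -z p.2))
  have u3 := Finset.card_union_le (A.filter fun z => |z p.1| ≤ z p.2)
    (A.filter fun z => |z p.1| ≤ -z p.2)
  have htot : A.card ≤ (A.filter fun z => |z p.2| ≤ z p.1).card +
      ((A.filter fun z => |z p.2| ≤ -z p.1).card + ((A.filter fun z => |z p.1| ≤ z p.2).card +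
      (A.filter fun z => |z p.1| ≤ -z p.2).card)) := by omega
  have htot' : (A.card : ℝ) ≤ ((A.filter fun z => |z p.2| ≤ z p.1).card : ℝ) +
      (((A.filter fun z => |z p.2| ≤ -z p.1).card : ℝ) +
      (((A.filter fun z => |z p.1| ≤ z p.2).card : ℝ) +
      ((A.filter fun z => |z p.1| ≤ -z p.2).card : ℝ))) := by exact_mod_cast htot
  linarith

/-- the primitive vectors of a plane -/
theorem plane_count {w : Fin 5 × Fin 5 → ℤ} (hw : w ∈ VV) (A : Finset (Fin 5 → ℤ)) (X δ : ℝ)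
    (hX : 0 < X) (hδ : 0 < δ) (M : ℕ) (hA : ∀ z ∈ A, Unimod z ∧ In w z ∧ nz z ≤ X)
    (hB : ∀ B ⊆ A, (∀ z ∈ B, ∀ z' ∈ B, z ≠ z' → wedge z z' ≠ 0) →
      (∀ z ∈ B, ∀ z' ∈ B, nz (wedge z z') < δ * nz w) → B.card ≤ M) :
    (A.card : ℝ) ≤ 4 * (M * (2 * X ^ 2 / (δ * nz w) + 1)) :=
  plane_count' hw.1 A X δ hX hδ M (fun z hz => ⟨unimod_ne (hA z hz).1, (hA z hz).2⟩)
    (fun z hz z' hz' h => prim_parallel (hA z hz).1 (hA z' hz').1 h) hB

end Pool.Agent.KS6_53.V5
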