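import Pool.Agent.KS6_53.V5.Win

set_option autoImplicit false
set_option linter.style.haveILetI false

namespace Pool.Agent.KS6_53.V5

open Finset

theorem nz_wedge_ge {w : Fin 5 × Fin 5 → ℤ} (hw : w ∈ VV) {z z' : Fin 5 → ℤ} (hz : In w z)
    (hz' : In w z') (h : wedge z z' ≠ 0) : nz w ≤ nz (wedge z z') := by
  obtain ⟨hu, x0, y0, hiso, hwe⟩ := hw
  have u' : Unimod (wedge x0 y0) := hwe ▸ hu
  obtain ⟨a, b, rfl⟩ := (in_wedge_iff u').1 (hwe ▸ hz)
  obtain ⟨c, d, rfl⟩ := (in_wedge_iff u').1 (hwe ▸ hz')
  rw [wedge_comb, ← hwe] at h ⊢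
  rw [nz_smul]
  have h1 : a * d - b * c ≠ 0 := by
    intro h0
    rw [h0, zero_smul] at h
    exact h rfl
  have h2 : (1 : ℝ) ≤ |((a * d - b * c : ℤ) : ℝ)| := by exact_mod_cast Int.one_le_abs h1
  calc nz w = 1 * nz w := (one_mul _).symm
    _ ≤ _ := mul_le_mul_of_nonneg_right h2 (nz_nonneg w)

theorem pl : S_PL := by
  intro w hw X hX
  have hfin : {x | Unimod x ∧ In w x ∧ nz x ≤ X}.Finite := (nz_fin X).subset fun x hx => hx.2.2
  refine ⟨hfin, ?_⟩
  have hwpos : 0 < nz w := lt_of_lt_of_le one_pos (one_le_nz' hw.1)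
  rcases hX.eq_or_lt with rfl | hX0
  · have : {x | Unimod x ∧ In w x ∧ nz x ≤ 0} = ∅ := by
      ext x
      simp only [Set.mem_ofPred_eq, Set.mem_empty_iff_false, iff_false]
      rintro ⟨h1, -, h2⟩
      linarith [one_le_nz' h1]
    rw [this]
    simp
  · rw [Set.ncard_eq_toFinset_card _ hfin]
    have := plane_count hw hfin.toFinset X 1 hX0 one_pos 1
      (fun z hz => by simpa using hz) (fun B hB h1 h2 => by
        rw [Finset.card_le_one]
        intro a ha b hb
        by_contra hne
        have h3 := h2 a ha b hb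
        have ha' := (hfin.mem_toFinset.1 (hB ha)).2.1
        have hb' := (hfin.mem_toFinset.1 (hB hb)).2.1
        have h4 := nz_wedge_ge hw ha' hb' (h1 a ha b hb hne)
        linarith)
    calc _ ≤ _ := this
      _ = 8 * X ^ 2 / nz w + 4 := by push_cast; ring
      _ ≤ _ := by linarith

/-- four values of a cubic form -/
theorem four_values (c : Fin 4 → ℤ) (hc : Unimod c) (a b : Fin 4 → ℤ) (N : ℤ)
    (h : ∀ k, N ∣ cf c (a k) (b k)) :
    N ∣ ∏ i, ∏ j ∈ Ioi i, (b j * a i - b i * a j) := by
  rw [← Matrix.det_projVandermonde]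
  set V := Matrix.projVandermonde b a with hV
  have h1 : ∀ k, N ∣ V.mulVec c k := by
    intro k
    have : V.mulVec c k = cf c (a k) (b k) := by
      simp only [Matrix.mulVec, dotProduct, Fin.sum_univ_four, hV, Matrix.projVandermonde_apply, cf]
      simp
      ring
    rw [this]
    exact h k
  have h2 : ∀ k, N ∣ V.det * c k := by
    intro k
    have : V.det * c k = (V.adjugate.mulVec (V.mulVec c)) k := by
      rw [Matrix.mulVec_mulVec, Matrix.adjugate_mul, Matrix.smul_mulVec, Matrix.one_mulVec,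
        Pi.smul_apply, smul_eq_mul]
    rw [this, Matrix.mulVec, dotProduct]
    exact Finset.dvd_sum fun i _ => Dvd.dvd.mul_left (h1 i) _
  obtain ⟨e, he⟩ := hc
  have : V.det = ∑ k, e k * (V.det * c k) := by
    calc V.det = V.det * ∑ k, e k * c k := by rw [he, mul_one]
      _ = _ := by
        rw [Finset.mul_sum]
        exact Finset.sum_congr rfl fun k _ => by ring
  rw [this]
  exact Finset.dvd_sum fun i _ => Dvd.dvd.mul_left (h2 i) _

theorem fp : S_FP := by
  refine ⟨24, by norm_num, ?_⟩
  intro w hw N X hN hX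
  have hfin : {x | Unimod x ∧ In w x ∧ nz x ≤ X ∧ mm x ≠ 0 ∧ N ∣ gg x}.Finite :=
    (nz_fin X).subset fun x hx => hx.2.2.1
  have hwpos : 0 < nz w := lt_of_lt_of_le one_pos (one_le_nz' hw.1)
  have hN' : (1 : ℝ) ≤ N := by exact_mod_cast hN
  have hN0 : (0 : ℝ) < N := by linarith
  set δ : ℝ := (N : ℝ) ^ (1 / 6 : ℝ) with hδ
  have hδ0 : 0 < δ := Real.rpow_pos_of_pos hN0 _
  have hδ6 : δ ^ 6 = N := by
    rw [hδ, ← Real.rpow_natCast, ← Real.rpow_mul hN0.le]
    norm_num
  rcases hX.eq_or_lt with rfl | hX0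
  · have : {x | Unimod x ∧ In w x ∧ nz x ≤ 0 ∧ mm x ≠ 0 ∧ N ∣ gg x} = ∅ := by
      ext x
      simp only [Set.mem_ofPred_eq, Set.mem_empty_iff_false, iff_false]
      rintro ⟨h1, -, h2, -⟩
      linarith [one_le_nz' h1]
    rw [this]
    simp
  · rw [Set.ncard_eq_toFinset_card _ hfin]
    have := plane_count hw hfin.toFinset X δ hX0 hδ0 3
      (fun z hz => by
        have := hfin.mem_toFinset.1 hz
        exact ⟨this.1, this.2.1, this.2.2.1⟩) (fun B hB h1 h2 => by
        by_contra hcard
        push Not at hcard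
        obtain ⟨hu, x0, y0, hiso, hwe⟩ := hw
        have u' : Unimod (wedge x0 y0) := hwe ▸ hu
        obtain ⟨c, hc, hcf⟩ := cubic_form hiso u'
        -- four vectors
        obtain ⟨B', hB', hB'c⟩ := Finset.exists_subset_card_eq (show 4 ≤ B.card by omega)
        let e := (Finset.equivFinOfCardEq hB'c).symm
        have he : ∀ k, (e k : Fin 5 → ℤ) ∈ B := fun k => hB' (e k).2
        have hein : ∀ k, ∃ a b : ℤ, (e k : Fin 5 → ℤ) = a • x0 + b • y0 := fun k =>
          (in_wedge_iff u').1 (hwe ▸ (hfin.mem_toFinset.1 (hB (he k))).2.1)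
        choose a b hab using hein
        have hdvd := four_values c hc a b N (fun k => by
          have h3 := (hfin.mem_toFinset.1 (hB (he k))).2.2.2.2
          have h4 := gg_of_eq (x := (e k : Fin 5 → ℤ)) u' (c := cf c (a k) (b k)) (by
            rw [hab k]; exact hcf _ _)
          rw [h4] at h3
          exact Int.natCast_dvd.2 h3)
        have hpair : ∀ i j, i ≠ j → b j * a i - b i * a j ≠ 0 ∧
            |((b j * a i - b i * a j : ℤ) : ℝ)| < δ := by
          intro i j hij
          have hne : (e i : Fin 5 → ℤ) ≠ e j := fun h => hij (e.injective (Subtype.ext h))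
          have h3 := h1 _ (he i) _ (he j) hne
          have h4 := h2 _ (he i) _ (he j)
          rw [hab i, hab j, wedge_comb, ← hwe] at h3 h4
          have h5 : a i * b j - b i * a j = b j * a i - b i * a j := by ring
          rw [h5] at h3 h4
          refine ⟨fun h0 => h3 (by rw [h0, zero_smul]), ?_⟩
          rw [nz_smul] at h4
          exact lt_of_mul_lt_mul_right h4 hwpos.le
        have e01 := hpair 0 1 (by decide)
        have e02 := hpair 0 2 (by decide)
        have e03 := hpair 0 3 (by decide)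
        have e12 := hpair 1 2 (by decide)
        have e13 := hpair 1 3 (by decide)
        have e23 := hpair 2 3 (by decide)
        have hprod : ∏ i : Fin 4, ∏ j ∈ Ioi i, (b j * a i - b i * a j) =
            (b 1 * a 0 - b 0 * a 1) * (b 2 * a 0 - b 0 * a 2) * (b 3 * a 0 - b 0 * a 3) *
            ((b 2 * a 1 - b 1 * a 2) * (b 3 * a 1 - b 1 * a 3)) * (b 3 * a 2 - b 2 * a 3) := by
          rw [Fin.prod_univ_four]
          have i0 : (Ioi (0 : Fin 4)) = {1, 2, 3} := by decide
          have i1 : (Ioi (1 : Fin 4)) = {2, 3} := by decide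
          have i2 : (Ioi (2 : Fin 4)) = {3} := by decide
          have i3 : (Ioi (3 : Fin 4)) = ∅ := by decide
          rw [i0, i1, i2, i3, Finset.prod_insert (by decide), Finset.prod_pair (by decide),
            Finset.prod_pair (by decide), Finset.prod_singleton, Finset.prod_empty]
          ring
        rw [hprod] at hdvd
        set P := (b 1 * a 0 - b 0 * a 1) * (b 2 * a 0 - b 0 * a 2) * (b 3 * a 0 - b 0 * a 3) *
            ((b 2 * a 1 - b 1 * a 2) * (b 3 * a 1 - b 1 * a 3)) * (b 3 * a 2 - b 2 * a 3) with hP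
        have hP0 : P ≠ 0 := by
          rw [hP]
          exact mul_ne_zero (mul_ne_zero (mul_ne_zero (mul_ne_zero e01.1 e02.1) e03.1)
            (mul_ne_zero e12.1 e13.1)) e23.1
        have hle : (N : ℝ) ≤ |(P : ℝ)| := by
          have := Int.le_of_dvd (abs_pos.2 hP0) ((dvd_abs _ _).2 hdvd)
          exact_mod_cast this
        have hlt : |(P : ℝ)| < δ ^ 6 := by
          rw [hP]
          push_cast at e01 e02 e03 e12 e13 e23 ⊢
          rw [abs_mul, abs_mul, abs_mul, abs_mul, abs_mul]
          have : δ ^ 6 = δ * δ * δ * (δ * δ) * δ := by ring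
          rw [this]
          have n := fun x : ℝ => abs_nonneg x
          have m01 := mul_lt_mul'' e01.2 e02.2 (n _) (n _)
          have m2 := mul_lt_mul'' m01 e03.2 (by positivity) (n _)
          have m3 := mul_lt_mul'' e12.2 e13.2 (n _) (n _)
          have m4 := mul_lt_mul'' m2 m3 (by positivity) (by positivity)
          exact mul_lt_mul'' m4 e23.2 (by positivity) (n _)
        rw [hδ6] at hlt
        linarith)
    calc _ ≤ _ := this
      _ = 24 * (X ^ 2 / (nz w * δ)) + 12 := by
        push_cast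
        field_simp
        ring
      _ ≤ _ := by
        rw [mul_add]
        linarith

end Pool.Agent.KS6_53.V5
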