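import Pool.Agent.KS6_53.V5.Ln

set_option autoImplicit false
set_option linter.style.haveILetI false

namespace Pool.Agent.KS6_53.V5

open Finset

theorem nz_wedge_le (x y : Fin 5 → ℤ) : nz (wedge x y) ≤ 2 * nz x * nz y := by
  have h : rv (wedge x y) = wedge (rv x) (rv y) := by
    funext p
    simp [rv, wedge]
  rw [nz, h]
  exact norm_wedge_le _ _

theorem ln : S_LN := by
  intro A ε hA hε
  obtain ⟨C1, hC1, h1⟩ := ub
  obtain ⟨C2, hC2, h2⟩ := PS_card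
  -- parameters
  set η : ℝ := min 1 (ε / (3 * C1)) with hη
  have hη0 : 0 < η := lt_min one_pos (by positivity)
  have hη1 : η ≤ 1 := min_le_left _ _
  have hη2 : C1 * η ≤ ε / 3 := by
    have : η ≤ ε / (3 * C1) := min_le_right _ _
    calc C1 * η ≤ C1 * (ε / (3 * C1)) := mul_le_mul_of_nonneg_left this hC1.le
      _ = ε / 3 := by field_simp
  set N0 : ℕ := ⌈3 * C2 / ε⌉₊ + 1 with hN0
  have hN0' : 3 * C2 / ε ≤ N0 := by
    rw [hN0]
    push_cast
    linarith [Nat.le_ceil (3 * C2 / ε)]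
  have hN01 : (1 : ℝ) ≤ N0 := by
    rw [hN0]
    push_cast
    linarith [(Nat.cast_nonneg ⌈3 * C2 / ε⌉₊ : (0 : ℝ) ≤ _)]
  have hC2N : C2 / N0 ≤ ε / 3 := by
    rw [div_le_iff₀ hε] at hN0'
    rw [div_le_iff₀ (by linarith)]
    linarith
  set δ : ℝ := ε / (3 * 170 * C2) with hδ
  have hδ0 : 0 < δ := by positivity
  refine ⟨max (max 1 (1 / η)) (max (16 * A * N0 ^ 4 / η) (170 / δ ^ 2)), fun T hT => ?_⟩
  have hT1 : 1 ≤ T := (le_max_left _ _).trans ((le_max_left _ _).trans hT)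
  have hT2 : 1 / η ≤ T := (le_max_right _ _).trans ((le_max_left _ _).trans hT)
  have hT3 : 16 * A * N0 ^ 4 / η ≤ T := (le_max_left _ _).trans ((le_max_right _ _).trans hT)
  have hT4 : 170 / δ ^ 2 ≤ T := (le_max_right _ _).trans ((le_max_right _ _).trans hT)
  have hT0 : 0 < T := by linarith
  rw [div_le_iff₀ hη0] at hT2 hT3
  rw [div_le_iff₀ (by positivity)] at hT4
  set N1 : ℕ := ⌊Real.sqrt (170 * T)⌋₊ with hN1
  have hN1' : (N1 : ℝ) ≤ Real.sqrt (170 * T) := Nat.floor_le (Real.sqrt_nonneg _)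
  have hsub : {w ∈ VV | nz w ≤ T ∧ ¬ UU w ∧ ∃ x, Unimod x ∧ In w x ∧ mm x ≠ 0 ∧
      nz x ^ 2 ≤ A * nz w} ⊆ {w ∈ VV | nz w ≤ η * T} ∪ PS N0 N1 T := by
    rintro w ⟨hw, hwT, hU, x, hx, hin, hm, hxA⟩
    by_cases hle : nz w ≤ η * T
    · exact Or.inl ⟨hw, hle⟩
    push Not at hle
    right
    obtain ⟨v, hv, hinv, hvle⟩ := exists_small hw hU
    have hwpos : 1 ≤ nz w := one_le_nz' hw.1
    have hne : wedge (pf v) x ≠ 0 := by
      intro h0
      apply hm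
      rcases prim_parallel (pf_unimod hv) hx h0 with h | h
      · rw [h, mm_pf]
      · have e : -pf v = (-1 : ℤ) • pf v := by simp
        rw [h, e, mm_smul, mm_pf, smul_zero]
    have e1 := nz_wedge_ge hw hinv hin hne
    have e2 := nz_wedge_le (pf v) x
    have e3 := nz_pf_le v
    have nx := nz_nonneg x
    have nv : 1 ≤ nz v := one_le_nz' hv
    have e4 : nz w ≤ 4 * nz v ^ 2 * nz x := by
      have : 2 * nz (pf v) * nz x ≤ 2 * (2 * nz v ^ 2) * nz x := by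
        refine mul_le_mul_of_nonneg_right ?_ nx
        linarith
      linarith
    have e5 : nz w ^ 2 ≤ 16 * nz v ^ 4 * (A * nz w) := by
      calc nz w ^ 2 ≤ (4 * nz v ^ 2 * nz x) ^ 2 := pow_le_pow_left₀ (by linarith) e4 2
        _ = 16 * nz v ^ 4 * nz x ^ 2 := by ring
        _ ≤ _ := mul_le_mul_of_nonneg_left hxA (by positivity)
    have e6 : nz w ≤ 16 * nz v ^ 4 * A := by
      have : nz w * nz w ≤ nz w * (16 * nz v ^ 4 * A) := by nlinarith
      exact le_of_mul_le_mul_left this (by linarith)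
    have e7 : (N0 : ℝ) ^ 4 ≤ nz v ^ 4 := by
      have : 16 * A * (N0 : ℝ) ^ 4 ≤ 16 * A * nz v ^ 4 := by nlinarith
      exact le_of_mul_le_mul_left this (by positivity)
    refine ⟨hw, hwT, v, hv, hinv, ?_, ?_⟩
    · exact le_of_pow_le_pow_left₀ (by norm_num) (by linarith) e7
    · obtain ⟨n, hn⟩ := exists_nat_nz v
      rw [hn]
      have : n ≤ N1 := by
        apply Nat.le_floor
        rw [← hn]
        apply Real.le_sqrt_of_sq_le
        linarith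
      exact_mod_cast this
  have hf1 : {w ∈ VV | nz w ≤ η * T}.Finite := (nz_fin (η * T)).subset fun w hw => hw.2
  have hf2 : (PS N0 N1 T).Finite := (nz_fin T).subset fun w hw => hw.2.1
  have e1 := (Set.ncard_le_ncard hsub (hf1.union hf2)).trans (Set.ncard_union_le _ _)
  have e2 := (h1 (η * T) (by linarith)).2
  have e3 := h2 N0 N1 T (by exact_mod_cast hN01) hT0
  have e4 : ({w ∈ VV | nz w ≤ T ∧ ¬ UU w ∧ ∃ x, Unimod x ∧ In w x ∧ mm x ≠ 0 ∧
      nz x ^ 2 ≤ A * nz w}.ncard : ℝ) ≤ {w ∈ VV | nz w ≤ η * T}.ncard + (PS N0 N1 T).ncard := by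
    exact_mod_cast e1
  have e5 : C1 * (η * T) ^ 2 ≤ ε / 3 * T ^ 2 := by
    calc C1 * (η * T) ^ 2 = C1 * η * (η * T ^ 2) := by ring
      _ ≤ ε / 3 * (1 * T ^ 2) := by
        refine mul_le_mul hη2 (mul_le_mul_of_nonneg_right hη1 (by positivity)) (by positivity)
          (by positivity)
      _ = _ := by ring
  have e6 : (N1 : ℝ) ^ 3 ≤ 170 * δ * T ^ 2 := by
    have s1 : Real.sqrt (170 * T) ≤ δ * T := by
      rw [Real.sqrt_le_left (by positivity)]
      nlinarith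
    calc (N1 : ℝ) ^ 3 ≤ Real.sqrt (170 * T) ^ 3 := pow_le_pow_left₀ (by positivity) hN1' 3
      _ = Real.sqrt (170 * T) ^ 2 * Real.sqrt (170 * T) := by ring
      _ = 170 * T * Real.sqrt (170 * T) := by rw [Real.sq_sqrt (by positivity)]
      _ ≤ 170 * T * (δ * T) := mul_le_mul_of_nonneg_left s1 (by positivity)
      _ = _ := by ring
  have e7 : C2 * (T ^ 2 / N0 + (N1 : ℝ) ^ 3) ≤ ε / 3 * T ^ 2 + ε / 3 * T ^ 2 := by
    rw [mul_add]
    refine add_le_add ?_ ?_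
    · calc C2 * (T ^ 2 / N0) = C2 / N0 * T ^ 2 := by ring
        _ ≤ _ := mul_le_mul_of_nonneg_right hC2N (by positivity)
    · calc C2 * (N1 : ℝ) ^ 3 ≤ C2 * (170 * δ * T ^ 2) := mul_le_mul_of_nonneg_left e6 hC2.le
        _ = ε / 3 * T ^ 2 := by
          rw [hδ]
          field_simp
  linarith

/-- sums over the planes -/
theorem sum_planes : ∃ C : ℝ, 0 < C ∧ ∀ τ : ℝ, 0 < τ →
    ∑ᶠ w ∈ {w ∈ VV | nz w ≤ τ}, (τ / nz w) ^ (11 / 6 : ℝ) ≤ C * τ ^ 2 := by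
  obtain ⟨C1, hC1, h1⟩ := ub
  have h26 : (2 : ℝ) ^ (-(1 / 6) : ℝ) < 1 := Real.rpow_lt_one_of_one_lt_of_neg (by norm_num)
    (by norm_num)
  have h26' : 0 < 1 - (2 : ℝ) ^ (-(1 / 6) : ℝ) := by linarith
  refine ⟨2 ^ (11 / 6 : ℝ) * C1 / (1 - 2 ^ (-(1 / 6) : ℝ)), by positivity, fun τ hτ => ?_⟩
  have hfin : ∀ X, {w ∈ VV | nz w ≤ X}.Finite := fun X => (nz_fin X).subset fun w hw => hw.2
  have hpos : ∀ w ∈ VV, 0 < nz w := fun w hw => lt_of_lt_of_le one_pos (one_le_nz' hw.1)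
  have key := dyadic (fun X => ∑ᶠ w ∈ {w ∈ VV | nz w ≤ X}, (nz w) ^ (-(11 / 6) : ℝ))
    (2 ^ (11 / 6 : ℝ) * C1) (1 / 6) τ (by positivity) (by norm_num)
    (fun X hX1 => by
      have : {w ∈ VV | nz w ≤ X} = ∅ := by
        ext x
        simp only [Set.mem_ofPred_eq, Set.mem_empty_iff_false, iff_false]
        rintro ⟨h1, h2⟩
        linarith [one_le_nz' h1.1]
      simp [this])
    (fun X hX1 _ => by
      have hX0 : 0 < X := by linarith
      have hun : {w ∈ VV | nz w ≤ X} = {w ∈ VV | nz w ≤ X / 2} ∪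
          {w ∈ VV | X / 2 < nz w ∧ nz w ≤ X} := by
        ext w
        simp only [Set.mem_ofPred_eq, Set.mem_union]
        constructor
        · rintro ⟨a, b⟩
          rcases le_or_gt (nz w) (X / 2) with h | h
          · exact Or.inl ⟨a, h⟩
          · exact Or.inr ⟨a, h, b⟩
        · rintro (⟨a, b⟩ | ⟨a, b, c⟩)
          · exact ⟨a, by linarith⟩
          · exact ⟨a, c⟩
      have hf2 : {w ∈ VV | X / 2 < nz w ∧ nz w ≤ X}.Finite :=
        (nz_fin X).subset fun w hw => hw.2.2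
      have hdis : Disjoint {w ∈ VV | nz w ≤ X / 2} {w ∈ VV | X / 2 < nz w ∧ nz w ≤ X} := by
        rw [Set.disjoint_left]
        rintro w ⟨-, a⟩ ⟨-, b, -⟩
        linarith
      rw [hun, finsum_mem_union hdis (hfin _) hf2]
      refine add_le_add le_rfl ?_
      have e1 : ∑ᶠ w ∈ {w ∈ VV | X / 2 < nz w ∧ nz w ≤ X}, (nz w) ^ (-(11 / 6) : ℝ) ≤
          {w ∈ VV | X / 2 < nz w ∧ nz w ≤ X}.ncard * (X / 2) ^ (-(11 / 6) : ℝ) := by
        rw [finsum_mem_eq_finite_toFinset_sum _ hf2, Set.ncard_eq_toFinset_card _ hf2,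
          ← nsmul_eq_mul, ← Finset.sum_const]
        refine Finset.sum_le_sum fun w hw => ?_
        rw [Set.Finite.mem_toFinset] at hw
        exact Real.rpow_le_rpow_of_nonpos (by positivity) hw.2.1.le (by norm_num)
      refine e1.trans ?_
      have e2 := (h1 X hX1).2
      have e3 : ({w ∈ VV | X / 2 < nz w ∧ nz w ≤ X}.ncard : ℝ) ≤ C1 * X ^ 2 := by
        refine le_trans ?_ e2
        have : {w ∈ VV | X / 2 < nz w ∧ nz w ≤ X} ⊆ {w ∈ VV | nz w ≤ X} :=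
          fun w hw => ⟨hw.1, hw.2.2⟩
        exact_mod_cast Set.ncard_le_ncard this (hfin X)
      calc _ ≤ C1 * X ^ 2 * (X / 2) ^ (-(11 / 6) : ℝ) :=
            mul_le_mul_of_nonneg_right e3 (by positivity)
        _ = 2 ^ (11 / 6 : ℝ) * C1 * X ^ (1 / 6 : ℝ) := by
            rw [Real.div_rpow hX0.le (by norm_num), Real.rpow_neg (by norm_num : (0 : ℝ) ≤ 2),
              div_inv_eq_mul]
            have : X ^ 2 * X ^ (-(11 / 6) : ℝ) = X ^ (1 / 6 : ℝ) := by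
              rw [← Real.rpow_natCast X 2, ← Real.rpow_add hX0]
              norm_num
            calc _ = (X ^ 2 * X ^ (-(11 / 6) : ℝ)) * (2 ^ (11 / 6 : ℝ) * C1) := by ring
              _ = _ := by rw [this]; ring) τ hτ le_rfl
  have e1 : ∑ᶠ w ∈ {w ∈ VV | nz w ≤ τ}, (τ / nz w) ^ (11 / 6 : ℝ) =
      τ ^ (11 / 6 : ℝ) * ∑ᶠ w ∈ {w ∈ VV | nz w ≤ τ}, (nz w) ^ (-(11 / 6) : ℝ) := by
    rw [finsum_mem_eq_finite_toFinset_sum _ (hfin τ), finsum_mem_eq_finite_toFinset_sum _ (hfin τ),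
      Finset.mul_sum]
    refine Finset.sum_congr rfl fun w hw => ?_
    rw [Set.Finite.mem_toFinset] at hw
    rw [Real.div_rpow hτ.le (hpos w hw.1).le, Real.rpow_neg (hpos w hw.1).le, div_eq_mul_inv]
  rw [e1]
  calc _ ≤ τ ^ (11 / 6 : ℝ) * (2 ^ (11 / 6 : ℝ) * C1 / (1 - 2 ^ (-(1 / 6) : ℝ)) * τ ^ (1 / 6 : ℝ)) :=
        mul_le_mul_of_nonneg_left key (by positivity)
    _ = 2 ^ (11 / 6 : ℝ) * C1 / (1 - 2 ^ (-(1 / 6) : ℝ)) * (τ ^ (11 / 6 : ℝ) * τ ^ (1 / 6 : ℝ)) := by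
        ring
    _ = _ := by
        rw [← Real.rpow_add hτ]
        norm_num

end Pool.Agent.KS6_53.V5
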