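import Pool.Agent.KS6_53.V5.STyp

set_option autoImplicit false
set_option linter.style.haveILetI false

namespace Pool.Agent.KS6_53.V5

open Finset

theorem div_bound {a x W V c : ℝ} (hV : 0 < V) (ha : V / 2 ≤ |a|) (h : |a * x| ≤ c * W) :
    |x| ≤ 2 * c * W / V := by
  rw [le_div_iff₀ hV]
  rw [abs_mul] at h
  nlinarith [abs_nonneg x]

/-- lower bound for `LL` -/
theorem norm_LL_ge (l : Fin 3 → ℝ) (z : Fin 5 → ℝ) : ‖l‖ * ‖z‖ ≤ 60 * ‖LL l z‖ := by
  by_cases hl : l = 0
  · rw [hl, norm_zero, zero_mul]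
    positivity
  have hV : 0 < ‖l‖ := norm_pos_iff.2 hl
  set V := ‖l‖ with hVdef
  set W := ‖LL l z‖ with hWdef
  have hW : 0 ≤ W := norm_nonneg _
  have h0 := abs_le_norm l 0
  have h1 := abs_le_norm l 1
  have h2 := abs_le_norm l 2
  rw [← hVdef] at h0 h1 h2
  have ea : |l 2 * z 4| ≤ W := abs_le_norm (LL l z) (0, 1)
  have eb : |-l 1 * z 4 + l 2 * z 3| ≤ W := abs_le_norm (LL l z) (0, 2)
  have ec : |l 0 * z 4 - l 2 * z 2| ≤ W := abs_le_norm (LL l z) (0, 3)
  have ed : |-l 0 * z 3 + l 1 * z 2 - l 2 * z 1| ≤ W := abs_le_norm (LL l z) (0, 4)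
  have ee : |l 0 * z 4 - l 1 * z 3| ≤ W := abs_le_norm (LL l z) (1, 2)
  have ef : |l 1 * z 2| ≤ W := abs_le_norm (LL l z) (1, 3)
  have eg : |-l 0 * z 2 + l 2 * z 0| ≤ W := abs_le_norm (LL l z) (1, 4)
  have eh : |-l 1 * z 1 + l 2 * z 0| ≤ W := abs_le_norm (LL l z) (2, 3)
  have ei : |l 0 * z 1 - l 1 * z 0| ≤ W := abs_le_norm (LL l z) (2, 4)
  have ej : |l 0 * z 0| ≤ W := abs_le_norm (LL l z) (3, 4)
  have tri : ∀ a b : ℝ, |a| ≤ |a + b| + |b| := fun a b => by
    have := abs_sub (a + b) b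
    simpa using this
  suffices h : ∀ i, |z i| ≤ 60 * W / V by
    have := norm_le_of (by positivity) h
    rw [le_div_iff₀ hV] at this
    linarith
  by_cases c0 : V / 2 ≤ |l 0|
  · have z0 : |z 0| ≤ 2 * 1 * W / V := div_bound hV c0 (by linarith)
    have b0 : |l 1 * z 0| ≤ 2 * W := by
      have := abs_mul_le h1 z0
      refine this.trans (le_of_eq ?_)
      field_simp
    have b0' : |l 2 * z 0| ≤ 2 * W := by
      have := abs_mul_le h2 z0
      refine this.trans (le_of_eq ?_)
      field_simp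
    have z1 : |z 1| ≤ 2 * 3 * W / V := div_bound hV c0 (by
      have := tri (l 0 * z 1) (-(l 1 * z 0))
      rw [abs_neg, ← sub_eq_add_neg] at this
      linarith)
    have b1 : |l 2 * z 1| ≤ 6 * W := by
      have := abs_mul_le h2 z1
      refine this.trans (le_of_eq ?_)
      field_simp
      ring
    have z2 : |z 2| ≤ 2 * 3 * W / V := div_bound hV c0 (by
      have := tri (l 0 * z 2) (-(l 2 * z 0))
      rw [abs_neg] at this
      have e : l 0 * z 2 + -(l 2 * z 0) = -(-l 0 * z 2 + l 2 * z 0) := by ring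
      rw [e, abs_neg] at this
      linarith)
    have b2 : |l 1 * z 2| ≤ 6 * W := by linarith
    have z3 : |z 3| ≤ 2 * 13 * W / V := div_bound hV c0 (by
      have := tri (l 0 * z 3) (-(l 1 * z 2 - l 2 * z 1))
      rw [abs_neg] at this
      have e : l 0 * z 3 + -(l 1 * z 2 - l 2 * z 1) = -(-l 0 * z 3 + l 1 * z 2 - l 2 * z 1) := by ring
      rw [e, abs_neg] at this
      have := abs_sub (l 1 * z 2) (l 2 * z 1)
      linarith)
    have b3 : |l 1 * z 3| ≤ 26 * W := by
      have := abs_mul_le h1 z3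
      refine this.trans (le_of_eq ?_)
      field_simp
      ring
    have z4 : |z 4| ≤ 2 * 27 * W / V := div_bound hV c0 (by
      have := tri (l 0 * z 4) (-(l 1 * z 3))
      rw [abs_neg, ← sub_eq_add_neg] at this
      linarith)
    have hWV : 0 ≤ W / V := by positivity
    rw [mul_div_assoc] at z0 z1 z2 z3 z4
    intro i
    rw [mul_div_assoc]
    fin_cases i <;> simp only [Fin.zero_eta, Fin.mk_one, Fin.reduceFinMk] <;> linarith
  by_cases c2 : V / 2 ≤ |l 2|
  · have z4 : |z 4| ≤ 2 * 1 * W / V := div_bound hV c2 (by linarith)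
    have b4 : |l 1 * z 4| ≤ 2 * W := by
      have := abs_mul_le h1 z4
      refine this.trans (le_of_eq ?_)
      field_simp
    have b4' : |l 0 * z 4| ≤ 2 * W := by
      have := abs_mul_le h0 z4
      refine this.trans (le_of_eq ?_)
      field_simp
    have z3 : |z 3| ≤ 2 * 3 * W / V := div_bound hV c2 (by
      have := tri (l 2 * z 3) (-(l 1 * z 4))
      rw [abs_neg] at this
      have e : l 2 * z 3 + -(l 1 * z 4) = -l 1 * z 4 + l 2 * z 3 := by ring
      rw [e] at this
      linarith)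
    have b3 : |l 0 * z 3| ≤ 6 * W := by
      have := abs_mul_le h0 z3
      refine this.trans (le_of_eq ?_)
      field_simp
      ring
    have z2 : |z 2| ≤ 2 * 3 * W / V := div_bound hV c2 (by
      have := tri (l 2 * z 2) (-(l 0 * z 4))
      rw [abs_neg] at this
      have e : l 2 * z 2 + -(l 0 * z 4) = -(l 0 * z 4 - l 2 * z 2) := by ring
      rw [e, abs_neg] at this
      linarith)
    have b2 : |l 1 * z 2| ≤ 6 * W := by linarith
    have z1 : |z 1| ≤ 2 * 13 * W / V := div_bound hV c2 (by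
      have := tri (l 2 * z 1) (l 0 * z 3 - l 1 * z 2)
      have e : l 2 * z 1 + (l 0 * z 3 - l 1 * z 2) = -(-l 0 * z 3 + l 1 * z 2 - l 2 * z 1) := by ring
      rw [e, abs_neg] at this
      have := abs_sub (l 0 * z 3) (l 1 * z 2)
      linarith)
    have b1 : |l 1 * z 1| ≤ 26 * W := by
      have := abs_mul_le h1 z1
      refine this.trans (le_of_eq ?_)
      field_simp
      ring
    have z0 : |z 0| ≤ 2 * 27 * W / V := div_bound hV c2 (by
      have := tri (l 2 * z 0) (-(l 1 * z 1))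
      rw [abs_neg] at this
      have e : l 2 * z 0 + -(l 1 * z 1) = -l 1 * z 1 + l 2 * z 0 := by ring
      rw [e] at this
      linarith)
    have hWV : 0 ≤ W / V := by positivity
    rw [mul_div_assoc] at z0 z1 z2 z3 z4
    intro i
    rw [mul_div_assoc]
    fin_cases i <;> simp only [Fin.zero_eta, Fin.mk_one, Fin.reduceFinMk] <;> linarith
  · push Not at c0 c2
    obtain ⟨i, hi⟩ := exists_norm l
    rw [← hVdef] at hi
    have hi1 : V = |l 1| := by
      fin_cases i
      · simp only [Fin.zero_eta] at hi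
        linarith
      · simpa using hi
      · simp only [Fin.reduceFinMk] at hi
        linarith
    have q1 : |l 0 * l 2| ≤ V / 2 * (V / 2) := abs_mul_le c0.le c2.le
    have q2 : l 1 ^ 2 = V ^ 2 := by rw [hi1, sq_abs]
    have q3 := abs_le.1 q1
    have q4 : 3 / 4 * V ^ 2 ≤ |l 1 ^ 2 - l 0 * l 2| := by
      refine le_trans ?_ (le_abs_self _)
      rw [q2]
      nlinarith
    have fin : ∀ x : ℝ, |(l 1 ^ 2 - l 0 * l 2) * x| ≤ 2 * V * W → |x| ≤ 60 * W / V := by
      intro x hx
      rw [abs_mul] at hx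
      rw [le_div_iff₀ hV]
      have h1 : 3 / 4 * V ^ 2 * |x| ≤ 2 * V * W :=
        (mul_le_mul_of_nonneg_right q4 (abs_nonneg x)).trans hx
      have h2 : 0 ≤ V * |x| := by positivity
      have h3 : V * (3 / 4 * (V * |x|)) ≤ V * (2 * W) := by nlinarith
      have h4 := le_of_mul_le_mul_left h3 hV
      linarith
    have z2 : |z 2| ≤ 60 * W / V := by
      have h3 : V * |z 2| ≤ W := by rw [hi1, ← abs_mul]; exact ef
      rw [le_div_iff₀ hV]
      linarith
    have z4 : |z 4| ≤ 60 * W / V := by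
      refine fin _ ?_
      have e : (l 1 ^ 2 - l 0 * l 2) * z 4 = -(l 1 * (-l 1 * z 4 + l 2 * z 3)) -
          l 2 * (l 0 * z 4 - l 1 * z 3) := by ring
      rw [e]
      have h3 := abs_mul_le h1 eb
      have h4 := abs_mul_le h2 ee
      refine (abs_sub _ _).trans ?_
      rw [abs_neg]
      linarith
    have z3 : |z 3| ≤ 60 * W / V := by
      refine fin _ ?_
      have e : (l 1 ^ 2 - l 0 * l 2) * z 3 = -(l 0 * (-l 1 * z 4 + l 2 * z 3)) -
          l 1 * (l 0 * z 4 - l 1 * z 3) := by ring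
      rw [e]
      have h3 := abs_mul_le h0 eb
      have h4 := abs_mul_le h1 ee
      refine (abs_sub _ _).trans ?_
      rw [abs_neg]
      linarith
    have z1 : |z 1| ≤ 60 * W / V := by
      refine fin _ ?_
      have e : (l 1 ^ 2 - l 0 * l 2) * z 1 = -(l 1 * (-l 1 * z 1 + l 2 * z 0)) -
          l 2 * (l 0 * z 1 - l 1 * z 0) := by ring
      rw [e]
      have h3 := abs_mul_le h1 eh
      have h4 := abs_mul_le h2 ei
      refine (abs_sub _ _).trans ?_
      rw [abs_neg]
      linarith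
    have z0 : |z 0| ≤ 60 * W / V := by
      refine fin _ ?_
      have e : (l 1 ^ 2 - l 0 * l 2) * z 0 = -(l 0 * (-l 1 * z 1 + l 2 * z 0)) -
          l 1 * (l 0 * z 1 - l 1 * z 0) := by ring
      rw [e]
      have h3 := abs_mul_le h0 eh
      have h4 := abs_mul_le h1 ei
      refine (abs_sub _ _).trans ?_
      rw [abs_neg]
      linarith
    intro i
    fin_cases i <;> assumption

theorem nz_LL_ge (l : Fin 3 → ℤ) (z : Fin 5 → ℤ) : nz l * nz z ≤ 60 * nz (LL l z) := by
  have h : rv (LL l z) = LL (rv l) (rv z) := by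
    funext ⟨i, j⟩
    fin_cases i <;> fin_cases j <;> simp [rv, LL]
  have := norm_LL_ge (rv l) (rv z)
  rwa [← h] at this

theorem LL_smul {R : Type*} [CommRing R] (a : R) (l : Fin 3 → R) (z : Fin 5 → R) :
    LL l (a • z) = a • LL l z := by
  funext ⟨i, j⟩
  fin_cases i <;> fin_cases j <;> simp [LL] <;> ring

theorem LL_sub {R : Type*} [CommRing R] (l : Fin 3 → R) (z z' : Fin 5 → R) :
    LL l (z - z') = LL l z - LL l z' := by
  funext ⟨i, j⟩
  fin_cases i <;> fin_cases j <;> simp [LL] <;> ring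

theorem LL_inj {l : Fin 3 → ℤ} (hl : Unimod l) {z z' : Fin 5 → ℤ} (h : LL l z = LL l z') :
    z = z' := by
  by_contra hne
  have h1 : z - z' ≠ 0 := sub_ne_zero.2 hne
  have h2 := nz_LL_ge l (z - z')
  rw [LL_sub, h, sub_self] at h2
  have h3 : nz (0 : Fin 5 × Fin 5 → ℤ) = 0 := by
    have : rv (0 : Fin 5 × Fin 5 → ℤ) = 0 := by funext p; simp [rv]
    rw [nz, this, norm_zero]
  rw [h3, mul_zero] at h2
  have h4 := one_le_nz h1
  have h5 := one_le_nz' hl
  nlinarith

/-- planes through a given point of the cone -/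
def PV (v : Fin 3 → ℤ) (T : ℝ) : Set (Fin 5 × Fin 5 → ℤ) := {w | w ∈ VV ∧ nz w ≤ T ∧ In w (pf v)}

theorem PV_card : ∃ C : ℝ, 0 < C ∧ ∀ v : Fin 3 → ℤ, Unimod v → ∀ T : ℝ, 0 < T →
    ((PV v T).ncard : ℝ) ≤ C * (T ^ 2 / nz v ^ 5 + 1) := by
  classical
  refine ⟨8 * 60 ^ 2 * 8, by norm_num, fun v hv T hT => ?_⟩
  have hfin : (PV v T).Finite := (nz_fin T).subset fun w hw => hw.2.1
  have hv1 : 1 ≤ nz v := one_le_nz' hv
  have hv0 : 0 < nz v := by linarith
  have hex : ∀ w ∈ PV v T, ∃ z : Fin 5 → ℤ, w = LL v z ∧ In (cst v) z := by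
    rintro w ⟨hw, -, hin⟩
    obtain ⟨y, hiso, rfl⟩ := VV_basis hw (pf_unimod hv) hin
    exact ⟨ml v y, wedge_pf v y, in_cst (ml_tg hiso)⟩
  choose! f hf1 hf2 using hex
  have hinj : Set.InjOn f (PV v T) := by
    intro w hw w' hw' h
    rw [hf1 w hw, hf1 w' hw', h]
  set A : Finset (Fin 5 → ℤ) := hfin.toFinset.image f with hA
  have hAc : A.card = (PV v T).ncard := by
    rw [hA, Finset.card_image_of_injOn (by simpa using hinj), Set.ncard_eq_toFinset_card _ hfin]
  have hAm : ∀ z ∈ A, LL v z ∈ PV v T ∧ In (cst v) z := by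
    intro z hz
    rw [hA, Finset.mem_image] at hz
    obtain ⟨w, hw, rfl⟩ := hz
    have hw' : w ∈ PV v T := by simpa using hw
    exact ⟨by rw [← hf1 w hw']; exact hw', hf2 w hw'⟩
  have hc := nz_cst_ge v
  have hcp : 0 < nz (cst v) := lt_of_lt_of_le one_pos (one_le_nz' (cst_unimod hv))
  have key := plane_count' (cst_unimod hv) A (60 * T / nz v) 1 (by positivity) one_pos 1
    (fun z hz => by
      obtain ⟨h1, h2⟩ := hAm z hz
      refine ⟨?_, h2, ?_⟩
      · rintro rfl
        rw [LL_zero] at h1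
        exact unimod_ne h1.1.1 rfl
      · rw [le_div_iff₀ hv0]
        have := nz_LL_ge v z
        have h3 := h1.2.1
        nlinarith)
    (fun z hz z' hz' h => by
      obtain ⟨h1, -⟩ := hAm z hz
      obtain ⟨h1', -⟩ := hAm z' hz'
      have hpar : ∀ i j, z i * z' j = z j * z' i := fun i j => by
        have := congrFun h (i, j)
        simp only [wedge, Pi.zero_apply] at this
        linarith
      have hz0 : z ≠ 0 := by
        rintro rfl
        rw [LL_zero] at h1
        exact unimod_ne h1.1.1 rfl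
      obtain ⟨i, hi⟩ := Function.ne_iff.1 hz0
      have e1 : (z i) • LL v z' = (z' i) • LL v z := by
        rw [← LL_smul, ← LL_smul]
        congr 1
        funext j
        rw [Pi.smul_apply, Pi.smul_apply, smul_eq_mul, smul_eq_mul, hpar i j]
        ring
      have e2 : ∀ p q, LL v z p * LL v z' q = LL v z q * LL v z' p := by
        intro p q
        have a1 := congrFun e1 p
        have a2 := congrFun e1 q
        simp only [Pi.smul_apply, smul_eq_mul] at a1 a2
        have : z i * (LL v z p * LL v z' q - LL v z q * LL v z' p) = 0 := by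
          linear_combination LL v z p * a2 - LL v z q * a1
        exact sub_eq_zero.1 ((mul_eq_zero.1 this).resolve_left hi)
      rcases prim_parallel' h1.1.1 h1'.1.1 e2 with e | e
      · left
        exact LL_inj hv e
      · right
        refine LL_inj hv ?_
        rw [e, ← neg_one_smul ℤ z, LL_smul, neg_one_smul])
    (fun B hB h1 h2 => by
      rw [Finset.card_le_one]
      intro a ha b hb
      by_contra hne
      have h3 := h2 a ha b hb
      have h4 := h1 a ha b hb hne
      obtain ⟨t, ht⟩ := wedge_in (cst_unimod hv) (hAm a (hB ha)).2 (hAm b (hB hb)).2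
      rw [ht, nz_smul, one_mul] at h3
      have ht0 : t ≠ 0 := by
        rintro rfl
        rw [zero_smul] at ht
        exact h4 ht
      have : (1 : ℝ) ≤ |(t : ℝ)| := by exact_mod_cast Int.one_le_abs ht0
      nlinarith)
  rw [hAc] at key
  calc ((PV v T).ncard : ℝ) ≤ _ := key
    _ = 8 * 60 ^ 2 * (T ^ 2 / (nz v ^ 2 * nz (cst v))) + 4 := by
      push_cast
      field_simp
      ring
    _ ≤ 8 * 60 ^ 2 * (T ^ 2 / (nz v ^ 2 * (nz v ^ 3 / 8))) + 4 := by
      have : T ^ 2 / (nz v ^ 2 * nz (cst v)) ≤ T ^ 2 / (nz v ^ 2 * (nz v ^ 3 / 8)) := by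
        refine div_le_div_of_nonneg_left (by positivity) (by positivity) ?_
        refine mul_le_mul_of_nonneg_left (by linarith) (by positivity)
      linarith
    _ = 8 * 60 ^ 2 * 8 * (T ^ 2 / nz v ^ 5) + 4 := by
      field_simp
    _ ≤ _ := by
      rw [mul_add]
      have : (4 : ℝ) ≤ 8 * 60 ^ 2 * 8 * 1 := by norm_num
      linarith

end Pool.Agent.KS6_53.V5
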