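import Pool.Agent.KS6_53.V5.Fa9

set_option autoImplicit false

namespace Pool.Agent.KS6_53.V5

open Finset Filter Topology

local instance instFactPrimes'' (p : Nat.Primes) : Fact (p : ℕ).Prime := ⟨p.2⟩

/-- the height of a point -/
noncomputable def ht (S : Finset Nat.Primes) (ψ : (Fin 5 × Fin 5 → ℝ) → ℝ)
    (φ : ∀ p : Nat.Primes, (Fin 5 × Fin 5 → ℚ_[p]) → ℝ) (p : PP) : ℝ :=
  p.mulHeight ^ 2 * (ψ (fun q => (p.rep q : ℝ)) * ∏ r ∈ S, φ r (fun q => (p.rep q : ℚ_[r])))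

def bdd (S : Finset Nat.Primes) (ψ : (Fin 5 × Fin 5 → ℝ) → ℝ)
    (φ : ∀ p : Nat.Primes, (Fin 5 × Fin 5 → ℚ_[p]) → ℝ) (B : ℝ) : Set PP :=
  {p | (Pt p ∧ ¬ OnL p) ∧ ht S ψ φ p ≤ B}

theorem gcd_unimod {ι : Type*} [Fintype ι] {w : ι → ℤ} (hw : Unimod w) : Finset.univ.gcd w = 1 := by
  obtain ⟨a, ha⟩ := hw
  have h1 : Finset.univ.gcd w ∣ 1 := by
    rw [← ha]
    exact Finset.dvd_sum fun i _ => Dvd.dvd.mul_left (Finset.gcd_dvd (Finset.mem_univ i)) _
  have h2 := Finset.normalize_gcd (s := Finset.univ) (f := w)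
  rw [← h2]
  exact normalize_eq_one.2 (isUnit_of_dvd_one h1)

theorem height_eq {w : Fin 5 × Fin 5 → ℤ} (hw : Unimod w) {p : PP} (h : RR w p) :
    p.mulHeight = nz w := by
  obtain ⟨c, hc, he⟩ := h
  have h1 : p.mulHeight = Height.mulHeight (cw w) := by
    have e : p.mulHeight = Height.mulHeight p.rep := by
      conv_lhs => rw [← p.mk_rep]
      exact Projectivization.mulHeight_mk _
    rw [e, he, Height.mulHeight_smul_eq_mulHeight _ hc]
  rw [h1]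
  have h2 := Rat.mulHeight_eq_max_abs_of_gcd_eq_one (gcd_unimod hw)
  have h3 : (cw w) = (((↑) : ℤ → ℚ) ∘ w) := rfl
  rw [h3, h2]
  apply le_antisymm
  · obtain ⟨i, hi⟩ := exists_eq_ciSup_of_finite (f := fun i => |w i|)
    rw [← hi, Int.cast_abs]
    exact le_nz w i
  · obtain ⟨i, hi⟩ := exists_nz w
    rw [hi, ← Int.cast_abs]
    exact_mod_cast le_ciSup (f := fun i => |w i|) (Set.finite_range _).bddAbove i

theorem R6 {w : Fin 5 × Fin 5 → ℤ} (hw : w ∈ VV) {p : PP} (h : RR w p) (S : Finset Nat.Primes)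
    {ψ : (Fin 5 × Fin 5 → ℝ) → ℝ} {φ : ∀ p : Nat.Primes, (Fin 5 × Fin 5 → ℚ_[p]) → ℝ}
    (hψ : Fac ℝ ψ) (hφ : ∀ p ∈ S, Fac ℚ_[p] (φ p)) :
    ht S ψ φ p = hgt ψ (fun w => ∏ r ∈ S, φ r (pv r w)) w := by
  obtain ⟨c, hc, he⟩ := id h
  rw [ht, hgt, height_eq hw.1 h, mul_assoc]
  congr 1
  congr 1
  · have h1 : (fun q => ((p.rep q : ℚ) : ℝ)) = (c : ℝ) • rv w := by
      funext q
      rw [he]
      simp [cw, rv]
    rw [h1]
    exact hψ.inv _ (by exact_mod_cast hc) _ (rv_cone hw)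
  · refine Finset.prod_congr rfl fun r hr => ?_
    have h1 : (fun q => ((p.rep q : ℚ) : ℚ_[r])) = (c : ℚ_[r]) • pv r w := by
      funext q
      rw [he]
      simp [cw, pv]
    rw [h1]
    exact (hφ r hr).inv _ (by exact_mod_cast hc) _ (pv_cone r hw)

theorem main (S : Finset Nat.Primes) (ψ : (Fin 5 × Fin 5 → ℝ) → ℝ)
    (φ : ∀ p : Nat.Primes, (Fin 5 × Fin 5 → ℚ_[p]) → ℝ) (hψ : Fac ℝ ψ)
    (hφ : ∀ p ∈ S, Fac ℚ_[p] (φ p)) :
    ∃ c : ℝ, 0 < c ∧ Tendsto (fun B : ℝ => ((bdd S ψ φ B).ncard : ℝ) / B) atTop (𝓝 c) := by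
  classical
  obtain ⟨a, b, θ, ha, hθI, hΘ, hθ, hadm⟩ := finite_part S φ hφ
  obtain ⟨a', b', ha', hψb⟩ := hψ.bounds
  set Θ : (Fin 5 × Fin 5 → ℤ) → ℝ := fun w => ∏ r ∈ S, φ r (pv r w) with hΘd
  obtain ⟨L, hL, hlim⟩ := sharp (b' := b') hψ ha ha' hψb (Θ := Θ) (θ := θ) hΘ
    (fun w hw x _ hx hm => hθ w hw x hx hm) (P := S.image fun p : Nat.Primes => (p : ℕ)) (by
      intro p hp
      obtain ⟨q, -, rfl⟩ := Finset.mem_image.1 hp
      exact q.2) hadm hθI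
  -- two vectors for every point
  have hcard : ∀ B : ℝ, 0 ≤ B → (NN ψ Θ B).ncard = 2 * (bdd S ψ φ B).ncard := by
    intro B hB
    have hfin : (NN ψ Θ B).Finite := by
      have := NN_fin ha ha' hψb hΘ (Real.sqrt_nonneg B)
      rwa [Real.sq_sqrt hB] at this
    have hex : ∀ p : PP, ∃ w : Fin 5 × Fin 5 → ℤ, Pt p → w ∈ VV ∧ RR w p := by
      intro p
      by_cases hp : Pt p
      · obtain ⟨w, h1, h2⟩ := R1 hp
        exact ⟨w, fun _ => ⟨h1, h2⟩⟩
      · exact ⟨0, fun h => absurd h hp⟩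
    choose g hg using hex
    have hgN : ∀ p ∈ bdd S ψ φ B, g p ∈ NN ψ Θ B := by
      rintro p ⟨⟨h1, h2⟩, h3⟩
      obtain ⟨g1, g2⟩ := hg p h1
      refine ⟨g1, ?_, ?_⟩
      · by_contra hc
        exact h2 ((R5 g1 g2).2 hc)
      · rwa [← R6 g1 g2 S hψ hφ]
    have hneg : ∀ w ∈ VV, ∀ p, RR w p → RR (-w) p := by
      rintro w - p ⟨c, hc, he⟩
      refine ⟨-c, neg_ne_zero.2 hc, ?_⟩
      rw [he]
      funext q
      simp [cw]
    have hNneg : ∀ w ∈ NN ψ Θ B, -w ∈ NN ψ Θ B := by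
      rintro w ⟨h1, h2, h3⟩
      obtain ⟨p, hp, -⟩ := R4 h1
      have h4 := VV_neg h1
      have h5 := hneg w h1 p hp
      refine ⟨h4, ?_, ?_⟩
      · by_contra hc
        exact (R5 h1 hp).1 ((R5 h4 h5).2 hc) h2
      · rw [← R6 h4 h5 S hψ hφ, R6 h1 hp S hψ hφ]
        exact h3
    have hbN : ∀ w ∈ NN ψ Θ B, ∀ p, RR w p → Pt p → p ∈ bdd S ψ φ B := by
      rintro w ⟨h1, h2, h3⟩ p hp hpt
      refine ⟨⟨hpt, fun hc => (R5 h1 hp).1 hc h2⟩, ?_⟩
      rw [R6 h1 hp S hψ hφ]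
      exact h3
    have hU : NN ψ Θ B = g '' bdd S ψ φ B ∪ (fun p => -g p) '' bdd S ψ φ B := by
      ext w
      constructor
      · intro hw
        obtain ⟨p, hp, hpt⟩ := R4 hw.1
        have hpb := hbN w hw p hp hpt
        obtain ⟨g1, g2⟩ := hg p hpt
        rcases R3 g1 hw.1 g2 hp with h | h
        · exact Or.inl ⟨p, hpb, h.symm⟩
        · exact Or.inr ⟨p, hpb, h.symm⟩
      · rintro (⟨p, hp, rfl⟩ | ⟨p, hp, rfl⟩)
        · exact hgN p hp
        · exact hNneg _ (hgN p hp)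
    have hinj : Set.InjOn g (bdd S ψ φ B) := by
      intro p hp p' hp' he
      have h1 := (hg p hp.1.1).2
      have h2 := (hg p' hp'.1.1).2
      rw [← he] at h2
      exact R2 h1 h2
    have hinj2 : Set.InjOn (fun p => -g p) (bdd S ψ φ B) := fun p hp p' hp' he =>
      hinj hp hp' (neg_injective he)
    have hdis : Disjoint (g '' bdd S ψ φ B) ((fun p => -g p) '' bdd S ψ φ B) := by
      rw [Set.disjoint_left]
      rintro _ ⟨p, hp, rfl⟩ ⟨p', hp', he⟩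
      simp only at he
      have h1 := (hg p hp.1.1).2
      have h2 := hneg _ (hg p' hp'.1.1).1 _ (hg p' hp'.1.1).2
      rw [he] at h2
      have h3 := R2 h1 h2
      rw [← h3] at he
      have h4 : g p = 0 := by
        funext q
        have := congrFun he q
        simp only [Pi.neg_apply, Pi.zero_apply] at this ⊢
        omega
      exact VV_ne (hg p hp.1.1).1 h4
    have hf1 : (g '' bdd S ψ φ B).Finite := hfin.subset (by rw [hU]; exact Set.subset_union_left)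
    have hf2 : ((fun p => -g p) '' bdd S ψ φ B).Finite :=
      hfin.subset (by rw [hU]; exact Set.subset_union_right)
    rw [hU, Set.ncard_union_eq hdis hf1 hf2, Set.ncard_image_of_injOn hinj,
      Set.ncard_image_of_injOn hinj2, two_mul]
  refine ⟨L / 2, by positivity, ?_⟩
  have h1 := (hlim.comp Real.tendsto_sqrt_atTop).div_const 2
  refine h1.congr' ?_
  filter_upwards [eventually_gt_atTop 0] with B hB
  simp only [Function.comp]
  rw [Real.sq_sqrt hB.le, hcard B hB.le]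
  push_cast
  field_simp

end Pool.Agent.KS6_53.V5
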