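import Pool.Agent.KS6_53.V5.Defs

set_option autoImplicit false

namespace Pool.Agent.KS6_53.V5

open Finset

section

variable {R : Type*} [CommRing R]

theorem iso_hes (x : Fin 5 → R) : Iso x (hes x) := by
  refine ⟨?_, ?_, ?_⟩ <;> simp [b0, b1, b2, hes] <;> ring

theorem iso_smul_left (a : R) {x y : Fin 5 → R} (h : Iso x y) : Iso (a • x) y := by
  obtain ⟨h0, h1, h2⟩ := h
  simp only [b0, b1, b2] at h0 h1 h2
  refine ⟨?_, ?_, ?_⟩ <;> simp only [b0, b1, b2, Pi.smul_apply, smul_eq_mul]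
  · linear_combination a * h0
  · linear_combination a * h1
  · linear_combination a * h2

theorem iso_comm {x y : Fin 5 → R} (h : Iso x y) : Iso y x := by
  obtain ⟨h0, h1, h2⟩ := h
  simp only [b0, b1, b2] at h0 h1 h2
  refine ⟨?_, ?_, ?_⟩ <;> simp only [b0, b1, b2]
  · linear_combination -h0
  · linear_combination -h1
  · linear_combination -h2

theorem iso_self (x : Fin 5 → R) : Iso x x := by
  refine ⟨?_, ?_, ?_⟩ <;> simp [b0, b1, b2] <;> ring

theorem iso_comb (a b c d : R) {x y : Fin 5 → R} (h : Iso x y) :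
    Iso (a • x + b • y) (c • x + d • y) := by
  obtain ⟨h0, h1, h2⟩ := h
  simp only [b0, b1, b2] at h0 h1 h2
  refine ⟨?_, ?_, ?_⟩ <;> simp only [b0, b1, b2, Pi.smul_apply, Pi.add_apply, smul_eq_mul]
  · linear_combination (a * d - b * c) * h0
  · linear_combination (a * d - b * c) * h1
  · linear_combination (a * d - b * c) * h2

theorem wedge_comb (a b c d : R) (x y : Fin 5 → R) :
    wedge (a • x + b • y) (c • x + d • y) = (a * d - b * c) • wedge x y := by
  funext p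
  simp only [wedge, Pi.smul_apply, Pi.add_apply, smul_eq_mul]
  ring

theorem wedge_smul (a b : R) (x y : Fin 5 → R) : wedge (a • x) (b • y) = (a * b) • wedge x y := by
  funext p
  simp only [wedge, Pi.smul_apply, smul_eq_mul]
  ring

theorem wedge_self (x : Fin 5 → R) : wedge x x = 0 := by
  funext p
  simp only [wedge, Pi.zero_apply]
  ring

theorem wedge_comm (x y : Fin 5 → R) : wedge y x = -wedge x y := by
  funext p
  simp only [wedge, Pi.neg_apply]
  ring

theorem hes_smul (a : R) (x : Fin 5 → R) : hes (a • x) = a ^ 2 • hes x := by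
  funext i
  fin_cases i <;> simp [hes] <;> ring

theorem mm_smul (a : R) (x : Fin 5 → R) : mm (a • x) = a ^ 3 • mm x := by
  rw [mm, hes_smul, wedge_smul, mm]
  congr 1
  ring

theorem mm_zero : mm (0 : Fin 5 → R) = 0 := by
  have := mm_smul (0 : R) (0 : Fin 5 → R)
  simpa using this

theorem pf_smul (a : R) (l : Fin 3 → R) : pf (a • l) = a ^ 2 • pf l := by
  funext i
  fin_cases i <;> simp [pf] <;> ring

theorem ml_pf (l : Fin 3 → R) : ml l (pf l) = 0 := by
  funext i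
  fin_cases i <;> simp [ml, pf] <;> ring

theorem mm_pf (l : Fin 3 → R) : mm (pf l) = 0 := by
  have h : hes (pf l) = (-(l 1) ^ 2) • pf l := by
    funext i
    fin_cases i <;> simp [pf, hes] <;> ring
  rw [mm, h]
  funext p
  simp only [wedge, Pi.smul_apply, smul_eq_mul, Pi.zero_apply]
  ring

/-- the bilinear expression with `wedge (pf l) x = LL l (ml l x)` -/
def LL (l : Fin 3 → R) (z : Fin 5 → R) : Fin 5 × Fin 5 → R := fun p =>
  (![![0, l 2 * z 4, -l 1 * z 4 + l 2 * z 3, l 0 * z 4 - l 2 * z 2,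
        -l 0 * z 3 + l 1 * z 2 - l 2 * z 1],
    ![-(l 2 * z 4), 0, l 0 * z 4 - l 1 * z 3, l 1 * z 2, -l 0 * z 2 + l 2 * z 0],
    ![-(-l 1 * z 4 + l 2 * z 3), -(l 0 * z 4 - l 1 * z 3), 0, -l 1 * z 1 + l 2 * z 0,
        l 0 * z 1 - l 1 * z 0],
    ![-(l 0 * z 4 - l 2 * z 2), -(l 1 * z 2), -(-l 1 * z 1 + l 2 * z 0), 0, l 0 * z 0],
    ![-(-l 0 * z 3 + l 1 * z 2 - l 2 * z 1), -(-l 0 * z 2 + l 2 * z 0),
        -(l 0 * z 1 - l 1 * z 0), -(l 0 * z 0), 0]] : Fin 5 → Fin 5 → R) p.1 p.2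

theorem wedge_pf (l : Fin 3 → R) (x : Fin 5 → R) : wedge (pf l) x = LL l (ml l x) := by
  funext ⟨i, j⟩
  fin_cases i <;> fin_cases j <;> simp [wedge, LL, ml, pf] <;> ring

theorem LL_zero (l : Fin 3 → R) : LL l 0 = 0 := by
  funext ⟨i, j⟩
  fin_cases i <;> fin_cases j <;> simp [LL]

/-- the coefficient vectors of `ml · x` -/
def av (x : Fin 5 → R) : Fin 5 → Fin 3 → R :=
  ![![-x 3, -x 4, 0], ![-x 2, -x 3, -x 4], ![x 1, 0, -x 3], ![x 0, x 1, x 2], ![0, x 0, x 1]]

theorem ml_eq (l : Fin 3 → R) (x : Fin 5 → R) (i : Fin 5) : ml l x i = ∑ j, l j * av x i j := by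
  fin_cases i <;> simp [ml, av, Fin.sum_univ_three] <;> ring

def cross (a b : Fin 3 → R) : Fin 3 → R :=
  ![a 1 * b 2 - a 2 * b 1, a 2 * b 0 - a 0 * b 2, a 0 * b 1 - a 1 * b 0]

/-- cross products of the coefficient vectors -/
def mu (x : Fin 5 → R) (p : Fin 5 × Fin 5) : Fin 3 → R := cross (av x p.1) (av x p.2)

end

end Pool.Agent.KS6_53.V5
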