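import Pool.Agent.KS6_53.V5.Alg

set_option autoImplicit false

namespace Pool.Agent.KS6_53.V5

open Finset

section

variable {R : Type*} [CommRing R]

/-- which minor -/
def qq (p : Fin 5 × Fin 5) (i : Fin 5) : Fin 5 × Fin 5 :=
  (![![![(0, 0), (0, 0), (0, 0), (0, 0), (0, 0)], ![(0, 0), (0, 0), (3, 4), (4, 2), (2, 3)], ![(0, 0), (4, 3), (0, 0), (1, 4), (3, 1)], ![(0, 0), (2, 4), (4, 1), (0, 0), (1, 2)], ![(0, 0), (3, 2), (1, 3), (2, 1), (0, 0)]],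
  ![![(0, 0), (0, 0), (4, 3), (2, 4), (3, 2)], ![(0, 0), (0, 0), (0, 0), (0, 0), (0, 0)], ![(3, 4), (0, 0), (0, 0), (4, 0), (0, 3)], ![(4, 2), (0, 0), (0, 4), (0, 0), (2, 0)], ![(2, 3), (0, 0), (3, 0), (0, 2), (0, 0)]],
  ![![(0, 0), (3, 4), (0, 0), (4, 1), (1, 3)], ![(4, 3), (0, 0), (0, 0), (0, 4), (3, 0)], ![(0, 0), (0, 0), (0, 0), (0, 0), (0, 0)], ![(1, 4), (4, 0), (0, 0), (0, 0), (0, 1)], ![(3, 1), (0, 3), (0, 0), (1, 0), (0, 0)]],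
  ![![(0, 0), (4, 2), (1, 4), (0, 0), (2, 1)], ![(2, 4), (0, 0), (4, 0), (0, 0), (0, 2)], ![(4, 1), (0, 4), (0, 0), (0, 0), (1, 0)], ![(0, 0), (0, 0), (0, 0), (0, 0), (0, 0)], ![(1, 2), (2, 0), (0, 1), (0, 0), (0, 0)]],
  ![![(0, 0), (2, 3), (3, 1), (1, 2), (0, 0)], ![(3, 2), (0, 0), (0, 3), (2, 0), (0, 0)], ![(1, 3), (3, 0), (0, 0), (0, 1), (0, 0)], ![(2, 1), (0, 2), (1, 0), (0, 0), (0, 0)], ![(0, 0), (0, 0), (0, 0), (0, 0), (0, 0)]]] : Fin 5 → Fin 5 → Fin 5 → Fin 5 × Fin 5) p.1 p.2 i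

set_option maxHeartbeats 8000000 in
theorem ml_mu (x : Fin 5 → R) (p : Fin 5 × Fin 5) (i : Fin 5) :
    ml (mu x p) x i = mm x (qq p i) := by
  obtain ⟨j, k⟩ := p
  fin_cases j <;> fin_cases k <;> fin_cases i <;>
    simp [ml, mu, mm, wedge, hes, cross, av, qq] <;> ring

theorem sq0 (x : Fin 5 → R) : x 0 ^ 2 = mu x (3, 4) 2 := by simp [mu, cross, av]; ring
theorem sq1 (x : Fin 5 → R) : x 1 ^ 2 = mu x (2, 3) 2 := by simp [mu, cross, av]; ring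
theorem sq2 (x : Fin 5 → R) : x 2 ^ 2 = mu x (0, 3) 2 + mu x (0, 4) 1 + mu x (1, 3) 1 := by
  simp [mu, cross, av]; ring
theorem sq3 (x : Fin 5 → R) : x 3 ^ 2 = -mu x (0, 2) 1 := by simp [mu, cross, av]; ring
theorem sq4 (x : Fin 5 → R) : x 4 ^ 2 = mu x (0, 1) 0 := by simp [mu, cross, av]; ring

/-- unimodularity of `mu` -/
theorem mu_unimod {x : Fin 5 → R} (h : Unimod x) :
    ∃ e : Fin 5 × Fin 5 → Fin 3 → R, ∑ p, ∑ i, e p i * mu x p i = 1 := by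
  obtain ⟨a, ha⟩ := h
  rw [Fin.sum_univ_five] at ha
  refine ⟨fun p i =>
    if p = (3, 4) ∧ i = 2 then a 0 ^ 2
    else if p = (2, 4) ∧ i = 2 then 2 * a 0 * a 1
    else if p = (1, 4) ∧ i = 2 then -(2 * a 0 * a 2)
    else if p = (0, 4) ∧ i = 2 then -(2 * a 0 * a 3) - 2 * a 1 * a 2
    else if p = (0, 3) ∧ i = 2 then 2 * a 0 * a 4 + a 2 ^ 2
    else if p = (0, 4) ∧ i = 1 then 2 * a 0 * a 4 + 2 * a 1 * a 3 + a 2 ^ 2
    else if p = (2, 3) ∧ i = 2 then a 1 ^ 2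
    else if p = (1, 3) ∧ i = 2 then -(2 * a 1 * a 2)
    else if p = (0, 2) ∧ i = 2 then 2 * a 1 * a 4
    else if p = (1, 3) ∧ i = 1 then a 2 ^ 2
    else if p = (0, 3) ∧ i = 1 then 2 * a 2 * a 3
    else if p = (0, 1) ∧ i = 2 then -(2 * a 2 * a 4)
    else if p = (0, 2) ∧ i = 1 then -(2 * a 2 * a 4) - a 3 ^ 2
    else if p = (0, 1) ∧ i = 1 then -(2 * a 3 * a 4)
    else if p = (0, 1) ∧ i = 0 then a 4 ^ 2
    else 0, ?_⟩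
  rw [Fintype.sum_prod_type]
  simp only [Fin.sum_univ_five, Fin.sum_univ_three, Prod.mk.injEq, mu, cross, av]
  simp
  linear_combination (a 0 * x 0 + a 1 * x 1 + a 2 * x 2 + a 3 * x 3 + a 4 * x 4 + 1) * ha

end

end Pool.Agent.KS6_53.V5
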