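import Pool.Agent.KS6_53.V5.Pln

set_option autoImplicit false

namespace Pool.Agent.KS6_53.V5

open Finset MeasureTheory

theorem area_eq (χ : (Fin 5 → ℝ) → ℝ) (p q : Fin 5 → ℝ) :
    area χ p q = ∫ u : Fin 2 → ℝ, χ (u 0 • p + u 1 • q) := by
  have := (volume_preserving_finTwoArrow ℝ).integral_comp'
    (g := fun z : ℝ × ℝ => χ (z.1 • p + z.2 • q))
  rw [area, ← this]
  rfl

theorem area_comb {χ : (Fin 5 → ℝ) → ℝ} (hχ : Continuous χ) (p q : Fin 5 → ℝ) (a b c d : ℝ)
    (h : |a * d - b * c| = 1) : area χ (a • p + b • q) (c • p + d • q) = area χ p q := by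
  set M : Matrix (Fin 2) (Fin 2) ℝ := !![a, c; b, d] with hM
  have hdet : M.det = a * d - b * c := by
    rw [hM, Matrix.det_fin_two_of]
    ring
  have hdet0 : M.det ≠ 0 := by
    rw [hdet]
    intro h0
    rw [h0, abs_zero] at h
    exact zero_ne_one h
  have hmap : Measure.map (Matrix.toLin' M) (volume : Measure (Fin 2 → ℝ)) = volume := by
    rw [Real.map_matrix_volume_pi_eq_smul_volume_pi hdet0, abs_inv, hdet, h]
    simp
  set g : (Fin 2 → ℝ) → ℝ := fun u => χ (u 0 • p + u 1 • q) with hg
  have hgc : Continuous g := hχ.comp (by fun_prop)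
  rw [area_eq, area_eq]
  have hmeas : AEMeasurable (Matrix.toLin' M) (volume : Measure (Fin 2 → ℝ)) :=
    (LinearMap.continuous_of_finiteDimensional _).aemeasurable
  have h1 : ∫ u, g u = ∫ u, g (Matrix.toLin' M u) := by
    conv_lhs => rw [← hmap]
    exact integral_map hmeas hgc.aestronglyMeasurable
  have h2 : ∀ u : Fin 2 → ℝ, g (Matrix.toLin' M u) =
      χ (u 0 • (a • p + b • q) + u 1 • (c • p + d • q)) := by
    intro u
    simp only [hg, hM, Matrix.toLin'_apply, Matrix.mulVec, dotProduct, Fin.sum_univ_two,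
      Matrix.of_apply, Matrix.cons_val', Matrix.cons_val_zero, Matrix.cons_val_one,
      Matrix.cons_val_fin_one]
    congr 1
    funext i
    simp only [Pi.add_apply, Pi.smul_apply, smul_eq_mul]
    ring
  rw [← integral_congr_ae (Filter.Eventually.of_forall h2), ← h1]

theorem unimod_of_ne {F ι : Type*} [Field F] [Fintype ι] {x : ι → F} (h : x ≠ 0) : Unimod x := by
  classical
  obtain ⟨i, hi⟩ := Function.ne_iff.1 h
  refine ⟨Pi.single i (x i)⁻¹, ?_⟩
  rw [Finset.sum_eq_single i]
  · simp [inv_mul_cancel₀ hi]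
  · intro j _ hj
    simp [Pi.single_eq_of_ne hj]
  · simp

theorem area_congr {χ : (Fin 5 → ℝ) → ℝ} (hχ : Continuous χ) {p q p' q' : Fin 5 → ℝ}
    (hne : wedge p q ≠ 0) (h : wedge p' q' = wedge p q ∨ wedge p' q' = -wedge p q) :
    area χ p' q' = area χ p q := by
  have hu := unimod_of_ne hne
  have hin : ∀ z, In (wedge p' q') z → In (wedge p q) z := by
    intro z hz
    rcases h with h | h
    · rwa [h] at hz
    · rw [h] at hz
      intro i j k
      have := hz i j k
      simp only [Pi.neg_apply] at this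
      linear_combination -this
  obtain ⟨a, b, hab⟩ := (in_wedge_iff hu).1 (hin p' (by
    intro i j k
    simp only [wedge]
    ring))
  obtain ⟨c, d, hcd⟩ := (in_wedge_iff hu).1 (hin q' (by
    intro i j k
    simp only [wedge]
    ring))
  rw [hab, hcd]
  refine area_comb hχ p q a b c d ?_
  rw [hab, hcd, wedge_comb] at h
  obtain ⟨i, hi⟩ := Function.ne_iff.1 hne
  rw [Pi.zero_apply] at hi
  rcases h with h | h
  · have := congrFun h i
    rw [Pi.smul_apply, smul_eq_mul] at this
    have h1 : a * d - b * c = 1 := mul_right_cancel₀ hi (by rw [this, one_mul])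
    rw [h1, abs_one]
  · have := congrFun h i
    rw [Pi.smul_apply, smul_eq_mul, Pi.neg_apply] at this
    have h1 : a * d - b * c = -1 := mul_right_cancel₀ hi (by rw [this]; ring)
    rw [h1, abs_neg, abs_one]

end Pool.Agent.KS6_53.V5
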