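import Pool.Agent.KS6_53.V5.Bl9

set_option autoImplicit false

namespace Pool.Agent.KS6_53.V5

open Finset Filter Topology MeasureTheory

theorem adm_one : Adm ∅ fun _ => (1 : ℝ) := fun k ε hε => ⟨1, one_pos, fun x x' _ _ _ _ => by
  simp only [sub_self, abs_zero]
  exact hε.le⟩

theorem compare {F F' : (Fin 5 → ℝ) × ℝ → ℝ} (hF : Tst fun z => F (z.1, z.2.1))
    (hF' : Tst fun z => F' (z.1, z.2.1)) {L L' : ℝ}
    (hL : Tendsto (fun T => BS (fun z => F (z.1, z.2.1)) (fun _ => 1) T / T ^ 2) atTop (𝓝 L))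
    (hL' : Tendsto (fun T => BS (fun z => F' (z.1, z.2.1)) (fun _ => 1) T / T ^ 2) atTop (𝓝 L')) :
    L * II F' = L' * II F := by
  have key : ∀ ε : ℝ, 0 < ε → |L * II F' - L' * II F| ≤ ε * (|II F| + |II F'|) := by
    intro ε hε
    have m1 : ∀ x : Fin 5 → ℤ, (1 : ℝ) ∈ Set.Icc (1 : ℝ) 1 := fun _ => ⟨le_rfl, le_rfl⟩
    obtain ⟨Y1, h1⟩ := approx ∅ (by simp) (fun _ => (1 : ℝ)) adm_one 1 1 m1 hF ε hε
    obtain ⟨Y2, h2⟩ := approx ∅ (by simp) (fun _ => (1 : ℝ)) adm_one 1 1 m1 hF' ε hε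
    obtain ⟨k1, h3⟩ := h1 (max Y1 Y2) (le_max_left _ _)
    obtain ⟨k2, h4⟩ := h2 (max Y1 Y2) (le_max_right _ _)
    obtain ⟨v1, -, h5⟩ := h3 (max k1 k2) (le_max_left _ _)
    obtain ⟨v2, -, h6⟩ := h4 (max k1 k2) (le_max_right _ _)
    rw [MM_free] at h5 h6
    set κ := kap (max Y1 Y2) (max k1 k2)
    have e1 : |L - κ * II F| ≤ ε := le_of_tendsto (hL.sub_const _).abs h5
    have e2 : |L' - κ * II F'| ≤ ε := le_of_tendsto (hL'.sub_const _).abs h6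
    have e3 : L * II F' - L' * II F = (L - κ * II F) * II F' - (L' - κ * II F') * II F := by ring
    rw [e3]
    refine (abs_sub _ _).trans ?_
    rw [abs_mul, abs_mul]
    have f1 := mul_le_mul_of_nonneg_right e1 (abs_nonneg (II F'))
    have f2 := mul_le_mul_of_nonneg_right e2 (abs_nonneg (II F))
    linarith
  have h0 : |L * II F' - L' * II F| ≤ 0 := by
    refine le_of_forall_pos_le_add fun ε hε => ?_
    have hp : 0 < |II F| + |II F'| + 1 := by positivity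
    have := key (ε / (|II F| + |II F'| + 1)) (by positivity)
    refine this.trans ?_
    rw [zero_add, div_mul_eq_mul_div, div_le_iff₀ hp]
    nlinarith [abs_nonneg (II F), abs_nonneg (II F')]
  exact sub_eq_zero.1 (abs_eq_zero.1 (le_antisymm h0 (abs_nonneg _)))

/-- a nonzero nonnegative test function has a positive limit -/
theorem free_limit {F : (Fin 5 → ℝ) × ℝ → ℝ} (hF : Tst fun z => F (z.1, z.2.1))
    (h0 : ∀ z, 0 ≤ F z) {z : (Fin 5 → ℝ) × ℝ} (hz : 0 < F z) {L : ℝ}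
    (hL : Tendsto (fun T => BS (fun z => F (z.1, z.2.1)) (fun _ => 1) T / T ^ 2) atTop (𝓝 L)) :
    0 < L := by
  obtain ⟨F0, -, hT0, hnn, L0, hL0, hlim⟩ := free_pos
  have h1 := compare hF hT0 hL hlim
  obtain ⟨A, δ, -, -, -, hp⟩ := hF.prof
  obtain ⟨A', δ', -, -, -, hp'⟩ := hT0.prof
  have hpF : Prof F A δ := by
    have := hp 1
    exact this
  have hpF0 : Prof F0 A' δ' := by
    have := hp' 1
    exact this
  have h2 : 0 < II F := II_pos hpF h0 hz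
  have h3 : 0 ≤ II F0 := by
    have := II_abs_nonneg hpF0
    rwa [show (fun z => |F0 z|) = F0 from funext fun z => abs_of_nonneg (hnn z)] at this
  by_contra hc
  push Not at hc
  have h4 : 0 < L0 * II F := by positivity
  rw [← h1] at h4
  exact absurd (mul_nonpos_of_nonpos_of_nonneg hc h3) (not_le.2 h4)

theorem BS_mono {G G' : (Fin 5 → ℝ) × ℝ × ℝ → ℝ} (hG : Tst G) (hG' : Tst G') {θ θ' : (Fin 5 → ℤ) → ℝ}
    (h : ∀ u s x, G' (u, s, θ' x) ≤ G (u, s, θ x)) {T : ℝ} (hT : 0 < T) : BS G' θ' T ≤ BS G θ T := by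
  classical
  obtain ⟨A, δ, hA, hδ, hs, -⟩ := hG.prof
  obtain ⟨A', δ', hA', hδ', hs', -⟩ := hG'.prof
  have hfin : ∀ c : ℝ, {z : (Fin 5 → ℤ) × ℕ | nz z.1 ≤ c ∧ (z.2 : ℝ) ≤ c}.Finite := by
    intro c
    refine ((nz_fin c).prod (Set.finite_Iic ⌊c⌋₊)).subset ?_
    rintro ⟨x, g⟩ ⟨h1, h2⟩
    exact ⟨h1, Nat.le_floor h2⟩
  rw [BS_FG, BS_FG, fs_eq _ _ ((hfin ((A * A + A) * √T)).toFinset ∪
    (hfin ((A' * A' + A') * √T)).toFinset) (fun z _ hz => ?_),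
    fs_eq _ _ ((hfin ((A * A + A) * √T)).toFinset ∪
    (hfin ((A' * A' + A') * √T)).toFinset) (fun z _ hz => ?_)]
  · refine Finset.sum_le_sum fun z _ => ?_
    split_ifs
    · exact h _ _ _
    · exact le_rfl
  · obtain ⟨-, a, -, c⟩ := FG_supp hA hδ hs hT hz
    refine Finset.mem_union_left _ ?_
    rw [Set.Finite.mem_toFinset]
    exact ⟨a, c⟩
  · obtain ⟨-, a, -, c⟩ := FG_supp hA' hδ' hs' hT hz
    refine Finset.mem_union_right _ ?_
    rw [Set.Finite.mem_toFinset]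
    exact ⟨a, c⟩

theorem bl : S_BL := by
  intro P hP θ hθ a b _ hab G hG
  have hab' : a ≤ b := (hab 0).1.trans (hab 0).2
  obtain ⟨L, hL⟩ := BS_lim P hP θ hθ a b hab hG
  refine ⟨L, hL, fun hnn ⟨u, s, hus⟩ => ?_⟩
  set F : (Fin 5 → ℝ) × ℝ → ℝ := fun z => sInf ((fun τ => G (z.1, z.2, τ)) '' Set.Icc a b) with hF
  have hFc : Continuous F := by
    refine IsCompact.continuous_sInf (f := fun (z : (Fin 5 → ℝ) × ℝ) τ => G (z.1, z.2, τ)) isCompact_Icc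
      ?_
    exact hG.cts.comp (by fun_prop)
  have hne : (Set.Icc a b).Nonempty := ⟨a, le_rfl, hab'⟩
  have hFat : ∀ z, ∃ τ ∈ Set.Icc a b, F z = G (z.1, z.2, τ) := by
    intro z
    obtain ⟨τ, hτ, h1⟩ := isCompact_Icc.exists_sInf_image_eq hne
      (f := fun τ => G (z.1, z.2, τ)) (hG.cts.comp (by fun_prop)).continuousOn
    exact ⟨τ, hτ, h1⟩
  have hFle : ∀ z, ∀ τ ∈ Set.Icc a b, F z ≤ G (z.1, z.2, τ) := by
    intro z τ hτ
    refine csInf_le ⟨0, ?_⟩ ⟨τ, hτ, rfl⟩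
    rintro _ ⟨τ', -, rfl⟩
    exact hnn _
  have hF0 : ∀ z, 0 ≤ F z := by
    intro z
    obtain ⟨τ, -, h1⟩ := hFat z
    rw [h1]
    exact hnn _
  have hFT : Tst fun z => F (z.1, z.2.1) := by
    refine ⟨hFc.comp (by fun_prop), ?_⟩
    obtain ⟨δ, A, hδ, hs⟩ := hG.supp
    refine ⟨δ, A, hδ, fun z hz => ?_⟩
    obtain ⟨τ, -, h1⟩ := hFat (z.1, z.2.1)
    simp only at hz h1
    rw [h1] at hz
    exact hs (z.1, z.2.1, τ) hz
  obtain ⟨L', hL'⟩ := BS_lim ∅ (by simp) (fun _ => (1 : ℝ)) adm_one 1 1 (fun _ => ⟨le_rfl, le_rfl⟩) hFT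
  have hpos : 0 < F (u, s) := by
    obtain ⟨τ, hτ, h1⟩ := hFat (u, s)
    rw [h1]
    exact hus τ hτ
  have h1 := free_limit hFT hF0 hpos hL'
  refine lt_of_lt_of_le h1 (le_of_tendsto_of_tendsto hL' hL ?_)
  filter_upwards [eventually_gt_atTop 0] with T hT
  refine div_le_div_of_nonneg_right ?_ (by positivity)
  exact BS_mono hG hFT (fun u s x => hFle _ _ (hab x)) hT

end Pool.Agent.KS6_53.V5
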