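import Pool.Agent.KS6_53.V5.Shell

set_option autoImplicit false
set_option linter.style.haveILetI false

namespace Pool.Agent.KS6_53.V5

open Finset

/-- the product of the primes up to `Y` -/
def pm (Y : ℕ) : ℕ := ∏ p ∈ (Finset.range (Y + 1)).filter Nat.Prime, p

theorem pm_pos (Y : ℕ) : 0 < pm Y :=
  Finset.prod_pos fun p hp => (Finset.mem_filter.1 hp).2.pos

theorem dvd_pm {Y p : ℕ} (hp : p.Prime) (h : p ≤ Y) : p ∣ pm Y :=
  Finset.dvd_prod_of_mem _ (Finset.mem_filter.2 ⟨Finset.mem_range.2 (by omega), hp⟩)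

theorem le_of_dvd_pm {Y p : ℕ} (hp : p.Prime) (h : p ∣ pm Y) : p ≤ Y := by
  rw [pm, Prime.dvd_finset_prod_iff hp.prime] at h
  obtain ⟨q, hq, hpq⟩ := h
  rw [Finset.mem_filter, Finset.mem_range] at hq
  have := (Nat.prime_dvd_prime_iff_eq hp hq.2).1 hpq
  omega

/-- coprime numbers: all the prime factors are large -/
theorem lt_of_coprime_pm {Y n : ℕ} (h : Nat.Coprime n (pm Y)) (h1 : n ≠ 1) (h0 : n ≠ 0) : Y < n := by
  obtain ⟨p, hp, hpn⟩ := Nat.exists_prime_and_dvd h1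
  have h2 : Y < p := by
    by_contra hc
    have := Nat.dvd_gcd hpn (dvd_pm hp (not_lt.1 hc))
    rw [h] at this
    exact hp.one_lt.ne' (Nat.dvd_one.1 this)
  exact h2.trans_le (Nat.le_of_dvd (Nat.pos_of_ne_zero h0) hpn)

theorem coprime_pm_of {Y n : ℕ} (h : ∀ p, p.Prime → p ≤ Y → ¬ p ∣ n) : Nat.Coprime n (pm Y) := by
  refine Nat.coprime_of_dvd fun p hp h1 h2 => ?_
  exact h p hp (le_of_dvd_pm hp h2) h1

/-- the good vectors -/
def Good (Y k : ℕ) (x : Fin 5 → ℤ) : Prop := ∀ p : ℕ, p.Prime → p ≤ Y →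
  (∃ i, ¬ (p : ℤ) ∣ x i) ∧ ¬ p ^ k ∣ gg x

/-- the smooth part of the content -/
def gY (Y k : ℕ) (x : Fin 5 → ℤ) : ℕ := Nat.gcd (gg x) (pm Y ^ k)

theorem gY_pos (Y k : ℕ) (x : Fin 5 → ℤ) : 0 < gY Y k x :=
  Nat.gcd_pos_of_pos_right _ (pow_pos (pm_pos Y) k)

theorem mm_congr {x x' : Fin 5 → ℤ} {Q : ℤ} (h : ∀ i, Q ∣ x i - x' i) (p : Fin 5 × Fin 5) :
    Q ∣ mm x p - mm x' p := by
  have hh : ∀ i, x i ≡ x' i [ZMOD Q] := fun i => (Int.modEq_iff_dvd.2 (by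
    rw [← dvd_neg, neg_sub]; exact h i))
  have e : ∀ i j, x i * x j ≡ x' i * x' j [ZMOD Q] := fun i j => (hh i).mul (hh j)
  have hhes : ∀ i, hes x i ≡ hes x' i [ZMOD Q] := by
    intro i
    have m := fun a b => e a b
    fin_cases i <;> simp only [hes, Fin.zero_eta, Fin.mk_one, Fin.reduceFinMk, Matrix.cons_val,
      pow_two, neg_mul, sub_eq_add_neg]
    · exact (m 1 1).neg
    · exact (m 0 3).neg.add (m 1 2).neg
    · exact ((m 0 4).add (m 1 3).neg).add (m 2 2).neg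
    · exact (m 1 4).neg.add (m 2 3).neg
    · exact (m 3 3).neg
  have h1 : mm x p ≡ mm x' p [ZMOD Q] := by
    simp only [mm, wedge]
    exact ((hh _).mul (hhes _)).sub ((hh _).mul (hhes _))
  have := Int.modEq_iff_dvd.1 h1.symm
  exact this

theorem gY_congr {Y k : ℕ} {x x' : Fin 5 → ℤ} (h : ∀ i, ((pm Y ^ k : ℕ) : ℤ) ∣ x i - x' i) :
    gY Y k x = gY Y k x' := by
  have key : ∀ x x' : Fin 5 → ℤ, (∀ i, ((pm Y ^ k : ℕ) : ℤ) ∣ x i - x' i) → gY Y k x ∣ gY Y k x' := by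
    intro x x' h
    refine Nat.dvd_gcd (dvd_gg fun p => ?_) (Nat.gcd_dvd_right _ _)
    have h1 : ((gY Y k x : ℕ) : ℤ) ∣ mm x p :=
      (Int.natCast_dvd_natCast.2 (Nat.gcd_dvd_left _ _)).trans (gg_dvd x p)
    have h2 : ((gY Y k x : ℕ) : ℤ) ∣ mm x p - mm x' p :=
      (Int.natCast_dvd_natCast.2 (Nat.gcd_dvd_right _ _)).trans (mm_congr h p)
    have := dvd_sub h1 h2
    simpa using this
  refine Nat.dvd_antisymm (key x x' h) (key x' x fun i => ?_)
  rw [← dvd_neg, neg_sub]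
  exact h i

theorem good_congr {Y k : ℕ} (hk : k ≠ 0) {x x' : Fin 5 → ℤ}
    (h : ∀ i, ((pm Y ^ k : ℕ) : ℤ) ∣ x i - x' i) (hx : Good Y k x) : Good Y k x' := by
  intro p hp hpY
  obtain ⟨⟨i, hi⟩, h2⟩ := hx p hp hpY
  have hpQ : p ∣ pm Y ^ k := (dvd_pm hp hpY).trans (dvd_pow_self _ hk)
  refine ⟨⟨i, fun h3 => hi ?_⟩, fun h3 => h2 ?_⟩
  · have h4 := (Int.natCast_dvd_natCast.2 hpQ).trans (h i)
    exact (dvd_iff_dvd_of_dvd_sub h4).2 h3
  · have h4 : p ^ k ∣ pm Y ^ k := pow_dvd_pow_of_dvd (dvd_pm hp hpY) k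
    have h5 : p ^ k ∣ gY Y k x' := Nat.dvd_gcd h3 h4
    rw [← gY_congr h] at h5
    exact h5.trans (Nat.gcd_dvd_left _ _)

/-- the quotient by the smooth part is coprime to the small primes -/
theorem coprime_quot {Y k : ℕ} {x : Fin 5 → ℤ} (hx : Good Y k x) (n : ℕ)
    (hn : gY Y k x * n = gg x) : Nat.Coprime n (pm Y) := by
  refine coprime_pm_of fun p hp hpY hpn => ?_
  obtain ⟨-, h2⟩ := hx p hp hpY
  have hg := gY_pos Y k x
  -- `v_p`
  set v := (gY Y k x).factorization p with hv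
  have h3 : p ^ v ∣ gY Y k x := Nat.ordProj_dvd _ _
  have h4 : p ^ (v + 1) ∣ gg x := by
    rw [← hn, pow_succ]
    exact mul_dvd_mul h3 hpn
  have h5 : v + 1 ≤ k := by
    by_contra hc
    apply h2
    exact (pow_dvd_pow p (by omega)).trans h4
  have h6 : p ^ (v + 1) ∣ pm Y ^ k :=
    (pow_dvd_pow p h5).trans (pow_dvd_pow_of_dvd (dvd_pm hp hpY) k)
  have h7 : p ^ (v + 1) ∣ gY Y k x := Nat.dvd_gcd h4 h6
  have h8 := (hp.pow_dvd_iff_le_factorization hg.ne').1 h7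
  omega

theorem gg_smul (j : ℕ) (x : Fin 5 → ℤ) : gg ((j : ℤ) • x) = j ^ 3 * gg x := by
  rw [gg, mm_smul, gg]
  have : ∀ p, (((j : ℤ) ^ 3 • mm x) p).natAbs = j ^ 3 * (mm x p).natAbs := by
    intro p
    rw [Pi.smul_apply, smul_eq_mul, Int.natAbs_mul, Int.natAbs_pow, Int.natAbs_natCast]
  simp only [this]
  rw [Finset.gcd_mul_left, normalize_eq]

theorem dvd_gg_of_CC {x : Fin 5 → ℤ} {q : ℕ} (h : red q x ∈ CC q) : q ∣ gg x := by
  refine dvd_gg fun p => ?_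
  have h1 : mm (red q x) = red q (mm x) := by
    have h : hes (red q x) = red q (hes x) := by
      funext i
      fin_cases i <;> simp [red, hes]
    rw [mm, h, mm]
    funext p
    simp [wedge, red]
  have h2 := congrFun (h1.symm.trans h.2) p
  rw [red, Pi.zero_apply, ZMod.intCast_zmod_eq_zero_iff_dvd] at h2
  exact h2

/-- the admissible pairs -/
def EP (Y k : ℕ) (x : Fin 5 → ℤ) (q : ℕ) : Prop :=
  Good Y k x ∧ 1 ≤ q ∧ Nat.Coprime q (pm Y) ∧ red q x ∈ CC q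

theorem EP_gY_coprime {Y k : ℕ} {x : Fin 5 → ℤ} {q : ℕ} (h : EP Y k x q) :
    Nat.Coprime (gY Y k x) q := by
  have h1 : Nat.Coprime (pm Y ^ k) q := (Nat.Coprime.pow_left k h.2.2.1.symm)
  exact Nat.Coprime.coprime_dvd_left (Nat.gcd_dvd_right _ _) h1

/-- structure of the pairs -/
theorem pair1 {Y k : ℕ} {x x' : Fin 5 → ℤ} {q j : ℕ} (h : EP Y k x q) (hm : mm x ≠ 0) (hj : 1 ≤ j)
    (hx' : Unimod x') (hx : x = (j : ℤ) • x') :
    gY Y k x * q ∣ gg x' ∧ (j = 1 ∨ Y < j) ∧ (gg x' = gY Y k x * q ∨ Y * (gY Y k x * q) < gg x') := by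
  obtain ⟨hgood, hq, hcop, hCC⟩ := id h
  have hjY : Nat.Coprime j (pm Y) := by
    refine coprime_pm_of fun p hp hpY hpj => ?_
    obtain ⟨⟨i, hi⟩, -⟩ := hgood p hp hpY
    apply hi
    rw [hx, Pi.smul_apply, smul_eq_mul]
    exact Dvd.dvd.mul_right (Int.natCast_dvd_natCast.2 hpj) _
  have hjq : Nat.Coprime j q := by
    refine Nat.coprime_of_dvd fun p hp h1 h2 => ?_
    obtain ⟨i, hi⟩ := (red_unimod_iff x).1 hCC.1 p hp h2
    apply hi
    rw [hx, Pi.smul_apply, smul_eq_mul]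
    exact Dvd.dvd.mul_right (Int.natCast_dvd_natCast.2 h1) _
  have hggx : gg x = j ^ 3 * gg x' := by rw [hx, gg_smul]
  have hmx' : mm x' ≠ 0 := by
    intro h0
    apply hm
    rw [hx, mm_smul, h0, smul_zero]
  have hgx' := gg_pos hmx'
  have hγ : gY Y k x = Nat.gcd (gg x') (pm Y ^ k) := by
    rw [gY, hggx]
    exact Nat.Coprime.gcd_mul_left_cancel _ (Nat.Coprime.pow 3 k hjY)
  have hγd : gY Y k x ∣ gg x' := by
    rw [hγ]
    exact Nat.gcd_dvd_left _ _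
  have hqd : q ∣ gg x' := by
    have h1 := dvd_gg_of_CC hCC
    rw [hggx] at h1
    exact (Nat.Coprime.dvd_of_dvd_mul_left (Nat.Coprime.pow_right 3 hjq.symm) h1)
  have hcop2 := EP_gY_coprime h
  have hd : gY Y k x * q ∣ gg x' := Nat.Coprime.mul_dvd_of_dvd_of_dvd hcop2 hγd hqd
  refine ⟨hd, ?_, ?_⟩
  · by_cases h1 : j = 1
    · exact Or.inl h1
    · exact Or.inr (lt_of_coprime_pm hjY h1 (by omega))
  · obtain ⟨n, hn⟩ := hd
    have hγpos := gY_pos Y k x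
    have hn0 : n ≠ 0 := by
      rintro rfl
      rw [mul_zero] at hn
      omega
    have hncop : Nat.Coprime n (pm Y) := by
      have h1 : Nat.Coprime (q * n * j ^ 3) (pm Y) := coprime_quot hgood _ (by
        rw [hggx, hn]
        ring)
      exact Nat.Coprime.coprime_dvd_left ⟨q * j ^ 3, by ring⟩ h1
    by_cases h1 : n = 1
    · left
      rw [hn, h1, mul_one]
    · right
      have h2 := lt_of_coprime_pm hncop h1 hn0
      rw [hn, mul_comm Y]
      exact Nat.mul_lt_mul_of_pos_left h2 (Nat.mul_pos hγpos hq)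

theorem pair2 {Y k : ℕ} {x : Fin 5 → ℤ} (hx : Unimod x) (hm : mm x ≠ 0) (hg : Good Y k x) :
    ∃ q, EP Y k x q ∧ gY Y k x * q = gg x := by
  obtain ⟨q, hq⟩ : gY Y k x ∣ gg x := Nat.gcd_dvd_left _ _
  have hgx := gg_pos hm
  refine ⟨q, ⟨hg, ?_, coprime_quot hg q hq.symm, red_mem_CC hx ⟨gY Y k x, by rw [hq]; ring⟩⟩, hq.symm⟩
  rcases Nat.eq_zero_or_pos q with h0 | h0
  · rw [h0, mul_zero] at hq
    omega
  · exact h0

/-- the pairs are on the cone modulo the full content -/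
theorem pair3 {Y k : ℕ} {x : Fin 5 → ℤ} {q : ℕ} (h : EP Y k x q) :
    red (gY Y k x * q) x ∈ CC (gY Y k x * q) := by
  obtain ⟨hgood, hq, hcop, hCC⟩ := id h
  have hd : gY Y k x * q ∣ gg x := Nat.Coprime.mul_dvd_of_dvd_of_dvd (EP_gY_coprime h)
    (Nat.gcd_dvd_left _ _) (dvd_gg_of_CC hCC)
  have hu : Unimod (red (gY Y k x * q) x) := by
    rw [red_unimod_iff]
    intro p hp hpd
    rcases (Nat.Prime.dvd_mul hp).1 hpd with h1 | h1
    · have h2 : p ∣ pm Y ^ k := h1.trans (Nat.gcd_dvd_right _ _)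
      exact (hgood p hp (le_of_dvd_pm hp (hp.dvd_of_dvd_pow h2))).1
    · exact (red_unimod_iff x).1 hCC.1 p hp h1
  refine ⟨hu, ?_⟩
  have h1 : mm (red (gY Y k x * q) x) = red (gY Y k x * q) (mm x) := by
    have h : hes (red (gY Y k x * q) x) = red (gY Y k x * q) (hes x) := by
      funext i
      fin_cases i <;> simp [red, hes]
    rw [mm, h, mm]
    funext p
    simp [wedge, red]
  rw [h1]
  funext p
  rw [red, Pi.zero_apply, ZMod.intCast_zmod_eq_zero_iff_dvd]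
  exact (Int.natCast_dvd_natCast.2 hd).trans (gg_dvd x p)

end Pool.Agent.KS6_53.V5
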