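import Pool.Agent.KS6_53.V5.Cnt

set_option autoImplicit false
set_option linter.style.haveILetI false

namespace Pool.Agent.KS6_53.V5

open Finset

section

variable {ι : Type*} [Fintype ι]

theorem exists_comb_of_no_prime (x : ι → ℤ) (q : ℤ)
    (h : ∀ p : ℕ, p.Prime → (p : ℤ) ∣ q → ∃ i, ¬ (p : ℤ) ∣ x i) :
    ∃ (a : ι → ℤ) (b : ℤ), ∑ i, a i * x i + b * q = 1 := by
  have htop : Ideal.span (Set.range x) ⊔ Ideal.span {q} = ⊤ := by
    set I := Ideal.span (Set.range x) ⊔ Ideal.span {q} with hI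
    obtain ⟨d, hd⟩ := (IsPrincipalIdealRing.principal I).principal
    change I = Ideal.span {d} at hd
    have hdx : ∀ i, d ∣ x i := fun i => by
      rw [← Ideal.mem_span_singleton, ← hd]
      exact Ideal.mem_sup_left (Ideal.subset_span ⟨i, rfl⟩)
    have hdq : d ∣ q := by
      rw [← Ideal.mem_span_singleton, ← hd]
      exact Ideal.mem_sup_right (Ideal.mem_span_singleton_self q)
    by_contra hne
    have hd1 : d.natAbs ≠ 1 := by
      intro hd1
      apply hne
      rw [hd, Ideal.span_singleton_eq_top]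
      exact Int.isUnit_iff_natAbs_eq.2 hd1
    obtain ⟨p, hp, hpd⟩ := Nat.exists_prime_and_dvd hd1
    have hpd' : (p : ℤ) ∣ d := Int.natCast_dvd.2 hpd
    obtain ⟨i, hi⟩ := h p hp (hpd'.trans hdq)
    exact hi (hpd'.trans (hdx i))
  have h1 : (1 : ℤ) ∈ Ideal.span (Set.range x) ⊔ Ideal.span {q} := by rw [htop]; trivial
  obtain ⟨s, hs, t, ht, hst⟩ := Submodule.mem_sup.1 h1
  obtain ⟨a, ha⟩ := (Ideal.mem_span_range_iff_exists_fun).1 hs
  obtain ⟨b, hb⟩ := Ideal.mem_span_singleton'.1 ht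
  exact ⟨a, b, by rw [ha, hb, hst]⟩

theorem unimod_int_iff (x : ι → ℤ) :
    Unimod x ↔ ∀ p : ℕ, p.Prime → ∃ i, ¬ (p : ℤ) ∣ x i := by
  constructor
  · rintro ⟨a, ha⟩ p hp
    by_contra hc
    push Not at hc
    have : (p : ℤ) ∣ 1 := by
      rw [← ha]
      exact Finset.dvd_sum fun i _ => Dvd.dvd.mul_left (hc i) _
    have h2 := Int.natCast_dvd_natCast.1 (by simpa using this : (p : ℤ) ∣ ((1 : ℕ) : ℤ))
    exact hp.one_lt.ne' (Nat.dvd_one.1 h2)
  · intro h
    obtain ⟨a, b, hab⟩ := exists_comb_of_no_prime x 0 fun p hp _ => h p hp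
    exact ⟨a, by simpa using hab⟩

theorem red_unimod_iff {q : ℕ} (x : ι → ℤ) :
    Unimod (red q x) ↔ ∀ p : ℕ, p.Prime → p ∣ q → ∃ i, ¬ (p : ℤ) ∣ x i := by
  constructor
  · rintro ⟨a, ha⟩ p hp hpq
    by_contra hc
    push Not at hc
    have h1 : (ZMod.castHom hpq (ZMod p)) 1 = 0 := by
      rw [← ha, map_sum]
      refine Finset.sum_eq_zero fun i _ => ?_
      rw [map_mul, red, map_intCast, (ZMod.intCast_zmod_eq_zero_iff_dvd _ _).2 (hc i), mul_zero]
    rw [map_one] at h1
    haveI : Fact p.Prime := ⟨hp⟩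
    exact one_ne_zero h1
  · intro h
    obtain ⟨a, b, hab⟩ := exists_comb_of_no_prime x q fun p hp hpq =>
      h p hp (Int.natCast_dvd_natCast.1 hpq)
    refine ⟨fun i => (a i : ZMod q), ?_⟩
    have := congrArg (fun z : ℤ => (z : ZMod q)) hab
    simpa [red] using this

theorem red_unimod {q : ℕ} {x : ι → ℤ} (h : Unimod x) : Unimod (red q x) := by
  obtain ⟨a, ha⟩ := h
  refine ⟨fun i => (a i : ZMod q), ?_⟩
  have := congrArg (fun z : ℤ => (z : ZMod q)) ha
  simpa [red] using this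

end

section

variable {q : ℕ} [NeZero q]

open Classical in
theorem cq_eq : cq q = (univ.filter fun l : Fin 3 → ZMod q => Unimod l).card := by
  have h := sum_param (q := q) (fun _ => 1)
  have h1 : (univ.filter fun x : Fin 5 → ZMod q => x ∈ CC q).card = cq q := by
    rw [cq, Set.ncard_eq_toFinset_card']
    congr 1
    ext x
    simp
  rw [Finset.sum_const, Finset.sum_const, Finset.sum_const, Finset.card_univ,
    ZMod.card_units_eq_totient, h1] at h
  simp only [nsmul_eq_mul, mul_one] at h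
  have h2 : (Nat.totient q : ℂ) ≠ 0 := by
    exact_mod_cast (Nat.totient_pos.2 (NeZero.pos q)).ne'
  have h3 := mul_left_cancel₀ h2 h
  exact_mod_cast h3.symm

theorem cq_le : cq q ≤ q ^ 3 := by
  classical
  rw [cq_eq]
  refine (Finset.card_filter_le _ _).trans ?_
  rw [Finset.card_univ, Fintype.card_fun, ZMod.card, Fintype.card_fin]

theorem cq_ge : (q : ℝ) ^ 3 * (1 - ∑ p ∈ q.primeFactors, 1 / (p : ℝ) ^ 3) ≤ cq q := by
  classical
  rw [cq_eq]
  have hq : 0 < q := NeZero.pos q
  have h1 : (univ.filter fun l : Fin 3 → ZMod q => ¬ Unimod l) ⊆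
      q.primeFactors.biUnion fun p => univ.filter fun l : Fin 3 → ZMod q =>
        ∀ i, (l i).val % p = 0 := by
    intro l hl
    simp only [mem_filter, mem_univ, true_and] at hl
    have e1 : l = red q (fun i => ((l i).val : ℤ)) := by
      funext i
      simp [red]
    rw [e1, red_unimod_iff] at hl
    push Not at hl
    obtain ⟨p, hp, hpq, h⟩ := hl
    simp only [mem_biUnion, mem_filter, mem_univ, true_and]
    refine ⟨p, Nat.mem_primeFactors.2 ⟨hp, hpq, hq.ne'⟩, fun i => ?_⟩
    exact Nat.dvd_iff_mod_eq_zero.1 (Int.natCast_dvd_natCast.1 (h i))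
  have h2 : ∀ p ∈ q.primeFactors, (univ.filter fun l : Fin 3 → ZMod q =>
      ∀ i, (l i).val % p = 0).card ≤ (q / p) ^ 3 := by
    intro p hp
    have hpq := Nat.dvd_of_mem_primeFactors hp
    have hp0 := (Nat.prime_of_mem_primeFactors hp).pos
    have : (q / p) ^ 3 = (univ : Finset (Fin 3 → Fin (q / p))).card := by
      rw [Finset.card_univ, Fintype.card_fun, Fintype.card_fin, Fintype.card_fin]
    rw [this]
    refine Finset.card_le_card_of_injOn (fun l i => ⟨(l i).val / p, ?_⟩) (fun _ _ => mem_univ _) ?_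
    · exact Nat.div_lt_div_of_lt_of_dvd hpq (ZMod.val_lt _)
    · intro l hl l' hl' h
      simp only [coe_filter, mem_univ, true_and, Set.mem_setOf_eq] at hl hl'
      funext i
      have h3 := congrFun h i
      simp only [Fin.mk.injEq] at h3
      apply ZMod.val_injective
      rw [← Nat.div_add_mod (l i).val p, ← Nat.div_add_mod (l' i).val p, h3, hl i, hl' i]
  have h3 : (univ.filter fun l : Fin 3 → ZMod q => Unimod l).card +
      (univ.filter fun l : Fin 3 → ZMod q => ¬ Unimod l).card = q ^ 3 := by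
    rw [Finset.card_filter_add_card_filter_not, Finset.card_univ, Fintype.card_fun, ZMod.card,
      Fintype.card_fin]
  have h4 : ((univ.filter fun l : Fin 3 → ZMod q => ¬ Unimod l).card : ℝ) ≤
      ∑ p ∈ q.primeFactors, (q : ℝ) ^ 3 * (1 / (p : ℝ) ^ 3) := by
    calc ((univ.filter fun l : Fin 3 → ZMod q => ¬ Unimod l).card : ℝ)
        ≤ ((q.primeFactors.biUnion fun p => univ.filter fun l : Fin 3 → ZMod q =>
          ∀ i, (l i).val % p = 0).card : ℝ) := by exact_mod_cast Finset.card_le_card h1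
      _ ≤ ((∑ p ∈ q.primeFactors, (univ.filter fun l : Fin 3 → ZMod q =>
          ∀ i, (l i).val % p = 0).card : ℕ) : ℝ) := by exact_mod_cast Finset.card_biUnion_le
      _ ≤ ((∑ p ∈ q.primeFactors, (q / p) ^ 3 : ℕ) : ℝ) := by
          exact_mod_cast Finset.sum_le_sum h2
      _ = ∑ p ∈ q.primeFactors, (q : ℝ) ^ 3 * (1 / (p : ℝ) ^ 3) := by
          push_cast
          refine Finset.sum_congr rfl fun p hp => ?_
          have hpq := Nat.dvd_of_mem_primeFactors hp
          have hp0 := (Nat.prime_of_mem_primeFactors hp).pos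
          rw [Nat.cast_div hpq (by exact_mod_cast hp0.ne')]
          rw [div_pow]
          ring
  have h5 : ((univ.filter fun l : Fin 3 → ZMod q => Unimod l).card : ℝ) +
      ((univ.filter fun l : Fin 3 → ZMod q => ¬ Unimod l).card : ℝ) = (q : ℝ) ^ 3 := by
    exact_mod_cast h3
  rw [mul_sub, mul_one, Finset.mul_sum]
  linarith

end

theorem cq1 : S_CQ1 := fun q hq => by
  haveI : NeZero q := ⟨hq.ne'⟩
  exact cq_le

theorem cq2 : S_CQ2 := fun q hq => by
  haveI : NeZero q := ⟨hq.ne'⟩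
  exact cq_ge

end Pool.Agent.KS6_53.V5
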