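import Pool.Agent.KS6_53.V5.Ram

set_option autoImplicit false
set_option linter.style.haveILetI false

namespace Pool.Agent.KS6_53.V5

open Finset

open Classical in
/-- the exponential sum over the cone -/
noncomputable def WS (q : ℕ) [NeZero q] (h : Fin 5 → ℤ) : ℂ :=
  ∑ x ∈ (univ.filter fun x : Fin 5 → ZMod q => x ∈ CC q),
    (ZMod.stdAddChar (∑ i, (h i : ZMod q) * x i) : ℂ)

theorem WS_le (h : Fin 5 → ℤ) (hh : h ≠ 0) : ∃ C : ℝ, 0 < C ∧ ∀ (q : ℕ) [NeZero q],
    ‖WS q h‖ ≤ C * (q : ℝ) ^ (3 - 1 / 21 : ℝ) := by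
  classical
  obtain ⟨C, hC, hcard⟩ := card_qf h hh
  obtain ⟨D, hD, htau⟩ := tau_bound
  refine ⟨C * D ^ 2, by positivity, fun q _ => ?_⟩
  have hq : 0 < q := NeZero.pos q
  have hq' : (0 : ℝ) < q := by exact_mod_cast hq
  have h1 := sum_param (q := q) (fun x => (ZMod.stdAddChar (∑ i, (h i : ZMod q) * x i) : ℂ))
  rw [Finset.sum_comm] at h1
  have h2 : ((Nat.totient q : ℝ)) * ‖WS q h‖ ≤
      C * (q : ℝ) ^ 3 * ((q : ℝ) ^ (2 / 3 : ℝ) * q.divisors.card) := by
    have e1 : ((Nat.totient q : ℝ)) * ‖WS q h‖ = ‖(Nat.totient q : ℂ) * WS q h‖ := by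
      rw [norm_mul]
      simp
    rw [e1, WS, ← h1]
    refine (norm_sum_le _ _).trans ?_
    have e2 : ∀ l : Fin 3 → ZMod q, ‖∑ u : (ZMod q)ˣ,
        (ZMod.stdAddChar (∑ i, (h i : ZMod q) * ((u : ZMod q) • pf l) i) : ℂ)‖ ≤
        ∑ f ∈ q.divisors, if f ∣ (∑ i, (h i : ZMod q) * pf l i).val then (f : ℝ) else 0 := by
      intro l
      have e3 : ∀ u : (ZMod q)ˣ, (∑ i, (h i : ZMod q) * ((u : ZMod q) • pf l) i) =
          (u : ZMod q) * ∑ i, (h i : ZMod q) * pf l i := by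
        intro u
        rw [Finset.mul_sum]
        refine Finset.sum_congr rfl fun i _ => ?_
        rw [Pi.smul_apply, smul_eq_mul]
        ring
      simp only [e3]
      exact ramanujan_le _
    calc _ ≤ ∑ l ∈ (univ.filter fun l : Fin 3 → ZMod q => Unimod l),
          ∑ f ∈ q.divisors, (if f ∣ (∑ i, (h i : ZMod q) * pf l i).val then (f : ℝ) else 0) :=
          Finset.sum_le_sum fun l _ => e2 l
      _ = ∑ f ∈ q.divisors, ∑ l ∈ (univ.filter fun l : Fin 3 → ZMod q => Unimod l),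
          (if f ∣ (∑ i, (h i : ZMod q) * pf l i).val then (f : ℝ) else 0) := Finset.sum_comm
      _ ≤ ∑ f ∈ q.divisors, C * (q : ℝ) ^ 3 * (q : ℝ) ^ (2 / 3 : ℝ) := by
          refine Finset.sum_le_sum fun f hf => ?_
          have hfq := Nat.dvd_of_mem_divisors hf
          have hf0 : 0 < f := Nat.pos_of_mem_divisors hf
          have hf' : (0 : ℝ) < f := by exact_mod_cast hf0
          have hfle : (f : ℝ) ≤ q := by exact_mod_cast Nat.le_of_dvd hq hfq
          rw [← Finset.sum_filter, Finset.sum_const, nsmul_eq_mul]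
          have e4 : ((univ.filter fun l : Fin 3 → ZMod q => Unimod l).filter fun l =>
              f ∣ (∑ i, (h i : ZMod q) * pf l i).val).card ≤
              (univ.filter fun l : Fin 3 → ZMod q =>
                (f : ℤ) ∣ qf h (fun i => ((l i).val : ℤ))).card := by
            refine Finset.card_le_card fun l hl => ?_
            simp only [mem_filter, mem_univ, true_and] at hl ⊢
            have e5 : ((qf h (fun i => ((l i).val : ℤ)) : ℤ) : ZMod q) =
                ∑ i, (h i : ZMod q) * pf l i := by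
              simp [qf, pf, Fin.sum_univ_five]
            have e6 : (q : ℤ) ∣ qf h (fun i => ((l i).val : ℤ)) -
                ((∑ i, (h i : ZMod q) * pf l i).val : ℤ) := by
              rw [← ZMod.intCast_zmod_eq_zero_iff_dvd]
              push_cast
              rw [e5, ZMod.natCast_zmod_val, sub_self]
            exact (dvd_iff_dvd_of_dvd_sub ((Int.natCast_dvd_natCast.2 hfq).trans e6)).2
              (Int.natCast_dvd_natCast.2 hl.2)
          have e7 := hcard q f hfq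
          calc _ ≤ (((univ.filter fun l : Fin 3 → ZMod q =>
                (f : ℤ) ∣ qf h (fun i => ((l i).val : ℤ))).card : ℕ) : ℝ) * f :=
                mul_le_mul_of_nonneg_right (by exact_mod_cast e4) hf'.le
            _ ≤ C * (q : ℝ) ^ 3 * (f : ℝ) ^ (-(1 / 3) : ℝ) * f :=
                mul_le_mul_of_nonneg_right e7 hf'.le
            _ = C * (q : ℝ) ^ 3 * (f : ℝ) ^ (2 / 3 : ℝ) := by
                have : (f : ℝ) ^ (-(1 / 3) : ℝ) * f = (f : ℝ) ^ (2 / 3 : ℝ) := by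
                  conv_lhs => rw [← Real.rpow_one (f : ℝ)]
                  rw [← Real.rpow_mul hf'.le, one_mul, ← Real.rpow_add hf']
                  norm_num
                rw [mul_assoc, this]
            _ ≤ _ := mul_le_mul_of_nonneg_left
                (Real.rpow_le_rpow hf'.le hfle (by norm_num)) (by positivity)
      _ = _ := by
          rw [Finset.sum_const, nsmul_eq_mul]
          ring
  have h3 : (q : ℝ) ≤ q.divisors.card * Nat.totient q := by
    exact_mod_cast le_totient_mul q hq.ne'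
  have h4 := htau q hq.ne'
  have hτ0 : (0 : ℝ) ≤ q.divisors.card := by positivity
  have h5 : (q : ℝ) * ‖WS q h‖ ≤ C * (q : ℝ) ^ 3 * ((q : ℝ) ^ (2 / 3 : ℝ) *
      (D * (q : ℝ) ^ (1 / 7 : ℝ)) ^ 2) := by
    calc (q : ℝ) * ‖WS q h‖ ≤ (q.divisors.card * Nat.totient q) * ‖WS q h‖ :=
          mul_le_mul_of_nonneg_right h3 (norm_nonneg _)
      _ = q.divisors.card * (Nat.totient q * ‖WS q h‖) := by ring
      _ ≤ q.divisors.card * (C * (q : ℝ) ^ 3 * ((q : ℝ) ^ (2 / 3 : ℝ) * q.divisors.card)) :=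
          mul_le_mul_of_nonneg_left h2 hτ0
      _ = C * (q : ℝ) ^ 3 * ((q : ℝ) ^ (2 / 3 : ℝ) * (q.divisors.card : ℝ) ^ 2) := by ring
      _ ≤ _ := by
          refine mul_le_mul_of_nonneg_left (mul_le_mul_of_nonneg_left
            (pow_le_pow_left₀ hτ0 h4 2) (by positivity)) (by positivity)
  have h6 : C * (q : ℝ) ^ 3 * ((q : ℝ) ^ (2 / 3 : ℝ) * (D * (q : ℝ) ^ (1 / 7 : ℝ)) ^ 2) =
      q * (C * D ^ 2 * (q : ℝ) ^ (3 - 1 / 21 : ℝ)) := by
    have e1 : (D * (q : ℝ) ^ (1 / 7 : ℝ)) ^ 2 = D ^ 2 * (q : ℝ) ^ (2 / 7 : ℝ) := by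
      rw [mul_pow, ← Real.rpow_natCast ((q : ℝ) ^ (1 / 7 : ℝ)), ← Real.rpow_mul hq'.le]
      norm_num
    have e2 : (q : ℝ) ^ 3 * ((q : ℝ) ^ (2 / 3 : ℝ) * (q : ℝ) ^ (2 / 7 : ℝ)) =
        q * (q : ℝ) ^ (3 - 1 / 21 : ℝ) := by
      rw [← Real.rpow_natCast (q : ℝ) 3, ← Real.rpow_add hq', ← Real.rpow_add hq']
      conv_rhs => rw [← Real.rpow_one (q : ℝ)]
      rw [← Real.rpow_mul hq'.le, one_mul, ← Real.rpow_add hq']
      norm_num
    rw [e1]
    calc _ = C * D ^ 2 * ((q : ℝ) ^ 3 * ((q : ℝ) ^ (2 / 3 : ℝ) * (q : ℝ) ^ (2 / 7 : ℝ))) := by ring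
      _ = _ := by rw [e2]; ring
  rw [h6] at h5
  exact le_of_mul_le_mul_left h5 hq'

end Pool.Agent.KS6_53.V5
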