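import Pool.Agent.KS6_53.V5.Rc
import Pool.Agent.KS6_53.V5.Eq
import Pool.Agent.KS6_53.V5.Box
import Pool.Agent.KS6_53.V5.Cnt2

set_option autoImplicit false

namespace Pool.Agent.KS6_53.V5

open Finset Filter Topology MeasureTheory

/-- profiles -/
structure Prof (H : (Fin 5 → ℝ) × ℝ → ℝ) (A δ : ℝ) : Prop where
  cts : Continuous H
  pos : 0 < δ
  posA : 0 < A
  supp : ∀ z, H z ≠ 0 → ‖z.1‖ ≤ A ∧ δ ≤ z.2 ∧ z.2 ≤ A

/-- the integral of a slice -/
noncomputable def Ph (H : (Fin 5 → ℝ) × ℝ → ℝ) (s : ℝ) : ℝ := ∫ u, H (u, s)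

noncomputable def II (H : (Fin 5 → ℝ) × ℝ → ℝ) : ℝ := ∫ s, s ^ 3 * Ph H s

section

variable {H : (Fin 5 → ℝ) × ℝ → ℝ} {A δ : ℝ}

theorem Prof.abs (h : Prof H A δ) : Prof (fun z => |H z|) A δ :=
  ⟨h.cts.abs, h.pos, h.posA, fun z hz => h.supp z (fun h0 => hz (by rw [h0, abs_zero]))⟩

theorem Prof.hcs (h : Prof H A δ) : HasCompactSupport H := by
  refine HasCompactSupport.intro ((isCompact_closedBall (0 : Fin 5 → ℝ) A).prod
    (isCompact_Icc (a := δ) (b := A))) fun z hz => ?_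
  by_contra hc
  apply hz
  obtain ⟨h1, h2, h3⟩ := h.supp z hc
  exact ⟨by rwa [mem_closedBall_zero_iff], h2, h3⟩

theorem Prof.slice_cts (h : Prof H A δ) (s : ℝ) : Continuous fun u => H (u, s) :=
  h.cts.comp (by fun_prop)

theorem Prof.slice_zero (h : Prof H A δ) (s : ℝ) (u : Fin 5 → ℝ)
    (hu : u ∉ Metric.closedBall (0 : Fin 5 → ℝ) A) : H (u, s) = 0 := by
  by_contra hc
  apply hu
  rw [mem_closedBall_zero_iff]
  exact (h.supp _ hc).1

theorem Prof.slice_cs (h : Prof H A δ) (s : ℝ) : HasCompactSupport fun u => H (u, s) :=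
  HasCompactSupport.intro (isCompact_closedBall (0 : Fin 5 → ℝ) A) (h.slice_zero s)

theorem Ph_eq (h : Prof H A δ) (s : ℝ) : Ph H s = ∫ u in Metric.closedBall (0 : Fin 5 → ℝ) A, H (u, s) :=
  (setIntegral_eq_integral_of_forall_compl_eq_zero fun u hu => h.slice_zero s u hu).symm

theorem Ph_cts (h : Prof H A δ) : Continuous (Ph H) := by
  have : Ph H = fun s => ∫ u in Metric.closedBall (0 : Fin 5 → ℝ) A, H (u, s) := by
    funext s
    exact Ph_eq h s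
  rw [this]
  refine continuous_parametric_integral_of_continuous (f := fun s u => H (u, s)) ?_
    (isCompact_closedBall (0 : Fin 5 → ℝ) A)
  exact h.cts.comp (by fun_prop)

theorem slice_eq_zero (h : Prof H A δ) {s : ℝ} (hs : ¬ (δ ≤ s ∧ s ≤ A)) (u : Fin 5 → ℝ) :
    H (u, s) = 0 := by
  by_contra hc
  exact hs (h.supp _ hc).2

theorem Ph_supp (h : Prof H A δ) {s : ℝ} (hs : Ph H s ≠ 0) : δ ≤ s ∧ s ≤ A := by
  by_contra hc
  apply hs
  rw [Ph]
  simp [slice_eq_zero h hc]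

theorem abs_Ph_le (s : ℝ) : |Ph H s| ≤ Ph (fun z => |H z|) s := by
  have := norm_integral_le_integral_norm (μ := volume) (fun u => H (u, s))
  simpa [Ph, Real.norm_eq_abs] using this

/-- the volume of the ball -/
noncomputable def vb (A : ℝ) : ℝ := (volume (Metric.closedBall (0 : Fin 5 → ℝ) A)).toReal

theorem vb_nonneg (A : ℝ) : 0 ≤ vb A := ENNReal.toReal_nonneg

theorem Ph_sub_le (h : Prof H A δ) {η : ℝ} {s s' : ℝ} (hs : ∀ u, |H (u, s) - H (u, s')| ≤ η) :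
    |Ph H s - Ph H s'| ≤ η * vb A := by
  rw [Ph_eq h, Ph_eq h, ← integral_sub]
  · have := norm_setIntegral_le_of_norm_le_const (μ := volume)
      (s := Metric.closedBall (0 : Fin 5 → ℝ) A) (f := fun u => H (u, s) - H (u, s')) (C := η)
      (measure_closedBall_lt_top) (fun u _ => by rw [Real.norm_eq_abs]; exact hs u)
    rw [Real.norm_eq_abs] at this
    exact this
  · exact (h.slice_cts s).continuousOn.integrableOn_compact (isCompact_closedBall _ _)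
  · exact (h.slice_cts s').continuousOn.integrableOn_compact (isCompact_closedBall _ _)

theorem scale_int (s : ℝ) (γ : ℕ) (hγ : 1 ≤ γ) :
    ∫ u : Fin 5 → ℝ, H (fun i => u i / γ, s) = (γ : ℝ) ^ 5 * Ph H s := by
  have hγ0 : (0 : ℝ) < γ := by exact_mod_cast hγ
  have := Measure.integral_comp_inv_smul_of_nonneg (μ := (volume : Measure (Fin 5 → ℝ)))
    (fun u : Fin 5 → ℝ => H (u, s)) hγ0.le
  rw [Module.finrank_fin_fun, smul_eq_mul] at this
  rw [Ph, ← this]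
  refine integral_congr_ae (Filter.Eventually.of_forall fun u => ?_)
  simp only
  congr 2
  funext i
  rw [Pi.smul_apply, smul_eq_mul, div_eq_inv_mul]

theorem pos_add_one (γ : ℕ) : (0 : ℝ) < 1 + γ := by positivity

/-- equidistribution, uniformly in the second variable -/
theorem equ (h : Prof H A δ) (Q : ℕ) (hQ : 0 < Q) (ρ : Fin 5 → ℤ) (γ : ℕ) (hγ : 1 ≤ γ) (ε : ℝ)
    (hε : 0 < ε) : ∃ q₀ : ℕ, ∀ q : ℕ, q₀ ≤ q → 0 < q → Nat.Coprime q Q → ∀ s : ℝ,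
      |(∑ᶠ x ∈ {x : Fin 5 → ℤ | (∀ i, (Q : ℤ) ∣ x i - ρ i) ∧ red q x ∈ CC q},
        H (fun i => (x i : ℝ) / (γ * q), s)) - (cq q : ℝ) / (Q : ℝ) ^ 5 * ((γ : ℝ) ^ 5 * Ph H s)| ≤
          ε * (q : ℝ) ^ 3 := by
  have hA := h.posA
  have hγ1 : (1 : ℝ) ≤ γ := by exact_mod_cast hγ
  have hγ0 : (0 : ℝ) < γ := by linarith
  have hQ1 : (1 : ℝ) ≤ Q := by exact_mod_cast hQ
  have hV := vb_nonneg A
  set D : ℝ := (2 * (A * γ) + 2) ^ 5 + (γ : ℝ) ^ 5 * vb A + 1 with hD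
  have hD0 : 0 < D := by positivity
  set η : ℝ := ε / (3 * D) with hη
  have hη0 : 0 < η := by positivity
  have hηD : η * D = ε / 3 := by
    rw [hη]
    field_simp
  have huc := h.cts.uniformContinuous_of_tendsto_cocompact h.hcs.is_zero_at_infty
  obtain ⟨d, hd, hd2⟩ := Metric.uniformContinuous_iff.1 huc η hη0
  -- the net
  let sj : ℕ → ℝ := fun j => j * (d / 2)
  set J : ℕ := ⌊A / (d / 2)⌋₊ + 1 with hJ
  have hnet : ∀ s, 0 ≤ s → s ≤ A → ∃ j ∈ Finset.range J, |s - sj j| < d := by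
    intro s hs0 hsA
    refine ⟨⌊s / (d / 2)⌋₊, ?_, ?_⟩
    · rw [Finset.mem_range, hJ]
      refine Nat.lt_succ_of_le (Nat.floor_le_floor ?_)
      gcongr
    · have h1 := Nat.floor_le (a := s / (d / 2)) (by positivity)
      have h2 := Nat.lt_floor_add_one (s / (d / 2))
      rw [le_div_iff₀ (by positivity)] at h1
      rw [div_lt_iff₀ (by positivity)] at h2
      simp only [sj]
      rw [abs_lt]
      constructor <;> nlinarith
  have hq : ∀ j : ℕ, ∃ q₀ : ℕ, ∀ q : ℕ, q₀ ≤ q → Nat.Coprime q Q →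
      |(∑ᶠ x ∈ {x : Fin 5 → ℤ | (∀ i, (Q : ℤ) ∣ x i - ρ i) ∧ red q x ∈ CC q},
        H (fun i => (x i : ℝ) / q / γ, sj j)) -
        (cq q : ℝ) / (Q : ℝ) ^ 5 * ∫ u : Fin 5 → ℝ, H (fun i => u i / γ, sj j)| ≤ (ε / 3) * (q : ℝ) ^ 3 := by
    intro j
    refine eqd Q hQ ρ (fun u : Fin 5 → ℝ => H (fun i => u i / γ, sj j)) ?_ ?_ (ε / 3) (by positivity)
    · exact h.cts.comp (by fun_prop)
    · refine HasCompactSupport.intro (isCompact_closedBall (0 : Fin 5 → ℝ) (A * γ)) fun u hu => ?_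
      by_contra hc
      apply hu
      have h1 := (h.supp _ hc).1
      simp only at h1
      rw [mem_closedBall_zero_iff]
      have h2 : (fun i => u i / (γ : ℝ)) = (γ : ℝ)⁻¹ • u := by
        funext i
        rw [Pi.smul_apply, smul_eq_mul, div_eq_inv_mul]
      rw [h2, norm_smul, norm_inv, Real.norm_of_nonneg hγ0.le, inv_mul_le_iff₀ hγ0] at h1
      linarith
  choose q₀ hq₀ using hq
  refine ⟨(Finset.range J).sup q₀, fun q hqq hq0 hcop s => ?_⟩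
  have hq0' : (0 : ℝ) < q := by exact_mod_cast hq0
  by_cases hs : δ ≤ s ∧ s ≤ A
  swap
  · have e1 : Ph H s = 0 := by
      by_contra hc
      exact hs (Ph_supp h hc)
    have e2 : (∑ᶠ x ∈ {x : Fin 5 → ℤ | (∀ i, (Q : ℤ) ∣ x i - ρ i) ∧ red q x ∈ CC q},
        H (fun i => (x i : ℝ) / (γ * q), s)) = 0 := by
      refine finsum_mem_of_eqOn_zero fun x _ => ?_
      exact slice_eq_zero h hs _
    rw [e1, e2]
    simp only [mul_zero, sub_zero, abs_zero]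
    positivity
  obtain ⟨j, hj, hjs⟩ := hnet s (h.pos.le.trans hs.1) hs.2
  have hqj : q₀ j ≤ q := (Finset.le_sup (f := q₀) hj).trans hqq
  have key := hq₀ j q hqj hcop
  rw [scale_int _ γ hγ] at key
  have hclose : ∀ u, |H (u, s) - H (u, sj j)| ≤ η := by
    intro u
    rw [← Real.dist_eq]
    refine (hd2 ?_).le
    rw [Prod.dist_eq, dist_self, Real.dist_eq]
    exact max_lt hd hjs
  obtain ⟨b1, b2⟩ := box q hq0 (fun _ => 0) (A * γ * q) (by positivity)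
  have hsup : ∀ s', ∀ x ∈ {x : Fin 5 → ℤ | (∀ i, (Q : ℤ) ∣ x i - ρ i) ∧ red q x ∈ CC q},
      H (fun i => (x i : ℝ) / (γ * q), s') ≠ 0 →
      x ∈ {x : Fin 5 → ℤ | (∀ i, |(x i : ℝ) - 0| ≤ A * γ * q) ∧ red q x ∈ CC q} := by
    intro s' x hx hne
    refine ⟨fun i => ?_, hx.2⟩
    have h1 := (h.supp _ hne).1
    simp only at h1
    have h2 := norm_le_pi_norm (fun i => (x i : ℝ) / (γ * q)) i
    rw [Real.norm_eq_abs, abs_div, abs_of_pos (show (0 : ℝ) < γ * q by positivity)] at h2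
    rw [sub_zero]
    have h3 := h2.trans h1
    rw [div_le_iff₀ (by positivity)] at h3
    linarith
  have s1 := fs_sub_le (f := fun x : Fin 5 → ℤ => H (fun i => (x i : ℝ) / (γ * q), s))
    (g := fun x : Fin 5 → ℤ => H (fun i => (x i : ℝ) / (γ * q), sj j))
    (s := {x : Fin 5 → ℤ | (∀ i, (Q : ℤ) ∣ x i - ρ i) ∧ red q x ∈ CC q}) (M := η)
    (fun x _ => hclose _) b1 (hsup s) (hsup (sj j)) hη0.le
  have s2 := Ph_sub_le h hclose
  have e3 : ∀ x : Fin 5 → ℤ, (fun i => (x i : ℝ) / q / γ) = fun i => (x i : ℝ) / (γ * q) := by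
    intro x
    funext i
    rw [div_div, mul_comm]
  simp only [e3] at key
  have hcq : (cq q : ℝ) / (Q : ℝ) ^ 5 ≤ (q : ℝ) ^ 3 := by
    have h1 : (cq q : ℝ) ≤ (q : ℝ) ^ 3 := by exact_mod_cast cq1 q hq0
    have h2 : (1 : ℝ) ≤ (Q : ℝ) ^ 5 := one_le_pow₀ hQ1
    exact (div_le_self (by positivity) h2).trans h1
  have hcq0 : 0 ≤ (cq q : ℝ) / (Q : ℝ) ^ 5 := by positivity
  have s3 : |(cq q : ℝ) / (Q : ℝ) ^ 5 * ((γ : ℝ) ^ 5 * Ph H (sj j)) -
      (cq q : ℝ) / (Q : ℝ) ^ 5 * ((γ : ℝ) ^ 5 * Ph H s)| ≤ (q : ℝ) ^ 3 * ((γ : ℝ) ^ 5 * (η * vb A)) := by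
    rw [← mul_sub, ← mul_sub, abs_mul, abs_mul, abs_of_nonneg hcq0, abs_of_pos (by positivity),
      abs_sub_comm]
    gcongr
  have s4 : η * ({x : Fin 5 → ℤ | (∀ i, |(x i : ℝ) - 0| ≤ A * γ * q) ∧ red q x ∈ CC q}.ncard : ℝ) ≤
      η * ((2 * (A * γ) + 2) ^ 5 * (q : ℝ) ^ 3) := by
    refine mul_le_mul_of_nonneg_left (b2.trans (le_of_eq ?_)) hη0.le
    congr 3
    field_simp
  have s5 := s1.trans s4
  have s6 : η * ((2 * (A * γ) + 2) ^ 5 * (q : ℝ) ^ 3) + (q : ℝ) ^ 3 * ((γ : ℝ) ^ 5 * (η * vb A)) ≤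
      ε / 3 * (q : ℝ) ^ 3 := by
    rw [← hηD, hD]
    have : 0 < η * (q : ℝ) ^ 3 := by positivity
    nlinarith
  have hq3 : 0 < ε * (q : ℝ) ^ 3 := by positivity
  rw [abs_le] at key s3 s5 ⊢
  constructor
  · linarith [key.1, s3.1, s5.1]
  · linarith [key.2, s3.2, s5.2]

end

end Pool.Agent.KS6_53.V5
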