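import Pool.Agent.KS6_53.V5.Bl3

set_option autoImplicit false

namespace Pool.Agent.KS6_53.V5

open Finset Filter Topology MeasureTheory

/-- the double sum over a residue class -/
noncomputable def DR (P Q : ℕ) (ρ : Fin 5 → ℤ) (γ : ℕ) (H : (Fin 5 → ℝ) × ℝ → ℝ) (T : ℝ) : ℝ :=
  ∑ᶠ q ∈ {q : ℕ | 1 ≤ q ∧ Nat.Coprime q P},
    ∑ᶠ x ∈ {x : Fin 5 → ℤ | (∀ i, (Q : ℤ) ∣ x i - ρ i) ∧ red q x ∈ CC q},
      H (fun i => (x i : ℝ) / (γ * q), γ * q / √T)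

section

variable {H : (Fin 5 → ℝ) × ℝ → ℝ} {A δ : ℝ}

/-- the coprime numbers up to a bound -/
def SJ (P N : ℕ) : Finset ℕ := (Finset.Icc 1 N).filter fun q => Nat.Coprime q P

theorem fs_SJ {P N : ℕ} (f : ℕ → ℝ) (hf : ∀ q, 1 ≤ q → f q ≠ 0 → q ≤ N) :
    ∑ᶠ q ∈ {q : ℕ | 1 ≤ q ∧ Nat.Coprime q P}, f q = ∑ q ∈ SJ P N, f q := by
  refine finsum_mem_eq_sum_of_inter_support_eq f ?_
  ext q
  simp only [SJ, Set.mem_inter_iff, Function.mem_support, Finset.coe_filter, Set.mem_ofPred_eq,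
    Finset.mem_Icc]
  constructor
  · rintro ⟨⟨h1, h2⟩, h3⟩
    exact ⟨⟨⟨h1, hf q h1 h3⟩, h2⟩, h3⟩
  · rintro ⟨⟨⟨h1, h2⟩, h3⟩, h4⟩
    exact ⟨⟨h1, h3⟩, h4⟩

theorem inn_zero (h : Prof H A δ) {s : ℝ} (hs : ¬ (δ ≤ s ∧ s ≤ A)) (S : Set (Fin 5 → ℤ))
    (f : (Fin 5 → ℤ) → Fin 5 → ℝ) : ∑ᶠ x ∈ S, H (f x, s) = 0 :=
  finsum_mem_of_eqOn_zero fun x _ => slice_eq_zero h hs _

theorem DR_eq (h : Prof H A δ) (P Q : ℕ) (ρ : Fin 5 → ℤ) (γ : ℕ) (hγ : 1 ≤ γ) (T : ℝ) (hT : 0 < T)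
    (N : ℕ) (hN : A * √T / γ < N + 1) :
    DR P Q ρ γ H T = ∑ q ∈ SJ P N,
      ∑ᶠ x ∈ {x : Fin 5 → ℤ | (∀ i, (Q : ℤ) ∣ x i - ρ i) ∧ red q x ∈ CC q},
        H (fun i => (x i : ℝ) / (γ * q), γ * q / √T) := by
  have hsT : 0 < √T := Real.sqrt_pos.2 hT
  have hγ0 : (0 : ℝ) < γ := by exact_mod_cast hγ
  rw [DR, fs_SJ]
  intro q hq hne
  by_contra hc
  apply hne
  refine inn_zero h (fun hs => hc ?_) _ _
  have h1 := hs.2
  rw [div_le_iff₀ hsT] at h1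
  have h2 : (q : ℝ) < N + 1 := by
    refine lt_of_le_of_lt ?_ hN
    rw [le_div_iff₀ hγ0]
    linarith
  have h3 : q < N + 1 := by exact_mod_cast h2
  omega

/-- the one dimensional sum -/
noncomputable def h1 (H : (Fin 5 → ℝ) × ℝ → ℝ) (s : ℝ) : ℝ := s ^ 3 * Ph H s

theorem h1_cts (h : Prof H A δ) : Continuous (h1 H) := by
  have := Ph_cts h
  unfold h1
  fun_prop

theorem h1_supp (h : Prof H A δ) {s : ℝ} (hs : h1 H s ≠ 0) : δ ≤ s ∧ s ≤ A :=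
  Ph_supp h fun h0 => hs (by rw [h1, h0, mul_zero])

theorem h1_cs (h : Prof H A δ) : HasCompactSupport (h1 H) := by
  refine HasCompactSupport.intro (isCompact_Icc (a := δ) (b := A)) fun s hs => ?_
  by_contra hc
  exact hs (h1_supp h hc)

theorem W_lim (h : Prof H A δ) (P : ℕ) (hP : 0 < P) (γ : ℕ) (hγ : 1 ≤ γ) :
    Tendsto (fun T : ℝ => (∑ q ∈ SJ P ⌊A * √T / γ⌋₊, h1 H (γ * q / √T)) / (√T / γ)) atTop
      (𝓝 (cP P * II H)) := by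
  have hγ0 : (0 : ℝ) < γ := by exact_mod_cast hγ
  have hA := h.posA
  have key := coprime_riemann (h1_cts h) (h1_cs h) (fun s hs => lt_of_lt_of_le h.pos (h1_supp h hs).1)
    P hP
  have ht : Tendsto (fun T : ℝ => √T / γ) atTop atTop :=
    Tendsto.atTop_div_const hγ0 Real.tendsto_sqrt_atTop
  refine (key.comp ht).congr' ?_
  filter_upwards [eventually_gt_atTop 0] with T hT
  have hsT : 0 < √T := Real.sqrt_pos.2 hT
  simp only [Function.comp]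
  congr 1
  have e0 : ∀ q : ℕ, (q : ℝ) / (√T / γ) = γ * q / √T := by
    intro q
    field_simp
  simp only [e0]
  refine finsum_mem_eq_sum_of_inter_support_eq _ ?_
  ext q
  simp only [SJ, Set.mem_inter_iff, Function.mem_support, Finset.coe_filter, Set.mem_ofPred_eq,
    Finset.mem_Icc]
  constructor
  · rintro ⟨h2, h3⟩
    obtain ⟨h4, h5⟩ := h1_supp h h3
    refine ⟨⟨⟨?_, ?_⟩, h2⟩, h3⟩
    · by_contra hc
      have : q = 0 := by omega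
      rw [this] at h4
      simp only [CharP.cast_eq_zero, mul_zero, zero_div] at h4
      exact absurd h.pos (not_lt.2 h4)
    · refine Nat.le_floor ?_
      rw [div_le_iff₀ hsT] at h5
      rw [le_div_iff₀ hγ0]
      linarith
  · rintro ⟨⟨h2, h3⟩, h4⟩
    exact ⟨h3, h4⟩

theorem DR_lim (h : Prof H A δ) (P Q : ℕ) (hP : 0 < P) (hQ : 0 < Q)
    (hPQ : ∀ q, Nat.Coprime q P → Nat.Coprime q Q) (ρ : Fin 5 → ℤ) (γ : ℕ) (hγ : 1 ≤ γ) (t : ℝ)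
    (ht : 0 ≤ t) (hcq : ∀ q : ℕ, 1 ≤ q → Nat.Coprime q P → (q : ℝ) ^ 3 * (1 - t) ≤ cq q) (ε : ℝ)
    (hε : 0 < ε) : ∀ᶠ T in atTop, |DR P Q ρ γ H T / T ^ 2 - γ / (Q : ℝ) ^ 5 * (cP P * II H)| ≤
      t * (γ / (Q : ℝ) ^ 5 * (cP P * II fun z => |H z|)) + ε := by
  have hA := h.posA
  have hδ := h.pos
  have hγ1 : (1 : ℝ) ≤ γ := by exact_mod_cast hγ
  have hγ0 : (0 : ℝ) < γ := by linarith
  have hQ0 : (0 : ℝ) < Q := by exact_mod_cast hQ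
  set ε' : ℝ := ε / (2 * A ^ 4) with hε'
  have hε'0 : 0 < ε' := by positivity
  obtain ⟨q₀, hq₀⟩ := equ h Q hQ ρ γ hγ ε' hε'0
  have w1 := W_lim h P hP γ hγ
  have w2 := W_lim h.abs P hP γ hγ
  have w3 : Tendsto (fun T : ℝ => t * (γ / (Q : ℝ) ^ 5 *
      ((∑ q ∈ SJ P ⌊A * √T / γ⌋₊, h1 (fun z => |H z|) (γ * q / √T)) / (√T / γ))) +
      |γ / (Q : ℝ) ^ 5 * ((∑ q ∈ SJ P ⌊A * √T / γ⌋₊, h1 H (γ * q / √T)) / (√T / γ)) -
        γ / (Q : ℝ) ^ 5 * (cP P * II H)|) atTop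
      (𝓝 (t * (γ / (Q : ℝ) ^ 5 * (cP P * II fun z => |H z|)) +
        |γ / (Q : ℝ) ^ 5 * (cP P * II H) - γ / (Q : ℝ) ^ 5 * (cP P * II H)|)) :=
    ((w2.const_mul _).const_mul _).add (((w1.const_mul _).sub_const _).abs)
  rw [sub_self, abs_zero, add_zero] at w3
  have w4 := w3.eventually (gt_mem_nhds (show t * (γ / (Q : ℝ) ^ 5 * (cP P * II fun z => |H z|)) <
    t * (γ / (Q : ℝ) ^ 5 * (cP P * II fun z => |H z|)) + ε / 2 by linarith))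
  have w5 : ∀ᶠ T : ℝ in atTop, γ * q₀ / δ < √T := Real.tendsto_sqrt_atTop.eventually_gt_atTop _
  filter_upwards [w4, w5, eventually_gt_atTop 0] with T w4 w5 hT
  have hsT : 0 < √T := Real.sqrt_pos.2 hT
  have hsT2 : √T ^ 2 = T := Real.sq_sqrt hT.le
  set N : ℕ := ⌊A * √T / γ⌋₊ with hN
  have hNle : (N : ℝ) ≤ A * √T := by
    refine (Nat.floor_le (by positivity)).trans ?_
    exact div_le_self (by positivity) hγ1
  rw [DR_eq h P Q ρ γ hγ T hT N (Nat.lt_floor_add_one _)]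
  -- one term
  have hterm : ∀ q ∈ SJ P N,
      |(∑ᶠ x ∈ {x : Fin 5 → ℤ | (∀ i, (Q : ℤ) ∣ x i - ρ i) ∧ red q x ∈ CC q},
        H (fun i => (x i : ℝ) / (γ * q), γ * q / √T)) -
        (γ : ℝ) ^ 2 / (Q : ℝ) ^ 5 * √T ^ 3 * h1 H (γ * q / √T)| ≤
        t * ((γ : ℝ) ^ 2 / (Q : ℝ) ^ 5 * √T ^ 3 * h1 (fun z => |H z|) (γ * q / √T)) +
          ε' * (A * √T) ^ 3 := by
    intro q hq
    rw [SJ, Finset.mem_filter, Finset.mem_Icc] at hq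
    have hq0 : (0 : ℝ) < q := by exact_mod_cast hq.1.1
    have hqN : (q : ℝ) ≤ A * √T := le_trans (by exact_mod_cast hq.1.2) hNle
    have e0 : ∀ F : (Fin 5 → ℝ) × ℝ → ℝ, (γ : ℝ) ^ 2 / (Q : ℝ) ^ 5 * √T ^ 3 * h1 F (γ * q / √T) =
        (q : ℝ) ^ 3 / (Q : ℝ) ^ 5 * ((γ : ℝ) ^ 5 * Ph F (γ * q / √T)) := by
      intro F
      rw [h1]
      field_simp
    rw [e0, e0]
    by_cases hs : δ ≤ γ * q / √T ∧ γ * q / √T ≤ A
    swap
    · rw [inn_zero h hs]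
      have e1 : Ph H (γ * q / √T) = 0 := by
        by_contra hc
        exact hs (Ph_supp h hc)
      have e2 : Ph (fun z => |H z|) (γ * q / √T) = 0 := by
        by_contra hc
        exact hs (Ph_supp h.abs hc)
      rw [e1, e2]
      simp only [mul_zero, sub_zero, abs_zero, zero_add]
      positivity
    have hqq : q₀ ≤ q := by
      have h2 := hs.1
      rw [le_div_iff₀ hsT] at h2
      rw [div_lt_iff₀ hδ] at w5
      have h3 : (γ : ℝ) * q₀ < γ * q := by linarith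
      have h4 : (q₀ : ℝ) < q := lt_of_mul_lt_mul_left h3 hγ0.le
      have h5 : q₀ < q := by exact_mod_cast h4
      omega
    have k1 := hq₀ q hqq (by omega) (hPQ q hq.2) (γ * q / √T)
    have k2 : |(cq q : ℝ) / (Q : ℝ) ^ 5 * ((γ : ℝ) ^ 5 * Ph H (γ * q / √T)) -
        (q : ℝ) ^ 3 / (Q : ℝ) ^ 5 * ((γ : ℝ) ^ 5 * Ph H (γ * q / √T))| ≤
        t * ((q : ℝ) ^ 3 / (Q : ℝ) ^ 5 * ((γ : ℝ) ^ 5 * Ph (fun z => |H z|) (γ * q / √T))) := by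
      have e3 : (cq q : ℝ) / (Q : ℝ) ^ 5 * ((γ : ℝ) ^ 5 * Ph H (γ * q / √T)) -
        (q : ℝ) ^ 3 / (Q : ℝ) ^ 5 * ((γ : ℝ) ^ 5 * Ph H (γ * q / √T)) =
        -((((q : ℝ) ^ 3 - cq q) / (Q : ℝ) ^ 5) * ((γ : ℝ) ^ 5 * Ph H (γ * q / √T))) := by ring
      have c1 : (cq q : ℝ) ≤ (q : ℝ) ^ 3 := by exact_mod_cast cq1 q (by omega)
      have c2 := hcq q hq.1.1 hq.2
      rw [e3, abs_neg, abs_mul, abs_mul, abs_of_nonneg (div_nonneg (sub_nonneg.2 c1) (by positivity)),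
        abs_of_pos (show (0 : ℝ) < (γ : ℝ) ^ 5 by positivity)]
      have c3 : ((q : ℝ) ^ 3 - cq q) / (Q : ℝ) ^ 5 ≤ t * ((q : ℝ) ^ 3 / (Q : ℝ) ^ 5) := by
        rw [← mul_div_assoc]
        refine div_le_div_of_nonneg_right ?_ (by positivity)
        linarith
      calc ((q : ℝ) ^ 3 - cq q) / (Q : ℝ) ^ 5 * ((γ : ℝ) ^ 5 * |Ph H (γ * q / √T)|)
          ≤ t * ((q : ℝ) ^ 3 / (Q : ℝ) ^ 5) * ((γ : ℝ) ^ 5 * Ph (fun z => |H z|) (γ * q / √T)) := by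
            refine mul_le_mul c3 ?_ (by positivity) (by positivity)
            exact mul_le_mul_of_nonneg_left (abs_Ph_le _) (by positivity)
        _ = _ := by ring
    have k3 : ε' * (q : ℝ) ^ 3 ≤ ε' * (A * √T) ^ 3 := by
      refine mul_le_mul_of_nonneg_left (pow_le_pow_left₀ hq0.le hqN 3) hε'0.le
    rw [abs_le] at k1 k2 ⊢
    constructor
    · linarith [k1.1, k2.1]
    · linarith [k1.2, k2.2]
  -- the sum
  set W := ∑ q ∈ SJ P N, h1 H (γ * q / √T) with hW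
  set W' := ∑ q ∈ SJ P N, h1 (fun z => |H z|) (γ * q / √T) with hW'
  have hcardN : ((SJ P N).card : ℝ) ≤ A * √T := by
    refine le_trans ?_ hNle
    have : (SJ P N).card ≤ N := by
      rw [SJ]
      refine (Finset.card_filter_le _ _).trans ?_
      rw [Nat.card_Icc, Nat.add_sub_cancel]
    exact_mod_cast this
  have hsum : |(∑ q ∈ SJ P N, ∑ᶠ x ∈ {x : Fin 5 → ℤ | (∀ i, (Q : ℤ) ∣ x i - ρ i) ∧ red q x ∈ CC q},
        H (fun i => (x i : ℝ) / (γ * q), γ * q / √T)) - (γ : ℝ) ^ 2 / (Q : ℝ) ^ 5 * √T ^ 3 * W| ≤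
        t * ((γ : ℝ) ^ 2 / (Q : ℝ) ^ 5 * √T ^ 3 * W') + ε' * (A * √T) ^ 4 := by
    rw [hW, hW', Finset.mul_sum, Finset.mul_sum, Finset.mul_sum, ← Finset.sum_sub_distrib]
    refine (Finset.abs_sum_le_sum_abs _ _).trans ((Finset.sum_le_sum hterm).trans ?_)
    rw [Finset.sum_add_distrib, Finset.sum_const, nsmul_eq_mul]
    have : ((SJ P N).card : ℝ) * (ε' * (A * √T) ^ 3) ≤ ε' * (A * √T) ^ 4 := by
      calc _ ≤ A * √T * (ε' * (A * √T) ^ 3) := mul_le_mul_of_nonneg_right hcardN (by positivity)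
        _ = _ := by ring
    linarith
  have hT2 : T ^ 2 = √T ^ 4 := by
    rw [← hsT2]
    ring_nf
    rw [Real.sqrt_sq hsT.le]
  have hdiv : ∀ B : ℝ, (γ : ℝ) ^ 2 / (Q : ℝ) ^ 5 * √T ^ 3 * B / T ^ 2 = γ / (Q : ℝ) ^ 5 * (B / (√T / γ)) := by
    intro B
    rw [hT2]
    field_simp
  set D := ∑ q ∈ SJ P N, ∑ᶠ x ∈ {x : Fin 5 → ℤ | (∀ i, (Q : ℤ) ∣ x i - ρ i) ∧ red q x ∈ CC q},
        H (fun i => (x i : ℝ) / (γ * q), γ * q / √T) with hD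
  have hfin : |D / T ^ 2 - γ / (Q : ℝ) ^ 5 * (W / (√T / γ))| ≤
      t * (γ / (Q : ℝ) ^ 5 * (W' / (√T / γ))) + ε / 2 := by
    rw [← hdiv, ← hdiv, ← sub_div, abs_div, abs_of_pos (show (0 : ℝ) < T ^ 2 by positivity)]
    have e5 : t * ((γ : ℝ) ^ 2 / (Q : ℝ) ^ 5 * √T ^ 3 * W' / T ^ 2) + ε / 2 =
        (t * ((γ : ℝ) ^ 2 / (Q : ℝ) ^ 5 * √T ^ 3 * W') + ε' * (A * √T) ^ 4) / T ^ 2 := by
      rw [hε', hT2]
      field_simp
    rw [e5]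
    exact div_le_div_of_nonneg_right hsum (by positivity)
  have a1 := abs_le.1 hfin
  have a2 := le_abs_self (γ / (Q : ℝ) ^ 5 * (W / (√T / γ)) - γ / (Q : ℝ) ^ 5 * (cP P * II H))
  have a3 := neg_abs_le (γ / (Q : ℝ) ^ 5 * (W / (√T / γ)) - γ / (Q : ℝ) ^ 5 * (cP P * II H))
  rw [abs_le]
  constructor
  · linarith [a1.1]
  · linarith [a1.2]

end

end Pool.Agent.KS6_53.V5
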