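import Pool.Agent.KS6_53.V5.Bl4
import Pool.Agent.KS6_53.V5.Bl2

set_option autoImplicit false

namespace Pool.Agent.KS6_53.V5

open Finset Filter Topology MeasureTheory

/-- the sum over the admissible pairs -/
noncomputable def DE (Y k : ℕ) (G : (Fin 5 → ℝ) × ℝ × ℝ → ℝ) (vl : (Fin 5 → ZMod (pm Y ^ k)) → ℝ)
    (T : ℝ) : ℝ :=
  ∑ᶠ z ∈ {z : (Fin 5 → ℤ) × ℕ | EP Y k z.1 z.2},
    G (fun i => (z.1 i : ℝ) / (gY Y k z.1 * z.2), (gY Y k z.1 : ℝ) * z.2 / √T,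
      vl (red (pm Y ^ k) z.1))

/-- integral representative of a residue class -/
def lft {Q : ℕ} (r : Fin 5 → ZMod Q) : Fin 5 → ℤ := fun i => ((r i).val : ℤ)

theorem dvd_lft_iff {Q : ℕ} [NeZero Q] (x : Fin 5 → ℤ) (r : Fin 5 → ZMod Q) :
    (∀ i, (Q : ℤ) ∣ x i - lft r i) ↔ red Q x = r := by
  constructor
  · intro h
    funext i
    have h1 := (ZMod.intCast_zmod_eq_zero_iff_dvd _ Q).2 (h i)
    rw [lft, Int.cast_sub, Int.cast_natCast, ZMod.natCast_val, ZMod.cast_id', id, sub_eq_zero] at h1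
    exact h1
  · rintro rfl i
    rw [← ZMod.intCast_zmod_eq_zero_iff_dvd, lft, Int.cast_sub, Int.cast_natCast, ZMod.natCast_val,
      ZMod.cast_id', id, red, sub_self]

instance (Y k : ℕ) : NeZero (pm Y ^ k) := ⟨(pow_pos (pm_pos Y) k).ne'⟩

section

variable {G : (Fin 5 → ℝ) × ℝ × ℝ → ℝ}

theorem Tst.prof (hG : Tst G) : ∃ A δ : ℝ, 0 < A ∧ 0 < δ ∧
    (∀ z, G z ≠ 0 → ‖z.1‖ ≤ A ∧ δ ≤ ‖mm z.1‖ ∧ δ ≤ z.2.1 ∧ z.2.1 ≤ A) ∧
    ∀ τ, Prof (fun z => G (z.1, z.2, τ)) A δ := by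
  obtain ⟨δ, A, hδ, h⟩ := hG.supp
  have h' : ∀ z, G z ≠ 0 → ‖z.1‖ ≤ max A 1 ∧ δ ≤ ‖mm z.1‖ ∧ δ ≤ z.2.1 ∧ z.2.1 ≤ max A 1 := by
    intro z hz
    obtain ⟨a, b, c, d⟩ := h z hz
    exact ⟨a.trans (le_max_left _ _), b, c, d.trans (le_max_left _ _)⟩
  refine ⟨max A 1, δ, by positivity, hδ, h', fun τ => ⟨hG.cts.comp (by fun_prop), hδ, by positivity,
    fun z hz => ?_⟩⟩
  obtain ⟨a, -, c, d⟩ := h' _ hz
  exact ⟨a, c, d⟩

open Classical in
theorem DE_eq (Y k : ℕ) (hk : k ≠ 0) {A δ : ℝ}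
    (hG : ∀ τ, Prof (fun z => G (z.1, z.2, τ)) A δ) (vl : (Fin 5 → ZMod (pm Y ^ k)) → ℝ)
    (T : ℝ) (hT : 0 < T) :
    DE Y k G vl T = ∑ r ∈ (Finset.univ : Finset (Fin 5 → ZMod (pm Y ^ k))).filter
      (fun r => Good Y k (lft r)), DR (pm Y) (pm Y ^ k) (lft r) (gY Y k (lft r))
        (fun z => G (z.1, z.2, vl r)) T := by
  have hsT : 0 < √T := Real.sqrt_pos.2 hT
  have hA := (hG 0).posA
  set N : ℕ := ⌊A * √T⌋₊ with hN
  have hNlt : ∀ γ : ℕ, 1 ≤ γ → A * √T / γ < N + 1 := by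
    intro γ hγ
    refine lt_of_le_of_lt (div_le_self (by positivity) (by exact_mod_cast hγ)) (Nat.lt_floor_add_one _)
  -- the box
  have hBfin := finite_box (fun _ : Fin 5 => (0 : ℝ)) (A * (A * √T))
  set Bx : Finset (Fin 5 → ℤ) := hBfin.toFinset with hBx
  have hBm : ∀ (x : Fin 5 → ℤ) (γ q : ℕ) (τ : ℝ), 1 ≤ γ → 1 ≤ q →
      G (fun i => (x i : ℝ) / (γ * q), (γ : ℝ) * q / √T, τ) ≠ 0 → x ∈ Bx ∧ q ≤ N := by
    intro x γ q τ hγ hq hne
    obtain ⟨c1, c2, c3⟩ := (hG τ).supp (fun i => (x i : ℝ) / (γ * q), (γ : ℝ) * q / √T) hne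
    simp only at c1 c2 c3
    rw [div_le_iff₀ hsT] at c3
    have hγ1 : (1 : ℝ) ≤ γ := by exact_mod_cast hγ
    have hq1 : (1 : ℝ) ≤ q := by exact_mod_cast hq
    refine ⟨?_, Nat.le_floor (by nlinarith)⟩
    rw [hBx, Set.Finite.mem_toFinset]
    intro i
    rw [sub_zero]
    have h2 := (norm_le_pi_norm (fun i => (x i : ℝ) / (γ * q)) i).trans c1
    rw [Real.norm_eq_abs, abs_div, abs_of_pos (show (0 : ℝ) < γ * q by positivity),
      div_le_iff₀ (by positivity)] at h2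
    refine h2.trans (mul_le_mul_of_nonneg_left c3 hA.le)
  -- left side
  have hL : DE Y k G vl T = ∑ q ∈ Finset.Icc 1 N, ∑ x ∈ Bx, if EP Y k x q then
      G (fun i => (x i : ℝ) / (gY Y k x * q), (gY Y k x : ℝ) * q / √T, vl (red (pm Y ^ k) x)) else 0 := by
    rw [DE, fs_eq _ _ (Bx ×ˢ Finset.Icc 1 N)]
    · rw [Finset.sum_product, Finset.sum_comm]
      refine Finset.sum_congr rfl fun q _ => Finset.sum_congr rfl fun x _ => ?_
      simp only [Set.mem_ofPred_eq]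
    · rintro ⟨x, q⟩ hz hne
      rw [Set.mem_ofPred_eq] at hz
      simp only at hz hne
      obtain ⟨m1, m2⟩ := hBm x (gY Y k x) q _ (gY_pos Y k x) hz.2.1 hne
      exact Finset.mem_product.2 ⟨m1, Finset.mem_Icc.2 ⟨hz.2.1, m2⟩⟩
  have hR : ∀ r : Fin 5 → ZMod (pm Y ^ k), DR (pm Y) (pm Y ^ k) (lft r) (gY Y k (lft r))
        (fun z => G (z.1, z.2, vl r)) T = ∑ q ∈ Finset.Icc 1 N, ∑ x ∈ Bx,
        if Nat.Coprime q (pm Y) ∧ red (pm Y ^ k) x = r ∧ red q x ∈ CC q then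
          G (fun i => (x i : ℝ) / (gY Y k (lft r) * q), (gY Y k (lft r) : ℝ) * q / √T, vl r) else 0 := by
    intro r
    rw [DR_eq (hG (vl r)) _ _ _ _ (gY_pos Y k _) T hT N (hNlt _ (gY_pos Y k _)), SJ,
      Finset.sum_filter]
    refine Finset.sum_congr rfl fun q hq => ?_
    rw [Finset.mem_Icc] at hq
    rw [fs_eq _ _ Bx (fun x _ hne => (hBm x _ q _ (gY_pos Y k _) hq.1 hne).1)]
    by_cases hc : Nat.Coprime q (pm Y)
    · rw [if_pos hc]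
      refine Finset.sum_congr rfl fun x _ => ?_
      simp only [Set.mem_ofPred_eq, dvd_lft_iff]
      by_cases h : red (pm Y ^ k) x = r ∧ red q x ∈ CC q
      · rw [if_pos h, if_pos ⟨hc, h⟩]
      · rw [if_neg h, if_neg fun h' => h h'.2]
    · rw [if_neg hc]
      symm
      refine Finset.sum_eq_zero fun x _ => ?_
      rw [if_neg fun h' => hc h'.1]
  rw [hL, Finset.sum_congr rfl fun r _ => hR r]
  refine Eq.trans ?_ Finset.sum_comm
  refine Finset.sum_congr rfl fun q hq => ?_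
  rw [Finset.mem_Icc] at hq
  refine Eq.trans ?_ Finset.sum_comm
  refine Finset.sum_congr rfl fun x _ => ?_
  have hlx : ∀ i, ((pm Y ^ k : ℕ) : ℤ) ∣ x i - lft (red (pm Y ^ k) x) i :=
    (dvd_lft_iff x _).2 rfl
  have hlx' : ∀ i, ((pm Y ^ k : ℕ) : ℤ) ∣ lft (red (pm Y ^ k) x) i - x i := fun i => by
    rw [← dvd_neg, neg_sub]
    exact hlx i
  by_cases h : EP Y k x q
  · rw [if_pos h, Finset.sum_eq_single (red (pm Y ^ k) x)]
    · rw [if_pos ⟨h.2.2.1, rfl, h.2.2.2⟩, gY_congr hlx]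
    · intro r _ hr
      rw [if_neg fun h' => hr h'.2.1.symm]
    · intro hn
      refine absurd (Finset.mem_filter.2 ⟨Finset.mem_univ (red (pm Y ^ k) x), ?_⟩) hn
      exact good_congr hk hlx h.1
  · rw [if_neg h]
    symm
    refine Finset.sum_eq_zero fun r hr => ?_
    rw [if_neg]
    rintro ⟨h1, h2, h3⟩
    apply h
    rw [Finset.mem_filter] at hr
    subst h2
    exact ⟨good_congr hk hlx' hr.2, hq.1, h1, h3⟩

end

end Pool.Agent.KS6_53.V5
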