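import Pool.Agent.KS6_53.V5.Shell

set_option autoImplicit false
set_option linter.style.haveILetI false

namespace Pool.Agent.KS6_53.V5

open Finset

/-- the primitive vector of a direction -/
theorem exists_prim {ι : Type*} [Fintype ι] {x : ι → ℤ} (hx : x ≠ 0) :
    ∃ (g : ℤ) (v : ι → ℤ), 0 < g ∧ Unimod v ∧ x = g • v := by
  classical
  set G : ℕ := Finset.univ.gcd fun i => (x i).natAbs with hG
  have hdvd : ∀ i, (G : ℤ) ∣ x i := fun i => Int.natCast_dvd.2 (Finset.gcd_dvd (mem_univ i))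
  have hG0 : G ≠ 0 := by
    intro h
    rw [hG, Finset.gcd_eq_zero_iff] at h
    exact hx (funext fun i => Int.natAbs_eq_zero.1 (h i (mem_univ i)))
  choose v hv using hdvd
  refine ⟨G, v, by exact_mod_cast Nat.pos_of_ne_zero hG0, ?_, ?_⟩
  · rw [unimod_int_iff]
    intro p hp
    by_contra hc
    push Not at hc
    have h3 : G * p ∣ G := by
      conv_rhs => rw [hG]
      refine Finset.dvd_gcd fun i _ => Int.natCast_dvd.1 ?_
      rw [hv i]
      push_cast
      exact mul_dvd_mul_left _ (hc i)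
    have h4 := Nat.le_of_dvd (Nat.pos_of_ne_zero hG0) h3
    have := hp.two_le
    have := Nat.pos_of_ne_zero hG0
    nlinarith
  · funext i
    rw [Pi.smul_apply, smul_eq_mul]
    exact hv i

theorem ml_smul_left {R : Type*} [CommRing R] (a : R) (l : Fin 3 → R) (x : Fin 5 → R) :
    ml (a • l) x = a • ml l x := by
  funext i
  fin_cases i <;> simp [ml] <;> ring

/-- the integral primitive vectors of the cone -/
theorem cone_pf {x : Fin 5 → ℤ} (hx : Unimod x) (hm : mm x = 0) :
    ∃ v : Fin 3 → ℤ, Unimod v ∧ (x = pf v ∨ x = -pf v) := by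
  obtain ⟨e, he⟩ := mu_unimod hx
  have h1 : ∃ p, mu x p ≠ 0 := by
    by_contra hc
    push Not at hc
    simp [hc] at he
  obtain ⟨p, hp⟩ := h1
  obtain ⟨g, v, hg, hv, hgv⟩ := exists_prim hp
  have h2 : ml v x = 0 := by
    have h3 : g • ml v x = 0 := by
      rw [← ml_smul_left, ← hgv]
      funext i
      rw [ml_mu, hm]
      rfl
    funext i
    have := congrFun h3 i
    rw [Pi.smul_apply, smul_eq_mul, Pi.zero_apply] at this
    exact (mul_eq_zero.1 this).resolve_left hg.ne'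
  have h3 : wedge (pf v) x = 0 := by rw [wedge_pf, h2, LL_zero]
  exact ⟨v, hv, prim_parallel (pf_unimod hv) hx h3⟩

section

variable {R : Type*} [CommRing R]

/-- tangent vectors of the cone -/
def tg (l : Fin 3 → R) : Fin 3 → Fin 5 → R :=
  ![![0, 0, -l 2, -l 1, 2 * l 0], ![0, -l 2, 2 * l 1, -l 0, 0], ![2 * l 2, -l 1, -l 0, 0, 0]]

theorem ml_tg {v : Fin 3 → R} {y : Fin 5 → R} (h : Iso (pf v) y) (k : Fin 3) :
    ∑ i, ml v y i * tg v k i = 0 := by
  obtain ⟨h0, h1, h2⟩ := h
  simp only [b0, b1, b2, pf, Matrix.cons_val] at h0 h1 h2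
  rw [Fin.sum_univ_five]
  fin_cases k <;> simp only [ml, tg, Fin.zero_eta, Fin.mk_one, Fin.reduceFinMk, Matrix.cons_val]
  · linear_combination h0
  · linear_combination h1
  · linear_combination h2

/-- the plane orthogonal to the tangent space -/
def cst (l : Fin 3 → R) : Fin 5 × Fin 5 → R := fun p =>
  (![![0, -l 0 ^ 3, l 0 ^ 2 * l 1, l 0 * (l 0 * l 2 + 2 * l 1 ^ 2), l 1 * (l 0 * l 2 + l 1 ^ 2)],
    ![l 0 ^ 3, 0, 2 * l 0 ^ 2 * l 2, 4 * l 0 * l 1 * l 2, l 2 * (l 0 * l 2 + 2 * l 1 ^ 2)],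
    ![-(l 0 ^ 2 * l 1), -(2 * l 0 ^ 2 * l 2), 0, 2 * l 0 * l 2 ^ 2, l 1 * l 2 ^ 2],
    ![-(l 0 * (l 0 * l 2 + 2 * l 1 ^ 2)), -(4 * l 0 * l 1 * l 2), -(2 * l 0 * l 2 ^ 2), 0,
      -l 2 ^ 3],
    ![-(l 1 * (l 0 * l 2 + l 1 ^ 2)), -(l 2 * (l 0 * l 2 + 2 * l 1 ^ 2)), -(l 1 * l 2 ^ 2),
      l 2 ^ 3, 0]] : Fin 5 → Fin 5 → R) p.1 p.2

set_option maxHeartbeats 4000000 in
theorem two_in_cst {l : Fin 3 → R} {z : Fin 5 → R} (h : ∀ k, ∑ i, z i * tg l k i = 0)
    (i j k : Fin 5) : 2 * (z i * cst l (j, k) - z j * cst l (i, k) + z k * cst l (i, j)) = 0 := by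
  have h0 := h 0
  have h1 := h 1
  have h2 := h 2
  simp only [Fin.sum_univ_five, tg, Matrix.cons_val] at h0 h1 h2
  have k012 : 2 * (z 0 * cst l (1, 2) - z 1 * cst l (0, 2) + z 2 * cst l (0, 1)) = 0 := by
    simp only [cst, Matrix.cons_val]
    linear_combination 2 * l 0 ^ 2 * h2
  have k013 : 2 * (z 0 * cst l (1, 3) - z 1 * cst l (0, 3) + z 3 * cst l (0, 1)) = 0 := by
    simp only [cst, Matrix.cons_val]
    linear_combination 2 * l 0 ^ 2 * h1 + 4 * l 0 * l 1 * h2
  have k014 : 2 * (z 0 * cst l (1, 4) - z 1 * cst l (0, 4) + z 4 * cst l (0, 1)) = 0 := by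
    simp only [cst, Matrix.cons_val]
    linear_combination -(l 0 ^ 2) * h0 + l 0 * l 1 * h1 + (l 0 * l 2 + 2 * l 1 ^ 2) * h2
  have k023 : 2 * (z 0 * cst l (2, 3) - z 2 * cst l (0, 3) + z 3 * cst l (0, 2)) = 0 := by
    simp only [cst, Matrix.cons_val]
    linear_combination -(2 * l 0 * l 1) * h1 + 2 * l 0 * l 2 * h2
  have k024 : 2 * (z 0 * cst l (2, 4) - z 2 * cst l (0, 4) + z 4 * cst l (0, 2)) = 0 := by
    simp only [cst, Matrix.cons_val]
    linear_combination l 0 * l 1 * h0 - l 1 ^ 2 * h1 + l 1 * l 2 * h2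
  have k034 : 2 * (z 0 * cst l (3, 4) - z 3 * cst l (0, 4) + z 4 * cst l (0, 3)) = 0 := by
    simp only [cst, Matrix.cons_val]
    linear_combination (l 0 * l 2 + 2 * l 1 ^ 2) * h0 + l 1 * l 2 * h1 - l 2 ^ 2 * h2
  have k123 : 2 * (z 1 * cst l (2, 3) - z 2 * cst l (1, 3) + z 3 * cst l (1, 2)) = 0 := by
    simp only [cst, Matrix.cons_val]
    linear_combination -(4 * l 0 * l 2) * h1
  have k124 : 2 * (z 1 * cst l (2, 4) - z 2 * cst l (1, 4) + z 4 * cst l (1, 2)) = 0 := by
    simp only [cst, Matrix.cons_val]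
    linear_combination 2 * l 0 * l 2 * h0 - 2 * l 1 * l 2 * h1
  have k134 : 2 * (z 1 * cst l (3, 4) - z 3 * cst l (1, 4) + z 4 * cst l (1, 3)) = 0 := by
    simp only [cst, Matrix.cons_val]
    linear_combination 4 * l 1 * l 2 * h0 + 2 * l 2 ^ 2 * h1
  have k234 : 2 * (z 2 * cst l (3, 4) - z 3 * cst l (2, 4) + z 4 * cst l (2, 3)) = 0 := by
    simp only [cst, Matrix.cons_val]
    linear_combination 2 * l 2 ^ 2 * h0
  clear h0 h1 h2 h
  have hd : ∀ i, cst l (i, i) = 0 := by
    intro i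
    fin_cases i <;> simp [cst]
  have a10 : cst l (1, 0) = - cst l (0, 1) := by simp [cst]
  have a20 : cst l (2, 0) = - cst l (0, 2) := by simp [cst]
  have a30 : cst l (3, 0) = - cst l (0, 3) := by simp [cst]
  have a40 : cst l (4, 0) = - cst l (0, 4) := by simp [cst]
  have a21 : cst l (2, 1) = - cst l (1, 2) := by simp [cst]
  have a31 : cst l (3, 1) = - cst l (1, 3) := by simp [cst]
  have a41 : cst l (4, 1) = - cst l (1, 4) := by simp [cst]
  have a32 : cst l (3, 2) = - cst l (2, 3) := by simp [cst]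
  have a42 : cst l (4, 2) = - cst l (2, 4) := by simp [cst]
  have a43 : cst l (4, 3) = - cst l (3, 4) := by simp [cst]
  fin_cases i <;> fin_cases j <;> fin_cases k <;>
    simp only [Fin.zero_eta, Fin.mk_one, Fin.reduceFinMk, hd, a10, a20, a30, a40, a21, a31, a41,
      a32, a42, a43] <;>
    first
    | ring1
    | linear_combination k012
    | linear_combination k013
    | linear_combination k014
    | linear_combination k023
    | linear_combination k024
    | linear_combination k034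
    | linear_combination k123
    | linear_combination k124
    | linear_combination k134
    | linear_combination k234
    | linear_combination -k012
    | linear_combination -k013
    | linear_combination -k014
    | linear_combination -k023
    | linear_combination -k024
    | linear_combination -k034
    | linear_combination -k123
    | linear_combination -k124
    | linear_combination -k134
    | linear_combination -k234

end

theorem in_cst {l : Fin 3 → ℤ} {z : Fin 5 → ℤ} (h : ∀ k, ∑ i, z i * tg l k i = 0) :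
    In (cst l) z := by
  intro i j k
  have := two_in_cst h i j k
  omega

theorem cst_unimod {l : Fin 3 → ℤ} (hl : Unimod l) : Unimod (cst l) := by
  rw [unimod_int_iff] at hl ⊢
  intro p hp
  by_contra hc
  push Not at hc
  have hp' : Prime (p : ℤ) := Nat.prime_iff_prime_int.1 hp
  have h0 : (p : ℤ) ∣ l 0 := by
    have := hc (1, 0)
    simp only [cst, Matrix.cons_val] at this
    exact hp'.dvd_of_dvd_pow this
  have h2 : (p : ℤ) ∣ l 2 := by
    have := hc (4, 3)
    simp only [cst, Matrix.cons_val] at this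
    exact hp'.dvd_of_dvd_pow this
  have h1 : (p : ℤ) ∣ l 1 := by
    have := hc (0, 4)
    simp only [cst, Matrix.cons_val] at this
    have e : l 1 * (l 0 * l 2 + l 1 ^ 2) = l 1 ^ 3 + l 1 * l 2 * l 0 := by ring
    rw [e] at this
    exact hp'.dvd_of_dvd_pow ((dvd_add_left (Dvd.dvd.mul_left h0 _)).1 this)
  obtain ⟨i, hi⟩ := hl p hp
  fin_cases i
  · exact hi h0
  · exact hi h1
  · exact hi h2

theorem nz_cst_ge (l : Fin 3 → ℤ) : nz l ^ 3 ≤ 8 * nz (cst l) := by
  obtain ⟨i, hi⟩ := exists_nz l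
  have n := nz_nonneg l
  have p10 := le_nz (cst l) (1, 0)
  have p43 := le_nz (cst l) (4, 3)
  have p04 := le_nz (cst l) (0, 4)
  simp only [show cst l (1, 0) = l 0 ^ 3 from rfl, show cst l (4, 3) = l 2 ^ 3 from rfl,
    show cst l (0, 4) = l 1 * (l 0 * l 2 + l 1 ^ 2) from rfl] at p10 p43 p04
  push_cast at p10 p43 p04
  rw [abs_pow] at p10 p43
  by_cases c0 : nz l / 2 ≤ |(l 0 : ℝ)|
  · have := pow_le_pow_left₀ (by positivity) c0 3
    rw [div_pow] at this
    linarith
  by_cases c2 : nz l / 2 ≤ |(l 2 : ℝ)|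
  · have := pow_le_pow_left₀ (by positivity) c2 3
    rw [div_pow] at this
    linarith
  push Not at c0 c2
  have hi1 : nz l = |(l 1 : ℝ)| := by
    fin_cases i
    · simp only [Fin.zero_eta] at hi
      linarith
    · simpa using hi
    · simp only [Fin.reduceFinMk] at hi
      linarith
  have e1 : |(l 0 : ℝ) * l 2| ≤ nz l / 2 * (nz l / 2) := abs_mul_le c0.le c2.le
  have e2 : (l 1 : ℝ) ^ 2 = nz l ^ 2 := by rw [hi1, sq_abs]
  have e3 := abs_le.1 e1
  rw [abs_mul, ← hi1] at p04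
  have e4 : 3 / 4 * nz l ^ 2 ≤ |(l 0 : ℝ) * l 2 + l 1 ^ 2| := by
    rw [e2]
    refine le_trans ?_ (le_abs_self _)
    nlinarith
  have e5 := mul_le_mul_of_nonneg_left e4 n
  have e6 : 0 ≤ nz l ^ 3 := by positivity
  nlinarith

end Pool.Agent.KS6_53.V5
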