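import Pool.Agent.KS6_53.V5.Bl5
import Pool.Agent.KS6_53.V5.STyp

set_option autoImplicit false

namespace Pool.Agent.KS6_53.V5

open Finset Filter Topology MeasureTheory

/-- the box pairs -/
def BX (A δ T : ℝ) (d : ℕ) : Set ((Fin 5 → ℤ) × ℕ) :=
  {z | nz z.1 ≤ A * √T ∧ δ * √T ≤ z.2 ∧ (z.2 : ℝ) ≤ A * √T ∧ d ∣ z.2 ∧ red z.2 z.1 ∈ CC z.2}

/-- the term -/
noncomputable def FG (G : (Fin 5 → ℝ) × ℝ × ℝ → ℝ) (v : (Fin 5 → ℤ) → ℝ) (T : ℝ)
    (z : (Fin 5 → ℤ) × ℕ) : ℝ := G (fun i => (z.1 i : ℝ) / z.2, (z.2 : ℝ) / √T, v z.1)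

def SD (Y k : ℕ) : Set ((Fin 5 → ℤ) × ℕ) := {z | ∃ q, EP Y k z.1 q ∧ z.2 = gY Y k z.1 * q}

def SB : Set ((Fin 5 → ℤ) × ℕ) := {z | Unimod z.1 ∧ mm z.1 ≠ 0 ∧ z.2 = gg z.1}

section

variable {G : (Fin 5 → ℝ) × ℝ × ℝ → ℝ}

theorem DE_FG (Y k : ℕ) (vl : (Fin 5 → ZMod (pm Y ^ k)) → ℝ) (T : ℝ) :
    DE Y k G vl T = ∑ᶠ z ∈ SD Y k, FG G (fun x => vl (red (pm Y ^ k) x)) T z := by
  have h1 : SD Y k = (fun z : (Fin 5 → ℤ) × ℕ => (z.1, gY Y k z.1 * z.2)) ''
      {z : (Fin 5 → ℤ) × ℕ | EP Y k z.1 z.2} := by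
    ext ⟨x, g⟩
    constructor
    · rintro ⟨q, h1, h2⟩
      exact ⟨(x, q), h1, by simp only at h2; rw [h2]⟩
    · rintro ⟨⟨x', q⟩, h1, h2⟩
      simp only [Prod.mk.injEq] at h2
      obtain ⟨rfl, rfl⟩ := h2
      exact ⟨q, h1, rfl⟩
  rw [h1, finsum_mem_image, DE]
  · refine finsum_congr fun z => finsum_congr fun _ => ?_
    rw [FG]
    push_cast
    rfl
  · rintro ⟨x, q⟩ _ ⟨x', q'⟩ _ h
    simp only [Prod.mk.injEq] at h
    obtain ⟨rfl, h⟩ := h
    rw [Nat.eq_of_mul_eq_mul_left (gY_pos Y k x) h]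

theorem BS_FG (θ : (Fin 5 → ℤ) → ℝ) (T : ℝ) : BS G θ T = ∑ᶠ z ∈ SB, FG G θ T z := by
  have h1 : SB = (fun x : Fin 5 → ℤ => (x, gg x)) '' {x | Unimod x ∧ mm x ≠ 0} := by
    ext ⟨x, g⟩
    constructor
    · rintro ⟨h1, h2, h3⟩
      simp only at h3
      exact ⟨x, ⟨h1, h2⟩, by rw [h3]⟩
    · rintro ⟨x', ⟨h1, h2⟩, h3⟩
      simp only [Prod.mk.injEq] at h3
      obtain ⟨rfl, rfl⟩ := h3
      exact ⟨h1, h2, rfl⟩
  rw [h1, finsum_mem_image, BS]
  · rfl
  · intro x _ x' _ h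
    exact (Prod.mk.inj h).1

theorem FG_supp {A δ : ℝ} (hA : 0 < A) (hδ : 0 < δ)
    (hs : ∀ z, G z ≠ 0 → ‖z.1‖ ≤ A ∧ δ ≤ ‖mm z.1‖ ∧ δ ≤ z.2.1 ∧ z.2.1 ≤ A) {v : (Fin 5 → ℤ) → ℝ}
    {T : ℝ} (hT : 0 < T) {z : (Fin 5 → ℤ) × ℕ} (hz : FG G v T z ≠ 0) :
    mm z.1 ≠ 0 ∧ nz z.1 ≤ (A * A + A) * √T ∧ δ * √T ≤ z.2 ∧ (z.2 : ℝ) ≤ (A * A + A) * √T := by
  have hsT : 0 < √T := Real.sqrt_pos.2 hT
  obtain ⟨h1, h2, h3, h4⟩ := hs _ hz
  simp only at h1 h2 h3 h4
  rw [le_div_iff₀ hsT] at h3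
  rw [div_le_iff₀ hsT] at h4
  have hg : (0 : ℝ) < z.2 := lt_of_lt_of_le (by positivity) h3
  have hu : (fun i => (z.1 i : ℝ) / z.2) = (z.2 : ℝ)⁻¹ • rv z.1 := by
    funext i
    rw [Pi.smul_apply, smul_eq_mul, div_eq_inv_mul, rv]
  rw [hu] at h1 h2
  refine ⟨?_, ?_, h3, ?_⟩
  · intro h0
    rw [mm_smul, ← rv_mm, h0] at h2
    have : (rv (0 : Fin 5 × Fin 5 → ℤ)) = 0 := by
      funext p
      simp [rv]
    rw [this, smul_zero, norm_zero] at h2
    linarith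
  · rw [norm_smul, norm_inv, Real.norm_of_nonneg hg.le, inv_mul_le_iff₀ hg] at h1
    have : nz z.1 ≤ z.2 * A := h1
    nlinarith
  · nlinarith [mul_pos (mul_pos hA hA) hsT]

theorem sum_ind_le {S : Set ((Fin 5 → ℤ) × ℕ)} (hS : S.Finite) (Z : Finset ((Fin 5 → ℤ) × ℕ)) :
    ∑ z ∈ Z, S.indicator (fun _ => (1 : ℝ)) z ≤ S.ncard := by
  classical
  have : ∑ z ∈ Z, S.indicator (fun _ => (1 : ℝ)) z = ((Z.filter (· ∈ S)).card : ℝ) := by
    simp only [Set.indicator_apply]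
    rw [Finset.sum_ite, Finset.sum_const_zero, add_zero, Finset.sum_const, nsmul_eq_mul, mul_one]
  rw [this, Set.ncard_eq_toFinset_card _ hS]
  exact_mod_cast Finset.card_le_card fun x hx => by
    rw [Finset.mem_filter] at hx
    simpa using hx.2

theorem ind_nonneg (S : Set ((Fin 5 → ℤ) × ℕ)) (z : (Fin 5 → ℤ) × ℕ) :
    0 ≤ S.indicator (fun _ => (1 : ℝ)) z := Set.indicator_nonneg (fun _ _ => zero_le_one) z

theorem comp0 {A δ : ℝ} (hA : 0 < A) (hδ : 0 < δ)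
    (hs : ∀ z, G z ≠ 0 → ‖z.1‖ ≤ A ∧ δ ≤ ‖mm z.1‖ ∧ δ ≤ z.2.1 ∧ z.2.1 ≤ A) :
    ∃ C : ℝ, 0 < C ∧ ∀ (Y k k1 : ℕ) (P : Finset ℕ) (vl : (Fin 5 → ZMod (pm Y ^ k)) → ℝ)
      (θ : (Fin 5 → ℤ) → ℝ) (B ε2 T : ℝ), 0 < T → 0 ≤ B → 0 ≤ ε2 → (∀ p ∈ P, p.Prime) →
      (∀ u s r, |G (u, s, vl r)| ≤ B) → (∀ u s x, |G (u, s, θ x)| ≤ B) →
      (∀ x, Unimod x → (∀ p ∈ P, ¬ p ^ k1 ∣ gg x) → ∀ u s,
        |G (u, s, vl (red (pm Y ^ k) x)) - G (u, s, θ x)| ≤ ε2) →
      |DE Y k G vl T - BS G θ T| ≤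
        C * (B * tail Y + B * ((Y + 1) / 2 ^ k) + B * (P.card / 2 ^ k1) + ε2) * T ^ 2 := by
  classical
  obtain ⟨C1, hC1, k1'⟩ := GG_card (A * A + A) δ (by positivity) hδ
  obtain ⟨C2, hC2, k2'⟩ := BX_card (A * A + A) δ (by positivity) hδ
  refine ⟨C1 + 2 * C2, by positivity, fun Y k k1 P vl θ B ε2 T hT hB hε2 hP hBv hBθ hcl => ?_⟩
  have hsT : 0 < √T := Real.sqrt_pos.2 hT
  set v : (Fin 5 → ℤ) → ℝ := fun x => vl (red (pm Y ^ k) x) with hv
  set A' := A * A + A with hA'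
  have hA'0 : 0 < A' := by positivity
  have hBXc : ∀ d : ℕ, 1 ≤ d → (BX A' δ T d).Finite ∧ ((BX A' δ T d).ncard : ℝ) ≤ C2 * T ^ 2 / d :=
    fun d hd => k2' T hT d hd
  obtain ⟨g1, g2⟩ := k1' T hT Y
  -- the finite set
  have hZfin : {z : (Fin 5 → ℤ) × ℕ | nz z.1 ≤ A' * √T ∧ (z.2 : ℝ) ≤ A' * √T}.Finite := by
    refine ((nz_fin (A' * √T)).prod (Set.finite_Iic ⌊A' * √T⌋₊)).subset ?_
    rintro ⟨x, g⟩ ⟨h1, h2⟩
    exact ⟨h1, Nat.le_floor h2⟩
  set Z := hZfin.toFinset with hZ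
  have hFZ : ∀ (w : (Fin 5 → ℤ) → ℝ) (z : (Fin 5 → ℤ) × ℕ), FG G w T z ≠ 0 → z ∈ Z := by
    intro w z hz
    obtain ⟨-, a, -, c⟩ := FG_supp hA hδ hs hT hz
    rw [hZ, Set.Finite.mem_toFinset]
    exact ⟨a, c⟩
  rw [DE_FG, BS_FG, fs_eq _ _ Z (fun z _ hz => hFZ _ z hz), fs_eq _ _ Z (fun z _ hz => hFZ _ z hz),
    ← Finset.sum_sub_distrib]
  refine (Finset.abs_sum_le_sum_abs _ _).trans ?_
  set PP := (Finset.range (Y + 1)).filter Nat.Prime with hPP
  -- pointwise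
  have hpt : ∀ z ∈ Z, |(if z ∈ SD Y k then FG G v T z else 0) - (if z ∈ SB then FG G θ T z else 0)| ≤
      B * (GG A' δ T Y).indicator (fun _ => (1 : ℝ)) z +
      ∑ p ∈ PP, B * (BX A' δ T (p ^ k)).indicator (fun _ => (1 : ℝ)) z +
      ∑ p ∈ P, 2 * B * (BX A' δ T (p ^ k1)).indicator (fun _ => (1 : ℝ)) z +
      ε2 * (BX A' δ T 1).indicator (fun _ => (1 : ℝ)) z := by
    rintro ⟨x, g⟩ -
    have n1 : 0 ≤ B * (GG A' δ T Y).indicator (fun _ => (1 : ℝ)) (x, g) :=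
      mul_nonneg hB (ind_nonneg _ _)
    have n2 : 0 ≤ ∑ p ∈ PP, B * (BX A' δ T (p ^ k)).indicator (fun _ => (1 : ℝ)) (x, g) :=
      Finset.sum_nonneg fun p _ => mul_nonneg hB (ind_nonneg _ _)
    have n3 : 0 ≤ ∑ p ∈ P, 2 * B * (BX A' δ T (p ^ k1)).indicator (fun _ => (1 : ℝ)) (x, g) :=
      Finset.sum_nonneg fun p _ => mul_nonneg (by positivity) (ind_nonneg _ _)
    have n4 : 0 ≤ ε2 * (BX A' δ T 1).indicator (fun _ => (1 : ℝ)) (x, g) :=
      mul_nonneg hε2 (ind_nonneg _ _)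
    have bv : |FG G v T (x, g)| ≤ B := hBv _ _ _
    have bθ : |FG G θ T (x, g)| ≤ B := hBθ _ _ _
    by_cases hD : (x, g) ∈ SD Y k <;> by_cases hSB : (x, g) ∈ SB
    · -- both
      rw [if_pos hD, if_pos hSB]
      obtain ⟨hu, hm, hg⟩ := hSB
      simp only at hu hm hg
      by_cases h0 : FG G v T (x, g) = 0 ∧ FG G θ T (x, g) = 0
      · rw [h0.1, h0.2, sub_zero, abs_zero]
        positivity
      have hbox : nz x ≤ A' * √T ∧ δ * √T ≤ g ∧ (g : ℝ) ≤ A' * √T := by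
        by_cases h1 : FG G v T (x, g) = 0
        · have h2 : FG G θ T (x, g) ≠ 0 := fun h2 => h0 ⟨h1, h2⟩
          exact (FG_supp hA hδ hs hT h2).2
        · exact (FG_supp hA hδ hs hT h1).2
      by_cases hPk : ∀ p ∈ P, ¬ p ^ k1 ∣ gg x
      · have h1 := hcl x hu hPk (fun i => (x i : ℝ) / g) ((g : ℝ) / √T)
        have h2 : (x, g) ∈ BX A' δ T 1 := ⟨hbox.1, hbox.2.1, hbox.2.2, one_dvd _, by
          simp only
          rw [hg]
          exact red_mem_CC hu dvd_rfl⟩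
        rw [Set.indicator_of_mem h2, mul_one] at n4 ⊢
        have h3 : |FG G v T (x, g) - FG G θ T (x, g)| ≤ ε2 := h1
        linarith
      · push Not at hPk
        obtain ⟨p, hp, hpk⟩ := hPk
        have h2 : (x, g) ∈ BX A' δ T (p ^ k1) := ⟨hbox.1, hbox.2.1, hbox.2.2, by
          simp only
          rw [hg]
          exact hpk, by
          simp only
          rw [hg]
          exact red_mem_CC hu dvd_rfl⟩
        have h3 : 2 * B ≤ ∑ p ∈ P, 2 * B * (BX A' δ T (p ^ k1)).indicator (fun _ => (1 : ℝ)) (x, g) := by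
          have := Finset.single_le_sum (f := fun p => 2 * B *
            (BX A' δ T (p ^ k1)).indicator (fun _ => (1 : ℝ)) (x, g))
            (fun p _ => mul_nonneg (by positivity) (ind_nonneg _ _)) hp
          rw [Set.indicator_of_mem h2, mul_one] at this
          exact this
        have h4 : |FG G v T (x, g) - FG G θ T (x, g)| ≤ 2 * B := (abs_sub _ _).trans (by linarith)
        linarith
    · -- only in the sum over the pairs
      rw [if_pos hD, if_neg hSB, sub_zero]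
      by_cases h0 : FG G v T (x, g) = 0
      · rw [h0, abs_zero]
        positivity
      obtain ⟨m1, m2, m3, m4⟩ := FG_supp hA hδ hs hT h0
      simp only at m1 m2 m3 m4
      obtain ⟨q, hq, hgq⟩ := hD
      simp only at hq hgq
      have hx0 : x ≠ 0 := by
        rintro rfl
        apply m1
        funext p
        simp [mm, wedge]
      obtain ⟨j, x', hj, hx', hxx⟩ := exists_prim hx0
      obtain ⟨j, rfl⟩ := Int.eq_ofNat_of_zero_le hj.le
      have hj1 : 1 ≤ j := by exact_mod_cast hj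
      obtain ⟨p1, p2, p3⟩ := pair1 hq m1 hj1 hx' hxx
      have hGGm : (x, g) ∈ GG A' δ T Y := by
        refine ⟨m1, m2, m3, j, x', hj1, hx', hxx, by rw [hgq]; exact p1, ?_⟩
        simp only
        rw [hgq]
        rcases p2 with p2 | p2
        · rcases p3 with p3 | p3
          · exfalso
            apply hSB
            rw [p2] at hxx
            have hxe : x = x' := by
              rw [hxx]
              simp
            refine ⟨?_, m1, ?_⟩
            · simp only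
              rw [hxe]
              exact hx'
            · simp only
              rw [hgq, ← p3, hxe]
          · exact Or.inr p3
        · exact Or.inl p2
      rw [Set.indicator_of_mem hGGm, mul_one] at n1 ⊢
      linarith
    · -- only in the sum over the vectors
      rw [if_neg hD, if_pos hSB, zero_sub, abs_neg]
      by_cases h0 : FG G θ T (x, g) = 0
      · rw [h0, abs_zero]
        positivity
      obtain ⟨m1, m2, m3, m4⟩ := FG_supp hA hδ hs hT h0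
      simp only at m1 m2 m3 m4
      obtain ⟨hu, hm, hg⟩ := hSB
      simp only at hu hm hg
      have hng : ¬ Good Y k x := by
        intro hgd
        obtain ⟨q, hq1, hq2⟩ := pair2 hu hm hgd
        exact hD ⟨q, hq1, by simp only; rw [hg, hq2]⟩
      have : ∃ p, p.Prime ∧ p ≤ Y ∧ p ^ k ∣ gg x := by
        by_contra hc
        push Not at hc
        apply hng
        intro p hp hpY
        refine ⟨?_, hc p hp hpY⟩
        exact (unimod_int_iff x).1 hu p hp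
      obtain ⟨p, hp, hpY, hpk⟩ := this
      have h2 : (x, g) ∈ BX A' δ T (p ^ k) := ⟨m2, m3, m4, by
        simp only
        rw [hg]
        exact hpk, by
        simp only
        rw [hg]
        exact red_mem_CC hu dvd_rfl⟩
      have hpPP : p ∈ PP := Finset.mem_filter.2 ⟨Finset.mem_range.2 (by omega), hp⟩
      have h3 : B ≤ ∑ p ∈ PP, B * (BX A' δ T (p ^ k)).indicator (fun _ => (1 : ℝ)) (x, g) := by
        have := Finset.single_le_sum (f := fun p => B *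
          (BX A' δ T (p ^ k)).indicator (fun _ => (1 : ℝ)) (x, g))
          (fun p _ => mul_nonneg hB (ind_nonneg _ _)) hpPP
        rw [Set.indicator_of_mem h2, mul_one] at this
        exact this
      linarith
    · rw [if_neg hD, if_neg hSB, sub_zero, abs_zero]
      positivity
  refine (Finset.sum_le_sum hpt).trans ?_
  rw [Finset.sum_add_distrib, Finset.sum_add_distrib, Finset.sum_add_distrib, ← Finset.mul_sum,
    ← Finset.mul_sum]
  have s1 := sum_ind_le g1 Z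
  have s2 : ∑ z ∈ Z, ∑ p ∈ PP, B * (BX A' δ T (p ^ k)).indicator (fun _ => (1 : ℝ)) z ≤
      B * (C2 * T ^ 2 * ((Y + 1) / 2 ^ k)) := by
    rw [Finset.sum_comm]
    have : ∀ p ∈ PP, ∑ z ∈ Z, B * (BX A' δ T (p ^ k)).indicator (fun _ => (1 : ℝ)) z ≤
        B * (C2 * T ^ 2 / 2 ^ k) := by
      intro p hp
      have hp2 := (Finset.mem_filter.1 hp).2
      obtain ⟨b1, b2⟩ := hBXc (p ^ k) (Nat.one_le_pow _ _ hp2.pos)
      rw [← Finset.mul_sum]
      refine mul_le_mul_of_nonneg_left (((sum_ind_le b1 Z).trans b2).trans ?_) hB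
      push_cast
      refine div_le_div_of_nonneg_left (by positivity) (by positivity) ?_
      exact pow_le_pow_left₀ (by norm_num) (by exact_mod_cast hp2.two_le) k
    refine (Finset.sum_le_sum this).trans ?_
    rw [Finset.sum_const, nsmul_eq_mul]
    have hc : (PP.card : ℝ) ≤ Y + 1 := by
      have := Finset.card_filter_le (Finset.range (Y + 1)) Nat.Prime
      rw [Finset.card_range] at this
      exact_mod_cast this
    calc (PP.card : ℝ) * (B * (C2 * T ^ 2 / 2 ^ k)) ≤ (Y + 1) * (B * (C2 * T ^ 2 / 2 ^ k)) :=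
          mul_le_mul_of_nonneg_right hc (by positivity)
      _ = _ := by ring
  have s3 : ∑ z ∈ Z, ∑ p ∈ P, 2 * B * (BX A' δ T (p ^ k1)).indicator (fun _ => (1 : ℝ)) z ≤
      2 * B * (C2 * T ^ 2 * (P.card / 2 ^ k1)) := by
    rw [Finset.sum_comm]
    have : ∀ p ∈ P, ∑ z ∈ Z, 2 * B * (BX A' δ T (p ^ k1)).indicator (fun _ => (1 : ℝ)) z ≤
        2 * B * (C2 * T ^ 2 / 2 ^ k1) := by
      intro p hp
      have hp2 := hP p hp
      obtain ⟨b1, b2⟩ := hBXc (p ^ k1) (Nat.one_le_pow _ _ hp2.pos)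
      rw [← Finset.mul_sum]
      refine mul_le_mul_of_nonneg_left (((sum_ind_le b1 Z).trans b2).trans ?_) (by positivity)
      push_cast
      refine div_le_div_of_nonneg_left (by positivity) (by positivity) ?_
      exact pow_le_pow_left₀ (by norm_num) (by exact_mod_cast hp2.two_le) k1
    refine (Finset.sum_le_sum this).trans ?_
    rw [Finset.sum_const, nsmul_eq_mul]
    apply le_of_eq
    ring
  obtain ⟨b1, b2⟩ := hBXc 1 le_rfl
  have s4 := (sum_ind_le b1 Z).trans b2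
  rw [Nat.cast_one, div_one] at s4
  have t1 := mul_le_mul_of_nonneg_left (s1.trans g2) hB
  have t4 := mul_le_mul_of_nonneg_left s4 hε2
  have u1 : 0 ≤ B * tail Y * T ^ 2 := by
    have := tail_nonneg Y
    positivity
  have u2 : 0 ≤ B * ((Y + 1) / 2 ^ k) * T ^ 2 := by positivity
  have u3 : 0 ≤ B * ((P.card : ℝ) / 2 ^ k1) * T ^ 2 := by positivity
  have u4 : 0 ≤ ε2 * T ^ 2 := by positivity
  have v1 := mul_nonneg hC2.le u1
  have v2 := mul_nonneg hC2.le u2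
  have v3 := mul_nonneg hC1.le u3
  have v4 := mul_nonneg hC1.le u4
  have v5 := mul_nonneg hC1.le u2
  have v6 := mul_nonneg hC2.le u4
  calc _ ≤ B * (C1 * tail Y * T ^ 2) + B * (C2 * T ^ 2 * ((Y + 1) / 2 ^ k)) +
        2 * B * (C2 * T ^ 2 * (P.card / 2 ^ k1)) + ε2 * (C2 * T ^ 2) := by
        linarith
    _ ≤ _ := by
      nlinarith

end

end Pool.Agent.KS6_53.V5
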