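import Pool.Agent.KS6_53.V5.Bl6

set_option autoImplicit false

namespace Pool.Agent.KS6_53.V5

open Finset Filter Topology MeasureTheory

section

variable {H : (Fin 5 → ℝ) × ℝ → ℝ} {A δ : ℝ}

theorem II_abs_nonneg (h : Prof H A δ) : 0 ≤ II fun z => |H z| := by
  refine integral_nonneg fun s => ?_
  by_cases hs : Ph (fun z => |H z|) s = 0
  · rw [hs, mul_zero]
    exact le_rfl
  · have h1 := (Ph_supp h.abs hs).1
    have h2 : 0 ≤ s := h.pos.le.trans h1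
    have h3 : 0 ≤ Ph (fun z => |H z|) s := integral_nonneg fun u => abs_nonneg _
    positivity

theorem II_abs_le (h : Prof H A δ) {B : ℝ} (hB : 0 ≤ B) (hH : ∀ z, |H z| ≤ B) :
    (II fun z => |H z|) ≤ A ^ 4 * (B * vb A) := by
  have hA := h.posA
  have hV := vb_nonneg A
  have h1 : (II fun z => |H z|) = ∫ s in Set.Icc 0 A, s ^ 3 * Ph (fun z => |H z|) s := by
    rw [II]
    symm
    refine setIntegral_eq_integral_of_forall_compl_eq_zero fun s hs => ?_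
    by_contra hc
    have h2 : Ph (fun z => |H z|) s ≠ 0 := fun h0 => hc (by rw [h0, mul_zero])
    obtain ⟨a, b⟩ := Ph_supp h.abs h2
    exact hs ⟨h.pos.le.trans a, b⟩
  have h2 : ∀ s, |Ph (fun z => |H z|) s| ≤ B * vb A := by
    intro s
    rw [Ph_eq h.abs]
    have := norm_setIntegral_le_of_norm_le_const (μ := volume)
      (s := Metric.closedBall (0 : Fin 5 → ℝ) A) (f := fun u => |H (u, s)|) (C := B)
      (measure_closedBall_lt_top) (fun u _ => by rw [Real.norm_eq_abs, abs_abs]; exact hH _)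
    rw [Real.norm_eq_abs] at this
    exact this
  rw [h1]
  have h3 := norm_setIntegral_le_of_norm_le_const (μ := volume) (s := Set.Icc (0 : ℝ) A)
    (f := fun s => s ^ 3 * Ph (fun z => |H z|) s) (C := A ^ 3 * (B * vb A)) (by simp) (fun s hs => by
      rw [Real.norm_eq_abs, abs_mul, abs_of_nonneg (pow_nonneg hs.1 3)]
      exact mul_le_mul (pow_le_pow_left₀ hs.1 hs.2 3) (h2 s) (abs_nonneg _) (by positivity))
  rw [Real.norm_eq_abs] at h3
  refine (le_abs_self _).trans (h3.trans (le_of_eq ?_))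
  simp only [Measure.real, Real.volume_Icc, sub_zero, ENNReal.toReal_ofReal hA.le]
  ring

/-- the constant -/
noncomputable def kap (Y k : ℕ) : ℝ := by
  classical
  exact ∑ r ∈ (Finset.univ : Finset (Fin 5 → ZMod (pm Y ^ k))).filter (fun r => Good Y k (lft r)),
    (gY Y k (lft r) : ℝ) / ((pm Y ^ k : ℕ) : ℝ) ^ 5 * cP (pm Y)

/-- the main term -/
noncomputable def MM (Y k : ℕ) (G : (Fin 5 → ℝ) × ℝ × ℝ → ℝ) (vl : (Fin 5 → ZMod (pm Y ^ k)) → ℝ) :
    ℝ := by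
  classical
  exact ∑ r ∈ (Finset.univ : Finset (Fin 5 → ZMod (pm Y ^ k))).filter (fun r => Good Y k (lft r)),
    (gY Y k (lft r) : ℝ) / ((pm Y ^ k : ℕ) : ℝ) ^ 5 * (cP (pm Y) * II fun z => G (z.1, z.2, vl r))

theorem kap_nonneg (Y k : ℕ) : 0 ≤ kap Y k :=
  Finset.sum_nonneg fun r _ => mul_nonneg (by positivity) (cP_nonneg _)

variable {G : (Fin 5 → ℝ) × ℝ × ℝ → ℝ}

theorem ww_ge {p : ℕ} (hp : 1 ≤ p) : 1 / (p : ℝ) ^ 3 ≤ ww p := by
  have hp1 : (1 : ℝ) ≤ p := by exact_mod_cast hp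
  have : 1 / (p : ℝ) ^ 3 = (p : ℝ) ^ (-3 : ℝ) := by
    rw [Real.rpow_neg (by linarith), one_div]
    norm_num
  rw [this, ww]
  exact Real.rpow_le_rpow_of_exponent_le hp1 (by norm_num)

theorem cq_tail {Y q : ℕ} (hq : 1 ≤ q) (hc : Nat.Coprime q (pm Y)) :
    (q : ℝ) ^ 3 * (1 - tail Y) ≤ cq q := by
  refine le_trans (mul_le_mul_of_nonneg_left (sub_le_sub_left ?_ 1) (by positivity)) (cq2 q hq)
  refine le_trans ?_ (sum_Ioc_le_tail Y q)
  calc ∑ p ∈ q.primeFactors, 1 / (p : ℝ) ^ 3 ≤ ∑ p ∈ q.primeFactors, ww p :=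
        Finset.sum_le_sum fun p hp => ww_ge (Nat.prime_of_mem_primeFactors hp).one_le
    _ ≤ _ := by
        refine Finset.sum_le_sum_of_subset_of_nonneg (fun p hp => ?_) fun _ _ _ => ww_nonneg _
        rw [Nat.mem_primeFactors] at hp
        rw [Finset.mem_Ioc]
        refine ⟨?_, Nat.le_of_dvd hq hp.2.1⟩
        by_contra hc'
        have h1 := Nat.dvd_gcd hp.2.1 (dvd_pm hp.1 (not_lt.1 hc'))
        rw [hc] at h1
        exact hp.1.one_lt.ne' (Nat.dvd_one.1 h1)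

theorem DE_lim (Y k : ℕ) (hk : k ≠ 0) (hG : ∀ τ, Prof (fun z => G (z.1, z.2, τ)) A δ)
    (vl : (Fin 5 → ZMod (pm Y ^ k)) → ℝ) {B : ℝ} (hB : 0 ≤ B) (hvB : ∀ u s r, |G (u, s, vl r)| ≤ B)
    (ε : ℝ) (hε : 0 < ε) : ∀ᶠ T in atTop, |DE Y k G vl T / T ^ 2 - MM Y k G vl| ≤
      tail Y * (kap Y k * (A ^ 4 * (B * vb A))) + ε := by
  classical
  set R := (Finset.univ : Finset (Fin 5 → ZMod (pm Y ^ k))).filter (fun r => Good Y k (lft r)) with hR
  have hdr : ∀ r ∈ R, ∀ᶠ T in atTop, |DR (pm Y) (pm Y ^ k) (lft r) (gY Y k (lft r))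
        (fun z => G (z.1, z.2, vl r)) T / T ^ 2 -
        (gY Y k (lft r) : ℝ) / ((pm Y ^ k : ℕ) : ℝ) ^ 5 * (cP (pm Y) * II fun z => G (z.1, z.2, vl r))| ≤
      tail Y * ((gY Y k (lft r) : ℝ) / ((pm Y ^ k : ℕ) : ℝ) ^ 5 *
        (cP (pm Y) * II fun z => |G (z.1, z.2, vl r)|)) + ε / (R.card + 1) := by
    intro r _
    exact DR_lim (hG (vl r)) (pm Y) (pm Y ^ k) (pm_pos Y) (pow_pos (pm_pos Y) k)
      (fun q hq => Nat.Coprime.pow_right k hq) (lft r) (gY Y k (lft r)) (gY_pos Y k _) (tail Y)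
      (tail_nonneg Y) (fun q hq hc => cq_tail hq hc) _ (by positivity)
  have hall := (Filter.eventually_all_finset R).2 hdr
  filter_upwards [hall, eventually_gt_atTop 0] with T h1 hT
  rw [DE_eq Y k hk hG vl T hT, Finset.sum_div]
  have e1 : MM Y k G vl = ∑ r ∈ R, (gY Y k (lft r) : ℝ) / ((pm Y ^ k : ℕ) : ℝ) ^ 5 *
      (cP (pm Y) * II fun z => G (z.1, z.2, vl r)) := by
    rw [MM]
  have e2 : kap Y k = ∑ r ∈ R, (gY Y k (lft r) : ℝ) / ((pm Y ^ k : ℕ) : ℝ) ^ 5 * cP (pm Y) := by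
    rw [kap]
  rw [e1, ← Finset.sum_sub_distrib]
  refine (Finset.abs_sum_le_sum_abs _ _).trans ((Finset.sum_le_sum h1).trans ?_)
  rw [Finset.sum_add_distrib, Finset.sum_const, nsmul_eq_mul, ← Finset.mul_sum]
  have f1 : (R.card : ℝ) * (ε / (R.card + 1)) ≤ ε := by
    rw [mul_div_assoc', div_le_iff₀ (by positivity)]
    nlinarith
  have f2 : ∑ r ∈ R, (gY Y k (lft r) : ℝ) / ((pm Y ^ k : ℕ) : ℝ) ^ 5 *
        (cP (pm Y) * II fun z => |G (z.1, z.2, vl r)|) ≤ kap Y k * (A ^ 4 * (B * vb A)) := by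
    rw [e2, Finset.sum_mul]
    refine Finset.sum_le_sum fun r _ => ?_
    rw [mul_assoc]
    refine mul_le_mul_of_nonneg_left (mul_le_mul_of_nonneg_left ?_ (cP_nonneg _)) (by positivity)
    exact II_abs_le (hG (vl r)) hB fun z => hvB _ _ _
  have f3 := mul_le_mul_of_nonneg_left f2 (tail_nonneg Y)
  linarith

/-- trivial bound -/
theorem BS_le {A δ : ℝ} (hA : 0 < A) (hδ : 0 < δ)
    (hs : ∀ z, G z ≠ 0 → ‖z.1‖ ≤ A ∧ δ ≤ ‖mm z.1‖ ∧ δ ≤ z.2.1 ∧ z.2.1 ≤ A) :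
    ∃ C : ℝ, 0 < C ∧ ∀ (θ : (Fin 5 → ℤ) → ℝ) (B T : ℝ), 0 < T → 0 ≤ B →
      (∀ u s x, |G (u, s, θ x)| ≤ B) → |BS G θ T| ≤ B * (C * T ^ 2) := by
  obtain ⟨C2, hC2, k2⟩ := BX_card (A * A + A) δ (by positivity) hδ
  refine ⟨C2, hC2, fun θ B T hT hB hθ => ?_⟩
  obtain ⟨b1, b2⟩ := k2 T hT 1 le_rfl
  rw [Nat.cast_one, div_one] at b2
  rw [BS_FG]
  refine (fs_norm_le (M := B) (fun z _ => hθ _ _ _) b1 (fun z hz hne => ?_) hB).trans
    (mul_le_mul_of_nonneg_left b2 hB)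
  obtain ⟨m1, m2, m3, m4⟩ := FG_supp hA hδ hs hT hne
  refine ⟨m2, m3, m4, one_dvd _, ?_⟩
  rw [hz.2.2]
  exact red_mem_CC hz.1 dvd_rfl

/-- existence of test functions -/
theorem exists_test : ∃ F : (Fin 5 → ℝ) × ℝ → ℝ, Tst (fun z => F (z.1, z.2.1)) ∧ (∀ z, 0 ≤ F z) ∧
    ∃ z, 0 < F z := by
  set u0 : Fin 5 → ℝ := Pi.single 1 1 with hu0
  have hmm : ‖mm u0‖ ≠ 0 := by
    rw [norm_ne_zero_iff]
    intro h0
    have := congrFun h0 (1, 0)
    simp [mm, wedge, hes, hu0] at this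
  have hcm : Continuous fun u : Fin 5 → ℝ => ‖mm u‖ := by
    refine Continuous.norm (continuous_pi fun p => ?_)
    have : ∀ i, Continuous fun u : Fin 5 → ℝ => hes u i := by
      intro i
      fin_cases i <;> simp only [hes, Fin.zero_eta, Fin.mk_one, Fin.reduceFinMk, Matrix.cons_val] <;>
        fun_prop
    simp only [mm, wedge]
    have h1 := this p.1
    have h2 := this p.2
    fun_prop
  have hpos : 0 < ‖mm u0‖ := lt_of_le_of_ne (norm_nonneg _) (Ne.symm hmm)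
  obtain ⟨r, hr, hr2⟩ := Metric.continuous_iff.1 hcm u0 (‖mm u0‖ / 2) (by positivity)
  set ρ : ℝ := min (r / 2) (1 / 2) with hρ
  have hρ0 : 0 < ρ := by positivity
  refine ⟨fun z => max 0 (ρ - dist z (u0, 1)), ⟨by fun_prop, min (‖mm u0‖ / 2) (1 / 2), 2 + ‖u0‖,
    by positivity, ?_⟩, fun z => le_max_left _ _, (u0, 1), by simp [hρ0]⟩
  rintro ⟨u, s, τ⟩ hz
  simp only at hz ⊢
  have h1 : dist (u, s) (u0, (1 : ℝ)) < ρ := by
    by_contra hc
    apply hz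
    rw [max_eq_left]
    linarith
  rw [Prod.dist_eq, max_lt_iff] at h1
  have h2 : ρ ≤ 1 / 2 := min_le_right _ _
  have h3 : ρ ≤ r / 2 := min_le_left _ _
  have h4 := hr2 u (by linarith [h1.1])
  rw [Real.dist_eq, abs_lt] at h4
  have h5 := h1.2
  rw [Real.dist_eq, abs_lt] at h5
  have h6 := h1.1
  rw [dist_eq_norm] at h6
  have h7 : ‖u‖ ≤ ‖u - u0‖ + ‖u0‖ := by
    have := norm_add_le (u - u0) u0
    rwa [sub_add_cancel] at this
  refine ⟨by linarith, (min_le_left _ _).trans (by linarith [h4.1]),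
    (min_le_right _ _).trans (by linarith [h5.1]), ?_⟩
  have := norm_nonneg u0
  linarith [h5.2]

theorem II_pos (h : Prof H A δ) (h0 : ∀ z, 0 ≤ H z) {z : (Fin 5 → ℝ) × ℝ} (hz : 0 < H z) :
    0 < II H := by
  have hpos : 0 < Ph H z.2 := by
    have := (h.slice_cts z.2).integral_pos_of_hasCompactSupport_nonneg_nonzero (μ := volume)
      (h.slice_cs z.2) (fun u => h0 _) (x := z.1) hz.ne'
    exact this
  have hs := (Ph_supp h hpos.ne').1
  have hnn : ∀ s, 0 ≤ h1 H s := by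
    intro s
    by_cases hs : Ph H s = 0
    · rw [h1, hs, mul_zero]
    · have h2 : 0 ≤ s := h.pos.le.trans (Ph_supp h hs).1
      have h3 : 0 ≤ Ph H s := integral_nonneg fun u => h0 _
      rw [h1]
      positivity
  refine (h1_cts h).integral_pos_of_hasCompactSupport_nonneg_nonzero (μ := volume)
      (h1_cs h) (fun s => hnn s) (x := z.2) ?_
  have h3 : 0 < z.2 := lt_of_lt_of_le h.pos hs
  show z.2 ^ 3 * Ph H z.2 ≠ 0
  positivity

end

end Pool.Agent.KS6_53.V5
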