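import Pool.Agent.KS6_53.V5.Bl7

set_option autoImplicit false

namespace Pool.Agent.KS6_53.V5

open Finset Filter Topology MeasureTheory

theorem two_pow_small (c ε : ℝ) (hε : 0 < ε) : ∃ k0 : ℕ, ∀ k ≥ k0, c / 2 ^ k ≤ ε := by
  have h1 : Tendsto (fun k : ℕ => c * (1 / 2 : ℝ) ^ k) atTop (𝓝 (c * 0)) :=
    (tendsto_pow_atTop_nhds_zero_of_lt_one (by norm_num) (by norm_num)).const_mul c
  rw [mul_zero] at h1
  obtain ⟨k0, hk0⟩ := Filter.eventually_atTop.1 (h1.eventually (gt_mem_nhds hε))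
  refine ⟨k0, fun k hk => ?_⟩
  have := hk0 k hk
  rw [one_div, inv_pow, ← div_eq_mul_inv] at this
  exact this.le

theorem tail_small (c ε : ℝ) (hε : 0 < ε) : ∃ Y0 : ℕ, ∀ Y ≥ Y0, c * tail Y ≤ ε := by
  have h1 := tail_tendsto.const_mul c
  rw [mul_zero] at h1
  obtain ⟨k0, hk0⟩ := Filter.eventually_atTop.1 (h1.eventually (gt_mem_nhds hε))
  exact ⟨k0, fun k hk => (hk0 k hk).le⟩

theorem dvd_pm_pow {n Y k : ℕ} (hn : 0 < n) (hY : n ≤ Y) (hk : n ≤ k) : n ∣ pm Y ^ k := by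
  rw [← Nat.factorization_prime_le_iff_dvd hn.ne' (pow_pos (pm_pos Y) k).ne']
  intro p hp
  by_cases hpn : p ∣ n
  · have h1 : p ≤ Y := (Nat.le_of_dvd hn hpn).trans hY
    have h2 : 1 ≤ (pm Y).factorization p :=
      (hp.dvd_iff_one_le_factorization (pm_pos Y).ne').1 (dvd_pm hp h1)
    rw [Nat.factorization_pow, Finsupp.smul_apply, smul_eq_mul]
    have h3 : n.factorization p ≤ n := (Nat.factorization_lt p hn.ne').le
    calc n.factorization p ≤ k * 1 := by omega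
      _ ≤ k * (pm Y).factorization p := Nat.mul_le_mul_left k h2
  · rw [Nat.factorization_eq_zero_of_not_dvd hpn]
    exact Nat.zero_le _

theorem exists_limit {f : ℝ → ℝ} (h : ∀ ε : ℝ, 0 < ε → ∃ M, ∀ᶠ T in atTop, |f T - M| ≤ ε) :
    ∃ L, Tendsto f atTop (𝓝 L) := by
  refine cauchy_map_iff_exists_tendsto.1 ?_
  rw [Metric.cauchy_iff]
  refine ⟨inferInstance, fun ε hε => ?_⟩
  obtain ⟨M, hM⟩ := h (ε / 3) (by positivity)
  refine ⟨f '' {T | |f T - M| ≤ ε / 3}, Filter.image_mem_map hM, ?_⟩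
  rintro _ ⟨T, hT, rfl⟩ _ ⟨T', hT', rfl⟩
  rw [Set.mem_ofPred_eq, abs_le] at hT hT'
  rw [Real.dist_eq, abs_lt]
  constructor <;> linarith [hT.1, hT.2, hT'.1, hT'.2]

section

variable {G : (Fin 5 → ℝ) × ℝ × ℝ → ℝ}

theorem bound_tau (hG : Tst G) (a b : ℝ) : ∃ B : ℝ, 0 < B ∧ ∀ u s, ∀ τ ∈ Set.Icc a b,
    |G (u, s, τ)| ≤ B := by
  obtain ⟨A, δ, hA, hδ, hs, -⟩ := hG.prof
  have hK : IsCompact ((Metric.closedBall (0 : Fin 5 → ℝ) A) ×ˢ (Set.Icc (0 : ℝ) A ×ˢ Set.Icc a b)) :=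
    (isCompact_closedBall _ _).prod (isCompact_Icc.prod isCompact_Icc)
  obtain ⟨C, hC⟩ := hK.exists_bound_of_continuousOn hG.cts.continuousOn
  refine ⟨max C 1, by positivity, fun u s τ hτ => ?_⟩
  by_cases h0 : G (u, s, τ) = 0
  · rw [h0, abs_zero]
    positivity
  · obtain ⟨h1, -, h3, h4⟩ := hs _ h0
    simp only at h1 h3 h4
    have := hC (u, s, τ) ⟨by rwa [mem_closedBall_zero_iff], ⟨hδ.le.trans h3, h4⟩, hτ⟩
    rw [Real.norm_eq_abs] at this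
    exact this.trans (le_max_left _ _)

theorem unif_tau (hG : Tst G) (a b : ℝ) (ε : ℝ) (hε : 0 < ε) : ∃ η : ℝ, 0 < η ∧ ∀ u s,
    ∀ τ ∈ Set.Icc a b, ∀ τ' ∈ Set.Icc a b, |τ - τ'| ≤ η → |G (u, s, τ) - G (u, s, τ')| ≤ ε := by
  obtain ⟨A, δ, hA, hδ, hs, -⟩ := hG.prof
  have hK : IsCompact ((Metric.closedBall (0 : Fin 5 → ℝ) A) ×ˢ (Set.Icc (0 : ℝ) A ×ˢ Set.Icc a b)) :=
    (isCompact_closedBall _ _).prod (isCompact_Icc.prod isCompact_Icc)
  have huc := hK.uniformContinuousOn_of_continuous hG.cts.continuousOn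
  obtain ⟨η, hη, h⟩ := Metric.uniformContinuousOn_iff.1 huc ε hε
  refine ⟨η / 2, by positivity, fun u s τ hτ τ' hτ' hττ => ?_⟩
  by_cases hbox : ‖u‖ ≤ A ∧ 0 ≤ s ∧ s ≤ A
  · rw [← Real.dist_eq]
    refine (h (u, s, τ) ⟨by rw [mem_closedBall_zero_iff]; exact hbox.1, hbox.2, hτ⟩ (u, s, τ')
      ⟨by rw [mem_closedBall_zero_iff]; exact hbox.1, hbox.2, hτ'⟩ ?_).le
    rw [Prod.dist_eq, Prod.dist_eq, dist_self, dist_self, Real.dist_eq]
    simp only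
    rw [max_lt_iff, max_lt_iff]
    exact ⟨hη, hη, by linarith⟩
  · have h1 : ∀ t, G (u, s, t) = 0 := by
      intro t
      by_contra h0
      obtain ⟨h1, -, h3, h4⟩ := hs _ h0
      exact hbox ⟨h1, hδ.le.trans h3, h4⟩
    rw [h1, h1, sub_zero, abs_zero]
    exact hε.le

theorem MM_free (Y k : ℕ) (F : (Fin 5 → ℝ) × ℝ → ℝ) (vl : (Fin 5 → ZMod (pm Y ^ k)) → ℝ) :
    MM Y k (fun z => F (z.1, z.2.1)) vl = kap Y k * II F := by
  rw [MM, kap, Finset.sum_mul]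
  exact Finset.sum_congr rfl fun r _ => by ring

theorem kap_bound : ∃ C : ℝ, 0 < C ∧ ∃ Y0 : ℕ, ∀ Y ≥ Y0, ∃ k0 : ℕ, 1 ≤ k0 ∧ ∀ k ≥ k0,
    kap Y k ≤ C := by
  obtain ⟨F, hT, hF0, z0, hz0⟩ := exists_test
  obtain ⟨A, δ, hA, hδ, hs, hprof⟩ := hT.prof
  obtain ⟨B, hB, hBb⟩ := bound_tau hT 1 1
  have hpF : Prof F A δ := by
    have := hprof 1
    exact this
  have hII : 0 < II F := II_pos hpF hF0 hz0
  obtain ⟨C1, hC1, hcomp⟩ := comp0 hA hδ hs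
  obtain ⟨C2, hC2, hBS⟩ := BS_le hA hδ hs
  set c1 : ℝ := A ^ 4 * (B * vb A) with hc1
  have hvb := vb_nonneg A
  have hc10 : 0 ≤ c1 := by positivity
  obtain ⟨Y1, hY1⟩ := tail_small c1 (II F / 2) (by positivity)
  obtain ⟨Y2, hY2⟩ := tail_small 1 1 one_pos
  refine ⟨2 * (C1 * (B + B) + B * C2 + 1) / II F, by positivity, max Y1 Y2, fun Y hY => ?_⟩
  have hY1' := hY1 Y ((le_max_left _ _).trans hY)
  have hY2' := hY2 Y ((le_max_right _ _).trans hY)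
  obtain ⟨k0, hk0⟩ := two_pow_small (Y + 1) 1 one_pos
  refine ⟨max k0 1, le_max_right _ _, fun k hk => ?_⟩
  have hk1 : k ≠ 0 := by
    have := (le_max_right k0 1).trans hk
    omega
  have hk2 := hk0 k ((le_max_left _ _).trans hk)
  have m1 : (1 : ℝ) ∈ Set.Icc (1 : ℝ) 1 := ⟨le_rfl, le_rfl⟩
  have e1 := DE_lim (G := fun z => F (z.1, z.2.1)) Y k hk1 hprof (fun _ => 1) hB.le (fun u s _ => hBb u s 1 m1) 1 one_pos
  obtain ⟨T, hT1, hT2⟩ := (e1.and (eventually_gt_atTop 0)).exists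
  have e2 := hcomp Y k 0 ∅ (fun _ => 1) (fun _ => 1) B 0 T hT2 hB.le le_rfl (by simp)
    (fun u s _ => hBb u s 1 m1) (fun u s _ => hBb u s 1 m1) (fun x _ _ u s => by simp)
  have e3 := hBS (fun _ => 1) B T hT2 hB.le (fun u s _ => hBb u s 1 m1)
  rw [MM_free] at hT1
  simp only [Finset.card_empty, CharP.cast_eq_zero, zero_div, mul_zero, add_zero] at e2
  have hTT : 0 < T ^ 2 := by positivity
  set DE0 := DE Y k (fun z => F (z.1, z.2.1)) (fun _ => 1) T with hDE0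
  set BS0 := BS (fun z => F (z.1, z.2.1)) (fun _ => 1) T with hBS0
  have hk0' := kap_nonneg Y k
  have htl := tail_nonneg Y
  have e4 : DE0 / T ^ 2 ≤ C1 * (B + B) + B * C2 := by
    rw [div_le_iff₀ hTT]
    have a1 := (abs_le.1 e2).2
    have a2 := (abs_le.1 e3).2
    have a3 : C1 * (B * tail Y + B * ((Y + 1) / 2 ^ k)) * T ^ 2 ≤ C1 * (B + B) * T ^ 2 := by
      refine mul_le_mul_of_nonneg_right (mul_le_mul_of_nonneg_left ?_ hC1.le) hTT.le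
      have b1 : B * tail Y ≤ B * 1 := mul_le_mul_of_nonneg_left (by linarith) hB.le
      have b2 : B * ((Y + 1) / 2 ^ k) ≤ B * 1 := mul_le_mul_of_nonneg_left hk2 hB.le
      linarith
    nlinarith
  have e5 := (abs_le.1 hT1).1
  have e6 : tail Y * (kap Y k * c1) ≤ kap Y k * (II F / 2) := by
    calc tail Y * (kap Y k * c1) = kap Y k * (c1 * tail Y) := by ring
      _ ≤ _ := mul_le_mul_of_nonneg_left hY1' hk0'
  rw [le_div_iff₀ hII]
  linarith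

theorem approx (P : Finset ℕ) (hP : ∀ p ∈ P, p.Prime) (θ : (Fin 5 → ℤ) → ℝ) (hθ : Adm P θ) (a b : ℝ)
    (hab : ∀ x, θ x ∈ Set.Icc a b) (hG : Tst G) (ε : ℝ) (hε : 0 < ε) :
    ∃ Y0 : ℕ, ∀ Y ≥ Y0, ∃ k0 : ℕ, ∀ k ≥ k0, ∃ vl : (Fin 5 → ZMod (pm Y ^ k)) → ℝ,
      (∀ r, vl r ∈ Set.Icc a b) ∧ ∀ᶠ T in atTop, |BS G θ T / T ^ 2 - MM Y k G vl| ≤ ε := by
  classical
  obtain ⟨A, δ, hA, hδ, hs, hprof⟩ := hG.prof
  obtain ⟨B, hB, hBb⟩ := bound_tau hG a b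
  obtain ⟨C1, hC1, hcomp⟩ := comp0 hA hδ hs
  obtain ⟨C3, hC3, Y1, hkap⟩ := kap_bound
  have hab' : a ≤ b := (hab 0).1.trans (hab 0).2
  set c1 : ℝ := A ^ 4 * (B * vb A) with hc1
  have hvb := vb_nonneg A
  have hc10 : 0 ≤ c1 := by positivity
  -- the choices
  obtain ⟨k1, hk1⟩ := two_pow_small (C1 * B * P.card) (ε / 8) (by positivity)
  obtain ⟨η, hη, hunif⟩ := unif_tau hG a b (ε / (8 * C1)) (by positivity)
  obtain ⟨Q', hQ'0, hQ'⟩ := hθ k1 η hη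
  obtain ⟨Y2, hY2⟩ := tail_small (C1 * B) (ε / 8) (by positivity)
  obtain ⟨Y3, hY3⟩ := tail_small (C3 * c1) (ε / 8) (by positivity)
  refine ⟨max (max Y1 Q') (max Y2 Y3), fun Y hY => ?_⟩
  have hYa : Y1 ≤ Y := ((le_max_left _ _).trans (le_max_left _ _)).trans hY
  have hYb : Q' ≤ Y := ((le_max_right _ _).trans (le_max_left _ _)).trans hY
  have hYc : Y2 ≤ Y := ((le_max_left _ _).trans (le_max_right _ _)).trans hY
  have hYd : Y3 ≤ Y := ((le_max_right _ _).trans (le_max_right _ _)).trans hY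
  have t1 := hY2 Y hYc
  have t2 := hY3 Y hYd
  obtain ⟨k2, hk2, hk2'⟩ := hkap Y hYa
  obtain ⟨k3, hk3⟩ := two_pow_small (C1 * B * (Y + 1)) (ε / 8) (by positivity)
  refine ⟨max (max k2 k3) Q', fun k hk => ?_⟩
  have hka : k2 ≤ k := ((le_max_left _ _).trans (le_max_left _ _)).trans hk
  have hkb : k3 ≤ k := ((le_max_right _ _).trans (le_max_left _ _)).trans hk
  have hkc : Q' ≤ k := (le_max_right _ _).trans hk
  have hk0 : k ≠ 0 := by omega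
  have t3 := hk2' k hka
  have t4 := hk3 k hkb
  have hQd : Q' ∣ pm Y ^ k := dvd_pm_pow hQ'0 hYb hkc
  -- the values
  let vl : (Fin 5 → ZMod (pm Y ^ k)) → ℝ := fun r =>
    if h : ∃ x : Fin 5 → ℤ, Unimod x ∧ red (pm Y ^ k) x = r then θ h.choose else a
  have hvl : ∀ r, vl r ∈ Set.Icc a b := by
    intro r
    simp only [vl]
    split_ifs with h
    · exact hab _
    · exact ⟨le_rfl, hab'⟩
  refine ⟨vl, hvl, ?_⟩
  have hcl : ∀ x, Unimod x → (∀ p ∈ P, ¬ p ^ k1 ∣ gg x) → ∀ u s,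
      |G (u, s, vl (red (pm Y ^ k) x)) - G (u, s, θ x)| ≤ ε / (8 * C1) := by
    intro x hx hxP u s
    have hex : ∃ x' : Fin 5 → ℤ, Unimod x' ∧ red (pm Y ^ k) x' = red (pm Y ^ k) x := ⟨x, hx, rfl⟩
    have hval : vl (red (pm Y ^ k) x) = θ hex.choose := by
      simp only [vl]
      rw [dif_pos hex]
    obtain ⟨c1', c2'⟩ := hex.choose_spec
    rw [hval]
    refine hunif u s _ (hab _) _ (hab _) ?_
    rw [abs_sub_comm]
    refine hQ' x _ hx c1' (fun i => ?_) hxP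
    have h1 := congrFun c2' i
    rw [red, red] at h1
    have h2 := (ZMod.intCast_eq_intCast_iff_dvd_sub _ _ _).1 h1
    exact (Int.natCast_dvd_natCast.2 hQd).trans h2
  have e1 := DE_lim Y k hk0 hprof vl hB.le (fun u s r => hBb u s _ (hvl r)) (ε / 8) (by positivity)
  filter_upwards [e1, eventually_gt_atTop 0] with T hT1 hT2
  have e2 := hcomp Y k k1 P vl θ B (ε / (8 * C1)) T hT2 hB.le (by positivity) hP
    (fun u s r => hBb u s _ (hvl r)) (fun u s x => hBb u s _ (hab x)) hcl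
  have hTT : 0 < T ^ 2 := by positivity
  have e3 : |DE Y k G vl T / T ^ 2 - BS G θ T / T ^ 2| ≤
      C1 * (B * tail Y + B * ((Y + 1) / 2 ^ k) + B * (P.card / 2 ^ k1) + ε / (8 * C1)) := by
    rw [← sub_div, abs_div, abs_of_pos hTT, div_le_iff₀ hTT]
    exact e2
  have e4 : C1 * (B * tail Y + B * ((Y + 1) / 2 ^ k) + B * (P.card / 2 ^ k1) + ε / (8 * C1)) ≤
      ε / 2 := by
    have f1 : C1 * (B * ((Y + 1) / 2 ^ k)) ≤ ε / 8 := by
      refine le_trans (le_of_eq ?_) t4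
      ring
    have f2 : C1 * (B * (P.card / 2 ^ k1)) ≤ ε / 8 := by
      refine le_trans (le_of_eq ?_) (hk1 k1 le_rfl)
      ring
    have f3 : C1 * (ε / (8 * C1)) = ε / 8 := by
      field_simp
    have f4 : C1 * (B * tail Y) ≤ ε / 8 := by
      refine le_trans (le_of_eq ?_) t1
      ring
    rw [mul_add, mul_add, mul_add, f3]
    linarith
  have e5 : tail Y * (kap Y k * c1) ≤ ε / 8 := by
    have htl := tail_nonneg Y
    calc tail Y * (kap Y k * c1) ≤ tail Y * (C3 * c1) := by gcongr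
      _ = C3 * c1 * tail Y := by ring
      _ ≤ _ := t2
  have e6 := e3.trans e4
  rw [abs_le] at e6 hT1 ⊢
  constructor
  · linarith [e6.1, e6.2, hT1.1, hT1.2]
  · linarith [e6.1, e6.2, hT1.1, hT1.2]

/-- the limit exists -/
theorem BS_lim (P : Finset ℕ) (hP : ∀ p ∈ P, p.Prime) (θ : (Fin 5 → ℤ) → ℝ) (hθ : Adm P θ) (a b : ℝ)
    (hab : ∀ x, θ x ∈ Set.Icc a b) (hG : Tst G) :
    ∃ L : ℝ, Tendsto (fun T => BS G θ T / T ^ 2) atTop (𝓝 L) := by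
  refine exists_limit fun ε hε => ?_
  obtain ⟨Y0, h1⟩ := approx P hP θ hθ a b hab hG ε hε
  obtain ⟨k0, h2⟩ := h1 Y0 le_rfl
  obtain ⟨vl, -, h3⟩ := h2 k0 le_rfl
  exact ⟨_, h3⟩

end

end Pool.Agent.KS6_53.V5
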