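import Pool.Agent.KS6_53.V5.Bl8

set_option autoImplicit false

namespace Pool.Agent.KS6_53.V5

open Finset Filter Topology MeasureTheory

theorem sum_cubes (N : ℕ) (hN : 1 ≤ N) :
    ∑ m ∈ Finset.Ioc 1 N, 1 / (m : ℝ) ^ 3 ≤ 1 / 4 - 1 / (2 * (N : ℝ) * (N + 1)) := by
  induction N, hN using Nat.le_induction with
  | base => norm_num
  | succ N hN ih =>
    rw [Finset.sum_Ioc_succ_top (by omega)]
    have hN0 : (0 : ℝ) < N := by exact_mod_cast (by omega : 0 < N)
    have h1 : 1 / (((N + 1 : ℕ) : ℝ)) ^ 3 ≤ 1 / (2 * (N : ℝ) * (N + 1)) -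
        1 / (2 * ((N + 1 : ℕ) : ℝ) * (((N + 1 : ℕ) : ℝ) + 1)) := by
      push_cast
      have e : 1 / (2 * (N : ℝ) * (N + 1)) - 1 / (2 * ((N : ℝ) + 1) * ((N : ℝ) + 1 + 1)) =
          1 / (N * (N + 1) * (N + 2)) := by
        field_simp
        ring
      rw [e]
      refine one_div_le_one_div_of_le (by positivity) ?_
      nlinarith
    linarith

theorem cq_half {q : ℕ} (hq : 1 ≤ q) : (q : ℝ) ^ 3 * (1 - 1 / 2) ≤ cq q := by
  refine le_trans (mul_le_mul_of_nonneg_left (sub_le_sub_left ?_ 1) (by positivity)) (cq2 q hq)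
  have h1 : ∑ p ∈ q.primeFactors, 1 / (p : ℝ) ^ 3 ≤ ∑ m ∈ Finset.Ioc 1 q, 1 / (m : ℝ) ^ 3 := by
    refine Finset.sum_le_sum_of_subset_of_nonneg (fun p hp => ?_) fun _ _ _ => by positivity
    rw [Nat.mem_primeFactors] at hp
    rw [Finset.mem_Ioc]
    exact ⟨hp.1.one_lt, Nat.le_of_dvd hq hp.2.1⟩
  have h2 := sum_cubes q hq
  have hq0 : (0 : ℝ) < q := by exact_mod_cast hq
  have h3 : 0 < 1 / (2 * (q : ℝ) * (q + 1)) := by positivity
  linarith

theorem pm_zero : pm 0 = 1 := by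
  simp [pm, Finset.filter_singleton, Nat.not_prime_zero]

theorem cP_one : cP 1 = 1 := by
  simp [cP]

section

variable {G : (Fin 5 → ℝ) × ℝ × ℝ → ℝ}

theorem BS_ge (hG : Tst G) (h0 : ∀ z, 0 ≤ G z) (θ : (Fin 5 → ℤ) → ℝ) (T : ℝ) (hT : 0 < T)
    (t : Finset ((Fin 5 → ℤ) × ℕ)) [DecidablePred fun z : (Fin 5 → ℤ) × ℕ => z ∈ SB] :
    ∑ z ∈ t, (if z ∈ SB then FG G θ T z else 0) ≤ BS G θ T := by
  classical
  obtain ⟨A, δ, hA, hδ, hs, -⟩ := hG.prof
  have hZfin : {z : (Fin 5 → ℤ) × ℕ | nz z.1 ≤ (A * A + A) * √T ∧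
      (z.2 : ℝ) ≤ (A * A + A) * √T}.Finite := by
    refine ((nz_fin ((A * A + A) * √T)).prod (Set.finite_Iic ⌊(A * A + A) * √T⌋₊)).subset ?_
    rintro ⟨x, g⟩ ⟨h1, h2⟩
    exact ⟨h1, Nat.le_floor h2⟩
  rw [BS_FG, fs_eq _ _ (t ∪ hZfin.toFinset) (fun z _ hz => by
    obtain ⟨-, a, -, c⟩ := FG_supp hA hδ hs hT hz
    refine Finset.mem_union_right _ ?_
    rw [Set.Finite.mem_toFinset]
    exact ⟨a, c⟩)]
  refine le_trans (le_of_eq ?_) (Finset.sum_le_sum_of_subset_of_nonneg Finset.subset_union_left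
    fun z _ _ => ?_)
  · refine Finset.sum_congr rfl fun z _ => ?_
    by_cases h : z ∈ SB
    · rw [if_pos h, if_pos h]
    · rw [if_neg h, if_neg h]
  · split_ifs
    · exact h0 _
    · exact le_rfl

/-- rescaled test functions -/
noncomputable def scl (F : (Fin 5 → ℝ) × ℝ → ℝ) (j n : ℕ) : (Fin 5 → ℝ) × ℝ → ℝ :=
  fun z => F (((j : ℝ) * n) • z.1, z.2 / n)

theorem scl_tst {F : (Fin 5 → ℝ) × ℝ → ℝ} (hF : Tst fun z => F (z.1, z.2.1)) (hc : Continuous F)
    {j n : ℕ} (hj : 1 ≤ j) (hn : 1 ≤ n) : Tst fun z => scl F j n (z.1, z.2.1) := by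
  obtain ⟨A, δ, hA, hδ, hs, -⟩ := hF.prof
  have hj1 : (1 : ℝ) ≤ j := by exact_mod_cast hj
  have hn1 : (1 : ℝ) ≤ n := by exact_mod_cast hn
  have hjn : (1 : ℝ) ≤ j * n := by nlinarith
  refine ⟨?_, min δ (δ / (j * n) ^ 3), A * n, by positivity, ?_⟩
  · unfold scl
    fun_prop
  · rintro ⟨u, s, τ⟩ hz
    simp only [scl] at hz ⊢
    obtain ⟨h1, h2, h3, h4⟩ := hs (((j : ℝ) * n) • u, s / n, τ) hz
    simp only at h1 h2 h3 h4
    rw [norm_smul, Real.norm_of_nonneg (by positivity)] at h1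
    rw [mm_smul, norm_smul, norm_pow, Real.norm_of_nonneg (by positivity)] at h2
    rw [le_div_iff₀ (by positivity)] at h3
    rw [div_le_iff₀ (by positivity)] at h4
    have h5 : ‖u‖ ≤ A := by nlinarith [norm_nonneg u]
    refine ⟨h5.trans (le_mul_of_one_le_right hA.le hn1), ?_, ?_, h4⟩
    · refine (min_le_right _ _).trans ?_
      rw [div_le_iff₀ (by positivity)]
      linarith
    · refine (min_le_left _ _).trans ?_
      nlinarith

/-- some test function has positive limit -/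
theorem free_pos : ∃ F : (Fin 5 → ℝ) × ℝ → ℝ, Continuous F ∧ Tst (fun z => F (z.1, z.2.1)) ∧
    (∀ z, 0 ≤ F z) ∧ ∃ L : ℝ, 0 < L ∧
      Tendsto (fun T => BS (fun z => F (z.1, z.2.1)) (fun _ => 1) T / T ^ 2) atTop (𝓝 L) := by
  classical
  obtain ⟨F, hT, hF0, z0, hz0⟩ := exists_test
  obtain ⟨A, δ, hA, hδ, hs, hprof⟩ := hT.prof
  obtain ⟨B, hB, hBb⟩ := bound_tau hT 1 1
  have hpF : Prof F A δ := by
    have := hprof 1
    exact this
  have hII : 0 < II F := II_pos hpF hF0 hz0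
  obtain ⟨C1, hC1, hGG⟩ := GG_card (A * A + A) δ (by positivity) hδ
  obtain ⟨N, hN⟩ := tail_small (B * C1) (II F / 8) (by positivity)
  have hN' := hN N le_rfl
  have m1 : (1 : ℝ) ∈ Set.Icc (1 : ℝ) 1 := ⟨le_rfl, le_rfl⟩
  set G0 : (Fin 5 → ℝ) × ℝ × ℝ → ℝ := fun z => F (z.1, z.2.1) with hG0
  -- the limits
  have hadm : Adm ∅ fun _ => (1 : ℝ) := fun k ε hε => ⟨1, one_pos, fun x x' _ _ _ _ => by
    simp only [sub_self, abs_zero]
    exact hε.le⟩
  have hlim : ∀ y : ℕ × ℕ, ∃ L : ℝ, 1 ≤ y.1 ∧ 1 ≤ y.2 →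
      Tendsto (fun T => BS (fun z => scl F y.1 y.2 (z.1, z.2.1)) (fun _ => 1) T / T ^ 2) atTop
        (𝓝 L) := by
    intro y
    by_cases hy : 1 ≤ y.1 ∧ 1 ≤ y.2
    · obtain ⟨L, hL⟩ := BS_lim ∅ (by simp) (fun _ => (1 : ℝ)) hadm 1 1 (fun _ => m1)
        (scl_tst hT hpF.cts hy.1 hy.2)
      exact ⟨L, fun _ => hL⟩
    · exact ⟨0, fun h => absurd h hy⟩
  choose L hL using hlim
  set I : Finset (ℕ × ℕ) := Finset.Icc 1 N ×ˢ Finset.Icc 1 N with hI
  have hImem : ∀ y ∈ I, 1 ≤ y.1 ∧ 1 ≤ y.2 := by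
    intro y hy
    rw [hI, Finset.mem_product, Finset.mem_Icc, Finset.mem_Icc] at hy
    exact ⟨hy.1.1, hy.2.1⟩
  have hsumlim : Tendsto (fun T => ∑ y ∈ I,
      BS (fun z => scl F y.1 y.2 (z.1, z.2.1)) (fun _ => 1) T / T ^ 2) atTop (𝓝 (∑ y ∈ I, L y)) :=
    tendsto_finsetSum _ fun y hy => hL y (hImem y hy)
  -- lower bound
  obtain ⟨ρ0, hρ0⟩ : ∃ ρ0, ρ0 = lft (0 : Fin 5 → ZMod (pm 0 ^ 1)) := ⟨_, rfl⟩
  have hdr := DR_lim hpF (pm 0) (pm 0 ^ 1) (pm_pos 0) (pow_pos (pm_pos 0) 1)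
    (fun q hq => Nat.Coprime.pow_right 1 hq) ρ0 (gY 0 1 ρ0) (gY_pos 0 1 _) (1 / 2) (by norm_num)
    (fun q hq _ => cq_half hq) (II F / 4) (by positivity)
  have hgY : gY 0 1 ρ0 = 1 := by
    rw [gY, pm_zero, one_pow, Nat.gcd_one_right]
  have habs : (fun z => |F z|) = F := funext fun z => abs_of_nonneg (hF0 z)
  have hkey : ∀ᶠ T in atTop, II F / 8 ≤ ∑ y ∈ I,
      BS (fun z => scl F y.1 y.2 (z.1, z.2.1)) (fun _ => 1) T / T ^ 2 := by
    filter_upwards [hdr, eventually_gt_atTop 0] with T hdr hT0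
    have hsT : 0 < √T := Real.sqrt_pos.2 hT0
    have hTT : 0 < T ^ 2 := by positivity
    -- lower bound of the double sum
    have hlow : II F / 4 * T ^ 2 ≤ DE 0 1 G0 (fun _ => 1) T := by
      rw [DE_eq 0 1 one_ne_zero hprof (fun _ => 1) T hT0]
      have hnn : ∀ r : Fin 5 → ZMod (pm 0 ^ 1), 0 ≤ DR (pm 0) (pm 0 ^ 1) (lft r) (gY 0 1 (lft r))
          (fun z => G0 (z.1, z.2, 1)) T := by
        intro r
        rw [DR]
        exact finsum_nonneg fun q => finsum_nonneg fun _ => finsum_nonneg fun x =>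
          finsum_nonneg fun _ => hF0 _
      have hmem : (0 : Fin 5 → ZMod (pm 0 ^ 1)) ∈ (Finset.univ : Finset (Fin 5 → ZMod (pm 0 ^ 1))).filter
          (fun r => Good 0 1 (lft r)) := by
        refine Finset.mem_filter.2 ⟨Finset.mem_univ _, fun p hp h0 => ?_⟩
        have := hp.pos
        omega
      have h1 := Finset.single_le_sum (f := fun r : Fin 5 → ZMod (pm 0 ^ 1) =>
        DR (pm 0) (pm 0 ^ 1) (lft r) (gY 0 1 (lft r)) (fun z => G0 (z.1, z.2, 1)) T)
        (fun r _ => hnn r) hmem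
      refine le_trans ?_ h1
      have h2 := (abs_le.1 hdr).1
      rw [habs, hgY, pm_zero, cP_one] at h2
      simp only [one_pow, Nat.cast_one, div_one, one_mul] at h2
      have h3 : II F / 4 ≤ DR 1 1 ρ0 1 F T / T ^ 2 := by
        linarith
      rw [le_div_iff₀ hTT] at h3
      refine h3.trans (le_of_eq ?_)
      rw [← hρ0, hgY, pow_one, pm_zero]
    -- the finite set
    set A' := A * A + A with hA'
    have hA'0 : 0 < A' := by positivity
    have hZfin : {z : (Fin 5 → ℤ) × ℕ | nz z.1 ≤ A' * √T ∧ (z.2 : ℝ) ≤ A' * √T}.Finite := by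
      refine ((nz_fin (A' * √T)).prod (Set.finite_Iic ⌊A' * √T⌋₊)).subset ?_
      rintro ⟨x, g⟩ ⟨h1, h2⟩
      exact ⟨h1, Nat.le_floor h2⟩
    have hZfin2 : {z : (Fin 5 → ℤ) × ℕ | nz z.1 ≤ A' * √T ∧ (z.2 : ℝ) ≤ N * (A' * √T)}.Finite := by
      refine ((nz_fin (A' * √T)).prod (Set.finite_Iic ⌊N * (A' * √T)⌋₊)).subset ?_
      rintro ⟨x, g⟩ ⟨h1, h2⟩
      exact ⟨h1, Nat.le_floor h2⟩
    obtain ⟨g1, g2⟩ := hGG T hT0 N
    set v : (Fin 5 → ℤ) → ℝ := fun _ => 1 with hv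
    set Z := hZfin.toFinset with hZ
    have hDE : DE 0 1 G0 (fun _ => 1) T = ∑ z ∈ Z, if z ∈ SD 0 1 then FG G0 v T z else 0 := by
      rw [DE_FG, fs_eq _ _ Z]
      intro z _ hz
      obtain ⟨-, a, -, c⟩ := FG_supp hA hδ hs hT0 hz
      rw [hZ, Set.Finite.mem_toFinset]
      exact ⟨a, c⟩
    set S := Z.filter fun z => z ∈ SD 0 1 ∧ z ∉ GG A' δ T N ∧ FG G0 v T z ≠ 0 with hS
    have hup1 : DE 0 1 G0 (fun _ => 1) T ≤ B * (GG A' δ T N).ncard + ∑ z ∈ S, FG G0 v T z := by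
      rw [hDE]
      have h1 : ∀ z ∈ Z, (if z ∈ SD 0 1 then FG G0 v T z else 0) ≤
          B * (GG A' δ T N).indicator (fun _ => (1 : ℝ)) z +
          if z ∈ SD 0 1 ∧ z ∉ GG A' δ T N ∧ FG G0 v T z ≠ 0 then FG G0 v T z else 0 := by
        intro z _
        have n1 : 0 ≤ B * (GG A' δ T N).indicator (fun _ => (1 : ℝ)) z :=
          mul_nonneg hB.le (ind_nonneg _ _)
        have n2 : 0 ≤ FG G0 v T z := hF0 _
        have n3 : FG G0 v T z ≤ B := (le_abs_self _).trans (hBb _ _ 1 m1)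
        by_cases c1 : z ∈ SD 0 1
        · by_cases c2 : z ∈ GG A' δ T N
          · rw [if_pos c1, if_neg (fun h => h.2.1 c2), Set.indicator_of_mem c2]
            linarith
          · by_cases c3 : FG G0 v T z = 0
            · rw [if_pos c1, if_neg (fun h => h.2.2 c3), c3]
              linarith
            · rw [if_pos c1, if_pos ⟨c1, c2, c3⟩]
              linarith
        · rw [if_neg c1, if_neg (fun h => c1 h.1)]
          linarith
      refine (Finset.sum_le_sum h1).trans ?_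
      rw [Finset.sum_add_distrib, ← Finset.mul_sum, hS, Finset.sum_filter]
      have := mul_le_mul_of_nonneg_left (sum_ind_le g1 Z) hB.le
      linarith
    -- the map
    set W : Finset ((ℕ × ℕ) × ((Fin 5 → ℤ) × ℕ)) := I ×ˢ hZfin2.toFinset with hW
    let hh : (ℕ × ℕ) × ((Fin 5 → ℤ) × ℕ) → ℝ := fun w =>
      if w.2 ∈ SB then FG (fun z => scl F w.1.1 w.1.2 (z.1, z.2.1)) v T w.2 else 0
    have hex : ∀ z ∈ S, ∃ w ∈ W, FG G0 v T z = hh w ∧ z.1 = (w.1.1 : ℤ) • w.2.1 ∧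
        w.2.2 = w.1.2 * z.2 := by
      rintro ⟨x, g⟩ hz
      rw [hS, Finset.mem_filter] at hz
      obtain ⟨-, hD, hnG, hne⟩ := hz
      obtain ⟨m1, m2, m3, m4⟩ := FG_supp hA hδ hs hT0 hne
      simp only at m1 m2 m3 m4
      obtain ⟨q, hq, hgq⟩ := hD
      simp only at hq hgq
      have hx0 : x ≠ 0 := by
        rintro rfl
        apply m1
        funext p
        simp [mm, wedge]
      obtain ⟨j, x', hj, hx', hxx⟩ := exists_prim hx0
      obtain ⟨j, rfl⟩ := Int.eq_ofNat_of_zero_le hj.le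
      have hj1 : 1 ≤ j := by exact_mod_cast hj
      obtain ⟨p1, -, -⟩ := pair1 hq m1 hj1 hx' hxx
      rw [← hgq] at p1
      have hm' : mm x' ≠ 0 := by
        intro h0
        apply m1
        rw [hxx, mm_smul, h0, smul_zero]
      have hgx' := gg_pos hm'
      have hg0 : 0 < g := by
        have : (0 : ℝ) < g := lt_of_lt_of_le (by positivity) m3
        exact_mod_cast this
      obtain ⟨n, hn⟩ := id p1
      have hn1 : 1 ≤ n := by
        rcases Nat.eq_zero_or_pos n with h0 | h0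
        · rw [h0, mul_zero] at hn
          omega
        · exact h0
      have hjN : j ≤ N := by
        by_contra hc
        exact hnG ⟨m1, m2, m3, j, x', hj1, hx', hxx, p1, Or.inl (by omega)⟩
      have hnN : n ≤ N := by
        by_contra hc
        refine hnG ⟨m1, m2, m3, j, x', hj1, hx', hxx, p1, Or.inr ?_⟩
        simp only
        rw [hn, mul_comm]
        exact Nat.mul_lt_mul_of_pos_left (by omega) hg0
      have hj1' : (1 : ℝ) ≤ j := by exact_mod_cast hj1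
      have hn1' : (1 : ℝ) ≤ n := by exact_mod_cast hn1
      have hg0' : (0 : ℝ) < g := by exact_mod_cast hg0
      refine ⟨((j, n), (x', gg x')), ?_, ?_, hxx, ?_⟩
      · rw [hW, Finset.mem_product, hI, Finset.mem_product, Finset.mem_Icc, Finset.mem_Icc,
          Set.Finite.mem_toFinset]
        refine ⟨⟨⟨hj1, hjN⟩, hn1, hnN⟩, ?_, ?_⟩
        · simp only
          rw [hxx, nz_nsmul] at m2
          nlinarith [nz_nonneg x']
        · simp only
          rw [hn]
          push_cast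
          have : (n : ℝ) ≤ N := by exact_mod_cast hnN
          calc (g : ℝ) * n = n * g := mul_comm _ _
            _ ≤ _ := mul_le_mul this m4 hg0'.le (by positivity)
      · simp only [hh]
        rw [if_pos ⟨hx', hm', rfl⟩, FG, FG]
        simp only [G0, scl]
        congr 2
        · funext i
          rw [Pi.smul_apply, smul_eq_mul, hn, hxx, Pi.smul_apply, smul_eq_mul]
          push_cast
          field_simp
        · rw [hn]
          push_cast
          field_simp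
      · simp only
        rw [hn, mul_comm]
    choose! φ hφW hφe hφ1 hφ2 using hex
    have hinj : Set.InjOn φ S := by
      intro z hz z' hz' he
      have a1 := hφ1 z hz
      have a2 := hφ1 z' hz'
      have a3 := hφ2 z hz
      have a4 := hφ2 z' hz'
      rw [← he] at a2 a4
      have a5 := hφW z hz
      rw [hW, Finset.mem_product] at a5
      have a6 := (hImem _ a5.1).2
      rw [a3] at a4
      exact Prod.ext (a1.trans a2.symm) (Nat.eq_of_mul_eq_mul_left a6 a4)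
    have hup2 : ∑ z ∈ S, FG G0 v T z ≤ ∑ y ∈ I, BS (fun z => scl F y.1 y.2 (z.1, z.2.1)) v T := by
      have h1 : ∑ z ∈ S, FG G0 v T z = ∑ w ∈ S.image φ, hh w := by
        rw [Finset.sum_image hinj]
        exact Finset.sum_congr rfl fun z hz => hφe z hz
      have h2 : S.image φ ⊆ W := by
        intro w hw
        rw [Finset.mem_image] at hw
        obtain ⟨z, hz, rfl⟩ := hw
        exact hφW z hz
      rw [h1]
      refine (Finset.sum_le_sum_of_subset_of_nonneg h2 fun w _ _ => ?_).trans ?_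
      · simp only [hh]
        split_ifs
        · exact hF0 _
        · exact le_rfl
      · rw [hW, Finset.sum_product]
        refine Finset.sum_le_sum fun y hy => ?_
        exact BS_ge (scl_tst hT hpF.cts (hImem y hy).1 (hImem y hy).2) (fun z => hF0 _) v T hT0 _
    have hup3 : B * ((GG A' δ T N).ncard : ℝ) ≤ II F / 8 * T ^ 2 := by
      calc B * ((GG A' δ T N).ncard : ℝ) ≤ B * (C1 * tail N * T ^ 2) :=
            mul_le_mul_of_nonneg_left g2 hB.le
        _ = B * C1 * tail N * T ^ 2 := by ring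
        _ ≤ _ := mul_le_mul_of_nonneg_right hN' hTT.le
    rw [← Finset.sum_div, le_div_iff₀ hTT]
    linarith
  have hge : II F / 8 ≤ ∑ y ∈ I, L y := ge_of_tendsto hsumlim hkey
  have hex : ∃ y ∈ I, 0 < L y := by
    by_contra hc
    push Not at hc
    have := Finset.sum_nonpos hc
    linarith
  obtain ⟨y, hy, hLy⟩ := hex
  refine ⟨scl F y.1 y.2, ?_, scl_tst hT hpF.cts (hImem y hy).1 (hImem y hy).2, fun z => hF0 _, L y,
    hLy, hL y (hImem y hy)⟩
  have := hpF.cts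
  unfold scl
  fun_prop

end

end Pool.Agent.KS6_53.V5
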