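import Pool.Agent.KS6_53.V5.Alg2

set_option autoImplicit false
set_option linter.style.haveILetI false

namespace Pool.Agent.KS6_53.V5

open Finset

/-- dyadic summation -/
theorem dyadic (g : ℝ → ℝ) (A s X0 : ℝ) (hA : 0 ≤ A) (hs : 0 < s) (h0 : ∀ X < 1, g X ≤ 0)
    (h : ∀ X, 1 ≤ X → X ≤ X0 → g X ≤ g (X / 2) + A * X ^ s) (X : ℝ) (hX : 0 < X) (hX0 : X ≤ X0) :
    g X ≤ A / (1 - 2 ^ (-s)) * X ^ s := by
  have h2 : (2 : ℝ) ^ (-s) < 1 := Real.rpow_lt_one_of_one_lt_of_neg (by norm_num) (by linarith)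
  have h2' : 0 < 1 - (2 : ℝ) ^ (-s) := by linarith
  set K := A / (1 - 2 ^ (-s)) with hK
  have hK0 : 0 ≤ K := div_nonneg hA h2'.le
  have hKA : K * 2 ^ (-s) + A = K := by
    rw [hK]
    field_simp
    ring
  have key : ∀ n : ℕ, ∀ X : ℝ, 0 < X → X ≤ X0 → X < 2 ^ n → g X ≤ K * X ^ s := by
    intro n
    induction n with
    | zero =>
      intro X hX _ hX1
      rw [pow_zero] at hX1
      exact (h0 X hX1).trans (by positivity)
    | succ n ih =>
      intro X hX hXX hXn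
      by_cases hX1 : X < 1
      · exact (h0 X hX1).trans (by positivity)
      · have e1 := h X (not_lt.1 hX1) hXX
        have e2 := ih (X / 2) (by positivity) (by linarith) (by
          rw [pow_succ] at hXn
          linarith)
        have e3 : (X / 2) ^ s = 2 ^ (-s) * X ^ s := by
          rw [Real.div_rpow hX.le (by norm_num), Real.rpow_neg (by norm_num)]
          ring
        rw [e3] at e2
        calc g X ≤ K * (2 ^ (-s) * X ^ s) + A * X ^ s := by linarith
          _ = (K * 2 ^ (-s) + A) * X ^ s := by ring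
          _ = K * X ^ s := by rw [hKA]
  obtain ⟨n, hn⟩ := pow_unbounded_of_one_lt X (by norm_num : (1 : ℝ) < 2)
  exact key n X hX hX0 hn

section norms

variable {ι : Type*} [Fintype ι]

theorem abs_le_norm (u : ι → ℝ) (i : ι) : |u i| ≤ ‖u‖ := by
  have := norm_le_pi_norm u i
  rwa [Real.norm_eq_abs] at this

theorem norm_le_of {u : ι → ℝ} {c : ℝ} (hc : 0 ≤ c) (h : ∀ i, |u i| ≤ c) : ‖u‖ ≤ c := by
  rw [pi_norm_le_iff_of_nonneg hc]
  exact h

theorem exists_norm [Nonempty ι] (x : ι → ℝ) : ∃ i, ‖x‖ = |x i| := by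
  obtain ⟨i, hi⟩ := Finite.exists_max fun i => |x i|
  exact ⟨i, le_antisymm (norm_le_of (abs_nonneg _) hi) (abs_le_norm x i)⟩

end norms

theorem abs_mul_le {a b A B : ℝ} (ha : |a| ≤ A) (hb : |b| ≤ B) : |a * b| ≤ A * B := by
  rw [abs_mul]
  exact mul_le_mul ha hb (abs_nonneg _) ((abs_nonneg _).trans ha)

theorem norm_wedge_le (x y : Fin 5 → ℝ) : ‖wedge x y‖ ≤ 2 * ‖x‖ * ‖y‖ := by
  refine norm_le_of (by positivity) fun p => ?_
  have h1 := abs_mul_le (abs_le_norm x p.1) (abs_le_norm y p.2)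
  have h2 := abs_mul_le (abs_le_norm x p.2) (abs_le_norm y p.1)
  calc |x p.1 * y p.2 - x p.2 * y p.1| ≤ |x p.1 * y p.2| + |x p.2 * y p.1| := abs_sub _ _
    _ ≤ _ := by linarith

theorem norm_hes_le (x : Fin 5 → ℝ) : ‖hes x‖ ≤ 3 * ‖x‖ ^ 2 := by
  refine norm_le_of (by positivity) fun i => ?_
  have h : ∀ i j, |x i * x j| ≤ ‖x‖ * ‖x‖ := fun i j => abs_mul_le (abs_le_norm x i) (abs_le_norm x j)
  have n0 : 0 ≤ ‖x‖ * ‖x‖ := by positivity
  have h11 := abs_le.1 (h 1 1)
  have h03 := abs_le.1 (h 0 3)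
  have h12 := abs_le.1 (h 1 2)
  have h04 := abs_le.1 (h 0 4)
  have h13 := abs_le.1 (h 1 3)
  have h22 := abs_le.1 (h 2 2)
  have h14 := abs_le.1 (h 1 4)
  have h23 := abs_le.1 (h 2 3)
  have h33 := abs_le.1 (h 3 3)
  fin_cases i <;> simp only [hes, Fin.zero_eta, Fin.mk_one, Fin.reduceFinMk, Matrix.cons_val] <;>
    rw [abs_le] <;> constructor <;> nlinarith

theorem norm_mm_le (x : Fin 5 → ℝ) : ‖mm x‖ ≤ 6 * ‖x‖ ^ 3 := by
  calc ‖mm x‖ ≤ 2 * ‖x‖ * ‖hes x‖ := norm_wedge_le _ _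
    _ ≤ 2 * ‖x‖ * (3 * ‖x‖ ^ 2) := mul_le_mul_of_nonneg_left (norm_hes_le x) (by positivity)
    _ = _ := by ring

theorem norm_mu_le (x : Fin 5 → ℝ) (p : Fin 5 × Fin 5) : ‖mu x p‖ ≤ 2 * ‖x‖ ^ 2 := by
  have ha : ∀ i j, |av x i j| ≤ ‖x‖ := by
    intro i j
    have h := abs_le_norm x
    fin_cases i <;> fin_cases j <;> simp [av] <;> exact h _
  refine norm_le_of (by positivity) fun i => ?_
  have h : ∀ i j k l, |av x i j * av x k l| ≤ ‖x‖ * ‖x‖ := fun i j k l => abs_mul_le (ha i j) (ha k l)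
  have n0 : 0 ≤ ‖x‖ * ‖x‖ := by positivity
  fin_cases i <;> simp only [mu, cross, Fin.zero_eta, Fin.mk_one, Fin.reduceFinMk,
    Matrix.cons_val] <;> refine (abs_sub _ _).trans ?_ <;>
    refine (add_le_add (h _ _ _ _) (h _ _ _ _)).trans ?_ <;> nlinarith

theorem exists_mu (x : Fin 5 → ℝ) : ∃ p, ‖x‖ ^ 2 ≤ 3 * ‖mu x p‖ := by
  obtain ⟨i, hi⟩ := exists_norm x
  obtain ⟨p, hp⟩ := Finite.exists_max fun p => ‖mu x p‖
  refine ⟨p, ?_⟩
  have h : ∀ q i, |mu x q i| ≤ ‖mu x p‖ := fun q i => (abs_le_norm _ i).trans (hp q)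
  rw [hi, sq_abs]
  have n0 : 0 ≤ ‖mu x p‖ := norm_nonneg _
  fin_cases i
  · have e := abs_le.1 (h (3, 4) 2)
    simp only [Fin.zero_eta]
    rw [sq0]
    linarith
  · have e := abs_le.1 (h (2, 3) 2)
    simp only [Fin.mk_one]
    rw [sq1]
    linarith
  · have e1 := abs_le.1 (h (0, 3) 2)
    have e2 := abs_le.1 (h (0, 4) 1)
    have e3 := abs_le.1 (h (1, 3) 1)
    simp only [Fin.reduceFinMk]
    rw [sq2]
    linarith
  · have e := abs_le.1 (h (0, 2) 1)
    simp only [Fin.reduceFinMk]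
    rw [sq3]
    linarith
  · have e := abs_le.1 (h (0, 1) 0)
    simp only [Fin.reduceFinMk]
    rw [sq4]
    linarith

theorem norm_pf_ge (l : Fin 3 → ℝ) : ‖l‖ ^ 2 ≤ 4 * ‖pf l‖ := by
  obtain ⟨i, hi⟩ := exists_norm l
  have h0 := abs_le_norm l 0
  have h2 := abs_le_norm l 2
  have p0 : |l 2 ^ 2| ≤ ‖pf l‖ := abs_le_norm (pf l) 0
  have p2 : |l 1 ^ 2 - l 0 * l 2| ≤ ‖pf l‖ := abs_le_norm (pf l) 2
  have p4 : |l 0 ^ 2| ≤ ‖pf l‖ := abs_le_norm (pf l) 4
  rw [abs_pow] at p0 p4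
  have n := norm_nonneg l
  by_cases c0 : ‖l‖ / 2 ≤ |l 0|
  · nlinarith [abs_nonneg (l 0)]
  by_cases c2 : ‖l‖ / 2 ≤ |l 2|
  · nlinarith [abs_nonneg (l 2)]
  push Not at c0 c2
  have hi1 : ‖l‖ = |l 1| := by
    fin_cases i
    · simp only [Fin.zero_eta] at hi
      linarith
    · simpa using hi
    · simp only [Fin.reduceFinMk] at hi
      linarith
  have e1 : |l 0 * l 2| ≤ ‖l‖ / 2 * (‖l‖ / 2) := abs_mul_le c0.le c2.le
  have e2 : l 1 ^ 2 = ‖l‖ ^ 2 := by rw [hi1, sq_abs]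
  have e3 := abs_le.1 e1
  have e4 := abs_le.1 p2
  nlinarith

theorem norm_pf_le (l : Fin 3 → ℝ) : ‖pf l‖ ≤ 2 * ‖l‖ ^ 2 := by
  refine norm_le_of (by positivity) fun i => ?_
  have h : ∀ i j, |l i * l j| ≤ ‖l‖ * ‖l‖ := fun i j => abs_mul_le (abs_le_norm l i) (abs_le_norm l j)
  have n0 : 0 ≤ ‖l‖ * ‖l‖ := by positivity
  have h22 := abs_le.1 (h 2 2)
  have h12 := abs_le.1 (h 1 2)
  have h11 := abs_le.1 (h 1 1)
  have h02 := abs_le.1 (h 0 2)
  have h01 := abs_le.1 (h 0 1)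
  have h00 := abs_le.1 (h 0 0)
  fin_cases i <;> simp only [pf, Fin.zero_eta, Fin.mk_one, Fin.reduceFinMk, Matrix.cons_val] <;>
    rw [abs_le] <;> constructor <;> nlinarith

theorem norm_LL_le (l : Fin 3 → ℝ) (z : Fin 5 → ℝ) : ‖LL l z‖ ≤ 3 * ‖l‖ * ‖z‖ := by
  refine norm_le_of (by positivity) fun p => ?_
  obtain ⟨i, j⟩ := p
  have h : ∀ i j, |l i * z j| ≤ ‖l‖ * ‖z‖ := fun i j => abs_mul_le (abs_le_norm l i) (abs_le_norm z j)
  have n0 : 0 ≤ ‖l‖ * ‖z‖ := by positivity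
  have a := fun i j => (abs_le.1 (h i j)).1
  have b := fun i j => (abs_le.1 (h i j)).2
  have a24 := a 2 4
  have b24 := b 2 4
  have a14 := a 1 4
  have b14 := b 1 4
  have a23 := a 2 3
  have b23 := b 2 3
  have a04 := a 0 4
  have b04 := b 0 4
  have a22 := a 2 2
  have b22 := b 2 2
  have a03 := a 0 3
  have b03 := b 0 3
  have a12 := a 1 2
  have b12 := b 1 2
  have a21 := a 2 1
  have b21 := b 2 1
  have a13 := a 1 3
  have b13 := b 1 3
  have a02 := a 0 2
  have b02 := b 0 2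
  have a20 := a 2 0
  have b20 := b 2 0
  have a11 := a 1 1
  have b11 := b 1 1
  have a01 := a 0 1
  have b01 := b 0 1
  have a10 := a 1 0
  have b10 := b 1 0
  have a00 := a 0 0
  have b00 := b 0 0
  clear a b h
  fin_cases i <;> fin_cases j <;> simp only [LL, Fin.zero_eta, Fin.mk_one, Fin.reduceFinMk,
    Matrix.cons_val] <;> rw [abs_le] <;> constructor <;> linarith

/-- Lojasiewicz: the distance to the cone -/
theorem near_cone (u : Fin 5 → ℝ) (hu : u ≠ 0) :
    ∃ (ν : Fin 3 → ℝ) (s : ℝ), (s = 1 ∨ s = -1) ∧ ‖ν‖ ^ 2 ≤ 4 * ‖u‖ ∧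
      ‖u - s • pf ν‖ ≤ 36 * ‖mm u‖ / ‖u‖ ^ 2 := by
  obtain ⟨p, hp⟩ := exists_mu u
  have hu0 : 0 < ‖u‖ := norm_pos_iff.2 hu
  set l := mu u p with hl
  have hl0 : 0 < ‖l‖ := by
    have : 0 < ‖u‖ ^ 2 := by positivity
    linarith
  have h1 : ‖ml l u‖ ≤ ‖mm u‖ := by
    refine norm_le_of (norm_nonneg _) fun i => ?_
    rw [hl, ml_mu]
    exact abs_le_norm _ _
  have h2 : ‖wedge (pf l) u‖ ≤ 3 * ‖l‖ * ‖mm u‖ := by
    rw [wedge_pf]
    exact (norm_LL_le _ _).trans (mul_le_mul_of_nonneg_left h1 (by positivity))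
  have h3 := norm_pf_ge l
  obtain ⟨k, hk⟩ := exists_norm (pf l)
  have hP0 : 0 < ‖pf l‖ := by
    have : 0 < ‖l‖ ^ 2 := by positivity
    linarith
  have hk0 : pf l k ≠ 0 := by
    intro h
    rw [h, abs_zero] at hk
    linarith
  set t := u k / pf l k with ht
  have htP : |t| * ‖pf l‖ ≤ ‖u‖ := by
    rw [ht, abs_div, hk, div_mul_cancel₀ _ (by rw [← hk]; exact hP0.ne')]
    exact abs_le_norm u k
  have h4 : ‖u - t • pf l‖ ≤ 36 * ‖mm u‖ / ‖u‖ ^ 2 := by
    refine norm_le_of (by positivity) fun j => ?_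
    have e1 : (u - t • pf l) j = wedge (pf l) u (k, j) / pf l k := by
      simp only [Pi.sub_apply, Pi.smul_apply, smul_eq_mul, wedge, ht]
      field_simp
    rw [e1, abs_div, ← hk]
    have e2 := abs_le_norm (wedge (pf l) u) (k, j)
    calc |wedge (pf l) u (k, j)| / ‖pf l‖ ≤ (3 * ‖l‖ * ‖mm u‖) / (‖l‖ ^ 2 / 4) := by
          refine div_le_div₀ (by positivity) (e2.trans h2) (by positivity) (by linarith)
      _ = 12 * ‖mm u‖ / ‖l‖ := by
          field_simp
          ring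
      _ ≤ 12 * ‖mm u‖ / (‖u‖ ^ 2 / 3) := by
          refine div_le_div_of_nonneg_left (by positivity) (by positivity) (by linarith)
      _ = _ := by
          field_simp
          ring
  refine ⟨Real.sqrt |t| • l, if 0 ≤ t then 1 else -1, ?_, ?_, ?_⟩
  · split_ifs <;> simp
  · rw [norm_smul, Real.norm_eq_abs, abs_of_nonneg (Real.sqrt_nonneg _), mul_pow,
      Real.sq_sqrt (abs_nonneg _)]
    nlinarith [abs_nonneg t]
  · rw [pf_smul, Real.sq_sqrt (abs_nonneg _)]
    have : (if 0 ≤ t then (1 : ℝ) else -1) • |t| • pf l = t • pf l := by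
      rw [smul_smul]
      congr 1
      split_ifs with h
      · rw [abs_of_nonneg h, one_mul]
      · rw [abs_of_neg (not_le.1 h)]
        ring
    rw [this]
    exact h4

theorem pf_lip (l l' : Fin 3 → ℝ) : ‖pf l - pf l'‖ ≤ 2 * (‖l‖ + ‖l'‖) * ‖l - l'‖ := by
  refine norm_le_of (by positivity) fun i => ?_
  have h : ∀ i j, |l i * l j - l' i * l' j| ≤ (‖l‖ + ‖l'‖) * ‖l - l'‖ := by
    intro i j
    have e : l i * l j - l' i * l' j = l i * (l - l') j + (l - l') i * l' j := by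
      simp only [Pi.sub_apply]
      ring
    rw [e]
    refine (abs_add_le _ _).trans ?_
    have h1 := abs_mul_le (abs_le_norm l i) (abs_le_norm (l - l') j)
    have h2 := abs_mul_le (abs_le_norm (l - l') i) (abs_le_norm l' j)
    linarith
  have n0 : 0 ≤ (‖l‖ + ‖l'‖) * ‖l - l'‖ := by positivity
  have h22 := abs_le.1 (h 2 2)
  have h12 := abs_le.1 (h 1 2)
  have h11 := abs_le.1 (h 1 1)
  have h02 := abs_le.1 (h 0 2)
  have h01 := abs_le.1 (h 0 1)
  have h00 := abs_le.1 (h 0 0)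
  fin_cases i <;> simp only [pf, Fin.zero_eta, Fin.mk_one, Fin.reduceFinMk, Matrix.cons_val,
    Pi.sub_apply] <;> rw [abs_le] <;> constructor <;> nlinarith

/-- the cover -/
theorem cover (K : ℝ) (hK : 1 ≤ K) : ∃ C : ℝ, 1 ≤ C ∧ ∀ X R : ℝ, 0 < X → 0 < R → R ≤ K * X →
    ∃ B : Finset (Fin 5 → ℝ), (B.card : ℝ) ≤ C * (X / R) ^ 3 ∧
      ∀ u : Fin 5 → ℝ, X / 2 ≤ ‖u‖ → ‖u‖ ≤ X → ‖mm u‖ ≤ R * X ^ 2 →
        ∃ a ∈ B, ‖u - a‖ ≤ C * R := by
  classical
  refine ⟨686 * K ^ 3, by nlinarith [one_le_pow₀ hK (n := 3)], ?_⟩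
  intro X R hX hR hRX
  have hK3 : 1 ≤ K ^ 3 := one_le_pow₀ hK
  by_cases hRX' : X < R
  · refine ⟨{0}, ?_, ?_⟩
    · rw [Finset.card_singleton, Nat.cast_one]
      have h1 : 1 ≤ K * (X / R) := by
        rw [← mul_div_assoc, le_div_iff₀ hR]
        linarith
      have h2 := one_le_pow₀ h1 (n := 3)
      rw [mul_pow] at h2
      nlinarith
    · intro u _ hu _
      refine ⟨0, by simp, ?_⟩
      rw [sub_zero]
      nlinarith
  · have hRX1 : R ≤ X := not_lt.1 hRX'
    set h : ℝ := R / Real.sqrt X with hh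
    have hsX : 0 < Real.sqrt X := Real.sqrt_pos.2 hX
    have hh0 : 0 < h := by positivity
    have hsq : Real.sqrt X ^ 2 = X := Real.sq_sqrt hX.le
    have hhX : h ≤ Real.sqrt X := by
      rw [hh, div_le_iff₀ hsX, ← sq, hsq]
      exact hRX1
    set N : ℤ := ⌊2 * X / R⌋ + 1 with hN
    have hN0 : 0 ≤ N := by
      have : 0 ≤ ⌊2 * X / R⌋ := Int.floor_nonneg.2 (by positivity)
      omega
    have hXR : 1 ≤ X / R := (one_le_div hR).2 hRX1
    have hN1 : (N : ℝ) ≤ 3 * (X / R) := by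
      have := Int.floor_le (2 * X / R)
      push_cast [hN]
      have e : 2 * X / R = 2 * (X / R) := by ring
      rw [e] at this ⊢
      linarith
    let B₀ : Finset (Fin 3 → ℤ) := Fintype.piFinset (fun _ => Finset.Icc (-N) N)
    let f : (Fin 3 → ℤ) × Bool → (Fin 5 → ℝ) := fun z =>
      (if z.2 then (1 : ℝ) else -1) • pf (fun i => h * z.1 i)
    refine ⟨(B₀ ×ˢ (univ : Finset Bool)).image f, ?_, ?_⟩
    · have c1 : ((B₀ ×ˢ (univ : Finset Bool)).image f).card ≤ (2 * N + 1).toNat ^ 3 * 2 := by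
        refine Finset.card_image_le.trans ?_
        rw [Finset.card_product, Fintype.card_piFinset, Finset.prod_const, Int.card_Icc,
          Finset.card_univ, Finset.card_univ, Fintype.card_fin, Fintype.card_bool]
        refine le_of_eq ?_
        congr 3
        ring
      have c2 : (((2 * N + 1).toNat : ℕ) : ℝ) ≤ 7 * (X / R) := by
        rw [← Int.cast_natCast, Int.toNat_of_nonneg (by omega)]
        push_cast
        linarith
      calc ((((B₀ ×ˢ (univ : Finset Bool)).image f).card : ℕ) : ℝ)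
          ≤ (((2 * N + 1).toNat ^ 3 * 2 : ℕ) : ℝ) := by exact_mod_cast c1
        _ = (((2 * N + 1).toNat : ℕ) : ℝ) ^ 3 * 2 := by push_cast; ring
        _ ≤ (7 * (X / R)) ^ 3 * 2 := by
            refine mul_le_mul_of_nonneg_right (pow_le_pow_left₀ (by positivity) c2 3) (by norm_num)
        _ = 686 * (X / R) ^ 3 := by ring
        _ ≤ 686 * K ^ 3 * (X / R) ^ 3 := by
            refine mul_le_mul_of_nonneg_right (by linarith) (by positivity)
    · intro u hu1 hu2 hmu
      have hu0 : 0 < ‖u‖ := by linarith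
      obtain ⟨ν, s, hs, hν, hd⟩ := near_cone u (norm_pos_iff.1 hu0)
      have hν2 : ‖ν‖ ≤ 2 * Real.sqrt X := by
        have : ‖ν‖ ^ 2 ≤ (2 * Real.sqrt X) ^ 2 := by
          rw [mul_pow, hsq]
          linarith
        exact le_of_sq_le_sq this (by positivity)
      set m : Fin 3 → ℤ := fun i => ⌊ν i / h⌋ with hm
      have hm1 : ∀ i, |ν i - h * m i| ≤ h := by
        intro i
        have e1 := Int.floor_le (ν i / h)
        have e2 := (Int.lt_floor_add_one (ν i / h)).le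
        rw [le_div_iff₀ hh0] at e1
        rw [div_le_iff₀ hh0] at e2
        rw [abs_le]
        simp only [hm]
        constructor <;> nlinarith
      have hd2 : ‖ν - fun i => h * (m i : ℝ)‖ ≤ h := norm_le_of hh0.le hm1
      have hν3 : ‖fun i => h * (m i : ℝ)‖ ≤ 3 * Real.sqrt X := by
        have e1 : (fun i => h * (m i : ℝ)) = ν - (ν - fun i => h * (m i : ℝ)) := by abel
        rw [e1]
        refine (norm_sub_le _ _).trans ?_
        linarith
      refine ⟨s • pf (fun i => h * (m i : ℝ)), ?_, ?_⟩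
      · rw [Finset.mem_image]
        refine ⟨(m, decide (s = 1)), ?_, ?_⟩
        · rw [Finset.mem_product]
          refine ⟨?_, Finset.mem_univ _⟩
          rw [Fintype.mem_piFinset]
          intro i
          have e0 : |ν i / h| ≤ 2 * X / R := by
            rw [abs_div, abs_of_pos hh0, div_le_iff₀ hh0]
            calc |ν i| ≤ ‖ν‖ := abs_le_norm ν i
              _ ≤ 2 * Real.sqrt X := hν2
              _ = 2 * X / R * h := by
                rw [hh]
                field_simp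
                rw [hsq]
          have e1 := abs_le.1 e0
          rw [Finset.mem_Icc]
          constructor
          · have : -(⌊2 * X / R⌋ : ℤ) - 1 ≤ ⌊ν i / h⌋ := by
              rw [Int.le_floor]
              push_cast
              have := (Int.lt_floor_add_one (2 * X / R)).le
              linarith
            simp only [hm, hN]
            omega
          · have : ⌊ν i / h⌋ ≤ ⌊2 * X / R⌋ := Int.floor_le_floor e1.2
            simp only [hm, hN]
            omega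
        · rcases hs with rfl | rfl
          · simp [f]
          · simp only [f]
            have : ¬ ((-1 : ℝ) = 1) := by norm_num
            simp [this]
      · have e1 : u - s • pf (fun i => h * (m i : ℝ)) =
            (u - s • pf ν) + s • (pf ν - pf (fun i => h * (m i : ℝ))) := by
          rw [smul_sub]
          abel
        have e2 : ‖s • (pf ν - pf (fun i => h * (m i : ℝ)))‖ ≤ 10 * R := by
          have hs1 : ‖s‖ = 1 := by rcases hs with rfl | rfl <;> simp
          rw [norm_smul, hs1, one_mul]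
          calc _ ≤ 2 * (‖ν‖ + ‖fun i => h * (m i : ℝ)‖) * ‖ν - fun i => h * (m i : ℝ)‖ := pf_lip _ _
            _ ≤ 2 * (2 * Real.sqrt X + 3 * Real.sqrt X) * h := by
                refine mul_le_mul (by linarith) hd2 (norm_nonneg _) (by positivity)
            _ = 10 * R := by
                rw [hh]
                field_simp
                ring
        have e3 : 36 * ‖mm u‖ / ‖u‖ ^ 2 ≤ 144 * R := by
          rw [div_le_iff₀ (by positivity)]
          have : X ^ 2 / 4 ≤ ‖u‖ ^ 2 := by nlinarith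
          nlinarith
        rw [e1]
        refine (norm_add_le _ _).trans ?_
        have : 154 * R ≤ 686 * K ^ 3 * R := by nlinarith
        linarith

end Pool.Agent.KS6_53.V5
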