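import Pool.Agent.KS6_53.V5.Pln

set_option autoImplicit false
set_option linter.style.haveILetI false

namespace Pool.Agent.KS6_53.V5

open Finset

/-- the binary cubic form -/
def cf (c : Fin 4 → ℤ) (a b : ℤ) : ℤ := c 0 * a ^ 3 + c 1 * a ^ 2 * b + c 2 * a * b ^ 2 + c 3 * b ^ 3

theorem cubic_form {x y : Fin 5 → ℤ} (hi : Iso x y) (hw : Unimod (wedge x y)) :
    ∃ c : Fin 4 → ℤ, Unimod c ∧ ∀ a b : ℤ, mm (a • x + b • y) = cf c a b • wedge x y := by
  obtain ⟨a1, b1, h1⟩ := hes_in hi hw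
  obtain ⟨b2, a2, h2⟩ := hes_in (iso_comm hi) (by
    rw [wedge_comm]
    obtain ⟨c, hc⟩ := hw
    exact ⟨fun p => -c p, by simpa using hc⟩)
  obtain ⟨a3, b3, h3⟩ := hh_in hi hw
  refine ⟨![b1, b3 - a1, b2 - a3, -a2], ?_, ?_⟩
  · rw [unimod_int_iff]
    intro p hp
    by_contra hc
    push Not at hc
    haveI : Fact p.Prime := ⟨hp⟩
    have c0 : ((b1 : ℤ) : ZMod p) = 0 := (ZMod.intCast_zmod_eq_zero_iff_dvd _ _).2 (hc 0)
    have c1 : ((b3 - a1 : ℤ) : ZMod p) = 0 := (ZMod.intCast_zmod_eq_zero_iff_dvd _ _).2 (hc 1)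
    have c2 : ((b2 - a3 : ℤ) : ZMod p) = 0 := (ZMod.intCast_zmod_eq_zero_iff_dvd _ _).2 (hc 2)
    have c3 : ((-a2 : ℤ) : ZMod p) = 0 := (ZMod.intCast_zmod_eq_zero_iff_dvd _ _).2 (hc 3)
    push_cast at c1 c2 c3
    have e1 : hes (red p x) = (a1 : ZMod p) • red p x := by
      have : hes (red p x) = red p (hes x) := by
        funext i
        fin_cases i <;> simp [hes, red]
      rw [this, h1]
      funext i
      simp only [red, Pi.add_apply, Pi.smul_apply, smul_eq_mul, Int.cast_add, Int.cast_mul]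
      rw [c0]
      ring
    have e2 : hes (red p y) = (b2 : ZMod p) • red p y := by
      have : hes (red p y) = red p (hes y) := by
        funext i
        fin_cases i <;> simp [hes, red]
      rw [this, h2]
      funext i
      simp only [red, Pi.add_apply, Pi.smul_apply, smul_eq_mul, Int.cast_add, Int.cast_mul]
      linear_combination (-(x i : ZMod p)) * c3
    have e3 : hh (red p x) (red p y) = (a1 : ZMod p) • red p y + (b2 : ZMod p) • red p x := by
      have : hh (red p x) (red p y) = red p (hh x y) := by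
        funext i
        fin_cases i <;> simp [hh, red]
      rw [this, h3]
      funext i
      simp only [red, Pi.add_apply, Pi.smul_apply, smul_eq_mul, Int.cast_add, Int.cast_mul]
      linear_combination (-(x i : ZMod p)) * c2 + (y i : ZMod p) * c1
    have e4 := no_plane e1 e3 e2
    have e5 : wedge (red p x) (red p y) = red p (wedge x y) := by
      funext q
      simp [wedge, red]
    obtain ⟨q, hq⟩ := (unimod_int_iff _).1 hw p hp
    apply hq
    rw [← ZMod.intCast_zmod_eq_zero_iff_dvd]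
    exact congrFun (e5.symm.trans e4) q
  · intro a b
    have e1 : hes (a • x + b • y) = (a ^ 2 * a1 + a * b * a3 + b ^ 2 * a2) • x +
        (a ^ 2 * b1 + a * b * b3 + b ^ 2 * b2) • y := by
      rw [hes_comb, h1, h2, h3]
      funext i
      simp only [Pi.add_apply, Pi.smul_apply, smul_eq_mul]
      ring
    rw [mm, e1, wedge_comb]
    congr 1
    simp [cf]
    ring

theorem gg_dvd (x : Fin 5 → ℤ) (p : Fin 5 × Fin 5) : (gg x : ℤ) ∣ mm x p :=
  Int.natCast_dvd.2 (Finset.gcd_dvd (mem_univ p))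

theorem dvd_gg {x : Fin 5 → ℤ} {n : ℕ} (h : ∀ p, (n : ℤ) ∣ mm x p) : n ∣ gg x :=
  Finset.dvd_gcd fun p _ => Int.natCast_dvd.1 (h p)

theorem gg_eq_zero_iff (x : Fin 5 → ℤ) : gg x = 0 ↔ mm x = 0 := by
  rw [gg, Finset.gcd_eq_zero_iff]
  constructor
  · intro h
    funext p
    exact Int.natAbs_eq_zero.1 (h p (mem_univ p))
  · intro h p _
    rw [h]
    rfl

theorem gg_pos {x : Fin 5 → ℤ} (h : mm x ≠ 0) : 0 < gg x :=
  Nat.pos_of_ne_zero fun h' => h ((gg_eq_zero_iff x).1 h')

theorem gg_of_eq {x : Fin 5 → ℤ} {w : Fin 5 × Fin 5 → ℤ} (hw : Unimod w) {c : ℤ}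
    (h : mm x = c • w) : gg x = c.natAbs := by
  obtain ⟨e, he⟩ := hw
  apply Nat.dvd_antisymm
  · rw [← Int.natCast_dvd]
    have : c = ∑ p, e p * mm x p := by
      rw [h]
      calc c = c * ∑ p, e p * w p := by rw [he, mul_one]
        _ = _ := by
          rw [Finset.mul_sum]
          refine Finset.sum_congr rfl fun p _ => ?_
          simp only [Pi.smul_apply, smul_eq_mul]
          ring
    rw [this]
    exact Finset.dvd_sum fun p _ => Dvd.dvd.mul_left (gg_dvd x p) _
  · refine dvd_gg fun p => ?_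
    rw [h, Int.natAbs_dvd]
    exact dvd_mul_right _ _

/-- the second basis vector -/
theorem exists_basis {w : Fin 5 × Fin 5 → ℤ} {x : Fin 5 → ℤ} (hx : Unimod x) (hin : In w x)
    (h0 : w (0, 3) + w (1, 2) = 0) (h1 : w (0, 4) + w (1, 3) = 0) (h2 : w (1, 4) + w (2, 3) = 0) :
    ∃ y : Fin 5 → ℤ, Iso x y ∧ w = wedge x y := by
  obtain ⟨e, he⟩ := hx
  have hw : w = wedge x (fun j => ∑ i, e i * w (i, j)) := by
    funext ⟨i, j⟩
    have h3 : ∀ k, x k * w (i, j) = x i * w (k, j) - x j * w (k, i) := fun k => by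
      have := hin k i j
      linear_combination this
    calc w (i, j) = (∑ k, e k * x k) * w (i, j) := by rw [he, one_mul]
      _ = ∑ k, e k * (x k * w (i, j)) := by
        rw [Finset.sum_mul]
        exact Finset.sum_congr rfl fun k _ => by ring
      _ = ∑ k, e k * (x i * w (k, j) - x j * w (k, i)) := by simp only [h3]
      _ = _ := by
        simp only [wedge, Finset.mul_sum, ← Finset.sum_sub_distrib]
        exact Finset.sum_congr rfl fun k _ => by ring
  refine ⟨_, ⟨?_, ?_, ?_⟩, hw⟩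
  · rw [hw] at h0
    simp only [wedge, b0] at h0 ⊢
    linear_combination h0
  · rw [hw] at h1
    simp only [wedge, b1] at h1 ⊢
    linear_combination h1
  · rw [hw] at h2
    simp only [wedge, b2] at h2 ⊢
    linear_combination h2

theorem iso_wedge_iff {R : Type*} [CommRing R] {x y : Fin 5 → R} : Iso x y ↔
    (wedge x y (0, 3) + wedge x y (1, 2) = 0 ∧ wedge x y (0, 4) + wedge x y (1, 3) = 0 ∧
      wedge x y (1, 4) + wedge x y (2, 3) = 0) := by
  simp only [Iso, b0, b1, b2, wedge]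

theorem VV_basis {w : Fin 5 × Fin 5 → ℤ} (hw : w ∈ VV) {x : Fin 5 → ℤ} (hx : Unimod x)
    (hin : In w x) : ∃ y : Fin 5 → ℤ, Iso x y ∧ w = wedge x y := by
  obtain ⟨hu, x0, y0, hi, rfl⟩ := hw
  obtain ⟨h0, h1, h2⟩ := iso_wedge_iff.1 hi
  exact exists_basis hx hin h0 h1 h2

/-- the plane of a vector -/
theorem exists_plane {x : Fin 5 → ℤ} (hx : Unimod x) (hm : mm x ≠ 0) :
    ∃ w ∈ VV, mm x = (gg x : ℤ) • w ∧ In w x := by
  have hg := gg_pos hm
  have hg' : (gg x : ℤ) ≠ 0 := by exact_mod_cast hg.ne'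
  choose w hw using gg_dvd x
  have hmw : mm x = (gg x : ℤ) • w := by
    funext p
    rw [Pi.smul_apply, smul_eq_mul, ← hw]
  have hin : In w x := by
    intro i j k
    have h1 : (gg x : ℤ) * (x i * w (j, k) - x j * w (i, k) + x k * w (i, j)) = 0 := by
      have e1 := hw (j, k)
      have e2 := hw (i, k)
      have e3 := hw (i, j)
      have : x i * mm x (j, k) - x j * mm x (i, k) + x k * mm x (i, j) = 0 := by
        simp only [mm, wedge]
        ring
      rw [e1, e2, e3] at this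
      linear_combination this
    exact (mul_eq_zero.1 h1).resolve_left hg'
  have hlin : ∀ p q, mm x p + mm x q = 0 → w p + w q = 0 := by
    intro p q h
    rw [hw p, hw q, ← mul_add] at h
    exact (mul_eq_zero.1 h).resolve_left hg'
  obtain ⟨h0, h1, h2⟩ := iso_wedge_iff.1 (iso_hes x)
  obtain ⟨y, hiso, hwy⟩ := exists_basis hx hin (hlin _ _ h0) (hlin _ _ h1) (hlin _ _ h2)
  have hu : Unimod w := by
    rw [unimod_int_iff]
    intro p hp
    by_contra hc
    push Not at hc
    have h3 : gg x * p ∣ gg x := dvd_gg fun q => by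
      rw [hw q]
      push_cast
      exact mul_dvd_mul_left _ (hc q)
    have h4 := Nat.le_of_dvd hg h3
    have := hp.two_le
    nlinarith
  exact ⟨w, ⟨hu, x, y, hiso, hwy⟩, hmw, hin⟩

/-- the vectors of a plane -/
theorem mm_of_in {w : Fin 5 × Fin 5 → ℤ} (hw : w ∈ VV) {x : Fin 5 → ℤ} (hin : In w x) :
    ∃ c : ℤ, mm x = c • w ∧ gg x = c.natAbs := by
  obtain ⟨hu, x0, y0, hi, rfl⟩ := hw
  obtain ⟨c, -, hc⟩ := cubic_form hi hu
  obtain ⟨a, b, rfl⟩ := (in_wedge_iff hu).1 hin
  exact ⟨cf c a b, hc a b, gg_of_eq hu (hc a b)⟩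

theorem nz_smul {ι : Type*} [Fintype ι] (c : ℤ) (x : ι → ℤ) : nz (c • x) = |(c : ℝ)| * nz x := by
  have : rv (c • x) = (c : ℝ) • rv x := by
    funext i
    simp [rv]
  rw [nz, this, norm_smul, Real.norm_eq_abs, nz]

theorem nz_mm {w : Fin 5 × Fin 5 → ℤ} (hw : w ∈ VV) {x : Fin 5 → ℤ} (hin : In w x) :
    nz (mm x) = gg x * nz w := by
  obtain ⟨c, hc, hg⟩ := mm_of_in hw hin
  rw [hc, nz_smul, hg]
  congr 1
  rw [Nat.cast_natAbs, Int.cast_abs]

end Pool.Agent.KS6_53.V5
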