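import Pool.Agent.KS6_53.V5.Area
import Pool.Agent.KS6_53.V5.Cov

set_option autoImplicit false

namespace Pool.Agent.KS6_53.V5

open Finset Filter Topology

section

variable {L : Type*} [NormedField L]

/-- the cone over `V(L)` -/
def Cone (L : Type*) [NormedField L] : Set (Fin 5 × Fin 5 → L) :=
  {q | q ≠ 0 ∧ ∃ x y : Fin 5 → L, Iso x y ∧ q = wedge x y}

/-- a positive continuous function on `V(L)` -/
structure Fac (L : Type*) [NormedField L] (ψ : (Fin 5 × Fin 5 → L) → ℝ) : Prop where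
  pos : ∀ q ∈ Cone L, 0 < ψ q
  cts : ContinuousOn ψ (Cone L)
  inv : ∀ a : L, a ≠ 0 → ∀ q ∈ Cone L, ψ (a • q) = ψ q

/-- the normalized bases -/
def KI (L : Type*) [NormedField L] : Set ((Fin 5 → L) × (Fin 5 → L)) :=
  {z | ‖z.1‖ ≤ 1 ∧ ‖z.2‖ ≤ 1 ∧ ‖wedge z.1 z.2‖ = 1 ∧ Iso z.1 z.2}

theorem wedge_cts : Continuous fun z : (Fin 5 → L) × (Fin 5 → L) => wedge z.1 z.2 := by
  refine continuous_pi fun p => ?_
  simp only [wedge]
  fun_prop

theorem hes_cts : Continuous fun x : Fin 5 → L => hes x := by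
  refine continuous_pi fun i => ?_
  fin_cases i <;> simp only [hes, Fin.zero_eta, Fin.mk_one, Fin.reduceFinMk, Matrix.cons_val] <;>
    fun_prop

theorem mm_cts : Continuous fun x : Fin 5 → L => mm x :=
  wedge_cts.comp (continuous_id.prodMk hes_cts)

theorem KI_compact [ProperSpace L] : IsCompact (KI L) := by
  refine Metric.isCompact_of_isClosed_isBounded ?_ ?_
  · refine IsClosed.inter (isClosed_le continuous_fst.norm continuous_const) (IsClosed.inter
      (isClosed_le continuous_snd.norm continuous_const)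
      (IsClosed.inter (isClosed_eq wedge_cts.norm continuous_const) ?_))
    refine IsClosed.inter (isClosed_eq ?_ continuous_const) (IsClosed.inter
      (isClosed_eq ?_ continuous_const) (isClosed_eq ?_ continuous_const))
    · simp only [b0]
      fun_prop
    · simp only [b1]
      fun_prop
    · simp only [b2]
      fun_prop
  · refine (Metric.isBounded_closedBall (x := 0) (r := 1)).subset ?_
    rintro ⟨p, q⟩ ⟨h1, h2, -⟩
    rw [mem_closedBall_zero_iff, Prod.norm_def]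
    exact max_le h1 h2

/-- normalized basis of a plane -/
theorem norm_basis {x y : Fin 5 → L} (hi : Iso x y) (hw : wedge x y ≠ 0) :
    ∃ (z : (Fin 5 → L) × (Fin 5 → L)) (a : L), z ∈ KI L ∧ a ≠ 0 ∧ ‖a‖ = ‖wedge x y‖ ∧
      wedge x y = a • wedge z.1 z.2 := by
  obtain ⟨p, hp⟩ : ∃ p, ‖wedge x y‖ = ‖wedge x y p‖ := by
    obtain ⟨p, hp⟩ := Finite.exists_max fun p => ‖wedge x y p‖
    refine ⟨p, le_antisymm ?_ (norm_le_pi_norm _ p)⟩
    rw [pi_norm_le_iff_of_nonneg (norm_nonneg _)]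
    exact hp
  set a := wedge x y p with ha
  have hn : 0 < ‖wedge x y‖ := norm_pos_iff.2 hw
  have ha0 : a ≠ 0 := by
    intro h0
    rw [hp, h0, norm_zero] at hn
    exact lt_irrefl _ hn
  have han : 0 < ‖a‖ := norm_pos_iff.2 ha0
  set p' : Fin 5 → L := (a⁻¹ * y p.2) • x + (-(a⁻¹ * x p.2)) • y with hp'
  set q' : Fin 5 → L := (-(a⁻¹ * y p.1)) • x + (a⁻¹ * x p.1) • y with hq'
  have e1 : ∀ k, p' k = a⁻¹ * wedge x y (k, p.2) := by
    intro k
    simp only [hp', wedge, Pi.add_apply, Pi.smul_apply, smul_eq_mul]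
    ring
  have e2 : ∀ k, q' k = a⁻¹ * wedge x y (p.1, k) := by
    intro k
    simp only [hq', wedge, Pi.add_apply, Pi.smul_apply, smul_eq_mul]
    ring
  have hbd : ∀ r, ‖a⁻¹ * wedge x y r‖ ≤ 1 := by
    intro r
    rw [norm_mul, norm_inv, inv_mul_le_iff₀ han, mul_one, ← hp]
    exact norm_le_pi_norm _ r
  have hdet : wedge p' q' = a⁻¹ • wedge x y := by
    rw [hp', hq', wedge_comb]
    congr 1
    have : a⁻¹ * y p.2 * (a⁻¹ * x p.1) - -(a⁻¹ * x p.2) * -(a⁻¹ * y p.1) = a⁻¹ * a⁻¹ * a := by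
      rw [ha]
      simp only [wedge]
      ring
    rw [this]
    field_simp
  refine ⟨(p', q'), a, ⟨?_, ?_, ?_, ?_⟩, ha0, hp.symm, ?_⟩
  · rw [pi_norm_le_iff_of_nonneg zero_le_one]
    intro k
    simp only
    rw [e1]
    exact hbd _
  · rw [pi_norm_le_iff_of_nonneg zero_le_one]
    intro k
    simp only
    rw [e2]
    exact hbd _
  · simp only
    rw [hdet, norm_smul, norm_inv, hp]
    exact inv_mul_cancel₀ han.ne'
  · exact iso_comb _ _ _ _ hi
  · simp only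
    rw [hdet, smul_smul, mul_inv_cancel₀ ha0, one_smul]

theorem KI_cone {z : (Fin 5 → L) × (Fin 5 → L)} (hz : z ∈ KI L) : wedge z.1 z.2 ∈ Cone L := by
  refine ⟨fun h0 => ?_, z.1, z.2, hz.2.2.2, rfl⟩
  have := hz.2.2.1
  rw [h0, norm_zero] at this
  exact zero_ne_one this

theorem Fac.bounds [ProperSpace L] {ψ : (Fin 5 × Fin 5 → L) → ℝ} (h : Fac L ψ) :
    ∃ a b : ℝ, 0 < a ∧ ∀ q ∈ Cone L, a ≤ ψ q ∧ ψ q ≤ b := by
  have hc : ContinuousOn (fun z : (Fin 5 → L) × (Fin 5 → L) => ψ (wedge z.1 z.2)) (KI L) :=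
    h.cts.comp wedge_cts.continuousOn fun z hz => KI_cone hz
  have hval : ∀ q ∈ Cone L, ∃ z ∈ KI L, ψ q = ψ (wedge z.1 z.2) := by
    rintro q ⟨hq, x, y, hi, rfl⟩
    obtain ⟨z, a, hz, ha, -, he⟩ := norm_basis hi hq
    refine ⟨z, hz, ?_⟩
    rw [he]
    exact h.inv a ha _ (KI_cone hz)
  rcases (KI L).eq_empty_or_nonempty with hE | hE
  · refine ⟨1, 1, one_pos, fun q hq => ?_⟩
    obtain ⟨z, hz, -⟩ := hval q hq
    rw [hE] at hz
    exact absurd hz (Set.notMem_empty z)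
  · obtain ⟨z1, hz1, h1⟩ := KI_compact.exists_isMinOn hE hc
    obtain ⟨z2, hz2, h2⟩ := KI_compact.exists_isMaxOn hE hc
    refine ⟨ψ (wedge z1.1 z1.2), ψ (wedge z2.1 z2.2), h.pos _ (KI_cone hz1), fun q hq => ?_⟩
    obtain ⟨z, hz, he⟩ := hval q hq
    rw [he]
    exact ⟨h1 hz, h2 hz⟩

theorem mm_cone {x : Fin 5 → L} (h : mm x ≠ 0) : mm x ∈ Cone L :=
  ⟨h, x, hes x, iso_hes x, rfl⟩

/-- uniform continuity of `ψ (mm u)` -/
theorem Fac.unif [ProperSpace L] {ψ : (Fin 5 × Fin 5 → L) → ℝ} (h : Fac L ψ) {c : ℝ} (hc : 0 < c)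
    {ε : ℝ} (hε : 0 < ε) : ∃ δ : ℝ, 0 < δ ∧ ∀ u u' : Fin 5 → L, ‖u‖ ≤ 1 → ‖u'‖ ≤ 1 →
      c ≤ ‖mm u‖ → c ≤ ‖mm u'‖ → ‖u - u'‖ < δ → |ψ (mm u) - ψ (mm u')| ≤ ε := by
  set K : Set (Fin 5 → L) := {u | ‖u‖ ≤ 1 ∧ c ≤ ‖mm u‖} with hK
  have hKc : IsCompact K := by
    refine Metric.isCompact_of_isClosed_isBounded ?_ ?_
    · exact IsClosed.inter (isClosed_le continuous_norm continuous_const)
        (isClosed_le continuous_const mm_cts.norm)
    · refine (Metric.isBounded_closedBall (x := 0) (r := 1)).subset ?_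
      rintro u ⟨h1, -⟩
      rwa [mem_closedBall_zero_iff]
  have hcts : ContinuousOn (fun u => ψ (mm u)) K := by
    refine h.cts.comp mm_cts.continuousOn fun u hu => mm_cone fun h0 => ?_
    have := hu.2
    rw [h0, norm_zero] at this
    linarith
  obtain ⟨δ, hδ, h2⟩ := Metric.uniformContinuousOn_iff.1
    (hKc.uniformContinuousOn_of_continuous hcts) ε hε
  refine ⟨δ, hδ, fun u u' a b c d e => ?_⟩
  have := h2 u ⟨a, c⟩ u' ⟨b, d⟩ (by rwa [dist_eq_norm])
  rw [Real.dist_eq] at this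
  exact this.le

end

end Pool.Agent.KS6_53.V5
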