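import Pool.Agent.KS6_53.V5.Fa1

set_option autoImplicit false

namespace Pool.Agent.KS6_53.V5

open Finset Filter Topology MeasureTheory

theorem cubic_field {F : Type*} [Field F] {x y : Fin 5 → F} (hi : Iso x y) (hw : wedge x y ≠ 0) :
    ∃ c : Fin 4 → F, c ≠ 0 ∧ ∀ a b : F, mm (a • x + b • y) =
      (c 0 * a ^ 3 + c 1 * a ^ 2 * b + c 2 * a * b ^ 2 + c 3 * b ^ 3) • wedge x y := by
  have hu := unimod_of_ne hw
  obtain ⟨a1, b1, h1⟩ := hes_in hi hu
  obtain ⟨b2, a2, h2⟩ := hes_in (iso_comm hi) (by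
    rw [wedge_comm]
    obtain ⟨c, hc⟩ := hu
    exact ⟨fun p => -c p, by simpa using hc⟩)
  obtain ⟨a3, b3, h3⟩ := hh_in hi hu
  refine ⟨![b1, b3 - a1, b2 - a3, -a2], ?_, ?_⟩
  · intro hc
    have c0 : b1 = 0 := by simpa using congrFun hc 0
    have c1 : b3 - a1 = 0 := by simpa using congrFun hc 1
    have c2 : b2 - a3 = 0 := by simpa using congrFun hc 2
    have c3 : a2 = 0 := by simpa using congrFun hc 3
    apply hw
    refine no_plane (a := a1) (b := b2) ?_ ?_ ?_
    · rw [h1, c0]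
      simp
    · rw [h3]
      funext i
      simp only [Pi.add_apply, Pi.smul_apply, smul_eq_mul]
      linear_combination (-(x i)) * c2 + (y i) * c1
    · rw [h2, c3]
      simp
  · intro a b
    have e1 : hes (a • x + b • y) = (a ^ 2 * a1 + a * b * a3 + b ^ 2 * a2) • x +
        (a ^ 2 * b1 + a * b * b3 + b ^ 2 * b2) • y := by
      rw [hes_comb, h1, h2, h3]
      funext i
      simp only [Pi.add_apply, Pi.smul_apply, smul_eq_mul]
      ring
    rw [mm, e1, wedge_comb]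
    congr 1
    simp
    ring

theorem exists_ne {x y : Fin 5 → ℝ} (hi : Iso x y) (hw : wedge x y ≠ 0) :
    mm x ≠ 0 ∨ mm y ≠ 0 ∨ mm (x + y) ≠ 0 ∨ mm (x - y) ≠ 0 := by
  obtain ⟨c, hc, h⟩ := cubic_field hi hw
  by_contra hn
  push Not at hn
  obtain ⟨n1, n2, n3, n4⟩ := hn
  have key : ∀ t : ℝ, t • wedge x y = 0 → t = 0 := fun t ht => (smul_eq_zero.1 ht).resolve_right hw
  have e1 : c 0 = 0 := by
    refine key _ ?_
    have := h 1 0
    simp only [one_smul, zero_smul, add_zero] at this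
    rw [n1] at this
    rw [this]
    congr 1
    ring
  have e2 : c 3 = 0 := by
    refine key _ ?_
    have := h 0 1
    simp only [one_smul, zero_smul, zero_add] at this
    rw [n2] at this
    rw [this]
    congr 1
    ring
  have e3 : c 0 + c 1 + c 2 + c 3 = 0 := by
    refine key _ ?_
    have := h 1 1
    simp only [one_smul] at this
    rw [n3] at this
    rw [this]
    congr 1
    ring
  have e4 : c 0 - c 1 + c 2 - c 3 = 0 := by
    refine key _ ?_
    have := h 1 (-1)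
    simp only [one_smul, neg_smul, ← sub_eq_add_neg] at this
    rw [n4] at this
    rw [this]
    congr 1
    ring
  apply hc
  funext i
  fin_cases i <;> simp only [Fin.zero_eta, Fin.mk_one, Fin.reduceFinMk, Pi.zero_apply] <;> linarith

theorem area_contAt {χ : (Fin 5 → ℝ) → ℝ} (hc : Continuous χ) {A : ℝ} (hA : 0 < A)
    (hs : ∀ v, χ v ≠ 0 → ‖v‖ ≤ A) {p q : Fin 5 → ℝ} (hw : wedge p q ≠ 0) :
    ContinuousAt (fun z : (Fin 5 → ℝ) × (Fin 5 → ℝ) => area χ z.1 z.2) (p, q) := by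
  obtain ⟨M, hM⟩ : ∃ M : ℝ, ∀ v, ‖χ v‖ ≤ M := by
    have hcs : HasCompactSupport χ :=
      HasCompactSupport.intro (isCompact_closedBall (0 : Fin 5 → ℝ) A) fun v hv => by
        by_contra h0
        exact hv (by rw [mem_closedBall_zero_iff]; exact hs v h0)
    exact hc.bounded_above_of_compact_support hcs
  have hM0 : 0 ≤ M := (norm_nonneg _).trans (hM 0)
  set c : ℝ := ‖wedge p q‖ / 2 with hcdef
  have hn : 0 < ‖wedge p q‖ := norm_pos_iff.2 hw
  have hc0 : 0 < c := by positivity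
  set R : ℝ := ‖p‖ + ‖q‖ + 1 with hR
  have hR0 : 0 < R := by positivity
  set D : ℝ := 2 * A * R / c with hD
  have hD0 : 0 < D := by positivity
  have hev : ∀ᶠ z : (Fin 5 → ℝ) × (Fin 5 → ℝ) in 𝓝 (p, q), ‖z.1‖ < R ∧ ‖z.2‖ < R ∧
      c < ‖wedge z.1 z.2‖ := by
    refine Filter.Eventually.and ?_ (Filter.Eventually.and ?_ ?_)
    · exact (continuous_fst.norm.tendsto (p, q)).eventually (gt_mem_nhds (by
        simp only
        have := norm_nonneg q
        linarith))
    · exact (continuous_snd.norm.tendsto (p, q)).eventually (gt_mem_nhds (by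
        simp only
        have := norm_nonneg p
        linarith))
    · refine (wedge_cts.norm.tendsto (p, q)).eventually (lt_mem_nhds ?_)
      simp only
      linarith
  have hbd : ∀ z : (Fin 5 → ℝ) × (Fin 5 → ℝ), ‖z.1‖ < R → ‖z.2‖ < R → c < ‖wedge z.1 z.2‖ →
      ∀ a : ℝ × ℝ, χ (a.1 • z.1 + a.2 • z.2) ≠ 0 → a ∈ Metric.closedBall (0 : ℝ × ℝ) D := by
    rintro ⟨x, y⟩ h1 h2 h3 ⟨a, b⟩ hne
    simp only at h1 h2 h3 hne
    have h4 := hs _ hne
    rw [mem_closedBall_zero_iff, Prod.norm_def]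
    refine max_le ?_ ?_
    · have e : wedge (a • x + b • y) y = a • wedge x y := by
        have := wedge_comb a b 0 1 x y
        simpa using this
      have e2 := norm_wedge_le (a • x + b • y) y
      rw [e, norm_smul] at e2
      have e3 : ‖a‖ * c ≤ 2 * A * R := by
        calc ‖a‖ * c ≤ ‖a‖ * ‖wedge x y‖ := mul_le_mul_of_nonneg_left h3.le (norm_nonneg _)
          _ ≤ _ := e2
          _ ≤ 2 * A * R := mul_le_mul (by linarith) h2.le (norm_nonneg _) (by positivity)
      rw [hD, le_div_iff₀ hc0]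
      exact e3
    · have e : wedge x (a • x + b • y) = b • wedge x y := by
        have := wedge_comb 1 0 a b x y
        simpa using this
      have e2 := norm_wedge_le x (a • x + b • y)
      rw [e, norm_smul] at e2
      have e3 : ‖b‖ * c ≤ 2 * A * R := by
        calc ‖b‖ * c ≤ ‖b‖ * ‖wedge x y‖ := mul_le_mul_of_nonneg_left h3.le (norm_nonneg _)
          _ ≤ _ := e2
          _ = 2 * ‖a • x + b • y‖ * ‖x‖ := by ring
          _ ≤ 2 * A * R := mul_le_mul (by linarith) h1.le (norm_nonneg _) (by positivity)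
      rw [hD, le_div_iff₀ hc0]
      exact e3
  have hcomp : ∀ z : (Fin 5 → ℝ) × (Fin 5 → ℝ), Continuous fun a : ℝ × ℝ =>
      χ (a.1 • z.1 + a.2 • z.2) := fun z => hc.comp (by fun_prop)
  refine continuousAt_of_dominated (F := fun (z : (Fin 5 → ℝ) × (Fin 5 → ℝ)) (a : ℝ × ℝ) =>
    χ (a.1 • z.1 + a.2 • z.2)) (bound := (Metric.closedBall (0 : ℝ × ℝ) D).indicator fun _ => M)
    ?_ ?_ ?_ ?_
  · exact Filter.Eventually.of_forall fun z => (hcomp z).aestronglyMeasurable
  · filter_upwards [hev] with z hz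
    refine Filter.Eventually.of_forall fun a => ?_
    by_cases h0 : χ (a.1 • z.1 + a.2 • z.2) = 0
    · rw [h0, norm_zero]
      exact Set.indicator_nonneg (fun _ _ => hM0) _
    · rw [Set.indicator_of_mem (hbd z hz.1 hz.2.1 hz.2.2 a h0)]
      exact hM _
  · exact (integrable_indicator_iff measurableSet_closedBall).2
      (integrableOn_const measure_closedBall_lt_top.ne)
  · refine Filter.Eventually.of_forall fun a => ?_
    have : Continuous fun z : (Fin 5 → ℝ) × (Fin 5 → ℝ) => χ (a.1 • z.1 + a.2 • z.2) :=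
      hc.comp (by fun_prop)
    exact this.continuousAt

/-- the test function on the planes -/
theorem exists_chi : ∃ χ : (Fin 5 → ℝ) → ℝ, Continuous χ ∧ (∀ v, 0 ≤ χ v) ∧
    (∃ δ : ℝ, 0 < δ ∧ ∀ v, χ v ≠ 0 → ‖v‖ ≤ 3 ∧ δ ≤ ‖mm v‖) ∧
    ∃ c : ℝ, 0 < c ∧ ∀ p q : Fin 5 → ℝ, Iso p q → ‖wedge p q‖ = 1 → c ≤ area χ p q := by
  set f : (Fin 5 → ℝ) × (Fin 5 → ℝ) → ℝ := fun z => max (max ‖mm z.1‖ ‖mm z.2‖)
    (max ‖mm (z.1 + z.2)‖ ‖mm (z.1 - z.2)‖) with hf
  have hfc : Continuous f := by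
    have h1 : Continuous fun x : Fin 5 → ℝ => ‖mm x‖ := mm_cts.norm
    have e1 : Continuous fun z : (Fin 5 → ℝ) × (Fin 5 → ℝ) => ‖mm z.1‖ := h1.comp continuous_fst
    have e2 : Continuous fun z : (Fin 5 → ℝ) × (Fin 5 → ℝ) => ‖mm z.2‖ := h1.comp continuous_snd
    have e3 : Continuous fun z : (Fin 5 → ℝ) × (Fin 5 → ℝ) => ‖mm (z.1 + z.2)‖ :=
      h1.comp (by fun_prop)
    have e4 : Continuous fun z : (Fin 5 → ℝ) × (Fin 5 → ℝ) => ‖mm (z.1 - z.2)‖ :=
      h1.comp (by fun_prop)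
    exact (e1.max e2).max (e3.max e4)
  have hwne : ∀ z ∈ KI ℝ, wedge z.1 z.2 ≠ 0 := fun z hz => (KI_cone hz).1
  have hfpos : ∀ z ∈ KI ℝ, 0 < f z := by
    intro z hz
    rcases exists_ne hz.2.2.2 (hwne z hz) with h | h | h | h
    · exact lt_max_of_lt_left (lt_max_of_lt_left (norm_pos_iff.2 h))
    · exact lt_max_of_lt_left (lt_max_of_lt_right (norm_pos_iff.2 h))
    · exact lt_max_of_lt_right (lt_max_of_lt_left (norm_pos_iff.2 h))
    · exact lt_max_of_lt_right (lt_max_of_lt_right (norm_pos_iff.2 h))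
  obtain ⟨δ, hδ, hmin⟩ : ∃ δ : ℝ, 0 < δ ∧ ∀ z ∈ KI ℝ, δ ≤ f z := by
    rcases (KI ℝ).eq_empty_or_nonempty with hE | hE
    · exact ⟨1, one_pos, fun z hz => by rw [hE] at hz; exact absurd hz (Set.notMem_empty z)⟩
    · obtain ⟨z1, hz1, h1⟩ := KI_compact.exists_isMinOn hE hfc.continuousOn
      exact ⟨f z1, hfpos z1 hz1, fun z hz => h1 hz⟩
  set χ : (Fin 5 → ℝ) → ℝ := fun v => max 0 (‖mm v‖ - δ / 2) * max 0 (3 - ‖v‖) with hχ
  have hχc : Continuous χ := by
    have h1 : Continuous fun x : Fin 5 → ℝ => ‖mm x‖ := mm_cts.norm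
    rw [hχ]
    fun_prop
  have hχ0 : ∀ v, 0 ≤ χ v := fun v => mul_nonneg (le_max_left _ _) (le_max_left _ _)
  have hχs : ∀ v, χ v ≠ 0 → ‖v‖ ≤ 3 ∧ δ / 2 ≤ ‖mm v‖ := by
    intro v hv
    rw [hχ] at hv
    simp only at hv
    constructor
    · by_contra hc
      apply hv
      rw [max_eq_left (a := (0 : ℝ)) (b := 3 - ‖v‖) (by linarith), mul_zero]
    · by_contra hc
      apply hv
      rw [max_eq_left (a := (0 : ℝ)) (b := ‖mm v‖ - δ / 2) (by linarith), zero_mul]
  have hχp : ∀ v, ‖v‖ ≤ 2 → δ ≤ ‖mm v‖ → 0 < χ v := by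
    intro v h1 h2
    rw [hχ]
    simp only
    rw [max_eq_right (a := (0 : ℝ)) (b := 3 - ‖v‖) (by linarith),
      max_eq_right (a := (0 : ℝ)) (b := ‖mm v‖ - δ / 2) (by linarith)]
    have : 0 < ‖mm v‖ - δ / 2 := by linarith
    have : 0 < 3 - ‖v‖ := by linarith
    positivity
  refine ⟨χ, hχc, hχ0, ⟨δ / 2, by positivity, hχs⟩, ?_⟩
  have hcs : HasCompactSupport χ :=
    HasCompactSupport.intro (isCompact_closedBall (0 : Fin 5 → ℝ) 3) fun v hv => by
      by_contra h0
      exact hv (by rw [mem_closedBall_zero_iff]; exact (hχs v h0).1)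
  have hac : ContinuousOn (fun z : (Fin 5 → ℝ) × (Fin 5 → ℝ) => area χ z.1 z.2) (KI ℝ) := fun z hz =>
    (area_contAt hχc (by norm_num : (0 : ℝ) < 3) (fun v hv => (hχs v hv).1)
      (hwne z hz)).continuousWithinAt
  have hapos : ∀ z ∈ KI ℝ, 0 < area χ z.1 z.2 := by
    rintro ⟨p, q⟩ hz
    obtain ⟨z1, z2, z3, z4⟩ := id hz
    simp only at z1 z2 z3 z4
    have hex : ∃ a : ℝ × ℝ, 0 < χ (a.1 • p + a.2 • q) := by
      have h1 := hmin _ hz
      rw [hf] at h1
      simp only [le_max_iff] at h1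
      have n1 : ‖p + q‖ ≤ 2 := (norm_add_le _ _).trans (by linarith)
      have n2 : ‖p - q‖ ≤ 2 := (norm_sub_le _ _).trans (by linarith)
      rcases h1 with (h | h) | (h | h)
      · exact ⟨(1, 0), by simpa using hχp p (by linarith) h⟩
      · exact ⟨(0, 1), by simpa using hχp q (by linarith) h⟩
      · exact ⟨(1, 1), by simpa using hχp _ n1 h⟩
      · exact ⟨(1, -1), by simpa [sub_eq_add_neg] using hχp _ n2 h⟩
    obtain ⟨a, ha⟩ := hex
    have hcc : Continuous fun a : ℝ × ℝ => χ (a.1 • p + a.2 • q) := hχc.comp (by fun_prop)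
    have hcs2 : HasCompactSupport fun a : ℝ × ℝ => χ (a.1 • p + a.2 • q) := by
      refine HasCompactSupport.intro (isCompact_closedBall (0 : ℝ × ℝ) (2 * 3 * 1)) fun a ha => ?_
      by_contra h0
      apply ha
      have h4 := (hχs _ h0).1
      rw [mem_closedBall_zero_iff, Prod.norm_def]
      refine max_le ?_ ?_
      · have e : wedge (a.1 • p + a.2 • q) q = a.1 • wedge p q := by
          have := wedge_comb a.1 a.2 0 1 p q
          simpa using this
        have e2 := norm_wedge_le (a.1 • p + a.2 • q) q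
        rw [e, norm_smul, z3, mul_one] at e2
        refine e2.trans (mul_le_mul (by linarith) z2 (norm_nonneg _) (by norm_num))
      · have e : wedge p (a.1 • p + a.2 • q) = a.2 • wedge p q := by
          have := wedge_comb 1 0 a.1 a.2 p q
          simpa using this
        have e2 := norm_wedge_le p (a.1 • p + a.2 • q)
        rw [e, norm_smul, z3, mul_one] at e2
        refine e2.trans ?_
        calc 2 * ‖p‖ * ‖a.1 • p + a.2 • q‖ = 2 * ‖a.1 • p + a.2 • q‖ * ‖p‖ := by ring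
          _ ≤ _ := mul_le_mul (by linarith) z1 (norm_nonneg _) (by norm_num)
    exact hcc.integral_pos_of_hasCompactSupport_nonneg_nonzero (μ := volume) hcs2
      (fun a => hχ0 _) (x := a) ha.ne'
  obtain ⟨c, hc, hcmin⟩ : ∃ c : ℝ, 0 < c ∧ ∀ z ∈ KI ℝ, c ≤ area χ z.1 z.2 := by
    rcases (KI ℝ).eq_empty_or_nonempty with hE | hE
    · exact ⟨1, one_pos, fun z hz => by rw [hE] at hz; exact absurd hz (Set.notMem_empty z)⟩
    · obtain ⟨z1, hz1, h1⟩ := KI_compact.exists_isMinOn hE hac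
      exact ⟨area χ z1.1 z1.2, hapos z1 hz1, fun z hz => h1 hz⟩
  refine ⟨c, hc, fun p q hi hw => ?_⟩
  have hne : wedge p q ≠ 0 := by
    intro h0
    rw [h0, norm_zero] at hw
    exact zero_ne_one hw
  obtain ⟨z, a, hz, ha, hna, he⟩ := norm_basis hi hne
  have h1 := hcmin z hz
  rw [hw, Real.norm_eq_abs] at hna
  have : area χ p q = area χ z.1 z.2 := by
    refine area_congr hχc (hwne z hz) ?_
    rcases (abs_eq zero_le_one).1 hna with h | h
    · left
      rw [he, h, one_smul]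
    · right
      rw [he, h, neg_smul, one_smul]
  rw [this]
  exact h1

end Pool.Agent.KS6_53.V5
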