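import Pool.Agent.KS6_53.V5.Fa2
import Pool.Agent.KS6_53.V5.Shell

set_option autoImplicit false

namespace Pool.Agent.KS6_53.V5

open Finset Filter Topology MeasureTheory

/-- the data at the real place -/
structure Rd (ψ : (Fin 5 × Fin 5 → ℝ) → ℝ) (φ : ℝ → ℝ) (χ : (Fin 5 → ℝ) → ℝ) (a b a' b' α β δ c₀ : ℝ) :
    Prop where
  fac : Fac ℝ ψ
  ha : 0 < a
  hab : a ≤ b
  ha' : 0 < a'
  hψ : ∀ q ∈ Cone ℝ, a' ≤ ψ q ∧ ψ q ≤ b'
  hα : 0 < α
  φc : Continuous φ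
  φ0 : ∀ t, 0 ≤ φ t
  φs : ∀ t, φ t ≠ 0 → α ≤ t ∧ t ≤ β
  χc : Continuous χ
  χ0 : ∀ v, 0 ≤ χ v
  hδ : 0 < δ
  χs : ∀ v, χ v ≠ 0 → ‖v‖ ≤ 3 ∧ δ ≤ ‖mm v‖
  hc₀ : 0 < c₀
  ar : ∀ p q : Fin 5 → ℝ, Iso p q → ‖wedge p q‖ = 1 → c₀ ≤ area χ p q

/-- the test function -/
noncomputable def GK (ψ : (Fin 5 × Fin 5 → ℝ) → ℝ) (φ : ℝ → ℝ) (χ : (Fin 5 → ℝ) → ℝ) (a b K : ℝ)
    (z : (Fin 5 → ℝ) × ℝ × ℝ) : ℝ := by
  classical
  exact if mm z.1 = 0 then 0 else
    φ ((max z.2.1 0) ^ 4 * ‖mm z.1‖ ^ 2 * ψ (mm z.1) * max a (min b z.2.2)) *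
      χ ((K * √‖mm z.1‖)⁻¹ • z.1) /
      area χ ((√‖mm z.1‖)⁻¹ • z.1) ((√‖mm z.1‖)⁻¹ • hes z.1)

section

variable {ψ : (Fin 5 × Fin 5 → ℝ) → ℝ} {φ : ℝ → ℝ} {χ : (Fin 5 → ℝ) → ℝ}
  {a b a' b' α β δ c₀ K : ℝ}

theorem wedge_norm_one {u : Fin 5 → ℝ} (h : mm u ≠ 0) :
    wedge ((√‖mm u‖)⁻¹ • u) ((√‖mm u‖)⁻¹ • hes u) = ‖mm u‖⁻¹ • mm u ∧
    ‖wedge ((√‖mm u‖)⁻¹ • u) ((√‖mm u‖)⁻¹ • hes u)‖ = 1 := by
  have hm : 0 < ‖mm u‖ := norm_pos_iff.2 h
  have e : wedge ((√‖mm u‖)⁻¹ • u) ((√‖mm u‖)⁻¹ • hes u) = ‖mm u‖⁻¹ • mm u := by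
    rw [wedge_smul, ← mul_inv, Real.mul_self_sqrt hm.le, mm]
  refine ⟨e, ?_⟩
  rw [e, norm_smul, norm_inv, norm_norm, inv_mul_cancel₀ hm.ne']

theorem iso_norm_one (u : Fin 5 → ℝ) : Iso ((√‖mm u‖)⁻¹ • u) ((√‖mm u‖)⁻¹ • hes u) :=
  iso_smul_left _ (iso_comm (iso_smul_left _ (iso_comm (iso_hes u))))

/-- size of `u` if `χ ≠ 0` -/
theorem Rd.size (h : Rd ψ φ χ a b a' b' α β δ c₀) (hK : 0 < K) {u : Fin 5 → ℝ} (hu : mm u ≠ 0)
    (hχ : χ ((K * √‖mm u‖)⁻¹ • u) ≠ 0) :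
    1 / (162 * K ^ 3) ≤ √‖mm u‖ ∧ √‖mm u‖ ≤ 1 / (δ * K ^ 3) ∧ ‖u‖ ≤ 3 * K * √‖mm u‖ := by
  have hm : 0 < ‖mm u‖ := norm_pos_iff.2 hu
  have hs : 0 < √‖mm u‖ := Real.sqrt_pos.2 hm
  have hs2 : √‖mm u‖ ^ 2 = ‖mm u‖ := Real.sq_sqrt hm.le
  have hδ := h.hδ
  obtain ⟨h1, h2⟩ := h.χs _ hχ
  have h3 := norm_mm_le ((K * √‖mm u‖)⁻¹ • u)
  have h4 : ‖mm ((K * √‖mm u‖)⁻¹ • u)‖ = 1 / (K ^ 3 * √‖mm u‖) := by
    rw [mm_smul, norm_smul, norm_pow, norm_inv, Real.norm_of_nonneg (by positivity)]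
    nth_rewrite 2 [← hs2]
    field_simp
  rw [h4] at h2 h3
  have h5 : 6 * ‖(K * √‖mm u‖)⁻¹ • u‖ ^ 3 ≤ 162 := by
    have := pow_le_pow_left₀ (norm_nonneg _) h1 3
    linarith
  have h6 := h3.trans h5
  refine ⟨?_, ?_, ?_⟩
  · rw [div_le_iff₀ (by positivity)] at h6
    rw [div_le_iff₀ (by positivity)]
    linarith
  · rw [le_div_iff₀ (by positivity)] at h2
    rw [le_div_iff₀ (by positivity)]
    linarith
  · rw [norm_smul, norm_inv, Real.norm_of_nonneg (by positivity), inv_mul_le_iff₀ (by positivity)] at h1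
    linarith

theorem GK_tst (h : Rd ψ φ χ a b a' b' α β δ c₀) (hK : 0 < K) : Tst (GK ψ φ χ a b K) := by
  have hδ := h.hδ
  have ha := h.ha
  have ha' := h.ha'
  have hb : 0 < b := lt_of_lt_of_le h.ha h.hab
  constructor
  · rw [continuous_iff_continuousAt]
    rintro ⟨u, s, τ⟩
    by_cases hu : mm u = 0
    · -- zero near the point
      have hev : ∀ᶠ z : (Fin 5 → ℝ) × ℝ × ℝ in 𝓝 (u, s, τ), √‖mm z.1‖ < 1 / (162 * K ^ 3) := by
        have hc : Continuous fun z : (Fin 5 → ℝ) × ℝ × ℝ => √‖mm z.1‖ :=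
          (mm_cts.comp continuous_fst).norm.sqrt
        refine (hc.tendsto (u, s, τ)).eventually (gt_mem_nhds ?_)
        simp only
        rw [hu, norm_zero, Real.sqrt_zero]
        positivity
      have h0 : ∀ z : (Fin 5 → ℝ) × ℝ × ℝ, √‖mm z.1‖ < 1 / (162 * K ^ 3) →
          GK ψ φ χ a b K z = 0 := by
        intro z hz
        rw [GK]
        split_ifs with h1
        · rfl
        · by_contra hc
          have h2 : χ ((K * √‖mm z.1‖)⁻¹ • z.1) ≠ 0 := by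
            intro h2
            apply hc
            rw [h2, mul_zero, zero_div]
          have := (h.size hK h1 h2).1
          linarith
      have : GK ψ φ χ a b K =ᶠ[𝓝 (u, s, τ)] fun _ => 0 := by
        filter_upwards [hev] with z hz
        exact h0 z hz
      exact this.continuousAt
    · -- continuous factors
      have hopen : IsOpen {z : (Fin 5 → ℝ) × ℝ × ℝ | mm z.1 ≠ 0} :=
        isOpen_ne_fun (mm_cts.comp continuous_fst) continuous_const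
      have hmem : {z : (Fin 5 → ℝ) × ℝ × ℝ | mm z.1 ≠ 0} ∈ 𝓝 (u, s, τ) := hopen.mem_nhds hu
      have hm : 0 < ‖mm u‖ := norm_pos_iff.2 hu
      have hs : 0 < √‖mm u‖ := Real.sqrt_pos.2 hm
      have heq : GK ψ φ χ a b K =ᶠ[𝓝 (u, s, τ)] fun z =>
          φ ((max z.2.1 0) ^ 4 * ‖mm z.1‖ ^ 2 * ψ (mm z.1) * max a (min b z.2.2)) *
          χ ((K * √‖mm z.1‖)⁻¹ • z.1) /
          area χ ((√‖mm z.1‖)⁻¹ • z.1) ((√‖mm z.1‖)⁻¹ • hes z.1) := by
        filter_upwards [hmem] with z hz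
        rw [GK, if_neg hz]
      refine ContinuousAt.congr ?_ heq.symm
      have c1 : ContinuousAt (fun z : (Fin 5 → ℝ) × ℝ × ℝ => ψ (mm z.1)) (u, s, τ) := by
        have : ContinuousOn (fun z : (Fin 5 → ℝ) × ℝ × ℝ => ψ (mm z.1)) {z | mm z.1 ≠ 0} :=
          h.fac.cts.comp (mm_cts.comp continuous_fst).continuousOn fun z hz => mm_cone hz
        exact this.continuousAt hmem
      have c2 : Continuous fun z : (Fin 5 → ℝ) × ℝ × ℝ => ‖mm z.1‖ :=
        (mm_cts.comp continuous_fst).norm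
      have c3 : ContinuousAt (fun z : (Fin 5 → ℝ) × ℝ × ℝ => (√‖mm z.1‖)⁻¹) (u, s, τ) :=
        c2.sqrt.continuousAt.inv₀ hs.ne'
      have c4 : ContinuousAt (fun z : (Fin 5 → ℝ) × ℝ × ℝ => (K * √‖mm z.1‖)⁻¹) (u, s, τ) :=
        (continuousAt_const.mul c2.sqrt.continuousAt).inv₀ (mul_pos hK hs).ne'
      have c5 : ContinuousAt (fun z : (Fin 5 → ℝ) × ℝ × ℝ =>
          area χ ((√‖mm z.1‖)⁻¹ • z.1) ((√‖mm z.1‖)⁻¹ • hes z.1)) (u, s, τ) := by
        have d1 : ContinuousAt (fun z : (Fin 5 → ℝ) × ℝ × ℝ =>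
            (((√‖mm z.1‖)⁻¹ • z.1, (√‖mm z.1‖)⁻¹ • hes z.1) : (Fin 5 → ℝ) × (Fin 5 → ℝ)))
            (u, s, τ) :=
          (c3.smul continuousAt_fst).prodMk (c3.smul (hes_cts.comp continuous_fst).continuousAt)
        have d2 : wedge ((√‖mm u‖)⁻¹ • u) ((√‖mm u‖)⁻¹ • hes u) ≠ 0 := by
          intro h0
          have := (wedge_norm_one hu).2
          rw [h0, norm_zero] at this
          exact zero_ne_one this
        have d3 := area_contAt h.χc (by norm_num : (0 : ℝ) < 3) (fun v hv => (h.χs v hv).1) d2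
        exact ContinuousAt.comp (g := fun z : (Fin 5 → ℝ) × (Fin 5 → ℝ) => area χ z.1 z.2)
          (f := fun z : (Fin 5 → ℝ) × ℝ × ℝ =>
            (((√‖mm z.1‖)⁻¹ • z.1, (√‖mm z.1‖)⁻¹ • hes z.1) : (Fin 5 → ℝ) × (Fin 5 → ℝ)))
          (x := (u, s, τ)) d3 d1
      have c6 : area χ ((√‖mm u‖)⁻¹ • u) ((√‖mm u‖)⁻¹ • hes u) ≠ 0 := by
        have := h.ar _ _ (iso_norm_one u) (wedge_norm_one hu).2
        have := h.hc₀
        linarith
      refine ContinuousAt.div (ContinuousAt.mul ?_ ?_) c5 c6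
      · refine h.φc.continuousAt.comp ?_
        refine ContinuousAt.mul (ContinuousAt.mul (ContinuousAt.mul ?_ ?_) c1) ?_
        · exact Continuous.continuousAt (by fun_prop)
        · exact (c2.pow 2).continuousAt
        · exact Continuous.continuousAt (by fun_prop)
      · exact h.χc.continuousAt.comp (c4.smul continuousAt_fst)
  · -- support
    set m0 : ℝ := (1 / (162 * K ^ 3)) ^ 2 with hm0
    set m1 : ℝ := (1 / (δ * K ^ 3)) ^ 2 with hm1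
    have hm00 : 0 < m0 := by positivity
    have hm10 : 0 < m1 := by positivity
    -- the cone is empty or `b' > 0`
    set c1 : ℝ := α / (m1 ^ 2 * (|b'| + 1) * b) with hc1
    set c2 : ℝ := β / (m0 ^ 2 * a' * a) with hc2
    have hα := h.hα
    have hc10 : 0 < c1 := by positivity
    refine ⟨min m0 (min 1 c1), max (3 * K * (1 / (δ * K ^ 3))) (max 1 c2), by positivity, ?_⟩
    rintro ⟨u, s, τ⟩ hz
    rw [GK] at hz
    split_ifs at hz with hu
    · exact absurd rfl hz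
    simp only at hu hz ⊢
    have hm : 0 < ‖mm u‖ := norm_pos_iff.2 hu
    have hχ : χ ((K * √‖mm u‖)⁻¹ • u) ≠ 0 := by
      intro h2
      apply hz
      rw [h2, mul_zero, zero_div]
    have hφ : φ ((max s 0) ^ 4 * ‖mm u‖ ^ 2 * ψ (mm u) * max a (min b τ)) ≠ 0 := by
      intro h2
      apply hz
      rw [h2, zero_mul, zero_div]
    obtain ⟨s1, s2, s3⟩ := h.size hK hu hχ
    have hs2 : √‖mm u‖ ^ 2 = ‖mm u‖ := Real.sq_sqrt hm.le
    have e1 : m0 ≤ ‖mm u‖ := by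
      rw [← hs2]
      exact pow_le_pow_left₀ (by positivity) s1 2
    have e2 : ‖mm u‖ ≤ m1 := by
      rw [← hs2]
      exact pow_le_pow_left₀ (Real.sqrt_nonneg _) s2 2
    obtain ⟨p1, p2⟩ := h.φs _ hφ
    obtain ⟨q1, q2⟩ := h.hψ _ (mm_cone hu)
    set cl := max a (min b τ) with hcl
    have r1 : a ≤ cl := le_max_left _ _
    have r2 : cl ≤ b := max_le h.hab (min_le_left _ _)
    set σ := max s 0 with hσ
    have hσ0 : 0 ≤ σ := le_max_right _ _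
    have hσ4 : 0 ≤ σ ^ 4 := by positivity
    have hψ0 : 0 < ψ (mm u) := by linarith
    have hψb : ψ (mm u) ≤ |b'| + 1 := by
      have := le_abs_self b'
      linarith
    have t1 : α ≤ σ ^ 4 * (m1 ^ 2 * (|b'| + 1) * b) := by
      refine p1.trans ?_
      have : ‖mm u‖ ^ 2 ≤ m1 ^ 2 := pow_le_pow_left₀ hm.le e2 2
      calc σ ^ 4 * ‖mm u‖ ^ 2 * ψ (mm u) * cl = σ ^ 4 * (‖mm u‖ ^ 2 * ψ (mm u) * cl) := by ring
        _ ≤ σ ^ 4 * (m1 ^ 2 * (|b'| + 1) * b) := by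
          refine mul_le_mul_of_nonneg_left ?_ hσ4
          exact mul_le_mul (mul_le_mul this hψb hψ0.le (by positivity)) r2 (by linarith)
            (by positivity)
    have t2 : σ ^ 4 * (m0 ^ 2 * a' * a) ≤ β := by
      refine le_trans ?_ p2
      have : m0 ^ 2 ≤ ‖mm u‖ ^ 2 := pow_le_pow_left₀ hm00.le e1 2
      calc σ ^ 4 * (m0 ^ 2 * a' * a) ≤ σ ^ 4 * (‖mm u‖ ^ 2 * ψ (mm u) * cl) := by
            refine mul_le_mul_of_nonneg_left ?_ hσ4
            exact mul_le_mul (mul_le_mul this q1 ha'.le (by positivity)) r1 ha.le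
              (by positivity)
        _ = _ := by ring
    have u1 : c1 ≤ σ ^ 4 := by
      rw [hc1, div_le_iff₀ (by positivity)]
      exact t1
    have u2 : σ ^ 4 ≤ c2 := by
      rw [hc2, le_div_iff₀ (by positivity)]
      exact t2
    have hσpos : 0 < σ := by
      rcases hσ0.eq_or_lt with h0 | h0
      · rw [← h0] at u1
        norm_num at u1
        linarith
      · exact h0
    have hsσ : s = σ := by
      rw [hσ]
      symm
      rw [max_eq_left]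
      by_contra hc
      rw [hσ, max_eq_right (by linarith)] at hσpos
      exact lt_irrefl _ hσpos
    refine ⟨?_, ?_, ?_, ?_⟩
    · refine (s3.trans ?_).trans (le_max_left _ _)
      exact mul_le_mul_of_nonneg_left s2 (by positivity)
    · exact (min_le_left _ _).trans e1
    · refine (min_le_right _ _).trans ?_
      rw [hsσ]
      by_cases hle : σ ≤ 1
      · refine (min_le_right _ _).trans (u1.trans ?_)
        calc σ ^ 4 ≤ σ ^ 1 := pow_le_pow_of_le_one hσ0 hle (by norm_num)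
          _ = σ := pow_one σ
      · exact (min_le_left _ _).trans (by linarith)
    · refine le_trans ?_ (le_max_right _ _)
      rw [hsσ]
      by_cases hle : σ ≤ 1
      · exact hle.trans (le_max_left _ _)
      · refine le_trans ?_ (u2.trans (le_max_right _ _))
        calc σ = σ ^ 1 := (pow_one σ).symm
          _ ≤ σ ^ 4 := pow_le_pow_right₀ (by linarith) (by norm_num)

theorem GK_nonneg (h : Rd ψ φ χ a b a' b' α β δ c₀) (z : (Fin 5 → ℝ) × ℝ × ℝ) :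
    0 ≤ GK ψ φ χ a b K z := by
  rw [GK]
  split_ifs with h0
  · exact le_rfl
  · refine div_nonneg (mul_nonneg (h.φ0 _) (h.χ0 _)) ?_
    exact h.hc₀.le.trans (h.ar _ _ (iso_norm_one _) (wedge_norm_one h0).2)

end

end Pool.Agent.KS6_53.V5
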