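import Pool.Agent.KS6_53.V5.Fa3
import Pool.Agent.KS6_53.V5.Fs
import Pool.Agent.KS6_53.V5.Ub

set_option autoImplicit false

namespace Pool.Agent.KS6_53.V5

open Finset Filter Topology MeasureTheory

theorem rv_smul {ι : Type*} (c : ℤ) (x : ι → ℤ) : rv (c • x) = (c : ℝ) • rv x := by
  funext i
  simp [rv]

theorem rv_wedge (x y : Fin 5 → ℤ) : rv (wedge x y) = wedge (rv x) (rv y) := by
  funext p
  simp [rv, wedge]

theorem iso_rv {x y : Fin 5 → ℤ} (h : Iso x y) : Iso (rv x) (rv y) := by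
  obtain ⟨h0, h1, h2⟩ := h
  simp only [b0, b1, b2] at h0 h1 h2
  refine ⟨?_, ?_, ?_⟩ <;> simp only [b0, b1, b2, rv]
  · exact_mod_cast h0
  · exact_mod_cast h1
  · exact_mod_cast h2

theorem VV_nz_pos {w : Fin 5 × Fin 5 → ℤ} (hw : w ∈ VV) : 0 < nz w :=
  lt_of_lt_of_le one_pos (one_le_nz' hw.1)

theorem rv_cone {w : Fin 5 × Fin 5 → ℤ} (hw : w ∈ VV) : rv w ∈ Cone ℝ := by
  have h1 := VV_nz_pos hw
  obtain ⟨-, x, y, hi, rfl⟩ := hw
  refine ⟨fun h0 => ?_, rv x, rv y, iso_rv hi, rv_wedge x y⟩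
  rw [nz, h0, norm_zero] at h1
  exact lt_irrefl _ h1

theorem VV_neg {w : Fin 5 × Fin 5 → ℤ} (hw : w ∈ VV) : -w ∈ VV := by
  obtain ⟨⟨a, ha⟩, x, y, hi, rfl⟩ := hw
  exact ⟨⟨fun p => -a p, by simpa using ha⟩, y, x, iso_comm hi, (wedge_comm x y).symm⟩

theorem in_neg' {w : Fin 5 × Fin 5 → ℤ} {x : Fin 5 → ℤ} (h : In w x) : In (-w) x := by
  intro i j k
  have := h i j k
  simp only [Pi.neg_apply]
  linear_combination -this

/-- the planes through a vector off the cone -/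
theorem planes_of {x : Fin 5 → ℤ} {w w' : Fin 5 × Fin 5 → ℤ} (hw : w ∈ VV) (hw' : w' ∈ VV)
    (hx : In w x) (hx' : In w' x) (hm : mm x ≠ 0) : w' = w ∨ w' = -w := by
  obtain ⟨c, hc, hg⟩ := mm_of_in hw hx
  obtain ⟨c', hc', hg'⟩ := mm_of_in hw' hx'
  have hg0 := gg_pos hm
  have h1 : c.natAbs = c'.natAbs := by rw [← hg, ← hg']
  have hc0 : c ≠ 0 := by
    rintro rfl
    rw [hg] at hg0
    simp at hg0
  have h2 : c • w = c' • w' := by rw [← hc, ← hc']
  rcases Int.natAbs_eq_natAbs_iff.1 h1 with h | h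
  · left
    rw [← h] at h2
    funext p
    have := congrFun h2 p
    simp only [Pi.smul_apply, smul_eq_mul] at this
    exact (mul_left_cancel₀ hc0 this).symm
  · right
    funext p
    have := congrFun h2 p
    simp only [Pi.smul_apply, smul_eq_mul] at this
    rw [h] at this hc0
    rw [Pi.neg_apply]
    have h3 : (-c') * (w p) = (-c') * (-w' p) := by linear_combination this
    have := mul_left_cancel₀ hc0 h3
    linear_combination this

section

variable {ψ : (Fin 5 × Fin 5 → ℝ) → ℝ} {φ : ℝ → ℝ} {χ : (Fin 5 → ℝ) → ℝ}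
  {a b a' b' α β δ c₀ K : ℝ}

theorem GK_val (h : Rd ψ φ χ a b a' b' α β δ c₀) (hK : 0 < K) {w : Fin 5 × Fin 5 → ℤ} (hw : w ∈ VV)
    {x : Fin 5 → ℤ} (hx : In w x) (hm : mm x ≠ 0) {T : ℝ} (hT : 0 < T) {τ : ℝ}
    (hτ : τ ∈ Set.Icc a b) {y z : Fin 5 → ℤ} (hwb : w = wedge y z) :
    GK ψ φ χ a b K (fun i => (x i : ℝ) / gg x, (gg x : ℝ) / √T, τ) =
      φ (nz w ^ 2 * ψ (rv w) * τ / T ^ 2) * χ ((K * √(nz w))⁻¹ • rv x) /
        area χ ((√(nz w))⁻¹ • rv y) ((√(nz w))⁻¹ • rv z) := by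
  obtain ⟨c, hc, hg⟩ := mm_of_in hw hx
  have hg0 := gg_pos hm
  have hgp : (0 : ℝ) < gg x := by exact_mod_cast hg0
  have hn := VV_nz_pos hw
  have hsn : 0 < √(nz w) := Real.sqrt_pos.2 hn
  have hsn2 : √(nz w) ^ 2 = nz w := Real.sq_sqrt hn.le
  have hsT : 0 < √T := Real.sqrt_pos.2 hT
  have hsT2 : √T ^ 2 = T := Real.sq_sqrt hT.le
  have habs : |(c : ℝ)| = gg x := by
    rw [hg, Nat.cast_natAbs, Int.cast_abs]
  have hc0 : (c : ℝ) ≠ 0 := by
    intro h0
    rw [h0, abs_zero] at habs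
    exact hgp.ne habs
  have hu : (fun i => (x i : ℝ) / gg x) = (gg x : ℝ)⁻¹ • rv x := by
    funext i
    rw [Pi.smul_apply, smul_eq_mul, div_eq_inv_mul, rv]
  have hmu : mm ((gg x : ℝ)⁻¹ • rv x) = ((gg x : ℝ)⁻¹ ^ 3 * c) • rv w := by
    rw [mm_smul, ← rv_mm, hc, rv_smul, smul_smul]
  have hnorm : ‖mm ((gg x : ℝ)⁻¹ • rv x)‖ = nz w / (gg x : ℝ) ^ 2 := by
    rw [hmu, norm_smul, Real.norm_eq_abs, abs_mul, habs, abs_of_pos (by positivity), nz]
    field_simp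
  have hmu0 : mm ((gg x : ℝ)⁻¹ • rv x) ≠ 0 := by
    rw [← norm_ne_zero_iff, hnorm]
    positivity
  have hsq : √‖mm ((gg x : ℝ)⁻¹ • rv x)‖ = √(nz w) / gg x := by
    rw [hnorm, Real.sqrt_div' _ (by positivity), Real.sqrt_sq hgp.le]
  have hψ : ψ (mm ((gg x : ℝ)⁻¹ • rv x)) = ψ (rv w) := by
    rw [hmu]
    exact h.fac.inv _ (by positivity) _ (rv_cone hw)
  rw [hu, GK, if_neg hmu0]
  simp only
  have e1 : (max ((gg x : ℝ) / √T) 0) = gg x / √T := max_eq_left (by positivity)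
  have e2 : max a (min b τ) = τ := by
    rw [min_eq_right hτ.2, max_eq_right hτ.1]
  have e3 : ((gg x : ℝ) / √T) ^ 4 * (nz w / (gg x : ℝ) ^ 2) ^ 2 * ψ (rv w) * τ =
      nz w ^ 2 * ψ (rv w) * τ / T ^ 2 := by
    have : T ^ 2 = √T ^ 4 := by
      rw [← hsT2]
      ring_nf
      rw [Real.sqrt_sq hsT.le]
    rw [this]
    field_simp
  have e4 : (K * (√(nz w) / gg x))⁻¹ • (gg x : ℝ)⁻¹ • rv x = (K * √(nz w))⁻¹ • rv x := by
    rw [smul_smul]
    congr 1
    field_simp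
  rw [e1, e2, hψ, hsq, hnorm, e3, e4]
  congr 1
  -- the areas
  have hwne : wedge ((√(nz w))⁻¹ • rv y) ((√(nz w))⁻¹ • rv z) = (nz w)⁻¹ • rv w := by
    rw [wedge_smul, ← rv_wedge, ← hwb]
    congr 1
    rw [← mul_inv, Real.mul_self_sqrt hn.le]
  have hne : wedge ((√(nz w))⁻¹ • rv y) ((√(nz w))⁻¹ • rv z) ≠ 0 := by
    rw [hwne]
    exact smul_ne_zero (inv_ne_zero hn.ne') (rv_cone hw).1
  refine area_congr h.χc hne ?_
  have h1 := (wedge_norm_one hmu0).1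
  rw [hsq, hnorm, hmu] at h1
  rw [h1, hwne, smul_smul, ← neg_smul]
  rcases abs_choice (c : ℝ) with hcc | hcc
  · left
    congr 1
    have : (c : ℝ) = gg x := by rw [← habs, hcc]
    rw [this]
    field_simp
  · right
    congr 1
    have : (c : ℝ) = -(gg x : ℝ) := by rw [← habs, hcc, neg_neg]
    rw [this]
    field_simp

/-- the second bound -/
theorem area_ge (h : Rd ψ φ χ a b a' b' α β δ c₀) {w : Fin 5 × Fin 5 → ℤ} (hw : w ∈ VV)
    {y z : Fin 5 → ℤ} (hi : Iso y z) (hwb : w = wedge y z) :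
    c₀ ≤ area χ ((√(nz w))⁻¹ • rv y) ((√(nz w))⁻¹ • rv z) := by
  have hn := VV_nz_pos hw
  refine h.ar _ _ (iso_smul_left _ (iso_comm (iso_smul_left _ (iso_comm (iso_rv hi))))) ?_
  rw [wedge_smul, ← rv_wedge, ← hwb, norm_smul, ← mul_inv, Real.mul_self_sqrt hn.le, norm_inv,
    Real.norm_of_nonneg hn.le]
  exact inv_mul_cancel₀ hn.ne'

/-- the average over the plane -/
noncomputable def RK (χ : (Fin 5 → ℝ) → ℝ) (K : ℝ) (w : Fin 5 × Fin 5 → ℤ) : ℝ :=
  (∑ᶠ x ∈ {x : Fin 5 → ℤ | Unimod x ∧ In w x}, χ ((K * √(nz w))⁻¹ • rv x)) / K ^ 2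

/-- the area of the plane -/
noncomputable def AW (χ : (Fin 5 → ℝ) → ℝ) (w : Fin 5 × Fin 5 → ℤ) : ℝ := by
  classical
  exact if h : ∃ z : (Fin 5 → ℤ) × (Fin 5 → ℤ), Iso z.1 z.2 ∧ w = wedge z.1 z.2 then
    area χ ((√(nz w))⁻¹ • rv h.choose.1) ((√(nz w))⁻¹ • rv h.choose.2) else 1

theorem AW_spec (χ : (Fin 5 → ℝ) → ℝ) {w : Fin 5 × Fin 5 → ℤ} (hw : w ∈ VV) :
    ∃ y z : Fin 5 → ℤ, Iso y z ∧ w = wedge y z ∧
      AW χ w = area χ ((√(nz w))⁻¹ • rv y) ((√(nz w))⁻¹ • rv z) := by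
  have h : ∃ z : (Fin 5 → ℤ) × (Fin 5 → ℤ), Iso z.1 z.2 ∧ w = wedge z.1 z.2 := by
    obtain ⟨-, x, y, hi, he⟩ := hw
    exact ⟨(x, y), hi, he⟩
  refine ⟨h.choose.1, h.choose.2, h.choose_spec.1, h.choose_spec.2, ?_⟩
  rw [AW, dif_pos h]

theorem rK_supp (h : Rd ψ φ χ a b a' b' α β δ c₀) (hK : 0 < K) {w : Fin 5 × Fin 5 → ℤ} (hw : w ∈ VV)
    {x : Fin 5 → ℤ} (hx : χ ((K * √(nz w))⁻¹ • rv x) ≠ 0) : mm x ≠ 0 ∧ nz x ≤ 3 * K * √(nz w) := by
  have hn := VV_nz_pos hw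
  have hsn : 0 < √(nz w) := Real.sqrt_pos.2 hn
  obtain ⟨h1, h2⟩ := h.χs _ hx
  constructor
  · intro h0
    rw [mm_smul, ← rv_mm, h0] at h2
    have h3 : rv (0 : Fin 5 × Fin 5 → ℤ) = 0 := by
      funext p
      simp [rv]
    rw [h3, smul_zero, norm_zero] at h2
    have := h.hδ
    linarith
  · rw [norm_smul, norm_inv, Real.norm_of_nonneg (by positivity), inv_mul_le_iff₀ (by positivity)] at h1
    have : nz x ≤ K * √(nz w) * 3 := h1
    linarith

/-- the identity between the sum over the planes and the sum over the vectors -/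
theorem BB_eq (h : Rd ψ φ χ a b a' b' α β δ c₀) (hK : 0 < K) {Θ : (Fin 5 × Fin 5 → ℤ) → ℝ}
    {θ : (Fin 5 → ℤ) → ℝ} (hΘ : ∀ w ∈ VV, Θ w ∈ Set.Icc a b)
    (hθ : ∀ w ∈ VV, ∀ x, Unimod x → In w x → mm x ≠ 0 → θ x = Θ w) {T : ℝ} (hT : 0 < T)
    {C : ℝ} (hC : β / (a' * a) ≤ C ^ 2) (hC0 : 0 < C) (W : Finset (Fin 5 × Fin 5 → ℤ))
    (hW : ∀ w, w ∈ W ↔ w ∈ VV ∧ nz w ≤ C * T) :
    ∑ w ∈ W, φ (nz w ^ 2 * ψ (rv w) * Θ w / T ^ 2) * (RK χ K w / AW χ w) =
      2 / K ^ 2 * BS (GK ψ φ χ a b K) θ T := by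
  classical
  have ha := h.ha
  have ha' := h.ha'
  have hX := nz_fin (ι := Fin 5) (3 * K * √(C * T))
  set X : Finset (Fin 5 → ℤ) := hX.toFinset with hXdef
  have hXm : ∀ x : Fin 5 → ℤ, x ∈ X ↔ nz x ≤ 3 * K * √(C * T) := fun x => by
    rw [hXdef, Set.Finite.mem_toFinset, Set.mem_ofPred_eq]
  -- `φ ≠ 0` implies `w ∈ W`
  have hφW : ∀ w ∈ VV, φ (nz w ^ 2 * ψ (rv w) * Θ w / T ^ 2) ≠ 0 → w ∈ W := by
    intro w hw hne
    refine (hW w).2 ⟨hw, ?_⟩
    have h1 := (h.φs _ hne).2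
    rw [div_le_iff₀ (by positivity)] at h1
    have h2 := (h.hψ _ (rv_cone hw)).1
    have h3 := (hΘ w hw).1
    have h4 : nz w ^ 2 * (a' * a) ≤ β * T ^ 2 := by
      refine le_trans ?_ h1
      rw [mul_assoc (nz w ^ 2)]
      exact mul_le_mul_of_nonneg_left (mul_le_mul h2 h3 ha.le (by linarith)) (by positivity)
    have h5 : nz w ^ 2 ≤ (C * T) ^ 2 := by
      have h6 : nz w ^ 2 ≤ β / (a' * a) * T ^ 2 := by
        rw [div_mul_eq_mul_div, le_div_iff₀ (by positivity)]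
        exact h4
      refine h6.trans ?_
      rw [mul_pow]
      exact mul_le_mul_of_nonneg_right hC (by positivity)
    exact (pow_le_pow_iff_left₀ (nz_nonneg w) (by positivity) two_ne_zero).1 h5
  set Gx : (Fin 5 → ℤ) → ℝ := fun x =>
    GK ψ φ χ a b K (fun i => (x i : ℝ) / gg x, (gg x : ℝ) / √T, θ x) with hGx
  -- the terms
  have hterm : ∀ w ∈ VV, ∀ x, Unimod x → In w x → mm x ≠ 0 →
      Gx x = φ (nz w ^ 2 * ψ (rv w) * Θ w / T ^ 2) * χ ((K * √(nz w))⁻¹ • rv x) / AW χ w := by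
    intro w hw x hxu hx hm
    obtain ⟨y, z, hi, hwb, hAW⟩ := AW_spec χ hw
    have hθx := hθ w hw x hxu hx hm
    simp only [hGx]
    rw [hAW, hθx]
    exact GK_val h hK hw hx hm hT (hΘ w hw) hwb
  -- left side
  have hL : ∀ w ∈ W, φ (nz w ^ 2 * ψ (rv w) * Θ w / T ^ 2) * (RK χ K w / AW χ w) =
      1 / K ^ 2 * ∑ x ∈ X, if Unimod x ∧ In w x ∧ mm x ≠ 0 then Gx x else 0 := by
    intro w hwW
    obtain ⟨hw, hwT⟩ := (hW w).1 hwW
    have hRK : RK χ K w = (∑ x ∈ X, if Unimod x ∧ In w x then χ ((K * √(nz w))⁻¹ • rv x) else 0) /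
        K ^ 2 := by
      rw [RK, fs_eq _ _ X]
      · simp only [Set.mem_ofPred_eq]
        congr!
      · intro x _ hne
        rw [hXm]
        refine (rK_supp h hK hw hne).2.trans ?_
        exact mul_le_mul_of_nonneg_left (Real.sqrt_le_sqrt hwT) (by positivity)
    rw [hRK, div_div, mul_div_assoc', Finset.mul_sum, Finset.mul_sum, Finset.sum_div]
    refine Finset.sum_congr rfl fun x _ => ?_
    by_cases h1 : Unimod x ∧ In w x
    · rw [if_pos h1]
      by_cases h2 : mm x = 0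
      · rw [if_neg (fun h3 => h3.2.2 h2)]
        have : χ ((K * √(nz w))⁻¹ • rv x) = 0 := by
          by_contra hc
          exact (rK_supp h hK hw hc).1 h2
        rw [this, mul_zero, zero_div, mul_zero]
      · rw [if_pos ⟨h1.1, h1.2, h2⟩, hterm w hw x h1.1 h1.2 h2]
        field_simp
    · rw [if_neg h1, if_neg (fun h3 => h1 ⟨h3.1, h3.2.1⟩), mul_zero, zero_div, mul_zero]
  rw [Finset.sum_congr rfl hL, ← Finset.mul_sum, Finset.sum_comm]
  -- right side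
  have hR : BS (GK ψ φ χ a b K) θ T = ∑ x ∈ X, if Unimod x ∧ mm x ≠ 0 then Gx x else 0 := by
    rw [BS, fs_eq _ _ X]
    · simp only [Set.mem_ofPred_eq, hGx]
      congr!
    · rintro x ⟨hx, hm⟩ hne
      obtain ⟨w, hw, -, hin⟩ := exists_plane hx hm
      have h1 := hterm w hw x hx hin hm
      have h2 : Gx x ≠ 0 := hne
      rw [h1] at h2
      have h3 : φ (nz w ^ 2 * ψ (rv w) * Θ w / T ^ 2) ≠ 0 := by
        intro h0
        apply h2
        rw [h0, zero_mul, zero_div]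
      have h4 : χ ((K * √(nz w))⁻¹ • rv x) ≠ 0 := by
        intro h0
        apply h2
        rw [h0, mul_zero, zero_div]
      rw [hXm]
      refine (rK_supp h hK hw h4).2.trans ?_
      exact mul_le_mul_of_nonneg_left (Real.sqrt_le_sqrt ((hW w).1 (hφW w hw h3)).2) (by positivity)
  rw [hR, show (2 : ℝ) / K ^ 2 = 1 / K ^ 2 * 2 by ring, mul_assoc]
  congr 1
  rw [Finset.mul_sum]
  refine Finset.sum_congr rfl fun x _ => ?_
  by_cases h1 : Unimod x ∧ mm x ≠ 0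
  swap
  · rw [if_neg h1, mul_zero]
    refine Finset.sum_eq_zero fun w _ => ?_
    rw [if_neg (fun h3 => h1 ⟨h3.1, h3.2.2⟩)]
  · rw [if_pos h1]
    obtain ⟨w, hw, -, hin⟩ := exists_plane h1.1 h1.2
    by_cases h2 : Gx x = 0
    · rw [h2, mul_zero]
      refine Finset.sum_eq_zero fun w _ => ?_
      rw [ite_self]
    · have h3 := hterm w hw x h1.1 hin h1.2
      have h4 : w ∈ W := by
        refine hφW w hw ?_
        intro h0
        apply h2
        rw [h3, h0, zero_mul, zero_div]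
      have h5 : -w ∈ W := by
        rw [hW] at h4 ⊢
        refine ⟨VV_neg hw, ?_⟩
        rw [nz_neg]
        exact h4.2
      have hne : w ≠ -w := by
        intro h0
        have h6 := VV_nz_pos hw
        have h7 : w = 0 := by
          funext p
          have := congrFun h0 p
          simp only [Pi.neg_apply] at this
          simp only [Pi.zero_apply]
          omega
        rw [h7] at h6
        have : nz (0 : Fin 5 × Fin 5 → ℤ) = 0 := by
          have : rv (0 : Fin 5 × Fin 5 → ℤ) = 0 := by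
            funext p
            simp [rv]
          rw [nz, this, norm_zero]
        linarith
      have h6 : ∑ w' ∈ W, (if Unimod x ∧ In w' x ∧ mm x ≠ 0 then Gx x else 0) =
          ∑ w' ∈ ({w, -w} : Finset (Fin 5 × Fin 5 → ℤ)), Gx x := by
        symm
        refine Finset.sum_subset_zero_on_sdiff ?_ ?_ ?_
        · intro v hv
          rw [Finset.mem_insert, Finset.mem_singleton] at hv
          rcases hv with rfl | rfl
          · exact h4
          · exact h5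
        · intro v hv
          rw [Finset.mem_sdiff, Finset.mem_insert, Finset.mem_singleton] at hv
          rw [if_neg]
          rintro ⟨-, h7, -⟩
          exact hv.2 (planes_of hw ((hW v).1 hv.1).1 hin h7 h1.2)
        · intro v hv
          rw [Finset.mem_insert, Finset.mem_singleton] at hv
          rcases hv with rfl | rfl
          · rw [if_pos ⟨h1.1, hin, h1.2⟩]
          · rw [if_pos ⟨h1.1, in_neg' hin, h1.2⟩]
      rw [h6, Finset.sum_const, Finset.card_pair hne]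
      simp

end

end Pool.Agent.KS6_53.V5
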