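import Pool.Agent.KS6_53.V5.Riem
import Pool.Agent.KS6_53.V5.Fs

set_option autoImplicit false

namespace Pool.Agent.KS6_53.V5

open Finset Filter Topology MeasureTheory ArithmeticFunction

theorem sum_moebius (n : ℕ) : ∑ d ∈ n.divisors, (moebius d : ℤ) = if n = 1 then 1 else 0 := by
  rw [← coe_mul_zeta_apply, moebius_mul_coe_zeta, one_apply]

/-- the constant -/
noncomputable def κ₂ : ℝ := ∑' d : ℕ, (moebius d : ℝ) / (d : ℝ) ^ 2

theorem summ_inv_sq : Summable fun d : ℕ => 1 / (d : ℝ) ^ 2 :=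
  Real.summable_one_div_nat_pow.2 (by norm_num)

theorem summ_moeb : Summable fun d : ℕ => (moebius d : ℝ) / (d : ℝ) ^ 2 := by
  refine Summable.of_norm_bounded summ_inv_sq fun d => ?_
  rw [norm_div, norm_pow, Real.norm_natCast]
  refine div_le_div_of_nonneg_right ?_ (by positivity)
  rw [Real.norm_eq_abs]
  have := abs_moebius_le_one (n := d)
  exact_mod_cast this

theorem κ₂_pos : 0 < κ₂ := by
  have h1 : κ₂ = ∑ d ∈ Finset.range 3, (moebius d : ℝ) / (d : ℝ) ^ 2 +
      ∑' d : ℕ, (moebius (d + 3) : ℝ) / ((d + 3 : ℕ) : ℝ) ^ 2 :=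
    (summ_moeb.sum_add_tsum_nat_add 3).symm
  have h2 : ∑ d ∈ Finset.range 3, (moebius d : ℝ) / (d : ℝ) ^ 2 = 3 / 4 := by
    rw [Finset.sum_range_succ, Finset.sum_range_succ, Finset.sum_range_succ, Finset.sum_range_zero]
    rw [moebius_apply_one, moebius_apply_prime Nat.prime_two]
    norm_num
  have h3 : |∑' d : ℕ, (moebius (d + 3) : ℝ) / ((d + 3 : ℕ) : ℝ) ^ 2| ≤ 1 / 2 := by
    have hs : HasSum (fun d : ℕ => 1 / ((d : ℝ) + 2) - 1 / ((d + 1 : ℕ) + 2 : ℝ)) (1 / 2) := by
      have ht : Tendsto (fun n : ℕ => ∑ d ∈ Finset.range n,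
          (1 / ((d : ℝ) + 2) - 1 / ((d + 1 : ℕ) + 2 : ℝ))) atTop (𝓝 (1 / 2)) := by
        have e : ∀ n : ℕ, ∑ d ∈ Finset.range n, (1 / ((d : ℝ) + 2) - 1 / ((d + 1 : ℕ) + 2 : ℝ)) =
            1 / 2 - 1 / ((n : ℝ) + 2) := by
          intro n
          rw [Finset.sum_range_sub' (fun d : ℕ => 1 / ((d : ℝ) + 2))]
          norm_num
        simp_rw [e]
        have : Tendsto (fun n : ℕ => 1 / ((n : ℝ) + 2)) atTop (𝓝 0) := by
          refine Tendsto.div_atTop tendsto_const_nhds ?_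
          exact tendsto_atTop_add_const_right _ _ tendsto_natCast_atTop_atTop
        have h2 := this.const_sub (1 / 2)
        rwa [sub_zero] at h2
      refine (hasSum_iff_tendsto_nat_of_nonneg (fun d => ?_) _).2 ht
      rw [sub_nonneg]
      refine one_div_le_one_div_of_le (by positivity) ?_
      push_cast
      linarith
    have hb : ∀ d : ℕ, ‖(moebius (d + 3) : ℝ) / ((d + 3 : ℕ) : ℝ) ^ 2‖ ≤
        1 / ((d : ℝ) + 2) - 1 / ((d + 1 : ℕ) + 2 : ℝ) := by
      intro d
      rw [norm_div, norm_pow, Real.norm_natCast]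
      have e1 : ‖(moebius (d + 3) : ℝ)‖ ≤ 1 := by
        rw [Real.norm_eq_abs]
        have := abs_moebius_le_one (n := d + 3)
        exact_mod_cast this
      calc ‖(moebius (d + 3) : ℝ)‖ / ((d + 3 : ℕ) : ℝ) ^ 2 ≤ 1 / ((d + 3 : ℕ) : ℝ) ^ 2 :=
            div_le_div_of_nonneg_right e1 (by positivity)
        _ ≤ _ := by
            push_cast
            rw [div_sub_div _ _ (by positivity) (by positivity), div_le_div_iff₀ (by positivity)
              (by positivity)]
            nlinarith [(Nat.cast_nonneg d : (0 : ℝ) ≤ d)]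
    have := tsum_of_norm_bounded hs hb
    rwa [Real.norm_eq_abs] at this
  rw [h1, h2]
  have := abs_le.1 h3
  linarith

section

variable {F : (Fin 2 → ℝ) → ℝ}

/-- the sum without the origin, divided by `r ^ 2` -/
noncomputable def sd (F : (Fin 2 → ℝ) → ℝ) (d : ℕ) (r : ℝ) : ℝ :=
  (∑ᶠ z ∈ {z : Fin 2 → ℤ | z ≠ 0}, F (fun i => (d : ℝ) * z i / r)) / r ^ 2

theorem boxN_card (N : ℤ) (hN : 0 ≤ N) :
    (({z : Fin 2 → ℤ | ∀ i, |z i| ≤ N}.ncard : ℕ) : ℝ) ≤ (2 * N + 1) ^ 2 := by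
  classical
  have h : {z : Fin 2 → ℤ | ∀ i, |z i| ≤ N} =
      ((Fintype.piFinset (fun _ : Fin 2 => Finset.Icc (-N) N) : Finset (Fin 2 → ℤ)) :
        Set (Fin 2 → ℤ)) := by
    ext z
    simp only [Set.mem_ofPred_eq, Finset.mem_coe, Fintype.mem_piFinset, Finset.mem_Icc, abs_le]
  rw [h, Set.ncard_coe_finset, Fintype.card_piFinset, Finset.prod_const, Int.card_Icc,
    Finset.card_univ, Fintype.card_fin]
  push_cast
  have e : (((N + 1 - -N).toNat : ℕ) : ℝ) = 2 * N + 1 := by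
    rw [← Int.cast_natCast, Int.toNat_of_nonneg (by omega)]
    push_cast
    ring
  rw [e]

theorem sd_le (hc : Continuous F) (hF : HasCompactSupport F) : ∃ C : ℝ, ∀ (d : ℕ) (r : ℝ), 1 ≤ r →
    ‖(moebius d : ℝ) * sd F d r‖ ≤ C * (1 / (d : ℝ) ^ 2) := by
  obtain ⟨A, hA, hs⟩ := supp_bdd hF
  obtain ⟨M, hM⟩ := hF.exists_bound_of_continuous hc
  have hM0 : 0 ≤ M := (norm_nonneg _).trans (hM 0)
  refine ⟨M * (3 * A) ^ 2, fun d r hr => ?_⟩
  have hr0 : 0 < r := by linarith
  rcases Nat.eq_zero_or_pos d with rfl | hd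
  · simp
  have hd1 : (1 : ℝ) ≤ d := by exact_mod_cast hd
  have hd0 : (0 : ℝ) < d := by linarith
  have hmu : ‖(moebius d : ℝ)‖ ≤ 1 := by
    rw [Real.norm_eq_abs]
    have := abs_moebius_le_one (n := d)
    exact_mod_cast this
  have hsupp : ∀ z : Fin 2 → ℤ, F (fun i => (d : ℝ) * z i / r) ≠ 0 → ∀ i, |(z i : ℝ)| ≤ A * r / d := by
    intro z hz i
    have := hs _ hz i
    rw [abs_div, abs_mul, abs_of_pos hr0, abs_of_pos hd0, div_le_iff₀ hr0] at this
    rw [le_div_iff₀ hd0]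
    linarith
  have key : ‖∑ᶠ z ∈ {z : Fin 2 → ℤ | z ≠ 0}, F (fun i => (d : ℝ) * z i / r)‖ ≤
      M * (3 * (A * r / d)) ^ 2 := by
    set N : ℤ := ⌊A * r / d⌋ with hN
    have hN0 : 0 ≤ N := Int.floor_nonneg.2 (by positivity)
    have hNr : (N : ℝ) ≤ A * r / d := Int.floor_le _
    by_cases hlt : A * r / d < 1
    · have : ∑ᶠ z ∈ {z : Fin 2 → ℤ | z ≠ 0}, F (fun i => (d : ℝ) * z i / r) = 0 := by
        refine finsum_mem_eq_zero_of_forall_eq_zero fun z hz => ?_
        by_contra hne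
        apply hz
        funext i
        have h1 := (hsupp z hne i).trans_lt hlt
        have h2 : |z i| < 1 := by exact_mod_cast h1
        exact Int.abs_lt_one_iff.1 h2
      rw [this, norm_zero]
      positivity
    · push Not at hlt
      have hfin : {z : Fin 2 → ℤ | ∀ i, |z i| ≤ N}.Finite := by
        refine (finite_box' (fun _ => 0) (N : ℝ)).subset fun z hz i => ?_
        rw [sub_zero]
        exact_mod_cast hz i
      rw [Real.norm_eq_abs]
      refine (fs_norm_le (s := {z : Fin 2 → ℤ | z ≠ 0}) (fun z _ => ?_) hfin ?_ hM0).trans ?_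
      · have := hM (fun i => (d : ℝ) * z i / r)
        rwa [Real.norm_eq_abs] at this
      · intro z _ hz i
        have h1 := hsupp z hz i
        have h2 : |z i| ≤ ⌊A * r / d⌋ := by
          rw [Int.le_floor]
          push_cast
          exact h1
        exact h2
      · refine mul_le_mul_of_nonneg_left ((boxN_card N hN0).trans ?_) hM0
        have hN0' : (0 : ℝ) ≤ N := by exact_mod_cast hN0
        exact pow_le_pow_left₀ (by positivity) (by linarith) 2
  calc ‖(moebius d : ℝ) * sd F d r‖ = ‖(moebius d : ℝ)‖ * ‖sd F d r‖ := norm_mul _ _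
    _ ≤ 1 * (M * (3 * (A * r / d)) ^ 2 / r ^ 2) := by
      refine mul_le_mul hmu ?_ (norm_nonneg _) zero_le_one
      rw [sd, norm_div, norm_pow, Real.norm_of_nonneg hr0.le]
      exact div_le_div_of_nonneg_right key (by positivity)
    _ = _ := by
      field_simp

theorem sd_tendsto (hc : Continuous F) (hF : HasCompactSupport F) (d : ℕ) :
    Tendsto (fun r => (moebius d : ℝ) * sd F d r) atTop
      (𝓝 ((moebius d : ℝ) / (d : ℝ) ^ 2 * ∫ u, F u)) := by
  rcases Nat.eq_zero_or_pos d with rfl | hd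
  · simp
  have hd0 : (0 : ℝ) < d := by exact_mod_cast hd
  have h1 := (riemann hc hF).comp (tendsto_id.atTop_div_const hd0)
  have h2 : Tendsto (fun r : ℝ => F 0 / r ^ 2) atTop (𝓝 0) :=
    Tendsto.div_atTop tendsto_const_nhds (tendsto_pow_atTop (by norm_num))
  have h3 := ((h1.div_const ((d : ℝ) ^ 2)).sub h2).const_mul (moebius d : ℝ)
  have h4 : (moebius d : ℝ) / (d : ℝ) ^ 2 * ∫ u, F u =
      (moebius d : ℝ) * ((∫ u, F u) / (d : ℝ) ^ 2 - 0) := by ring
  rw [h4]
  refine h3.congr' ?_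
  filter_upwards [eventually_gt_atTop 0] with r hr
  congr 1
  simp only [Function.comp, id, Fintype.card_fin, sd]
  have hrd : 0 < r / d := by positivity
  have hfin : {z : Fin 2 → ℤ | z ∈ Set.univ ∧ F (fun i => (z i : ℝ) / (r / d)) ≠ 0}.Finite :=
    supp_fin hF hrd Set.univ
  have e0 : ∀ z : Fin 2 → ℤ, F (fun i => (z i : ℝ) / (r / d)) = F (fun i => (d : ℝ) * z i / r) := by
    intro z
    congr 1
    funext i
    field_simp
  have e1 : ∑ᶠ z : Fin 2 → ℤ, F (fun i => (z i : ℝ) / (r / d)) =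
      F 0 + ∑ᶠ z ∈ {z : Fin 2 → ℤ | z ≠ 0}, F (fun i => (d : ℝ) * z i / r) := by
    classical
    rw [← finsum_mem_univ]
    have hu : (Set.univ : Set (Fin 2 → ℤ)) = insert 0 {z : Fin 2 → ℤ | z ≠ 0} := by
      ext z
      by_cases h : z = 0 <;> simp [h]
    rw [hu, finsum_mem_insert' _ (by simp)]
    · congr 1
      · congr 1
        funext i
        simp
      · exact finsum_mem_congr rfl fun z _ => e0 z
    · refine hfin.subset ?_
      intro z hz
      exact ⟨Set.mem_univ _, hz.2⟩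
  rw [e1]
  field_simp
  ring

theorem coprime_sum (hF : HasCompactSupport F) (r : ℝ) (hr : 0 < r) :
    (∑ᶠ z ∈ {z : Fin 2 → ℤ | Int.gcd (z 0) (z 1) = 1}, F (fun i => (z i : ℝ) / r)) / r ^ 2 =
      ∑' d : ℕ, (moebius d : ℝ) * sd F d r := by
  classical
  obtain ⟨A, hA, hs⟩ := supp_bdd hF
  set N : ℕ := ⌊A * r⌋₊ with hN
  have hNr : A * r < N + 1 := Nat.lt_floor_add_one _
  have hTfin : {z : Fin 2 → ℤ | z ≠ 0 ∧ ∀ i, |(z i : ℝ)| ≤ A * r}.Finite :=
    (finite_box' (fun _ => 0) (A * r)).subset fun z hz i => by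
      rw [sub_zero]
      exact hz.2 i
  set T : Finset (Fin 2 → ℤ) := hTfin.toFinset with hT
  have hsupp : ∀ z : Fin 2 → ℤ, F (fun i => (z i : ℝ) / r) ≠ 0 → ∀ i, |(z i : ℝ)| ≤ A * r := by
    intro z hz i
    have := hs _ hz i
    rwa [abs_div, abs_of_pos hr, div_le_iff₀ hr] at this
  have hgcd : ∀ z ∈ T, 1 ≤ Int.gcd (z 0) (z 1) ∧ Int.gcd (z 0) (z 1) ≤ N := by
    intro z hz
    rw [hT, Set.Finite.mem_toFinset] at hz
    obtain ⟨hz0, hz1⟩ := hz
    have hne : Int.gcd (z 0) (z 1) ≠ 0 := by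
      intro h
      rw [Int.gcd_eq_zero_iff] at h
      apply hz0
      funext i
      fin_cases i
      · exact h.1
      · exact h.2
    refine ⟨Nat.one_le_iff_ne_zero.2 hne, ?_⟩
    have : ∃ i, z i ≠ 0 := by
      by_contra hc
      push Not at hc
      exact hz0 (funext hc)
    obtain ⟨i, hi⟩ := this
    have hdi : (Int.gcd (z 0) (z 1) : ℤ) ∣ z i := by
      fin_cases i
      · exact Int.gcd_dvd_left ..
      · exact Int.gcd_dvd_right ..
    have hle : Int.gcd (z 0) (z 1) ≤ (z i).natAbs :=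
      Nat.le_of_dvd (Int.natAbs_pos.2 hi) (Int.natCast_dvd.1 hdi)
    refine hle.trans (Nat.le_floor ?_)
    have := hz1 i
    rwa [← Int.cast_abs, ← Nat.cast_natAbs] at this
  have hsd : ∀ d : ℕ, 1 ≤ d → sd F d r = (∑ z ∈ T, if d ∣ Int.gcd (z 0) (z 1) then
      F (fun i => (z i : ℝ) / r) else 0) / r ^ 2 := by
    intro d hd
    have hd' : (d : ℤ) ≠ 0 := by
      have : d ≠ 0 := by omega
      exact_mod_cast this
    rw [sd]
    congr 1
    have hdv : ∀ z : Fin 2 → ℤ, d ∣ Int.gcd (z 0) (z 1) ↔ ∀ i, (d : ℤ) ∣ z i := by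
      intro z
      rw [Int.dvd_gcd_iff]
      constructor
      · rintro ⟨a, b⟩ i
        fin_cases i
        · exact a
        · exact b
      · intro h
        exact ⟨h 0, h 1⟩
    have e1 : ∑ᶠ z ∈ {z : Fin 2 → ℤ | z ≠ 0}, F (fun i => (d : ℝ) * z i / r) =
        ∑ᶠ z ∈ {z : Fin 2 → ℤ | z ≠ 0 ∧ d ∣ Int.gcd (z 0) (z 1)}, F (fun i => (z i : ℝ) / r) := by
      refine finsum_mem_eq_of_bijOn (fun z => (d : ℤ) • z) ⟨?_, ?_, ?_⟩ ?_
      · intro z hz
        refine ⟨smul_ne_zero hd' hz, (hdv _).2 fun i => ?_⟩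
        exact dvd_mul_right _ _
      · intro z _ z' _ h
        exact smul_right_injective _ hd' h
      · rintro z ⟨hz, hz2⟩
        have := (hdv z).1 hz2
        choose y hy using this
        refine ⟨y, ?_, ?_⟩
        · rintro rfl
          apply hz
          funext i
          rw [hy i]
          simp
        · funext i
          exact (hy i).symm
      · intro z _
        congr 1
        funext i
        simp
    rw [e1, fs_eq _ _ T (fun z hz hf => by
      rw [hT, Set.Finite.mem_toFinset]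
      exact ⟨hz.1, hsupp z hf⟩)]
    refine Finset.sum_congr rfl fun z hz => ?_
    rw [hT, Set.Finite.mem_toFinset] at hz
    simp only [Set.mem_ofPred_eq, hz.1, ne_eq, not_false_eq_true, true_and]
  have hzero : ∀ d : ℕ, d ∉ Finset.range (N + 1) → (moebius d : ℝ) * sd F d r = 0 := by
    intro d hd
    rw [Finset.mem_range, not_lt] at hd
    rw [hsd d (by omega), Finset.sum_eq_zero, zero_div, mul_zero]
    intro z hz
    rw [if_neg]
    intro h
    have h1 := Nat.le_of_dvd (hgcd z hz).1 h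
    have h2 := (hgcd z hz).2
    omega
  rw [tsum_eq_sum hzero]
  have e2 : ∀ d ∈ Finset.range (N + 1), (moebius d : ℝ) * sd F d r =
      (∑ z ∈ T, (if d ∣ Int.gcd (z 0) (z 1) then (moebius d : ℝ) else 0) *
        F (fun i => (z i : ℝ) / r)) / r ^ 2 := by
    intro d _
    rcases Nat.eq_zero_or_pos d with rfl | hd
    · rw [ArithmeticFunction.map_zero, Int.cast_zero, zero_mul]
      simp
    · rw [hsd d hd, ← mul_div_assoc, Finset.mul_sum]
      congr 1
      refine Finset.sum_congr rfl fun z _ => ?_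
      split_ifs <;> simp
  rw [Finset.sum_congr rfl e2, ← Finset.sum_div, Finset.sum_comm]
  congr 1
  rw [fs_eq _ _ T (fun z hz hf => by
    rw [hT, Set.Finite.mem_toFinset]
    refine ⟨?_, hsupp z hf⟩
    rintro rfl
    simp at hz)]
  refine Finset.sum_congr rfl fun z hz => ?_
  rw [← Finset.sum_mul]
  have h1 : ∑ d ∈ Finset.range (N + 1), (if d ∣ Int.gcd (z 0) (z 1) then (moebius d : ℝ) else 0) =
      if Int.gcd (z 0) (z 1) = 1 then 1 else 0 := by
    have h2 : ∑ d ∈ (Int.gcd (z 0) (z 1)).divisors, (moebius d : ℝ) =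
        if Int.gcd (z 0) (z 1) = 1 then 1 else 0 := by
      have := sum_moebius (Int.gcd (z 0) (z 1))
      have h3 := congrArg (fun x : ℤ => (x : ℝ)) this
      push_cast at h3
      exact h3
    rw [← h2, ← Finset.sum_filter]
    refine Finset.sum_congr ?_ fun _ _ => rfl
    ext d
    rw [Finset.mem_filter, Finset.mem_range, Nat.mem_divisors]
    have hg := hgcd z hz
    constructor
    · rintro ⟨-, h⟩
      exact ⟨h, by omega⟩
    · rintro ⟨h, -⟩
      have := Nat.le_of_dvd hg.1 h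
      exact ⟨by omega, h⟩
  rw [h1]
  simp only [Set.mem_ofPred_eq]
  split_ifs <;> simp

theorem coprime_tendsto (hc : Continuous F) (hF : HasCompactSupport F) :
    Tendsto (fun r : ℝ => (∑ᶠ z ∈ {z : Fin 2 → ℤ | Int.gcd (z 0) (z 1) = 1},
      F (fun i => (z i : ℝ) / r)) / r ^ 2) atTop (𝓝 (κ₂ * ∫ u, F u)) := by
  obtain ⟨C, hC⟩ := sd_le hc hF
  have h := tendsto_tsum_of_dominated_convergence (f := fun r d => (moebius d : ℝ) * sd F d r)
    (g := fun d : ℕ => (moebius d : ℝ) / (d : ℝ) ^ 2 * ∫ u, F u) (𝓕 := atTop)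
    (bound := fun d : ℕ => C * (1 / (d : ℝ) ^ 2)) (summ_inv_sq.mul_left C)
    (fun d => sd_tendsto hc hF d)
    (by filter_upwards [eventually_ge_atTop 1] with r hr using fun d => hC d r hr)
  rw [tsum_mul_right] at h
  refine h.congr' ?_
  filter_upwards [eventually_gt_atTop 0] with r hr
  exact (coprime_sum hF r hr).symm

end

theorem la : S_LA := by
  refine ⟨κ₂, κ₂_pos, fun χ hc hχ => ?_⟩
  set e := MeasurableEquiv.finTwoArrow (α := ℝ) with he
  let F : (Fin 2 → ℝ) → ℝ := fun u => χ (u 0, u 1)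
  have hFc : Continuous F := hc.comp (by fun_prop)
  have hFs : HasCompactSupport F := by
    have : F = χ ∘ (Homeomorph.finTwoArrow (X := ℝ)) := rfl
    rw [this]
    exact hχ.comp_homeomorph _
  have hint : ∫ u, F u = ∫ z, χ z := by
    have := (volume_preserving_finTwoArrow ℝ).integral_comp'
      (g := χ)
    rw [← this]
    rfl
  have h := coprime_tendsto hFc hFs
  rw [hint] at h
  refine h.congr fun r => ?_
  congr 1
  refine finsum_mem_eq_of_bijOn (fun z => (z 0, z 1)) ⟨?_, ?_, ?_⟩ ?_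
  · intro z hz
    exact Int.isCoprime_iff_gcd_eq_one.2 hz
  · intro z _ z' _ h
    have h1 := (Prod.ext_iff.1 h).1
    have h2 := (Prod.ext_iff.1 h).2
    funext i
    fin_cases i
    · exact h1
    · exact h2
  · rintro ⟨a, b⟩ hz
    exact ⟨![a, b], Int.isCoprime_iff_gcd_eq_one.1 hz, rfl⟩
  · intro z _
    rfl

end Pool.Agent.KS6_53.V5
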