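import Pool.Agent.KS6_53.V5.Area
import Pool.Agent.KS6_53.V5.La
import Pool.Agent.KS6_53.V5.Ub

set_option autoImplicit false

namespace Pool.Agent.KS6_53.V5

open Finset Filter Topology MeasureTheory

section

variable {χ : (Fin 5 → ℝ) → ℝ}

/-- the function on the plane of coordinates -/
def pull (χ : (Fin 5 → ℝ) → ℝ) (p q : Fin 5 → ℝ) : (Fin 2 → ℝ) → ℝ :=
  fun u => χ (u 0 • p + u 1 • q)

/-- the compact set of bases -/
def KK (R : ℝ) : Set ((Fin 5 → ℝ) × (Fin 5 → ℝ)) :=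
  {z | ‖z.1‖ ≤ R ∧ ‖z.2‖ ≤ R ∧ ‖wedge z.1 z.2‖ = 1}

theorem wedge_continuous : Continuous fun z : (Fin 5 → ℝ) × (Fin 5 → ℝ) => wedge z.1 z.2 := by
  refine continuous_pi fun p => ?_
  simp only [wedge]
  fun_prop

theorem KK_compact (R : ℝ) : IsCompact (KK R) := by
  refine Metric.isCompact_of_isClosed_isBounded ?_ ?_
  · exact IsClosed.inter (isClosed_le continuous_fst.norm continuous_const) (IsClosed.inter
      (isClosed_le continuous_snd.norm continuous_const)
      (isClosed_eq wedge_continuous.norm continuous_const))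
  · refine (Metric.isBounded_closedBall (x := 0) (r := R)).subset ?_
    rintro ⟨p, q⟩ ⟨h1, h2, -⟩
    rw [mem_closedBall_zero_iff, Prod.norm_def]
    exact max_le h1 h2

theorem coord_bound {R A : ℝ} {p q : Fin 5 → ℝ} (h : (p, q) ∈ KK R) {u : Fin 2 → ℝ}
    (hu : ‖u 0 • p + u 1 • q‖ ≤ A) (i : Fin 2) : |u i| ≤ 2 * A * R := by
  obtain ⟨h1, h2, h3⟩ := h
  simp only at h1 h2 h3
  have hA : 0 ≤ A := (norm_nonneg _).trans hu
  fin_cases i
  · have e : wedge (u 0 • p + u 1 • q) q = u 0 • wedge p q := by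
      have := wedge_comb (u 0) (u 1) 0 1 p q
      simpa using this
    have e2 := norm_wedge_le (u 0 • p + u 1 • q) q
    rw [e, norm_smul, h3, mul_one, Real.norm_eq_abs] at e2
    calc |u 0| ≤ _ := e2
      _ ≤ 2 * A * R := by
        refine mul_le_mul (by linarith) h2 (norm_nonneg _) (by positivity)
  · have e : wedge p (u 0 • p + u 1 • q) = u 1 • wedge p q := by
      have := wedge_comb 1 0 (u 0) (u 1) p q
      simpa using this
    have e2 := norm_wedge_le p (u 0 • p + u 1 • q)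
    rw [e, norm_smul, h3, mul_one, Real.norm_eq_abs] at e2
    calc |u 1| ≤ _ := e2
      _ = 2 * ‖u 0 • p + u 1 • q‖ * ‖p‖ := by ring
      _ ≤ 2 * A * R := by
        refine mul_le_mul (by linarith) h1 (norm_nonneg _) (by positivity)

theorem pull_supp (hχ : HasCompactSupport χ) : ∃ A : ℝ, 0 < A ∧ ∀ R p q, (p, q) ∈ KK R →
    ∀ u, pull χ p q u ≠ 0 → ∀ i, |u i| ≤ 2 * A * R := by
  obtain ⟨A, hA, hs⟩ := supp_bdd hχ
  refine ⟨A, hA, fun R p q h u hu i => coord_bound h ?_ i⟩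
  exact norm_le_of hA.le (hs _ hu)

theorem pull_compact (hχ : HasCompactSupport χ) {R : ℝ} {p q : Fin 5 → ℝ}
    (h : (p, q) ∈ KK R) : HasCompactSupport (pull χ p q) := by
  obtain ⟨A, hA, hs⟩ := pull_supp hχ
  have hR : 0 ≤ R := (norm_nonneg _).trans h.1
  refine HasCompactSupport.of_support_subset_isCompact
    (isCompact_closedBall (0 : Fin 2 → ℝ) (2 * A * R)) fun u hu => ?_
  rw [mem_closedBall_zero_iff]
  exact norm_le_of (by positivity) (hs R p q h u hu)

theorem pull_continuous (hχ : Continuous χ) (p q : Fin 5 → ℝ) : Continuous (pull χ p q) :=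
  hχ.comp (by fun_prop)

/-- the average -/
noncomputable def avg (χ : (Fin 5 → ℝ) → ℝ) (p q : Fin 5 → ℝ) (K : ℝ) : ℝ :=
  (∑ᶠ z ∈ {z : Fin 2 → ℤ | Int.gcd (z 0) (z 1) = 1}, pull χ p q (fun i => (z i : ℝ) / K)) / K ^ 2

theorem avg_close (hc : Continuous χ) (hχ : HasCompactSupport χ) (R : ℝ) (hR : 0 < R) :
    ∃ C : ℝ, 0 < C ∧ ∀ η : ℝ, 0 < η → ∃ δ : ℝ, 0 < δ ∧ ∀ p q p' q', (p, q) ∈ KK R →
      (p', q') ∈ KK R → ‖p - p'‖ < δ → ‖q - q'‖ < δ →
      (∀ K : ℝ, 1 ≤ K → |avg χ p q K - avg χ p' q' K| ≤ C * η) ∧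
      |area χ p q - area χ p' q'| ≤ C * η := by
  obtain ⟨A, hA, hs⟩ := pull_supp hχ
  set B : ℝ := 2 * A * R with hB
  have hB0 : 0 < B := by positivity
  refine ⟨(2 * B + 1) ^ 2, by positivity, fun η hη => ?_⟩
  have huc := hc.uniformContinuous_of_tendsto_cocompact hχ.is_zero_at_infty
  obtain ⟨δ', hδ', hδ2⟩ := Metric.uniformContinuous_iff.1 huc η hη
  refine ⟨δ' / (2 * B), by positivity, fun p q p' q' h h' hp hq => ?_⟩
  have hclose : ∀ u : Fin 2 → ℝ, (∀ i, |u i| ≤ B) → |pull χ p q u - pull χ p' q' u| ≤ η := by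
    intro u hu
    have h1 : dist (u 0 • p + u 1 • q) (u 0 • p' + u 1 • q') < δ' := by
      rw [dist_eq_norm]
      have e : u 0 • p + u 1 • q - (u 0 • p' + u 1 • q') = u 0 • (p - p') + u 1 • (q - q') := by
        rw [smul_sub, smul_sub]
        abel
      rw [e]
      calc _ ≤ ‖u 0 • (p - p')‖ + ‖u 1 • (q - q')‖ := norm_add_le _ _
        _ = |u 0| * ‖p - p'‖ + |u 1| * ‖q - q'‖ := by
          rw [norm_smul, norm_smul, Real.norm_eq_abs, Real.norm_eq_abs]
        _ ≤ B * ‖p - p'‖ + B * ‖q - q'‖ :=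
          add_le_add (mul_le_mul_of_nonneg_right (hu 0) (norm_nonneg _))
            (mul_le_mul_of_nonneg_right (hu 1) (norm_nonneg _))
        _ < B * (δ' / (2 * B)) + B * (δ' / (2 * B)) := by
          have := mul_lt_mul_of_pos_left hp hB0
          have := mul_lt_mul_of_pos_left hq hB0
          linarith
        _ = δ' := by field_simp; ring
    have := (hδ2 h1).le
    rwa [Real.dist_eq] at this
  have hclose' : ∀ u : Fin 2 → ℝ, |pull χ p q u - pull χ p' q' u| ≤ η := by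
    intro u
    by_cases hu : ∀ i, |u i| ≤ B
    · exact hclose u hu
    · have e1 : pull χ p q u = 0 := by
        by_contra hne
        exact hu (hs R p q h u hne)
      have e2 : pull χ p' q' u = 0 := by
        by_contra hne
        exact hu (hs R p' q' h' u hne)
      rw [e1, e2, sub_zero, abs_zero]
      exact hη.le
  constructor
  · intro K hK
    have hK0 : 0 < K := by linarith
    set N : ℤ := ⌊B * K⌋ with hN
    have hN0 : 0 ≤ N := Int.floor_nonneg.2 (by positivity)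
    have hNr : (N : ℝ) ≤ B * K := Int.floor_le _
    have hfin : {z : Fin 2 → ℤ | ∀ i, |z i| ≤ N}.Finite := by
      refine (finite_box' (fun _ => 0) (N : ℝ)).subset fun z hz i => ?_
      rw [sub_zero]
      exact_mod_cast hz i
    have hsupp : ∀ p q, (p, q) ∈ KK R → ∀ z ∈ {z : Fin 2 → ℤ | Int.gcd (z 0) (z 1) = 1},
        pull χ p q (fun i => (z i : ℝ) / K) ≠ 0 → z ∈ {z : Fin 2 → ℤ | ∀ i, |z i| ≤ N} := by
      intro p q hpq z _ hz i
      have := hs R p q hpq _ hz i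
      rw [abs_div, abs_of_pos hK0, div_le_iff₀ hK0] at this
      have h2 : |z i| ≤ ⌊B * K⌋ := by
        rw [Int.le_floor]
        push_cast
        exact this
      exact h2
    have h1 := fs_sub_le (f := fun z : Fin 2 → ℤ => pull χ p q (fun i => (z i : ℝ) / K))
      (g := fun z : Fin 2 → ℤ => pull χ p' q' (fun i => (z i : ℝ) / K))
      (s := {z : Fin 2 → ℤ | Int.gcd (z 0) (z 1) = 1}) (fun z _ => hclose' _) hfin
      (hsupp p q h) (hsupp p' q' h') hη.le
    have h2 : avg χ p q K - avg χ p' q' K = (∑ᶠ z ∈ {z : Fin 2 → ℤ | Int.gcd (z 0) (z 1) = 1},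
        pull χ p q (fun i => (z i : ℝ) / K) - ∑ᶠ z ∈ {z : Fin 2 → ℤ | Int.gcd (z 0) (z 1) = 1},
        pull χ p' q' (fun i => (z i : ℝ) / K)) / K ^ 2 := by
      rw [avg, avg, sub_div]
    rw [h2, abs_div, abs_of_pos (by positivity : 0 < K ^ 2), div_le_iff₀ (by positivity)]
    refine h1.trans ?_
    have h3 := boxN_card N hN0
    have hN0' : (0 : ℝ) ≤ N := by exact_mod_cast hN0
    calc η * ({z : Fin 2 → ℤ | ∀ i, |z i| ≤ N}.ncard : ℝ) ≤ η * (2 * N + 1) ^ 2 :=
          mul_le_mul_of_nonneg_left h3 hη.le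
      _ ≤ η * ((2 * B + 1) * K) ^ 2 := by
          refine mul_le_mul_of_nonneg_left (pow_le_pow_left₀ (by positivity) ?_ 2) hη.le
          nlinarith
      _ = _ := by ring
  · rw [area_eq, area_eq]
    have i1 : Integrable (pull χ p q) := (pull_continuous hc p q).integrable_of_hasCompactSupport
      (pull_compact hχ h)
    have i2 : Integrable (pull χ p' q') := (pull_continuous hc p' q').integrable_of_hasCompactSupport
      (pull_compact hχ h')
    have e1 : (∫ u : Fin 2 → ℝ, χ (u 0 • p + u 1 • q)) - ∫ u : Fin 2 → ℝ, χ (u 0 • p' + u 1 • q') =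
        ∫ u, (pull χ p q u - pull χ p' q' u) := (integral_sub i1 i2).symm
    set S : Set (Fin 2 → ℝ) := Set.Icc (fun _ => -B) (fun _ => B) with hS
    have e2 : ∫ u, (pull χ p q u - pull χ p' q' u) =
        ∫ u in S, (pull χ p q u - pull χ p' q' u) := by
      symm
      refine setIntegral_eq_integral_of_forall_compl_eq_zero fun u hu => ?_
      have hu' : ¬ ∀ i, |u i| ≤ B := by
        intro hall
        apply hu
        rw [hS, Set.mem_Icc]
        exact ⟨fun i => (abs_le.1 (hall i)).1, fun i => (abs_le.1 (hall i)).2⟩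
      have e1 : pull χ p q u = 0 := by
        by_contra hne
        exact hu' (hs R p q h u hne)
      have e2 : pull χ p' q' u = 0 := by
        by_contra hne
        exact hu' (hs R p' q' h' u hne)
      rw [e1, e2, sub_zero]
    have hvol : volume S = ENNReal.ofReal (2 * B) ^ 2 := by
      rw [hS, Real.volume_Icc_pi]
      simp only [Finset.prod_const, Finset.card_univ, Fintype.card_fin]
      congr 2
      ring
    have hvolr : volume.real S = (2 * B) ^ 2 := by
      rw [Measure.real, hvol, ENNReal.toReal_pow, ENNReal.toReal_ofReal (by positivity)]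
    rw [e1, e2, ← Real.norm_eq_abs]
    refine (norm_setIntegral_le_of_norm_le_const (C := η) (by rw [hvol]; finiteness) ?_).trans ?_
    · intro u _
      rw [Real.norm_eq_abs]
      exact hclose' u
    · rw [hvolr]
      nlinarith

theorem avg_unif (hc : Continuous χ) (hχ : HasCompactSupport χ) (R : ℝ) (hR : 0 < R) (ε : ℝ)
    (hε : 0 < ε) : ∃ K₀ : ℝ, 1 ≤ K₀ ∧ ∀ K : ℝ, K₀ ≤ K → ∀ p q, (p, q) ∈ KK R →
      |avg χ p q K - κ₂ * area χ p q| ≤ ε := by
  obtain ⟨C, hC, hclose⟩ := avg_close hc hχ R hR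
  have hκ := κ₂_pos
  set η : ℝ := ε / (3 * C * (1 + κ₂)) with hη
  have hη0 : 0 < η := by positivity
  have h1 : C * η ≤ ε / 3 := by
    rw [hη, ← mul_div_assoc, div_le_div_iff₀ (by positivity) (by positivity)]
    nlinarith [mul_pos hC hε]
  have h2 : κ₂ * (C * η) ≤ ε / 3 := by
    rw [hη]
    have : κ₂ * (C * (ε / (3 * C * (1 + κ₂)))) = ε / 3 * (κ₂ / (1 + κ₂)) := by field_simp
    rw [this]
    have : κ₂ / (1 + κ₂) ≤ 1 := (div_le_one (by positivity)).2 (by linarith)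
    nlinarith
  obtain ⟨δ, hδ, hδ2⟩ := hclose η hη0
  -- the pointwise limit
  have hpt : ∀ z ∈ KK R, ∃ K₀ : ℝ, ∀ K : ℝ, K₀ ≤ K → |avg χ z.1 z.2 K - κ₂ * area χ z.1 z.2| ≤ ε / 3 := by
    rintro ⟨p, q⟩ h
    have h3 := coprime_tendsto (pull_continuous hc p q) (pull_compact hχ h)
    rw [Metric.tendsto_atTop] at h3
    obtain ⟨K₀, hK₀⟩ := h3 (ε / 3) (by positivity)
    refine ⟨K₀, fun K hK => ?_⟩
    have := (hK₀ K hK).le
    rw [Real.dist_eq] at this
    rw [area_eq]
    exact this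
  choose! K₁ hK₁ using hpt
  obtain ⟨t, ht, hcov⟩ := (KK_compact R).elim_nhds_subcover (fun z => Metric.ball z δ)
    (fun z _ => Metric.ball_mem_nhds z hδ)
  classical
  obtain ⟨K₂, hK₂⟩ := (t.image K₁).exists_le
  refine ⟨max 1 K₂, le_max_left _ _, fun K hK p q hpq => ?_⟩
  have hK1 : 1 ≤ K := (le_max_left _ _).trans hK
  have hK2 : K₂ ≤ K := (le_max_right _ _).trans hK
  obtain ⟨z, hz, hzb⟩ : ∃ z ∈ t, (p, q) ∈ Metric.ball z δ := by
    have := hcov hpq
    simpa using this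
  have hzK : K₁ z ≤ K := (hK₂ _ (Finset.mem_image_of_mem _ hz)).trans hK2
  rw [Metric.mem_ball, dist_eq_norm, Prod.norm_def] at hzb
  have n1 : ‖p - z.1‖ < δ := lt_of_le_of_lt (le_max_left _ _) hzb
  have n2 : ‖q - z.2‖ < δ := lt_of_le_of_lt (le_max_right _ _) hzb
  obtain ⟨c1, c2⟩ := hδ2 p q z.1 z.2 hpq (ht z hz) n1 n2
  have c3 := hK₁ z (ht z hz) K hzK
  have c4 := c1 K hK1
  have e : avg χ p q K - κ₂ * area χ p q = (avg χ p q K - avg χ z.1 z.2 K) +
      (avg χ z.1 z.2 K - κ₂ * area χ z.1 z.2) - κ₂ * (area χ p q - area χ z.1 z.2) := by ring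
  rw [e]
  refine (abs_sub _ _).trans ?_
  have c5 : |κ₂ * (area χ p q - area χ z.1 z.2)| ≤ κ₂ * (C * η) := by
    rw [abs_mul, abs_of_pos hκ]
    exact mul_le_mul_of_nonneg_left c2 hκ.le
  have c6 := abs_add_le (avg χ p q K - avg χ z.1 z.2 K) (avg χ z.1 z.2 K - κ₂ * area χ z.1 z.2)
  linarith

end

theorem kl : S_KL := by
  refine ⟨κ₂, κ₂_pos, fun χ hc hχ ξ ε hξ hε => ?_⟩
  set R : ℝ := max (2 / ξ) 1 with hR
  have hR1 : 1 ≤ R := le_max_right _ _
  have hR2 : 2 / ξ ≤ R := le_max_left _ _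
  obtain ⟨K₀, hK₀, h⟩ := avg_unif hc hχ R (by linarith) ε hε
  refine ⟨K₀, hK₀, fun K hK w hw hmin b c hbc hwbc => ?_⟩
  have hK0 : 0 < K := by linarith
  obtain ⟨x, y, hx, hinx, hiny, hiso, hwxy, a1, a2, a3⟩ := exists_reduced hw
  have hw1 : 1 ≤ nz w := one_le_nz' hw.1
  have hw0 : 0 < nz w := by linarith
  set s : ℝ := √(nz w) with hs
  have hs0 : 0 < s := Real.sqrt_pos.2 hw0
  have hss : s ^ 2 = nz w := Real.sq_sqrt hw0.le
  have hxmin := hmin x hx hinx
  have hx0 : 0 < nz x := lt_of_lt_of_le one_pos (one_le_nz' hx)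
  set p : Fin 5 → ℝ := s⁻¹ • rv x with hp
  set q : Fin 5 → ℝ := s⁻¹ • rv y with hq
  have hny : nz y ≤ R * s := by
    have e1 : ξ * s * nz y ≤ 2 * s ^ 2 := by
      rw [hss]
      refine le_trans ?_ a2
      exact mul_le_mul_of_nonneg_right hxmin (nz_nonneg y)
    have e2 : ξ * nz y ≤ 2 * s := by
      have : s * (ξ * nz y) ≤ s * (2 * s) := by nlinarith
      exact le_of_mul_le_mul_left this hs0
    have e3 : nz y ≤ 2 / ξ * s := by
      rw [div_mul_eq_mul_div, le_div_iff₀ hξ]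
      linarith
    exact e3.trans (mul_le_mul_of_nonneg_right hR2 hs0.le)
  have hnormp : ‖p‖ = s⁻¹ * nz x := by
    rw [hp, norm_smul, Real.norm_eq_abs, abs_of_pos (by positivity), nz]
  have hnormq : ‖q‖ = s⁻¹ * nz y := by
    rw [hq, norm_smul, Real.norm_eq_abs, abs_of_pos (by positivity), nz]
  have hwedge : ∀ x y : Fin 5 → ℤ, wedge (s⁻¹ • rv x) (s⁻¹ • rv y) = (nz w)⁻¹ • rv (wedge x y) := by
    intro x y
    rw [wedge_smul, ← mul_inv, ← sq, hss]
    congr 1
    funext i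
    simp [rv, wedge]
  have hwn : ‖wedge p q‖ = 1 := by
    rw [hp, hq, hwedge, ← hwxy, norm_smul, Real.norm_eq_abs, abs_of_pos (by positivity)]
    exact inv_mul_cancel₀ hw0.ne'
  have hpq : (p, q) ∈ KK R := by
    refine ⟨?_, ?_, hwn⟩
    · simp only
      rw [hnormp, inv_mul_le_iff₀ hs0, mul_comm]
      linarith
    · simp only
      rw [hnormq, inv_mul_le_iff₀ hs0, mul_comm]
      linarith
  have key := h K hK p q hpq
  have harea : area χ (s⁻¹ • rv b) (s⁻¹ • rv c) = area χ p q := by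
    refine area_congr hc (fun h0 => ?_) (Or.inl ?_)
    · rw [h0, norm_zero] at hwn
      exact zero_ne_one hwn
    · rw [hwedge, hp, hq, hwedge, ← hwbc, ← hwxy]
  rw [harea]
  have hsum : ∑ᶠ x ∈ {x : Fin 5 → ℤ | Unimod x ∧ In w x}, χ ((K * s)⁻¹ • rv x) =
      ∑ᶠ z ∈ {z : Fin 2 → ℤ | Int.gcd (z 0) (z 1) = 1}, pull χ p q (fun i => (z i : ℝ) / K) := by
    symm
    have hu : Unimod (wedge x y) := hwxy ▸ hw.1
    refine finsum_mem_eq_of_bijOn (fun z => z 0 • x + z 1 • y) ⟨?_, ?_, ?_⟩ ?_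
    · intro z hz
      refine ⟨(unimod_comb hu _ _).2 (Int.isCoprime_iff_gcd_eq_one.2 hz), ?_⟩
      rw [hwxy, in_wedge_iff hu]
      exact ⟨_, _, rfl⟩
    · intro z _ z' _ he
      obtain ⟨e1, e2⟩ := comb_unique hu he
      funext i
      fin_cases i
      · exact e1
      · exact e2
    · rintro v ⟨hv1, hv2⟩
      rw [hwxy, in_wedge_iff hu] at hv2
      obtain ⟨a, b, rfl⟩ := hv2
      exact ⟨![a, b], Int.isCoprime_iff_gcd_eq_one.1 ((unimod_comb hu _ _).1 hv1), rfl⟩
    · intro z _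
      simp only [pull]
      congr 1
      funext i
      simp only [Pi.add_apply, Pi.smul_apply, smul_eq_mul, hp, hq, rv]
      push_cast
      field_simp
  rw [hsum]
  exact key

end Pool.Agent.KS6_53.V5
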