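import Pool.Agent.KS6_53.V5.Fa4
import Pool.Agent.KS6_53.V5.Bl
import Pool.Agent.KS6_53.V5.Kl
import Pool.Agent.KS6_53.V5.Ln2
import Pool.Agent.KS6_53.V5.Pl

set_option autoImplicit false

namespace Pool.Agent.KS6_53.V5

open Finset Filter Topology MeasureTheory

/-- the smooth sum over the planes -/
noncomputable def SS (ψ : (Fin 5 × Fin 5 → ℝ) → ℝ) (φ : ℝ → ℝ) (Θ : (Fin 5 × Fin 5 → ℤ) → ℝ)
    (T : ℝ) : ℝ :=
  ∑ᶠ w ∈ {w : Fin 5 × Fin 5 → ℤ | w ∈ VV ∧ UU w}, φ (nz w ^ 2 * ψ (rv w) * Θ w / T ^ 2)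

section

variable {ψ : (Fin 5 × Fin 5 → ℝ) → ℝ} {φ : ℝ → ℝ} {χ : (Fin 5 → ℝ) → ℝ}
  {a b a' b' α β δ c₀ K : ℝ}

theorem chi_bound (h : Rd ψ φ χ a b a' b' α β δ c₀) : ∃ M : ℝ, 0 < M ∧ ∀ v, χ v ≤ M := by
  have hcs : HasCompactSupport χ :=
    HasCompactSupport.intro (isCompact_closedBall (0 : Fin 5 → ℝ) 3) fun v hv => by
      by_contra h0
      exact hv (by rw [mem_closedBall_zero_iff]; exact (h.χs v h0).1)
  obtain ⟨M, hM⟩ := h.χc.bounded_above_of_compact_support hcs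
  refine ⟨max M 1, by positivity, fun v => ?_⟩
  have := hM v
  rw [Real.norm_eq_abs] at this
  exact (le_abs_self _).trans (this.trans (le_max_left _ _))

theorem RK_nonneg (h : Rd ψ φ χ a b a' b' α β δ c₀) (K : ℝ) (w : Fin 5 × Fin 5 → ℤ) :
    0 ≤ RK χ K w :=
  div_nonneg (fs_nonneg fun x _ => h.χ0 _) (by positivity)

theorem RK_le (h : Rd ψ φ χ a b a' b' α β δ c₀) {M : ℝ} (hM : 0 < M) (hχM : ∀ v, χ v ≤ M) (hK : 1 ≤ K)
    {w : Fin 5 × Fin 5 → ℤ} (hw : w ∈ VV) : RK χ K w ≤ 80 * M := by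
  have hK0 : 0 < K := by linarith
  have hn := VV_nz_pos hw
  obtain ⟨h1, h2⟩ := pl w hw (3 * K * √(nz w)) (by positivity)
  have h3 := fs_norm_le (s := {x : Fin 5 → ℤ | Unimod x ∧ In w x})
    (f := fun x : Fin 5 → ℤ => χ ((K * √(nz w))⁻¹ • rv x)) (M := M)
    (fun x _ => by rw [abs_of_nonneg (h.χ0 _)]; exact hχM _) h1
    (fun x hx hne => ⟨hx.1, hx.2, (rK_supp h hK0 hw hne).2⟩) hM.le
  rw [RK, div_le_iff₀ (by positivity)]
  refine (le_abs_self _).trans (h3.trans ?_)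
  have h4 : 8 * (3 * K * √(nz w)) ^ 2 / nz w + 8 ≤ 80 * K ^ 2 := by
    rw [mul_pow, Real.sq_sqrt hn.le]
    have : 8 * ((3 * K) ^ 2 * nz w) / nz w = 72 * K ^ 2 := by
      field_simp
      ring
    rw [this]
    nlinarith
  calc M * _ ≤ M * (80 * K ^ 2) := mul_le_mul_of_nonneg_left (h2.trans h4) hM.le
    _ = _ := by ring

/-- the family of the counted planes -/
theorem fin_W (c : ℝ) : {w : Fin 5 × Fin 5 → ℤ | w ∈ VV ∧ nz w ≤ c}.Finite :=
  (nz_fin c).subset fun w hw => hw.2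

theorem phi_W (h : Rd ψ φ χ a b a' b' α β δ c₀) {Θ : (Fin 5 × Fin 5 → ℤ) → ℝ}
    (hΘ : ∀ w ∈ VV, Θ w ∈ Set.Icc a b) {T C : ℝ} (hT : 0 < T) (hC : β / (a' * a) ≤ C ^ 2)
    (hC0 : 0 < C) {w : Fin 5 × Fin 5 → ℤ} (hw : w ∈ VV)
    (hne : φ (nz w ^ 2 * ψ (rv w) * Θ w / T ^ 2) ≠ 0) : nz w ≤ C * T := by
  have ha := h.ha
  have ha' := h.ha'
  have h1 := (h.φs _ hne).2
  rw [div_le_iff₀ (by positivity)] at h1
  have h2 := (h.hψ _ (rv_cone hw)).1
  have h3 := (hΘ w hw).1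
  have h4 : nz w ^ 2 * (a' * a) ≤ β * T ^ 2 := by
    refine le_trans ?_ h1
    rw [mul_assoc (nz w ^ 2)]
    exact mul_le_mul_of_nonneg_left (mul_le_mul h2 h3 ha.le (by linarith)) (by positivity)
  have h5 : nz w ^ 2 ≤ (C * T) ^ 2 := by
    have h6 : nz w ^ 2 ≤ β / (a' * a) * T ^ 2 := by
      rw [div_mul_eq_mul_div, le_div_iff₀ (by positivity)]
      exact h4
    refine h6.trans ?_
    rw [mul_pow]
    exact mul_le_mul_of_nonneg_right hC (by positivity)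
  exact (pow_le_pow_iff_left₀ (nz_nonneg w) (by positivity) two_ne_zero).1 h5

theorem sum_ind_le' {S : Set (Fin 5 × Fin 5 → ℤ)} (hS : S.Finite) (Z : Finset (Fin 5 × Fin 5 → ℤ)) :
    ∑ z ∈ Z, S.indicator (fun _ => (1 : ℝ)) z ≤ S.ncard := by
  classical
  have : ∑ z ∈ Z, S.indicator (fun _ => (1 : ℝ)) z = ((Z.filter (· ∈ S)).card : ℝ) := by
    simp only [Set.indicator_apply]
    rw [Finset.sum_ite, Finset.sum_const_zero, add_zero, Finset.sum_const, nsmul_eq_mul, mul_one]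
  rw [this, Set.ncard_eq_toFinset_card _ hS]
  exact_mod_cast Finset.card_le_card fun x hx => by
    rw [Finset.mem_filter] at hx
    simpa using hx.2

theorem ind_nonneg' (S : Set (Fin 5 × Fin 5 → ℤ)) (z : Fin 5 × Fin 5 → ℤ) :
    0 ≤ S.indicator (fun _ => (1 : ℝ)) z := Set.indicator_nonneg (fun _ _ => zero_le_one) z

/-- the comparison of the two sums -/
theorem SS_approx (h : Rd ψ φ χ a b a' b' α β δ c₀) (hφ1 : ∀ t, φ t ≤ 1)
    {Θ : (Fin 5 × Fin 5 → ℤ) → ℝ}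
    {θ : (Fin 5 → ℤ) → ℝ} (hΘ : ∀ w ∈ VV, Θ w ∈ Set.Icc a b)
    (hθ : ∀ w ∈ VV, ∀ x, Unimod x → In w x → mm x ≠ 0 → θ x = Θ w) :
    ∃ κ : ℝ, 0 < κ ∧ ∀ ε : ℝ, 0 < ε → ∃ K : ℝ, 1 ≤ K ∧ ∀ᶠ T in atTop,
      |SS ψ φ Θ T - 2 / (κ * K ^ 2) * BS (GK ψ φ χ a b K) θ T| ≤ ε * T ^ 2 := by
  classical
  obtain ⟨κ, hκ, hkl⟩ := kl
  obtain ⟨Cu, hCu, hub⟩ := ub
  obtain ⟨Cs, hCs, hsk⟩ := sk
  obtain ⟨M, hM, hχM⟩ := chi_bound h
  refine ⟨κ, hκ, fun ε hε => ?_⟩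
  have ha := h.ha
  have ha' := h.ha'
  have hc₀ := h.hc₀
  set C : ℝ := |β / (a' * a)| + 1 with hCdef
  have hC1 : 1 ≤ C := by
    rw [hCdef]
    have := abs_nonneg (β / (a' * a))
    linarith
  have hC0 : 0 < C := by linarith
  have hC : β / (a' * a) ≤ C ^ 2 := by
    have h1 : β / (a' * a) ≤ C := by
      rw [hCdef]
      have := le_abs_self (β / (a' * a))
      linarith
    nlinarith
  set M2 : ℝ := 1 + 80 * M / (κ * c₀) with hM2
  have hM20 : 0 < M2 := by positivity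
  -- the parameters
  obtain ⟨ξ, hξ, hξ2⟩ : ∃ ξ : ℝ, 0 < ξ ∧ M2 * (Cs * ξ ^ 2 * C ^ 2) ≤ ε / 3 := by
    refine ⟨min 1 (ε / (3 * M2 * Cs * C ^ 2)), by positivity, ?_⟩
    have h1 : min 1 (ε / (3 * M2 * Cs * C ^ 2)) ≤ 1 := min_le_left _ _
    have h2 : min 1 (ε / (3 * M2 * Cs * C ^ 2)) ≤ ε / (3 * M2 * Cs * C ^ 2) := min_le_right _ _
    have h0 : 0 < min 1 (ε / (3 * M2 * Cs * C ^ 2)) := by positivity
    have h3 : (min 1 (ε / (3 * M2 * Cs * C ^ 2))) ^ 2 ≤ ε / (3 * M2 * Cs * C ^ 2) := by nlinarith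
    calc M2 * (Cs * (min 1 (ε / (3 * M2 * Cs * C ^ 2))) ^ 2 * C ^ 2) ≤
          M2 * (Cs * (ε / (3 * M2 * Cs * C ^ 2)) * C ^ 2) := by gcongr
      _ = ε / 3 := by
        field_simp
  set ε' : ℝ := ε * κ * c₀ / (3 * Cu * C ^ 2) with hε'
  have hε'0 : 0 < ε' := by positivity
  have hcs : HasCompactSupport χ :=
    HasCompactSupport.intro (isCompact_closedBall (0 : Fin 5 → ℝ) 3) fun v hv => by
      by_contra h0
      exact hv (by rw [mem_closedBall_zero_iff]; exact (h.χs v h0).1)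
  obtain ⟨K, hK, hK2⟩ := hkl χ h.χc hcs ξ ε' hξ hε'0
  have hK2 := hK2 K le_rfl
  have hK0 : 0 < K := by linarith
  obtain ⟨T₀, hT₀⟩ := ln (9 * K ^ 2) (ε / (3 * M2 * C ^ 2)) (by positivity) (by positivity)
  refine ⟨K, hK, ?_⟩
  filter_upwards [eventually_ge_atTop (max 1 T₀)] with T hT
  have hT1 : 1 ≤ T := (le_max_left _ _).trans hT
  have hTT : T₀ ≤ T := (le_max_right _ _).trans hT
  have hT0 : 0 < T := by linarith
  have hCT : T ≤ C * T := by nlinarith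
  -- the finite set
  set W : Finset (Fin 5 × Fin 5 → ℤ) := (fin_W (C * T)).toFinset with hWdef
  have hW : ∀ w, w ∈ W ↔ w ∈ VV ∧ nz w ≤ C * T := fun w => by
    rw [hWdef, Set.Finite.mem_toFinset, Set.mem_ofPred_eq]
  have hBB := BB_eq h hK0 hΘ hθ hT0 hC hC0 W hW
  have e1 : 2 / (κ * K ^ 2) * BS (GK ψ φ χ a b K) θ T =
      ∑ w ∈ W, φ (nz w ^ 2 * ψ (rv w) * Θ w / T ^ 2) * (RK χ K w / (κ * AW χ w)) := by
    have : 2 / (κ * K ^ 2) * BS (GK ψ φ χ a b K) θ T = (2 / K ^ 2 * BS (GK ψ φ χ a b K) θ T) / κ := by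
      field_simp
    rw [this, ← hBB, Finset.sum_div]
    refine Finset.sum_congr rfl fun w _ => ?_
    field_simp
  have e2 : SS ψ φ Θ T = ∑ w ∈ W, if UU w then φ (nz w ^ 2 * ψ (rv w) * Θ w / T ^ 2) else 0 := by
    rw [SS, fs_eq _ _ W (fun w hw hne => (hW w).2 ⟨hw.1, phi_W h hΘ hT0 hC hC0 hw.1 hne⟩)]
    refine Finset.sum_congr rfl fun w hwW => ?_
    have hwV := ((hW w).1 hwW).1
    by_cases hu : UU w
    · rw [if_pos hu, if_pos ⟨hwV, hu⟩]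
    · rw [if_neg hu, if_neg (fun h' => hu h'.2)]
  rw [e1, e2, ← Finset.sum_sub_distrib]
  refine (Finset.abs_sum_le_sum_abs _ _).trans ?_
  -- the exceptional sets
  set S1 : Set (Fin 5 × Fin 5 → ℤ) := {w ∈ VV | nz w ≤ C * T ∧ UU w ∧ ∃ x, Unimod x ∧ In w x ∧
    nz x ≤ ξ * √(C * T)} with hS1
  set S2 : Set (Fin 5 × Fin 5 → ℤ) := {w ∈ VV | nz w ≤ C * T ∧ ¬ UU w ∧ ∃ x, Unimod x ∧ In w x ∧
    mm x ≠ 0 ∧ nz x ^ 2 ≤ 9 * K ^ 2 * nz w} with hS2
  have hS1f : S1.Finite := (fin_W (C * T)).subset fun w hw => ⟨hw.1, hw.2.1⟩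
  have hS2f : S2.Finite := (fin_W (C * T)).subset fun w hw => ⟨hw.1, hw.2.1⟩
  have hS1c : (S1.ncard : ℝ) ≤ Cs * ξ ^ 2 * (C * T) ^ 2 := hsk (C * T) ξ (by linarith) hξ
  have hS2c : (S2.ncard : ℝ) ≤ ε / (3 * M2 * C ^ 2) * (C * T) ^ 2 := hT₀ (C * T) (by linarith)
  have hWc : (W.card : ℝ) ≤ Cu * (C * T) ^ 2 := by
    obtain ⟨f1, f2⟩ := hub (C * T) (by linarith)
    have : W.card = {w ∈ VV | nz w ≤ C * T}.ncard := by
      rw [Set.ncard_eq_toFinset_card _ f1]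
    rw [this]
    exact f2
  have hpt : ∀ w ∈ W, |(if UU w then φ (nz w ^ 2 * ψ (rv w) * Θ w / T ^ 2) else 0) -
      φ (nz w ^ 2 * ψ (rv w) * Θ w / T ^ 2) * (RK χ K w / (κ * AW χ w))| ≤
      ε' / (κ * c₀) + M2 * S1.indicator (fun _ => (1 : ℝ)) w +
        M2 * S2.indicator (fun _ => (1 : ℝ)) w := by
    intro w hwW
    obtain ⟨hwV, hwT⟩ := (hW w).1 hwW
    obtain ⟨y, z, hi, hwb, hAW⟩ := AW_spec χ hwV
    have hAWc : c₀ ≤ AW χ w := by
      rw [hAW]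
      exact area_ge h hwV hi hwb
    have hAW0 : 0 < AW χ w := by linarith
    have hn1 : 0 ≤ M2 * S1.indicator (fun _ => (1 : ℝ)) w := mul_nonneg hM20.le (ind_nonneg' _ _)
    have hn2 : 0 ≤ M2 * S2.indicator (fun _ => (1 : ℝ)) w := mul_nonneg hM20.le (ind_nonneg' _ _)
    have hφ0 := h.φ0 (nz w ^ 2 * ψ (rv w) * Θ w / T ^ 2)
    have hφ1' := hφ1 (nz w ^ 2 * ψ (rv w) * Θ w / T ^ 2)
    set t := φ (nz w ^ 2 * ψ (rv w) * Θ w / T ^ 2) with ht
    have hR0 := RK_nonneg h K w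
    have hR1 := RK_le h hM hχM hK hwV
    have hq0 : 0 ≤ RK χ K w / (κ * AW χ w) := by positivity
    have hq1 : RK χ K w / (κ * AW χ w) ≤ 80 * M / (κ * c₀) := by
      refine div_le_div₀ (by positivity) hR1 (by positivity) ?_
      exact mul_le_mul_of_nonneg_left hAWc hκ.le
    have hε'1 : 0 ≤ ε' / (κ * c₀) := by positivity
    by_cases hu : UU w
    · rw [if_pos hu]
      by_cases hsk : ∀ x, Unimod x → In w x → ξ * √(nz w) ≤ nz x
      · have h1 := hK2 w hwV hsk y z hi hwb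
        rw [← hAW] at h1
        have h2 : |RK χ K w - κ * AW χ w| ≤ ε' := h1
        have h3 : t - t * (RK χ K w / (κ * AW χ w)) =
            -(t * ((RK χ K w - κ * AW χ w) / (κ * AW χ w))) := by
          field_simp
          ring
        rw [h3, abs_neg, abs_mul, abs_of_nonneg hφ0, abs_div, abs_of_pos (by positivity : 0 < κ * AW χ w)]
        have h4 : |RK χ K w - κ * AW χ w| / (κ * AW χ w) ≤ ε' / (κ * c₀) :=
          div_le_div₀ hε'0.le h2 (by positivity) (mul_le_mul_of_nonneg_left hAWc hκ.le)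
        have h5 : t * (|RK χ K w - κ * AW χ w| / (κ * AW χ w)) ≤ 1 * (ε' / (κ * c₀)) :=
          mul_le_mul hφ1' h4 (by positivity) zero_le_one
        linarith
      · push Not at hsk
        obtain ⟨x, x1, x2, x3⟩ := hsk
        have hm : w ∈ S1 := ⟨hwV, hwT, hu, x, x1, x2, x3.le.trans
          (mul_le_mul_of_nonneg_left (Real.sqrt_le_sqrt hwT) hξ.le)⟩
        rw [Set.indicator_of_mem hm, mul_one]
        have h4 : |t - t * (RK χ K w / (κ * AW χ w))| ≤ M2 := by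
          refine (abs_sub _ _).trans ?_
          rw [abs_of_nonneg hφ0, abs_of_nonneg (mul_nonneg hφ0 hq0), hM2]
          have : t * (RK χ K w / (κ * AW χ w)) ≤ 1 * (80 * M / (κ * c₀)) :=
            mul_le_mul hφ1' hq1 hq0 zero_le_one
          linarith
        linarith
    · rw [if_neg hu, zero_sub, abs_neg, abs_of_nonneg (mul_nonneg hφ0 hq0)]
      by_cases hR : RK χ K w = 0
      · rw [hR, zero_div, mul_zero]
        linarith
      · have hex : ∃ x ∈ {x : Fin 5 → ℤ | Unimod x ∧ In w x}, χ ((K * √(nz w))⁻¹ • rv x) ≠ 0 := by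
          by_contra hc
          push Not at hc
          apply hR
          rw [RK, finsum_mem_of_eqOn_zero (fun x hx => hc x hx), zero_div]
        obtain ⟨x, ⟨x1, x2⟩, x3⟩ := hex
        obtain ⟨x4, x5⟩ := rK_supp h hK0 hwV x3
        have hn := VV_nz_pos hwV
        have hm : w ∈ S2 := ⟨hwV, hwT, hu, x, x1, x2, x4, by
          have := pow_le_pow_left₀ (nz_nonneg x) x5 2
          rw [mul_pow, mul_pow, Real.sq_sqrt hn.le] at this
          linarith⟩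
        rw [Set.indicator_of_mem hm, mul_one]
        have : t * (RK χ K w / (κ * AW χ w)) ≤ 1 * (80 * M / (κ * c₀)) :=
            mul_le_mul hφ1' hq1 hq0 zero_le_one
        rw [hM2]
        rw [hM2] at hn1
        linarith
  refine (Finset.sum_le_sum hpt).trans ?_
  rw [Finset.sum_add_distrib, Finset.sum_add_distrib, Finset.sum_const, nsmul_eq_mul,
    ← Finset.mul_sum, ← Finset.mul_sum]
  have s1 := mul_le_mul_of_nonneg_left ((sum_ind_le' hS1f W).trans hS1c) hM20.le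
  have s2 := mul_le_mul_of_nonneg_left ((sum_ind_le' hS2f W).trans hS2c) hM20.le
  have s3 : (W.card : ℝ) * (ε' / (κ * c₀)) ≤ ε / 3 * T ^ 2 := by
    calc (W.card : ℝ) * (ε' / (κ * c₀)) ≤ Cu * (C * T) ^ 2 * (ε' / (κ * c₀)) :=
          mul_le_mul_of_nonneg_right hWc (by positivity)
      _ = ε / 3 * T ^ 2 := by
        rw [hε']
        field_simp
  have s4 : M2 * (Cs * ξ ^ 2 * (C * T) ^ 2) ≤ ε / 3 * T ^ 2 := by
    calc M2 * (Cs * ξ ^ 2 * (C * T) ^ 2) = M2 * (Cs * ξ ^ 2 * C ^ 2) * T ^ 2 := by ring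
      _ ≤ _ := mul_le_mul_of_nonneg_right hξ2 (by positivity)
  have s5 : M2 * (ε / (3 * M2 * C ^ 2) * (C * T) ^ 2) = ε / 3 * T ^ 2 := by
    field_simp
  linarith

end

end Pool.Agent.KS6_53.V5
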