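import Pool.Agent.KS6_53.V5.Fa5

set_option autoImplicit false

namespace Pool.Agent.KS6_53.V5

open Finset Filter Topology MeasureTheory

section

variable {ψ : (Fin 5 × Fin 5 → ℝ) → ℝ} {φ : ℝ → ℝ} {χ : (Fin 5 → ℝ) → ℝ}
  {a b a' b' α β δ c₀ K : ℝ}

/-- lower bound of the smooth sum -/
theorem SS_lower (h : Rd ψ φ χ a b a' b' α β δ c₀) (hφ1 : ∀ t, φ t ≤ 1)
    {Θ : (Fin 5 × Fin 5 → ℤ) → ℝ}
    {θ : (Fin 5 → ℤ) → ℝ} (hΘ : ∀ w ∈ VV, Θ w ∈ Set.Icc a b)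
    (hθ : ∀ w ∈ VV, ∀ x, Unimod x → In w x → mm x ≠ 0 → θ x = Θ w) :
    ∃ c : ℝ, 0 < c ∧ ∀ ε : ℝ, 0 < ε → ∀ᶠ T in atTop,
      c * BS (GK ψ φ χ a b 1) θ T - ε * T ^ 2 ≤ SS ψ φ Θ T := by
  classical
  obtain ⟨M, hM, hχM⟩ := chi_bound h
  have ha := h.ha
  have ha' := h.ha'
  have hc₀ := h.hc₀
  refine ⟨c₀ / (40 * M), by positivity, fun ε hε => ?_⟩
  set C : ℝ := |β / (a' * a)| + 1 with hCdef
  have hC1 : 1 ≤ C := by
    rw [hCdef]
    have := abs_nonneg (β / (a' * a))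
    linarith
  have hC0 : 0 < C := by linarith
  have hC : β / (a' * a) ≤ C ^ 2 := by
    have h1 : β / (a' * a) ≤ C := by
      rw [hCdef]
      have := le_abs_self (β / (a' * a))
      linarith
    nlinarith
  obtain ⟨T₀, hT₀⟩ := ln (9 * 1 ^ 2) (ε / C ^ 2) (by positivity) (by positivity)
  filter_upwards [eventually_ge_atTop (max 1 T₀)] with T hT
  have hT1 : 1 ≤ T := (le_max_left _ _).trans hT
  have hTT : T₀ ≤ T := (le_max_right _ _).trans hT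
  have hT0 : 0 < T := by linarith
  have hCT : T ≤ C * T := by nlinarith
  set W : Finset (Fin 5 × Fin 5 → ℤ) := (fin_W (C * T)).toFinset with hWdef
  have hW : ∀ w, w ∈ W ↔ w ∈ VV ∧ nz w ≤ C * T := fun w => by
    rw [hWdef, Set.Finite.mem_toFinset, Set.mem_ofPred_eq]
  have hBB := BB_eq h one_pos hΘ hθ hT0 hC hC0 W hW
  have e2 : SS ψ φ Θ T = ∑ w ∈ W, if UU w then φ (nz w ^ 2 * ψ (rv w) * Θ w / T ^ 2) else 0 := by
    rw [SS, fs_eq _ _ W (fun w hw hne => (hW w).2 ⟨hw.1, phi_W h hΘ hT0 hC hC0 hw.1 hne⟩)]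
    refine Finset.sum_congr rfl fun w hwW => ?_
    have hwV := ((hW w).1 hwW).1
    by_cases hu : UU w
    · rw [if_pos hu, if_pos ⟨hwV, hu⟩]
    · rw [if_neg hu, if_neg (fun h' => hu h'.2)]
  set S2 : Set (Fin 5 × Fin 5 → ℤ) := {w ∈ VV | nz w ≤ C * T ∧ ¬ UU w ∧ ∃ x, Unimod x ∧ In w x ∧
    mm x ≠ 0 ∧ nz x ^ 2 ≤ 9 * 1 ^ 2 * nz w} with hS2
  have hS2f : S2.Finite := (fin_W (C * T)).subset fun w hw => ⟨hw.1, hw.2.1⟩
  have hS2c : (S2.ncard : ℝ) ≤ ε / C ^ 2 * (C * T) ^ 2 := hT₀ (C * T) (by linarith)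
  have hpt : ∀ w ∈ W, φ (nz w ^ 2 * ψ (rv w) * Θ w / T ^ 2) * (RK χ 1 w / AW χ w) ≤
      80 * M / c₀ * ((if UU w then φ (nz w ^ 2 * ψ (rv w) * Θ w / T ^ 2) else 0) +
        S2.indicator (fun _ => (1 : ℝ)) w) := by
    intro w hwW
    obtain ⟨hwV, hwT⟩ := (hW w).1 hwW
    obtain ⟨y, z, hi, hwb, hAW⟩ := AW_spec χ hwV
    have hAWc : c₀ ≤ AW χ w := by
      rw [hAW]
      exact area_ge h hwV hi hwb
    have hAW0 : 0 < AW χ w := by linarith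
    have hφ0 := h.φ0 (nz w ^ 2 * ψ (rv w) * Θ w / T ^ 2)
    have hφ1' := hφ1 (nz w ^ 2 * ψ (rv w) * Θ w / T ^ 2)
    set t := φ (nz w ^ 2 * ψ (rv w) * Θ w / T ^ 2) with ht
    have hR0 := RK_nonneg h 1 w
    have hR1 := RK_le h hM hχM le_rfl hwV
    have hq0 : 0 ≤ RK χ 1 w / AW χ w := by positivity
    have hq1 : RK χ 1 w / AW χ w ≤ 80 * M / c₀ := div_le_div₀ (by positivity) hR1 hc₀ hAWc
    have hin := ind_nonneg' S2 w
    by_cases hu : UU w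
    · rw [if_pos hu]
      calc t * (RK χ 1 w / AW χ w) ≤ t * (80 * M / c₀) := mul_le_mul_of_nonneg_left hq1 hφ0
        _ ≤ 80 * M / c₀ * (t + S2.indicator (fun _ => (1 : ℝ)) w) := by
          have : 0 ≤ 80 * M / c₀ * S2.indicator (fun _ => (1 : ℝ)) w := by positivity
          linarith
    · rw [if_neg hu, zero_add]
      by_cases hR : RK χ 1 w = 0
      · rw [hR, zero_div, mul_zero]
        positivity
      · have hex : ∃ x ∈ {x : Fin 5 → ℤ | Unimod x ∧ In w x}, χ ((1 * √(nz w))⁻¹ • rv x) ≠ 0 := by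
          by_contra hc
          push Not at hc
          apply hR
          rw [RK, finsum_mem_of_eqOn_zero (fun x hx => hc x hx), zero_div]
        obtain ⟨x, ⟨x1, x2⟩, x3⟩ := hex
        obtain ⟨x4, x5⟩ := rK_supp h one_pos hwV x3
        have hn := VV_nz_pos hwV
        have hm : w ∈ S2 := ⟨hwV, hwT, hu, x, x1, x2, x4, by
          have := pow_le_pow_left₀ (nz_nonneg x) x5 2
          rw [mul_pow, mul_pow, Real.sq_sqrt hn.le] at this
          linarith⟩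
        rw [Set.indicator_of_mem hm, mul_one]
        calc t * (RK χ 1 w / AW χ w) ≤ 1 * (80 * M / c₀) := mul_le_mul hφ1' hq1 hq0 zero_le_one
          _ = _ := one_mul _
  have h1 := Finset.sum_le_sum hpt
  rw [hBB, ← Finset.mul_sum, Finset.sum_add_distrib, ← e2] at h1
  have h2 : ∑ w ∈ W, S2.indicator (fun _ => (1 : ℝ)) w ≤ ε * T ^ 2 := by
    refine (sum_ind_le' hS2f W).trans (hS2c.trans (le_of_eq ?_))
    field_simp
  have h3 : 2 / 1 ^ 2 * BS (GK ψ φ χ a b 1) θ T ≤ 80 * M / c₀ * (SS ψ φ Θ T + ε * T ^ 2) := by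
    refine h1.trans (mul_le_mul_of_nonneg_left (by linarith) (by positivity))
  have h4 : c₀ / (40 * M) * BS (GK ψ φ χ a b 1) θ T =
      c₀ / (80 * M) * (2 / 1 ^ 2 * BS (GK ψ φ χ a b 1) θ T) := by
    field_simp
    ring
  have h5 := mul_le_mul_of_nonneg_left h3 (by positivity : 0 ≤ c₀ / (80 * M))
  have h6 : c₀ / (80 * M) * (80 * M / c₀ * (SS ψ φ Θ T + ε * T ^ 2)) = SS ψ φ Θ T + ε * T ^ 2 := by
    field_simp
  rw [h4]
  linarith

theorem smooth_lim (h : Rd ψ φ χ a b a' b' α β δ c₀) (hφ1 : ∀ t, φ t ≤ 1)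
    {Θ : (Fin 5 × Fin 5 → ℤ) → ℝ}
    {θ : (Fin 5 → ℤ) → ℝ} (hΘ : ∀ w ∈ VV, Θ w ∈ Set.Icc a b)
    (hθ : ∀ w ∈ VV, ∀ x, Unimod x → In w x → mm x ≠ 0 → θ x = Θ w) {P : Finset ℕ}
    (hP : ∀ p ∈ P, p.Prime) (hadm : Adm P θ) (hθI : ∀ x, θ x ∈ Set.Icc a b) :
    ∃ L : ℝ, Tendsto (fun T => SS ψ φ Θ T / T ^ 2) atTop (𝓝 L) ∧
      ((∃ t₀ : ℝ, 0 < t₀ ∧ ∀ t ∈ Set.Icc (t₀ * a) (t₀ * b), 0 < φ t) → 0 < L) := by
  have ha := h.ha
  have ha' := h.ha'
  obtain ⟨L, hL⟩ : ∃ L, Tendsto (fun T => SS ψ φ Θ T / T ^ 2) atTop (𝓝 L) := by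
    refine exists_limit fun ε hε => ?_
    obtain ⟨κ, hκ, hS⟩ := SS_approx h hφ1 hΘ hθ
    obtain ⟨K, hK, hev⟩ := hS (ε / 2) (by positivity)
    have hK0 : 0 < K := by linarith
    obtain ⟨LK, hLK, -⟩ := bl P hP θ hadm a b ha hθI (GK ψ φ χ a b K) (GK_tst h hK0)
    have h2 := hLK.const_mul (2 / (κ * K ^ 2))
    have h3 := h2.eventually (Metric.closedBall_mem_nhds _ (by positivity : 0 < ε / 2))
    refine ⟨2 / (κ * K ^ 2) * LK, ?_⟩
    filter_upwards [hev, h3, eventually_gt_atTop 0] with T h4 h5 hT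
    rw [Real.dist_eq] at h5
    have hTT : 0 < T ^ 2 := by positivity
    have h6 : |SS ψ φ Θ T / T ^ 2 - 2 / (κ * K ^ 2) * (BS (GK ψ φ χ a b K) θ T / T ^ 2)| ≤ ε / 2 := by
      rw [← mul_div_assoc, ← sub_div, abs_div, abs_of_pos hTT, div_le_iff₀ hTT]
      exact h4
    rw [abs_le] at h5 h6 ⊢
    constructor
    · linarith [h5.1, h6.1]
    · linarith [h5.2, h6.2]
  refine ⟨L, hL, fun ⟨t₀, ht₀, hφp⟩ => ?_⟩
  obtain ⟨L1, hL1, hpos⟩ := bl P hP θ hadm a b ha hθI (GK ψ φ χ a b 1) (GK_tst h one_pos)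
  have hL1p : 0 < L1 := by
    refine hpos (fun z => GK_nonneg h z) ?_
    -- a vector with `χ v ≠ 0`
    obtain ⟨v, hv⟩ : ∃ v, χ v ≠ 0 := by
      by_contra hc
      push Not at hc
      set u0 : Fin 5 → ℝ := Pi.single 1 1 with hu0
      have hmm : mm u0 ≠ 0 := by
        intro h0
        have := congrFun h0 (1, 0)
        simp [mm, wedge, hes, hu0] at this
      have h1 := h.ar _ _ (iso_norm_one u0) (wedge_norm_one hmm).2
      have h2 : area χ ((√‖mm u0‖)⁻¹ • u0) ((√‖mm u0‖)⁻¹ • hes u0) = 0 := by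
        rw [area]
        simp [hc]
      have := h.hc₀
      linarith
    have hχv : 0 < χ v := lt_of_le_of_ne (h.χ0 v) (Ne.symm hv)
    have hmv := (h.χs v hv).2
    have hδ := h.hδ
    have hn : 0 < ‖mm v‖ := by linarith
    set u : Fin 5 → ℝ := (‖mm v‖)⁻¹ • v with hu
    have hmu : mm u = ((‖mm v‖)⁻¹) ^ 3 • mm v := by rw [hu, mm_smul]
    have hnu : ‖mm u‖ = ((‖mm v‖)⁻¹) ^ 2 := by
      rw [hmu, norm_smul, norm_pow, norm_inv, norm_norm]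
      field_simp
    have hsu : √‖mm u‖ = (‖mm v‖)⁻¹ := by
      rw [hnu, Real.sqrt_sq (by positivity)]
    have hmu0 : mm u ≠ 0 := by
      rw [← norm_ne_zero_iff, hnu]
      positivity
    have hψ0 : 0 < ψ (mm u) := h.fac.pos _ (mm_cone hmu0)
    set s : ℝ := (t₀ / (‖mm u‖ ^ 2 * ψ (mm u))) ^ (1 / 4 : ℝ) with hs
    have hbase : 0 < t₀ / (‖mm u‖ ^ 2 * ψ (mm u)) := by
      have : 0 < ‖mm u‖ := norm_pos_iff.2 hmu0
      positivity
    have hs0 : 0 < s := Real.rpow_pos_of_pos hbase _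
    have hs4 : s ^ 4 = t₀ / (‖mm u‖ ^ 2 * ψ (mm u)) := by
      rw [hs, ← Real.rpow_natCast, ← Real.rpow_mul hbase.le]
      norm_num
    refine ⟨u, s, fun τ hτ => ?_⟩
    rw [GK, if_neg hmu0]
    simp only
    have e1 : max s 0 = s := max_eq_left hs0.le
    have e2 : max a (min b τ) = τ := by rw [min_eq_right hτ.2, max_eq_right hτ.1]
    have e3 : s ^ 4 * ‖mm u‖ ^ 2 * ψ (mm u) * τ = t₀ * τ := by
      rw [hs4]
      have : 0 < ‖mm u‖ := norm_pos_iff.2 hmu0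
      field_simp
    have e4 : (1 * √‖mm u‖)⁻¹ • u = v := by
      rw [one_mul, hsu, inv_inv, hu, smul_smul, mul_inv_cancel₀ hn.ne', one_smul]
    rw [e1, e2, e3, e4]
    have e5 := h.ar _ _ (iso_norm_one u) (wedge_norm_one hmu0).2
    have e6 := h.hc₀
    refine div_pos (mul_pos (hφp _ ⟨?_, ?_⟩) hχv) (by linarith)
    · exact mul_le_mul_of_nonneg_left hτ.1 ht₀.le
    · exact mul_le_mul_of_nonneg_left hτ.2 ht₀.le
  obtain ⟨c, hc, hlow⟩ := SS_lower h hφ1 hΘ hθ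
  have hcL : 0 < c * L1 := by positivity
  have h1 := hlow (c * L1 / 2) (by positivity)
  have h2 : Tendsto (fun T => c * (BS (GK ψ φ χ a b 1) θ T / T ^ 2) - c * L1 / 2) atTop
      (𝓝 (c * L1 - c * L1 / 2)) := (hL1.const_mul c).sub_const _
  have h3 : c * L1 - c * L1 / 2 ≤ L := by
    refine le_of_tendsto_of_tendsto h2 hL ?_
    filter_upwards [h1, eventually_gt_atTop 0] with T h4 hT
    have hTT : 0 < T ^ 2 := by positivity
    rw [le_div_iff₀ hTT]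
    have : (c * (BS (GK ψ φ χ a b 1) θ T / T ^ 2) - c * L1 / 2) * T ^ 2 =
        c * BS (GK ψ φ χ a b 1) θ T - c * L1 / 2 * T ^ 2 := by
      field_simp
    rw [this]
    exact h4
  linarith

end

end Pool.Agent.KS6_53.V5
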