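import Pool.Agent.KS6_53.V5.Fa6

set_option autoImplicit false

namespace Pool.Agent.KS6_53.V5

open Finset Filter Topology MeasureTheory

/-- the height of a primitive vector, up to the normalization -/
noncomputable def hgt (ψ : (Fin 5 × Fin 5 → ℝ) → ℝ) (Θ : (Fin 5 × Fin 5 → ℤ) → ℝ)
    (w : Fin 5 × Fin 5 → ℤ) : ℝ := nz w ^ 2 * ψ (rv w) * Θ w

/-- the counted vectors -/
def NN (ψ : (Fin 5 × Fin 5 → ℝ) → ℝ) (Θ : (Fin 5 × Fin 5 → ℤ) → ℝ) (B : ℝ) :
    Set (Fin 5 × Fin 5 → ℤ) := {w | w ∈ VV ∧ UU w ∧ hgt ψ Θ w ≤ B}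

/-- the trapezoid -/
noncomputable def tz (η t : ℝ) : ℝ := max 0 (min 1 (min ((2 * t - η) / η) ((1 + η - t) / η)))

theorem tz_cts (η : ℝ) : Continuous (tz η) := by
  unfold tz
  fun_prop

theorem tz_nonneg (η t : ℝ) : 0 ≤ tz η t := le_max_left _ _

theorem tz_le (η t : ℝ) : tz η t ≤ 1 := max_le zero_le_one (min_le_left _ _)

theorem tz_supp {η t : ℝ} (hη : 0 < η) (h : tz η t ≠ 0) : η / 2 ≤ t ∧ t ≤ 1 + η := by
  constructor
  · by_contra hc
    apply h
    rw [tz, max_eq_left]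
    refine (min_le_right _ _).trans ((min_le_left _ _).trans ?_)
    exact div_nonpos_of_nonpos_of_nonneg (by linarith) hη.le
  · by_contra hc
    apply h
    rw [tz, max_eq_left]
    refine (min_le_right _ _).trans ((min_le_right _ _).trans ?_)
    exact div_nonpos_of_nonpos_of_nonneg (by linarith) hη.le

theorem tz_one {η t : ℝ} (hη : 0 < η) (h1 : η ≤ t) (h2 : t ≤ 1) : tz η t = 1 := by
  have e1 : 1 ≤ (2 * t - η) / η := by
    rw [le_div_iff₀ hη]
    linarith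
  have e2 : 1 ≤ (1 + η - t) / η := by
    rw [le_div_iff₀ hη]
    linarith
  rw [tz, min_eq_left (le_min e1 e2), max_eq_right zero_le_one]

theorem tz_pos {η t : ℝ} (hη : 0 < η) (h1 : η / 2 < t) (h2 : t < 1 + η) : 0 < tz η t := by
  have e1 : 0 < (2 * t - η) / η := div_pos (by linarith) hη
  have e2 : 0 < (1 + η - t) / η := div_pos (by linarith) hη
  exact lt_max_of_lt_right (lt_min one_pos (lt_min e1 e2))

section

variable {ψ : (Fin 5 × Fin 5 → ℝ) → ℝ} {a b a' b' : ℝ} {Θ : (Fin 5 × Fin 5 → ℤ) → ℝ}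

theorem NN_sub (ha : 0 < a) (ha' : 0 < a') (hψ : ∀ q ∈ Cone ℝ, a' ≤ ψ q ∧ ψ q ≤ b')
    (hΘ : ∀ w ∈ VV, Θ w ∈ Set.Icc a b) {T : ℝ} (hT : 0 ≤ T) {w : Fin 5 × Fin 5 → ℤ}
    (hw : w ∈ NN ψ Θ (T ^ 2)) : nz w ≤ (1 / (a' * a) + 1) * T := by
  obtain ⟨h1, -, h3⟩ := hw
  have h2 := (hψ _ (rv_cone h1)).1
  have h4 := (hΘ w h1).1
  rw [hgt] at h3
  have h5 : nz w ^ 2 * (a' * a) ≤ T ^ 2 := by
    refine le_trans ?_ h3
    rw [mul_assoc (nz w ^ 2)]
    exact mul_le_mul_of_nonneg_left (mul_le_mul h2 h4 ha.le (by linarith)) (by positivity)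
  have h6 : nz w ^ 2 ≤ ((1 / (a' * a) + 1) * T) ^ 2 := by
    have h7 : nz w ^ 2 ≤ 1 / (a' * a) * T ^ 2 := by
      rw [div_mul_eq_mul_div, one_mul, le_div_iff₀ (by positivity)]
      exact h5
    have h8 : 1 / (a' * a) ≤ (1 / (a' * a) + 1) ^ 2 := by
      have : 0 < 1 / (a' * a) := by positivity
      nlinarith
    refine h7.trans ?_
    rw [mul_pow]
    exact mul_le_mul_of_nonneg_right h8 (by positivity)
  exact (pow_le_pow_iff_left₀ (nz_nonneg w) (by positivity) two_ne_zero).1 h6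

theorem NN_fin (ha : 0 < a) (ha' : 0 < a') (hψ : ∀ q ∈ Cone ℝ, a' ≤ ψ q ∧ ψ q ≤ b')
    (hΘ : ∀ w ∈ VV, Θ w ∈ Set.Icc a b) {T : ℝ} (hT : 0 ≤ T) : (NN ψ Θ (T ^ 2)).Finite :=
  (fin_W ((1 / (a' * a) + 1) * T)).subset fun w hw => ⟨hw.1, NN_sub ha ha' hψ hΘ hT hw⟩

theorem NN_card (ha : 0 < a) (ha' : 0 < a') (hψ : ∀ q ∈ Cone ℝ, a' ≤ ψ q ∧ ψ q ≤ b')
    (hΘ : ∀ w ∈ VV, Θ w ∈ Set.Icc a b) : ∃ C : ℝ, 0 < C ∧ ∀ T : ℝ, 1 ≤ T →
      ((NN ψ Θ (T ^ 2)).ncard : ℝ) ≤ C * T ^ 2 := by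
  obtain ⟨Cu, hCu, hub⟩ := ub
  refine ⟨Cu * (1 / (a' * a) + 1) ^ 2, by positivity, fun T hT => ?_⟩
  have h0 : 0 < 1 / (a' * a) := by positivity
  obtain ⟨f1, f2⟩ := hub ((1 / (a' * a) + 1) * T) (by nlinarith)
  have h1 : (NN ψ Θ (T ^ 2)).ncard ≤ {w ∈ VV | nz w ≤ (1 / (a' * a) + 1) * T}.ncard :=
    Set.ncard_le_ncard (fun w hw => ⟨hw.1, NN_sub ha ha' hψ hΘ (by linarith) hw⟩) f1
  calc ((NN ψ Θ (T ^ 2)).ncard : ℝ) ≤ _ := by exact_mod_cast h1
    _ ≤ _ := f2
    _ = _ := by ring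

/-- **the asymptotic number of primitive vectors** -/
theorem sharp (hfac : Fac ℝ ψ) (ha : 0 < a) (ha' : 0 < a')
    (hψ : ∀ q ∈ Cone ℝ, a' ≤ ψ q ∧ ψ q ≤ b')
    {θ : (Fin 5 → ℤ) → ℝ} (hΘ : ∀ w ∈ VV, Θ w ∈ Set.Icc a b)
    (hθ : ∀ w ∈ VV, ∀ x, Unimod x → In w x → mm x ≠ 0 → θ x = Θ w) {P : Finset ℕ}
    (hP : ∀ p ∈ P, p.Prime) (hadm : Adm P θ) (hθI : ∀ x, θ x ∈ Set.Icc a b) :
    ∃ L : ℝ, 0 < L ∧ Tendsto (fun T : ℝ => ((NN ψ Θ (T ^ 2)).ncard : ℝ) / T ^ 2) atTop (𝓝 L) := by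
  classical
  obtain ⟨χ, hχc, hχ0, ⟨δ, hδ, hχs⟩, c₀, hc₀, har⟩ := exists_chi
  obtain ⟨CN, hCN, hNc⟩ := NN_card ha ha' hψ hΘ
  have hab : a ≤ b := (hθI 0).1.trans (hθI 0).2
  have hRd : ∀ η : ℝ, 0 < η → Rd ψ (tz η) χ a b a' b' (η / 2) (1 + η) δ c₀ := fun η hη =>
    ⟨hfac, ha, hab, ha', hψ, by positivity, tz_cts η, tz_nonneg η, fun t ht => tz_supp hη ht, hχc,
      hχ0, hδ, hχs, hc₀, har⟩
  -- the two comparisons
  have hlow : ∀ η : ℝ, 0 < η → ∀ T : ℝ, 0 < T →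
      SS ψ (tz η) Θ (T / √(1 + η)) ≤ (NN ψ Θ (T ^ 2)).ncard := by
    intro η hη T hT
    have hs : 0 < √(1 + η) := Real.sqrt_pos.2 (by linarith)
    have h1 := fs_norm_le (s := {w : Fin 5 × Fin 5 → ℤ | w ∈ VV ∧ UU w})
      (f := fun w : Fin 5 × Fin 5 → ℤ => tz η (nz w ^ 2 * ψ (rv w) * Θ w / (T / √(1 + η)) ^ 2))
      (M := 1) (fun w _ => by rw [abs_of_nonneg (tz_nonneg _ _)]; exact tz_le _ _)
      (NN_fin ha ha' hψ hΘ hT.le) (fun w hw hne => by
        refine ⟨hw.1, hw.2, ?_⟩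
        have h2 := (tz_supp hη hne).2
        rw [div_pow, Real.sq_sqrt (by linarith), div_le_iff₀ (by positivity)] at h2
        have h3 : (1 + η) * (T ^ 2 / (1 + η)) = T ^ 2 := by
          field_simp
        rw [h3] at h2
        exact h2) zero_le_one
    rw [one_mul] at h1
    exact (le_abs_self _).trans h1
  have hup : ∀ η : ℝ, 0 < η → ∀ T : ℝ, 0 < T →
      ((NN ψ Θ (T ^ 2)).ncard : ℝ) ≤ SS ψ (tz η) Θ T + (NN ψ Θ ((√η * T) ^ 2)).ncard := by
    intro η hη T hT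
    have hf := NN_fin ha ha' hψ hΘ hT.le
    have hf2 : (NN ψ Θ ((√η * T) ^ 2)).Finite := NN_fin ha ha' hψ hΘ (by positivity)
    have hsub : NN ψ Θ (T ^ 2) ⊆ (NN ψ Θ (T ^ 2) \ NN ψ Θ ((√η * T) ^ 2)) ∪ NN ψ Θ ((√η * T) ^ 2) := by
      rw [Set.sdiff_union_self]
      exact Set.subset_union_left
    have h1 := (Set.ncard_le_ncard hsub ((hf.subset Set.sdiff_subset).union hf2)).trans
      (Set.ncard_union_le _ _)
    have h2 : (((NN ψ Θ (T ^ 2) \ NN ψ Θ ((√η * T) ^ 2)).ncard : ℕ) : ℝ) ≤ SS ψ (tz η) Θ T := by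
      have hfd : (NN ψ Θ (T ^ 2) \ NN ψ Θ ((√η * T) ^ 2)).Finite := hf.subset Set.sdiff_subset
      have h := hRd η hη
      set C : ℝ := |(1 + η) / (a' * a)| + 1 with hCdef
      have hC1 : 1 ≤ C := by
        rw [hCdef]
        have := abs_nonneg ((1 + η) / (a' * a))
        linarith
      have hC : (1 + η) / (a' * a) ≤ C ^ 2 := by
        have h1 : (1 + η) / (a' * a) ≤ C := by
          rw [hCdef]
          have := le_abs_self ((1 + η) / (a' * a))
          linarith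
        nlinarith
      rw [SS, fs_eq _ _ (hfd.toFinset ∪ (fin_W (C * T)).toFinset) (fun w hw hne => by
        refine Finset.mem_union_right _ ?_
        rw [Set.Finite.mem_toFinset]
        exact ⟨hw.1, phi_W h hΘ hT hC (by linarith) hw.1 hne⟩)]
      rw [Set.ncard_eq_toFinset_card _ hfd]
      have h3 : ((hfd.toFinset.card : ℕ) : ℝ) = ∑ w ∈ hfd.toFinset,
          if w ∈ {w : Fin 5 × Fin 5 → ℤ | w ∈ VV ∧ UU w} then
            tz η (nz w ^ 2 * ψ (rv w) * Θ w / T ^ 2) else 0 := by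
        rw [Finset.card_eq_sum_ones, Nat.cast_sum]
        refine Finset.sum_congr rfl fun w hw => ?_
        rw [Set.Finite.mem_toFinset] at hw
        obtain ⟨⟨w1, w2, w3⟩, w4⟩ := hw
        rw [if_pos ⟨w1, w2⟩, tz_one hη, Nat.cast_one]
        · rw [le_div_iff₀ (by positivity)]
          by_contra hc
          apply w4
          refine ⟨w1, w2, ?_⟩
          rw [mul_pow, Real.sq_sqrt hη.le, hgt]
          linarith
        · rw [div_le_one (by positivity)]
          exact w3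
      rw [h3]
      have h4 := Finset.sum_le_sum_of_subset_of_nonneg
        (f := fun w : Fin 5 × Fin 5 → ℤ => if w ∈ {w : Fin 5 × Fin 5 → ℤ | w ∈ VV ∧ UU w} then
            tz η (nz w ^ 2 * ψ (rv w) * Θ w / T ^ 2) else 0)
        (Finset.subset_union_left : hfd.toFinset ⊆ hfd.toFinset ∪ (fin_W (C * T)).toFinset)
        (fun w _ _ => by
          by_cases h5 : w ∈ {w : Fin 5 × Fin 5 → ℤ | w ∈ VV ∧ UU w}
          · rw [if_pos h5]
            exact tz_nonneg _ _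
          · rw [if_neg h5])
      refine h4.trans (le_of_eq ?_)
      congr!
    have h4 : ((NN ψ Θ (T ^ 2)).ncard : ℝ) ≤
        ((NN ψ Θ (T ^ 2) \ NN ψ Θ ((√η * T) ^ 2)).ncard : ℝ) + (NN ψ Θ ((√η * T) ^ 2)).ncard := by
      exact_mod_cast h1
    linarith
  -- the limits
  have hmain : ∀ η : ℝ, 0 < η → η ≤ 1 → ∃ L : ℝ, 0 ≤ L ∧ L ≤ 2 * CN ∧ (η < 2 * a / b → 0 < L) ∧
      ∀ ε : ℝ, 0 < ε → ∀ᶠ T : ℝ in atTop, L / (1 + η) - ε ≤ ((NN ψ Θ (T ^ 2)).ncard : ℝ) / T ^ 2 ∧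
        ((NN ψ Θ (T ^ 2)).ncard : ℝ) / T ^ 2 ≤ L + CN * η + ε := by
    intro η hη hη1
    obtain ⟨L, hL, hpos⟩ := smooth_lim (hRd η hη) (tz_le η) hΘ hθ hP hadm hθI
    have hs : 0 < √(1 + η) := Real.sqrt_pos.2 (by linarith)
    have hs2 : √(1 + η) ^ 2 = 1 + η := Real.sq_sqrt (by linarith)
    have hsc : Tendsto (fun T : ℝ => T / √(1 + η)) atTop atTop := tendsto_id.atTop_div_const hs
    have hL2 := hL.comp hsc
    have hL0 : 0 ≤ L := by
      refine ge_of_tendsto' hL fun T => div_nonneg (fs_nonneg fun w _ => tz_nonneg _ _) (by positivity)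
    have hb : 0 < b := by linarith
    refine ⟨L, hL0, ?_, ?_, ?_⟩
    · -- upper bound of the limit
      refine le_of_tendsto hL ?_
      filter_upwards [eventually_ge_atTop 1] with T hT
      have hT0 : 0 < T := by linarith
      have h1 := hlow η hη (T * √(1 + η)) (by positivity)
      rw [mul_div_assoc, div_self hs.ne', mul_one] at h1
      have h2 := hNc (T * √(1 + η)) (by
        have : 1 ≤ √(1 + η) := Real.one_le_sqrt.2 (by linarith)
        nlinarith)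
      rw [div_le_iff₀ (by positivity)]
      refine h1.trans (h2.trans ?_)
      rw [mul_pow, hs2]
      have : CN * (T ^ 2 * (1 + η)) = CN * T ^ 2 * (1 + η) := by ring
      rw [this]
      have h3 : CN * T ^ 2 * (1 + η) ≤ CN * T ^ 2 * 2 :=
        mul_le_mul_of_nonneg_left (by linarith) (by positivity)
      linarith
    · intro hηab
      refine hpos ⟨1 / b, by positivity, fun t ht => tz_pos hη ?_ ?_⟩
      · have h1 : 1 / b * a ≤ t := ht.1
        have h2 : η / 2 < 1 / b * a := by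
          have : 2 * a / b = 2 * (1 / b * a) := by ring
          linarith
        linarith
      · have h1 : t ≤ 1 / b * b := ht.2
        rw [one_div, inv_mul_cancel₀ hb.ne'] at h1
        linarith
    · intro ε hε
      have e1 := hL2.eventually (Metric.closedBall_mem_nhds _ hε)
      have e2 := hL.eventually (Metric.closedBall_mem_nhds _ hε)
      have hsη : 0 < √η := Real.sqrt_pos.2 hη
      filter_upwards [e1, e2, eventually_ge_atTop (max 1 (1 / √η))] with T e1 e2 hT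
      have hT1 : 1 ≤ T := (le_max_left _ _).trans hT
      have hT2 : 1 / √η ≤ T := (le_max_right _ _).trans hT
      have hT0 : 0 < T := by linarith
      have hTT : 0 < T ^ 2 := by positivity
      simp only [Function.comp] at e1
      rw [Real.dist_eq, abs_le] at e1 e2
      constructor
      · rw [le_div_iff₀ hTT]
        refine le_trans ?_ (hlow η hη T hT0)
        have h1 : L - ε ≤ SS ψ (tz η) Θ (T / √(1 + η)) / (T / √(1 + η)) ^ 2 := by linarith [e1.1]
        rw [le_div_iff₀ (by positivity), div_pow, hs2] at h1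
        refine le_trans ?_ h1
        have h2 : (L / (1 + η) - ε) * T ^ 2 = (L - ε * (1 + η)) * (T ^ 2 / (1 + η)) := by
          field_simp
        rw [h2]
        refine mul_le_mul_of_nonneg_right ?_ (by positivity)
        nlinarith
      · rw [div_le_iff₀ hTT]
        refine (hup η hη T hT0).trans ?_
        have h1 : SS ψ (tz η) Θ T / T ^ 2 ≤ L + ε := by linarith [e2.2]
        rw [div_le_iff₀ hTT] at h1
        have h2 := hNc (√η * T) (by
          rw [div_le_iff₀ hsη] at hT2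
          linarith)
        have h3 : CN * (√η * T) ^ 2 = CN * η * T ^ 2 := by
          rw [mul_pow, Real.sq_sqrt hη.le]
          ring
        rw [h3] at h2
        linarith
  -- the limit
  obtain ⟨L, hL⟩ : ∃ L, Tendsto (fun T : ℝ => ((NN ψ Θ (T ^ 2)).ncard : ℝ) / T ^ 2) atTop (𝓝 L) := by
    refine exists_limit fun ε hε => ?_
    set η : ℝ := min 1 (ε / (4 * CN)) with hη
    have hη0 : 0 < η := by positivity
    have hηε : η * (4 * CN) ≤ ε := by
      have : η ≤ ε / (4 * CN) := min_le_right _ _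
      rwa [le_div_iff₀ (by positivity)] at this
    obtain ⟨L, hL0, hL1, -, hL2⟩ := hmain η hη0 (min_le_left _ _)
    refine ⟨L, ?_⟩
    filter_upwards [hL2 (ε / 2) (by positivity)] with T hT
    have h1 : L - L / (1 + η) ≤ ε / 2 := by
      have : L - L / (1 + η) = L * (η / (1 + η)) := by
        field_simp
        ring
      rw [this]
      have h2 : η / (1 + η) ≤ η := div_le_self hη0.le (by linarith)
      have h3 : 0 ≤ η / (1 + η) := by positivity
      nlinarith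
    rw [abs_le]
    constructor
    · linarith [hT.1]
    · linarith [hT.2]
  refine ⟨L, ?_, hL⟩
  have hb : 0 < b := by linarith
  set η : ℝ := min 1 (a / b) with hη
  have hη0 : 0 < η := by positivity
  obtain ⟨L', -, -, hpos, hL2⟩ := hmain η hη0 (min_le_left _ _)
  have hL'0 : 0 < L' := hpos (by
    have h1 : η ≤ a / b := min_le_right _ _
    have h2 : 0 < a / b := by positivity
    have h3 : 2 * a / b = a / b + a / b := by ring
    linarith)
  have h1 : L' / (1 + η) - L' / (2 * (1 + η)) ≤ L := by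
    refine ge_of_tendsto hL ?_
    filter_upwards [hL2 (L' / (2 * (1 + η))) (by positivity)] with T hT
    exact hT.1
  have h2 : L' / (1 + η) - L' / (2 * (1 + η)) = L' / (2 * (1 + η)) := by
    field_simp
    ring
  rw [h2] at h1
  exact lt_of_lt_of_le (by positivity) h1

end

end Pool.Agent.KS6_53.V5
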