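import Pool.Agent.KS6_53.V5.Fa4
import Pool.Agent.KS6_53.V5.Bl1

set_option autoImplicit false

namespace Pool.Agent.KS6_53.V5

open Finset Filter Topology

local instance instFactPrimes (p : Nat.Primes) : Fact (p : ℕ).Prime := ⟨p.2⟩

/-- the `p`-adic vector -/
noncomputable def pv (p : Nat.Primes) {ι : Type*} (w : ι → ℤ) : ι → ℚ_[p] := fun q => ((w q : ℤ) : ℚ_[p])

theorem pv_wedge (p : Nat.Primes) (x y : Fin 5 → ℤ) : pv p (wedge x y) = wedge (pv p x) (pv p y) := by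
  funext q
  simp [pv, wedge]

theorem pv_hes (p : Nat.Primes) (x : Fin 5 → ℤ) : pv p (hes x) = hes (pv p x) := by
  funext i
  fin_cases i <;> simp [pv, hes]

theorem pv_mm (p : Nat.Primes) (x : Fin 5 → ℤ) : pv p (mm x) = mm (pv p x) := by
  rw [mm, pv_wedge, pv_hes, mm]

theorem pv_ne {p : Nat.Primes} {ι : Type*} {w : ι → ℤ} (h : w ≠ 0) : pv p w ≠ 0 := by
  intro h0
  apply h
  funext q
  have := congrFun h0 q
  simp only [pv, Pi.zero_apply] at this ⊢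
  exact_mod_cast this

theorem pv_smul (p : Nat.Primes) {ι : Type*} (c : ℤ) (w : ι → ℤ) :
    pv p (c • w) = (c : ℚ_[p]) • pv p w := by
  funext q
  simp [pv]

theorem iso_pv (p : Nat.Primes) {x y : Fin 5 → ℤ} (h : Iso x y) : Iso (pv p x) (pv p y) := by
  obtain ⟨h0, h1, h2⟩ := h
  simp only [b0, b1, b2] at h0 h1 h2
  refine ⟨?_, ?_, ?_⟩ <;> simp only [b0, b1, b2, pv]
  · exact_mod_cast congrArg (fun z : ℤ => (z : ℚ_[p])) h0
  · exact_mod_cast congrArg (fun z : ℤ => (z : ℚ_[p])) h1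
  · exact_mod_cast congrArg (fun z : ℤ => (z : ℚ_[p])) h2

theorem VV_ne {w : Fin 5 × Fin 5 → ℤ} (hw : w ∈ VV) : w ≠ 0 := by
  rintro rfl
  obtain ⟨⟨a, ha⟩, -⟩ := hw
  simp at ha

theorem pv_cone (p : Nat.Primes) {w : Fin 5 × Fin 5 → ℤ} (hw : w ∈ VV) : pv p w ∈ Cone ℚ_[p] := by
  refine ⟨pv_ne (VV_ne hw), ?_⟩
  obtain ⟨-, x, y, hi, rfl⟩ := hw
  exact ⟨pv p x, pv p y, iso_pv p hi, pv_wedge p x y⟩

theorem pv_norm_le (p : Nat.Primes) {ι : Type*} [Fintype ι] (w : ι → ℤ) : ‖pv p w‖ ≤ 1 := by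
  rw [pi_norm_le_iff_of_nonneg zero_le_one]
  intro i
  exact Padic.norm_int_le_one _

/-- the local factor of a vector -/
noncomputable def fx (p : Nat.Primes) (φ : (Fin 5 × Fin 5 → ℚ_[p]) → ℝ) (x : Fin 5 → ℤ) : ℝ := by
  classical
  exact if mm x = 0 then 1 else φ (pv p (mm x))

theorem fx_adm {p : Nat.Primes} {φ : (Fin 5 × Fin 5 → ℚ_[p]) → ℝ} (h : Fac ℚ_[p] φ) (k : ℕ) {ε : ℝ}
    (hε : 0 < ε) : ∃ Q : ℕ, 0 < Q ∧ ∀ x x' : Fin 5 → ℤ, (∀ i, (Q : ℤ) ∣ x i - x' i) →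
      ¬ (p : ℕ) ^ k ∣ gg x → |fx p φ x - fx p φ x'| ≤ ε := by
  have hp0 : (0 : ℝ) < (p : ℕ) := by exact_mod_cast p.2.pos
  have hp1 : (1 : ℝ) < (p : ℕ) := by exact_mod_cast p.2.one_lt
  have hck : (0 : ℝ) < ((p : ℕ) : ℝ) ^ (-(k : ℤ)) := zpow_pos hp0 _
  obtain ⟨δ, hδ, hu⟩ := h.unif hck hε
  obtain ⟨m, hm⟩ : ∃ m : ℕ, ((p : ℕ) : ℝ) ^ (-(m : ℤ)) < δ := by
    obtain ⟨m, hm⟩ := exists_pow_lt_of_lt_one hδ (inv_lt_one_of_one_lt₀ hp1)
    exact ⟨m, by rwa [zpow_neg, zpow_natCast, ← inv_pow]⟩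
  refine ⟨(p : ℕ) ^ (m + k), pow_pos p.2.pos _, fun x x' hd hk => ?_⟩
  have key : ∀ y : Fin 5 → ℤ, ¬ (p : ℕ) ^ k ∣ gg y → mm y ≠ 0 ∧
      ((p : ℕ) : ℝ) ^ (-(k : ℤ)) ≤ ‖mm (pv p y)‖ := by
    intro y hy
    have hex : ∃ q, ¬ (((p : ℕ) ^ k : ℕ) : ℤ) ∣ mm y q := by
      by_contra hc
      push Not at hc
      exact hy (dvd_gg hc)
    obtain ⟨q, hq⟩ := hex
    constructor
    · intro h0
      apply hq
      rw [h0]
      exact dvd_zero _
    · rw [← pv_mm]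
      refine le_trans ?_ (norm_le_pi_norm _ q)
      by_contra hc
      apply hq
      have := (Padic.norm_int_le_pow_iff_dvd (p := (p : ℕ)) (mm y q) k).1 (not_le.1 hc).le
      exact_mod_cast this
  have hk' : ¬ (p : ℕ) ^ k ∣ gg x' := by
    intro hc
    apply hk
    refine dvd_gg fun q => ?_
    have h1 : (((p : ℕ) ^ k : ℕ) : ℤ) ∣ mm x' q := (Int.natCast_dvd_natCast.2 hc).trans (gg_dvd x' q)
    have h2 : (((p : ℕ) ^ k : ℕ) : ℤ) ∣ mm x q - mm x' q :=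
      (Int.natCast_dvd_natCast.2 (pow_dvd_pow _ (Nat.le_add_left k m))).trans (mm_congr hd q)
    have := dvd_add h1 h2
    simpa using this
  obtain ⟨n1, c1⟩ := key x hk
  obtain ⟨n2, c2⟩ := key x' hk'
  rw [fx, fx, if_neg n1, if_neg n2, pv_mm, pv_mm]
  refine hu _ _ (pv_norm_le p x) (pv_norm_le p x') c1 c2 ?_
  refine lt_of_le_of_lt ?_ hm
  rw [pi_norm_le_iff_of_nonneg (zpow_pos hp0 _).le]
  intro i
  have h1 : (pv p x - pv p x') i = (((x i - x' i : ℤ)) : ℚ_[p]) := by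
    simp [pv]
  rw [h1, Padic.norm_int_le_pow_iff_dvd]
  have h2 : (((p : ℕ) ^ m : ℕ) : ℤ) ∣ x i - x' i :=
    (Int.natCast_dvd_natCast.2 (pow_dvd_pow _ (Nat.le_add_right m k))).trans (hd i)
  exact_mod_cast h2

theorem fx_bounds {p : Nat.Primes} {φ : (Fin 5 × Fin 5 → ℚ_[p]) → ℝ} (h : Fac ℚ_[p] φ) :
    ∃ a b : ℝ, 0 < a ∧ a ≤ 1 ∧ 1 ≤ b ∧ (∀ x, fx p φ x ∈ Set.Icc a b) ∧
      ∀ w ∈ VV, φ (pv p w) ∈ Set.Icc a b := by
  obtain ⟨a, b, ha, hab⟩ := h.bounds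
  refine ⟨min a 1, max b 1, by positivity, min_le_right _ _, le_max_right _ _, fun x => ?_,
    fun w hw => ?_⟩
  · rw [fx]
    split_ifs with h0
    · exact ⟨min_le_right _ _, le_max_right _ _⟩
    · have hc : pv p (mm x) ∈ Cone ℚ_[p] := by
        rw [pv_mm]
        exact mm_cone (by rw [← pv_mm]; exact pv_ne h0)
      obtain ⟨h1, h2⟩ := hab _ hc
      exact ⟨(min_le_left _ _).trans h1, h2.trans (le_max_left _ _)⟩
  · obtain ⟨h1, h2⟩ := hab _ (pv_cone p hw)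
    exact ⟨(min_le_left _ _).trans h1, h2.trans (le_max_left _ _)⟩

/-- the finite part -/
theorem finite_part (S : Finset Nat.Primes) (φ : ∀ p : Nat.Primes, (Fin 5 × Fin 5 → ℚ_[p]) → ℝ)
    (hφ : ∀ p ∈ S, Fac ℚ_[p] (φ p)) :
    ∃ (a b : ℝ) (θ : (Fin 5 → ℤ) → ℝ), 0 < a ∧ (∀ x, θ x ∈ Set.Icc a b) ∧
      (∀ w ∈ VV, ∏ p ∈ S, φ p (pv p w) ∈ Set.Icc a b) ∧
      (∀ w ∈ VV, ∀ x, In w x → mm x ≠ 0 → θ x = ∏ p ∈ S, φ p (pv p w)) ∧
      Adm (S.image fun p : Nat.Primes => (p : ℕ)) θ := by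
  classical
  have hbd : ∀ p : Nat.Primes, ∃ a b : ℝ, 0 < a ∧ a ≤ 1 ∧ 1 ≤ b ∧ (p ∈ S → (∀ x, fx p (φ p) x ∈ Set.Icc a b) ∧
      ∀ w ∈ VV, φ p (pv p w) ∈ Set.Icc a b) := by
    intro p
    by_cases hp : p ∈ S
    · obtain ⟨a, b, h1, h2, h3, h4, h5⟩ := fx_bounds (hφ p hp)
      exact ⟨a, b, h1, h2, h3, fun _ => ⟨h4, h5⟩⟩
    · exact ⟨1, 1, one_pos, le_rfl, le_rfl, fun h => absurd h hp⟩
  choose A B hA hA1 hB1 hAB using hbd
  refine ⟨∏ p ∈ S, A p, ∏ p ∈ S, B p, fun x => ∏ p ∈ S, fx p (φ p) x,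
    Finset.prod_pos fun p _ => hA p, fun x => ⟨?_, ?_⟩, fun w hw => ⟨?_, ?_⟩, ?_, ?_⟩
  · exact Finset.prod_le_prod (fun p _ => (hA p).le) fun p hp => ((hAB p hp).1 x).1
  · exact Finset.prod_le_prod (fun p hp => (hA p).le.trans ((hAB p hp).1 x).1)
      fun p hp => ((hAB p hp).1 x).2
  · exact Finset.prod_le_prod (fun p _ => (hA p).le) fun p hp => ((hAB p hp).2 w hw).1
  · exact Finset.prod_le_prod (fun p hp => (hA p).le.trans ((hAB p hp).2 w hw).1)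
      fun p hp => ((hAB p hp).2 w hw).2
  · intro w hw x hin hm
    refine Finset.prod_congr rfl fun p hp => ?_
    rw [fx, if_neg hm]
    obtain ⟨c, hc, -⟩ := mm_of_in hw hin
    have hc0 : c ≠ 0 := by
      rintro rfl
      apply hm
      rw [hc, zero_smul]
    rw [hc, pv_smul]
    exact (hφ p hp).inv _ (by exact_mod_cast hc0) _ (pv_cone p hw)
  · -- admissibility
    have key : ∀ S' : Finset Nat.Primes, S' ⊆ S → ∀ (k : ℕ) (ε : ℝ), 0 < ε → ∃ Q : ℕ, 0 < Q ∧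
        ∀ x x' : Fin 5 → ℤ, (∀ i, (Q : ℤ) ∣ x i - x' i) → (∀ p ∈ S', ¬ (p : ℕ) ^ k ∣ gg x) →
          |∏ p ∈ S', fx p (φ p) x - ∏ p ∈ S', fx p (φ p) x'| ≤ ε := by
      intro S'
      induction S' using Finset.induction_on with
      | empty =>
        intro _ k ε hε
        exact ⟨1, one_pos, fun x x' _ _ => by simpa using hε.le⟩
      | insert p S' hp ih =>
        intro hS k ε hε
        have hpS : p ∈ S := hS (Finset.mem_insert_self _ _)
        have hS' : S' ⊆ S := fun q hq => hS (Finset.mem_insert_of_mem hq)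
        have hM : ∀ x, |∏ q ∈ S', fx q (φ q) x| ≤ ∏ q ∈ S', B q := by
          intro x
          rw [Finset.abs_prod]
          refine Finset.prod_le_prod (fun q _ => abs_nonneg _) fun q hq => ?_
          have := (hAB q (hS' hq)).1 x
          rw [abs_of_nonneg ((hA q).le.trans this.1)]
          exact this.2
        have hMp : 0 < ∏ q ∈ S', B q := Finset.prod_pos fun q _ => by linarith [hB1 q]
        set M := ∏ q ∈ S', B q with hMdef
        have hBp : 0 < B p := by linarith [hB1 p]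
        obtain ⟨Q1, hQ1, h1⟩ := fx_adm (hφ p hpS) k (ε := ε / (2 * M)) (by positivity)
        obtain ⟨Q2, hQ2, h2⟩ := ih hS' k (ε / (2 * B p)) (by positivity)
        refine ⟨Q1 * Q2, Nat.mul_pos hQ1 hQ2, fun x x' hd hk => ?_⟩
        have d1 := h1 x x' (fun i => (Int.natCast_dvd_natCast.2 (Nat.dvd_mul_right Q1 Q2)).trans (hd i))
          (hk p (Finset.mem_insert_self _ _))
        have d2 := h2 x x' (fun i => (Int.natCast_dvd_natCast.2 (Nat.dvd_mul_left Q2 Q1)).trans (hd i))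
          (fun q hq => hk q (Finset.mem_insert_of_mem hq))
        rw [Finset.prod_insert hp, Finset.prod_insert hp]
        have e : fx p (φ p) x * ∏ q ∈ S', fx q (φ q) x - fx p (φ p) x' * ∏ q ∈ S', fx q (φ q) x' =
            (fx p (φ p) x - fx p (φ p) x') * ∏ q ∈ S', fx q (φ q) x +
            fx p (φ p) x' * (∏ q ∈ S', fx q (φ q) x - ∏ q ∈ S', fx q (φ q) x') := by ring
        rw [e]
        refine (abs_add_le _ _).trans ?_
        rw [abs_mul, abs_mul]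
        have f1 : |fx p (φ p) x - fx p (φ p) x'| * |∏ q ∈ S', fx q (φ q) x| ≤ ε / (2 * M) * M :=
          mul_le_mul d1 (hM x) (abs_nonneg _) (by positivity)
        have f2 : |fx p (φ p) x'| ≤ B p := by
          have := (hAB p hpS).1 x'
          rw [abs_of_nonneg ((hA p).le.trans this.1)]
          exact this.2
        have f3 : |fx p (φ p) x'| * |∏ q ∈ S', fx q (φ q) x - ∏ q ∈ S', fx q (φ q) x'| ≤
            B p * (ε / (2 * B p)) := mul_le_mul f2 d2 (abs_nonneg _) hBp.le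
        have f4 : ε / (2 * M) * M = ε / 2 := by
          field_simp
        have f5 : B p * (ε / (2 * B p)) = ε / 2 := by
          field_simp
        linarith
    intro k ε hε
    obtain ⟨Q, hQ, h⟩ := key S (Finset.Subset.refl S) k ε hε
    refine ⟨Q, hQ, fun x x' _ _ hd hk => h x x' hd fun p hp => ?_⟩
    exact hk p (Finset.mem_image_of_mem _ hp)

end Pool.Agent.KS6_53.V5
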