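import Pool.Agent.KS6_53.V5.Fa7
import Pool.Agent.KS6_53.V5.Fa8

set_option autoImplicit false

namespace Pool.Agent.KS6_53.V5

open Finset Filter Topology

local instance instFactPrimes' (p : Nat.Primes) : Fact (p : ℕ).Prime := ⟨p.2⟩

abbrev PP := Projectivization ℚ (Fin 5 × Fin 5 → ℚ)

def Pt (p : PP) : Prop := ∃ x y : Fin 5 → ℚ, Iso x y ∧ p.rep = wedge x y

def OnL (p : PP) : Prop := ∃ a b c : Fin 5 → ℚ, LinearIndependent ℚ ![a, b, c] ∧ Iso a b ∧ Iso a c ∧
  p.rep = wedge a b

/-- the rational vector -/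
def cw {ι : Type*} (w : ι → ℤ) : ι → ℚ := fun q => (w q : ℚ)

def RR (w : Fin 5 × Fin 5 → ℤ) (p : PP) : Prop := ∃ c : ℚ, c ≠ 0 ∧ p.rep = c • cw w

theorem cw_wedge (x y : Fin 5 → ℤ) : cw (wedge x y) = wedge (cw x) (cw y) := by
  funext q
  simp [cw, wedge]

theorem cw_hes (x : Fin 5 → ℤ) : cw (hes x) = hes (cw x) := by
  funext i
  fin_cases i <;> simp [cw, hes]

theorem cw_mm (x : Fin 5 → ℤ) : cw (mm x) = mm (cw x) := by
  rw [mm, cw_wedge, cw_hes, mm]

theorem cw_inj {ι : Type*} {w w' : ι → ℤ} (h : cw w = cw w') : w = w' := by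
  funext q
  have := congrFun h q
  simp only [cw] at this
  exact_mod_cast this

theorem cw_zero {ι : Type*} : cw (0 : ι → ℤ) = 0 := by
  funext q
  simp [cw]

theorem cw_smul {ι : Type*} (c : ℤ) (w : ι → ℤ) : cw (c • w) = (c : ℚ) • cw w := by
  funext q
  simp [cw]

theorem iso_cw {x y : Fin 5 → ℤ} : Iso (cw x) (cw y) ↔ Iso x y := by
  simp only [Iso, b0, b1, b2, cw]
  constructor
  · rintro ⟨h0, h1, h2⟩
    exact ⟨by exact_mod_cast h0, by exact_mod_cast h1, by exact_mod_cast h2⟩
  · rintro ⟨h0, h1, h2⟩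
    exact ⟨by exact_mod_cast h0, by exact_mod_cast h1, by exact_mod_cast h2⟩

/-- primitive integral multiples -/
theorem exists_cw {ι : Type*} [Fintype ι] {v : ι → ℚ} (hv : v ≠ 0) :
    ∃ (c : ℚ) (w : ι → ℤ), c ≠ 0 ∧ Unimod w ∧ v = c • cw w := by
  classical
  obtain ⟨b, hb⟩ := IsLocalization.exist_integer_multiples (nonZeroDivisors ℤ) Finset.univ v
  have hb0 : ((b : ℤ) : ℚ) ≠ 0 := by
    have := nonZeroDivisors.ne_zero b.2
    exact_mod_cast this
  choose f hf using fun i => hb i (Finset.mem_univ i)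
  have hf' : ∀ i, ((f i : ℤ) : ℚ) = (b : ℤ) * v i := by
    intro i
    have := hf i
    simpa [Algebra.smul_def] using this
  have hf0 : f ≠ 0 := by
    intro h0
    apply hv
    funext i
    have := hf' i
    rw [h0] at this
    simp only [Pi.zero_apply, Int.cast_zero] at this ⊢
    exact (mul_eq_zero.1 this.symm).resolve_left hb0
  obtain ⟨g, w, hg, hw, hgw⟩ := exists_prim hf0
  refine ⟨(g : ℚ) / (b : ℤ), w, div_ne_zero (by exact_mod_cast hg.ne') hb0, hw, ?_⟩
  funext i
  have h1 := hf' i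
  rw [hgw] at h1
  simp only [Pi.smul_apply, smul_eq_mul, Int.cast_mul] at h1
  simp only [Pi.smul_apply, smul_eq_mul, cw]
  field_simp
  linarith

theorem in_cw {w : Fin 5 × Fin 5 → ℤ} {x : Fin 5 → ℤ} : In (cw w) (cw x) ↔ In w x := by
  constructor
  · intro h i j k
    have := h i j k
    simp only [cw] at this
    exact_mod_cast this
  · intro h i j k
    have := h i j k
    simp only [cw]
    exact_mod_cast this

theorem in_smul' {F : Type*} [Field F] {w : Fin 5 × Fin 5 → F} {x : Fin 5 → F} {c d : F} (hc : c ≠ 0)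
    (hd : d ≠ 0) (h : In (c • w) (d • x)) : In w x := by
  intro i j k
  have h1 := h i j k
  simp only [Pi.smul_apply, smul_eq_mul] at h1
  have h2 : (c * d) * (x i * w (j, k) - x j * w (i, k) + x k * w (i, j)) = 0 := by
    linear_combination h1
  exact (mul_eq_zero.1 h2).resolve_left (mul_ne_zero hc hd)

theorem wedge_in_left {F : Type*} [CommRing F] (x y : Fin 5 → F) : In (wedge x y) x := by
  intro i j k
  simp only [wedge]
  ring

/-- the primitive vector of a point -/
theorem R1 {p : PP} (hp : Pt p) : ∃ w ∈ VV, RR w p := by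
  obtain ⟨x, y, hi, he⟩ := hp
  obtain ⟨c, w, hc, hw, hcw⟩ := exists_cw p.rep_nonzero
  have hx : x ≠ 0 := by
    rintro rfl
    apply p.rep_nonzero
    rw [he]
    funext q
    simp [wedge]
  obtain ⟨d, x0, hd, hx0, hdx⟩ := exists_cw hx
  have hin : In w x0 := by
    rw [← in_cw]
    refine in_smul' hc hd ?_
    rw [← hcw, ← hdx, he]
    exact wedge_in_left x y
  obtain ⟨h0, h1, h2⟩ := iso_wedge_iff.1 hi
  have hlin : ∀ q r, wedge x y q + wedge x y r = 0 → w q + w r = 0 := by
    intro q r h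
    rw [← he, hcw] at h
    simp only [Pi.smul_apply, smul_eq_mul, cw, ← mul_add] at h
    have := (mul_eq_zero.1 h).resolve_left hc
    exact_mod_cast this
  obtain ⟨y0, hiso, hwy⟩ := exists_basis hx0 hin (hlin _ _ h0) (hlin _ _ h1) (hlin _ _ h2)
  exact ⟨w, ⟨hw, x0, y0, hiso, hwy⟩, c, hc, hcw⟩

theorem R2 {w : Fin 5 × Fin 5 → ℤ} {p p' : PP} (h : RR w p) (h' : RR w p') : p = p' := by
  obtain ⟨c, hc, he⟩ := h
  obtain ⟨c', hc', he'⟩ := h'
  rw [← p.mk_rep, ← p'.mk_rep, Projectivization.mk_eq_mk_iff']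
  refine ⟨c / c', ?_⟩
  rw [he, he', smul_smul, div_mul_cancel₀ _ hc']

theorem R3 {w w' : Fin 5 × Fin 5 → ℤ} (hw : w ∈ VV) (hw' : w' ∈ VV) {p : PP} (h : RR w p)
    (h' : RR w' p) : w' = w ∨ w' = -w := by
  obtain ⟨c, hc, he⟩ := h
  obtain ⟨c', hc', he'⟩ := h'
  refine (prim_parallel' hw.1 hw'.1 ?_).imp id id
  intro i j
  have h1 : ∀ q, c * (w q : ℚ) = c' * (w' q : ℚ) := by
    intro q
    have := congrFun (he.symm.trans he') q
    simpa [cw] using this
  have h2 : (c * c') * ((w i : ℚ) * w' j - w j * w' i) = 0 := by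
    linear_combination (c' * w' j) * h1 i - (c' * w' i) * h1 j
  have h3 := sub_eq_zero.1 ((mul_eq_zero.1 h2).resolve_left (mul_ne_zero hc hc'))
  exact_mod_cast h3

theorem R4 {w : Fin 5 × Fin 5 → ℤ} (hw : w ∈ VV) : ∃ p : PP, RR w p ∧ Pt p := by
  have h0 : cw w ≠ 0 := by
    intro h
    rw [← cw_zero] at h
    exact VV_ne hw (cw_inj h)
  obtain ⟨-, x, y, hi, he⟩ := id hw
  obtain ⟨a, ha⟩ := Projectivization.exists_smul_eq_mk_rep ℚ (cw w) h0
  have hR : (Projectivization.mk ℚ (cw w) h0).rep = ((a : ℚˣ) : ℚ) • cw w := ha.symm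
  refine ⟨Projectivization.mk ℚ (cw w) h0, ⟨a, a.ne_zero, hR⟩, (a : ℚ) • cw x, cw y,
    iso_smul_left _ (iso_cw.2 hi), ?_⟩
  rw [hR, he, cw_wedge]
  funext q
  simp only [wedge, Pi.smul_apply, smul_eq_mul]
  ring

theorem indep_iff {a b c : Fin 5 → ℚ} (h : LinearIndependent ℚ ![a, b, c]) (r s t : ℚ)
    (h0 : r • a + s • b + t • c = 0) : r = 0 ∧ s = 0 ∧ t = 0 := by
  rw [Fintype.linearIndependent_iff] at h
  have h1 := h ![r, s, t] (by
    rw [Fin.sum_univ_three]
    simpa using h0)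
  exact ⟨by simpa using h1 0, by simpa using h1 1, by simpa using h1 2⟩

theorem indep_of {a b c : Fin 5 → ℚ}
    (h : ∀ r s t : ℚ, r • a + s • b + t • c = 0 → r = 0 ∧ s = 0 ∧ t = 0) :
    LinearIndependent ℚ ![a, b, c] := by
  rw [Fintype.linearIndependent_iff]
  intro g hg
  rw [Fin.sum_univ_three] at hg
  obtain ⟨h0, h1, h2⟩ := h (g 0) (g 1) (g 2) (by simpa using hg)
  intro i
  fin_cases i
  · exact h0
  · exact h1
  · exact h2

/-- the base point of a pencil is on the cone -/
theorem pencil_mm {a b c : Fin 5 → ℚ} (h : LinearIndependent ℚ ![a, b, c]) (hab : Iso a b)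
    (hac : Iso a c) : mm a = 0 := by
  by_contra hm
  have hu := unimod_of_ne hm
  obtain ⟨r, s, h1⟩ := (in_wedge_iff (x := a) (y := hes a) hu).1 (in_mm hab)
  obtain ⟨r', s', h2⟩ := (in_wedge_iff (x := a) (y := hes a) hu).1 (in_mm hac)
  obtain ⟨-, e1, e2⟩ := indep_iff h (s * r' - r * s') s' (-s) (by
    rw [h1, h2]
    funext i
    simp only [Pi.add_apply, Pi.smul_apply, smul_eq_mul, Pi.zero_apply]
    ring)
  have e3 : s = 0 := by linarith
  obtain ⟨-, e4, -⟩ := indep_iff h (-r) 1 0 (by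
    rw [h1, e3]
    funext i
    simp only [Pi.add_apply, Pi.smul_apply, smul_eq_mul, Pi.zero_apply]
    ring)
  exact one_ne_zero e4

/-- the linear map of the three forms -/
def fm (x : Fin 5 → ℚ) : (Fin 5 → ℚ) →ₗ[ℚ] (Fin 3 → ℚ) where
  toFun y := ![b0 x y, b1 x y, b2 x y]
  map_add' y z := by
    funext i
    fin_cases i <;> simp [b0, b1, b2] <;> ring
  map_smul' c y := by
    funext i
    fin_cases i <;> simp [b0, b1, b2] <;> ring

/-- the space orthogonal to a point of the cone has dimension at least 3 -/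
theorem perp_out {l : Fin 3 → ℚ} (hl : l ≠ 0) (x y : Fin 5 → ℚ) :
    ∃ c, Iso (pf l) c ∧ ∀ r s : ℚ, c ≠ r • x + s • y := by
  have hrel : ∀ z, l 0 * fm (pf l) z 0 + l 1 * fm (pf l) z 1 + l 2 * fm (pf l) z 2 = 0 := by
    intro z
    simp only [fm, LinearMap.coe_mk, AddHom.coe_mk, Matrix.cons_val, b0, b1, b2, pf]
    ring
  have hr : LinearMap.range (fm (pf l)) ≠ ⊤ := by
    intro h
    obtain ⟨i, hi⟩ := Function.ne_iff.1 hl
    have h1 : (Pi.single i 1 : Fin 3 → ℚ) ∈ LinearMap.range (fm (pf l)) := by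
      rw [h]
      trivial
    obtain ⟨z, hz⟩ := h1
    have h2 := hrel z
    rw [hz] at h2
    apply hi
    rw [Pi.zero_apply]
    fin_cases i <;> simpa using h2
  have h1 := Submodule.finrank_lt hr
  have h2 := LinearMap.finrank_range_add_finrank_ker (fm (pf l))
  rw [Module.finrank_fin_fun] at h1 h2
  have h3 : ¬ LinearMap.ker (fm (pf l)) ≤ Submodule.span ℚ {x, y} := by
    intro hle
    have h4 := Submodule.finrank_mono hle
    have h5 : Module.finrank ℚ (Submodule.span ℚ ({x, y} : Set (Fin 5 → ℚ))) ≤ 2 := by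
      classical
      have := finrank_span_finset_le_card (R := ℚ) ({x, y} : Finset (Fin 5 → ℚ))
      rw [Set.finrank, Finset.coe_insert, Finset.coe_singleton] at this
      exact this.trans Finset.card_le_two
    omega
  obtain ⟨c, hc, hcn⟩ := Set.not_subset.1 h3
  refine ⟨c, ?_, fun r s h => hcn ?_⟩
  · have h4 : fm (pf l) c = 0 := hc
    exact ⟨congrFun h4 0, congrFun h4 1, congrFun h4 2⟩
  · rw [h]
    exact Submodule.mem_span_pair.2 ⟨r, s, rfl⟩

theorem cw_pf (v : Fin 3 → ℤ) : cw (pf v) = pf (cw v) := by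
  funext i
  fin_cases i <;> simp [cw, pf]

theorem R5 {w : Fin 5 × Fin 5 → ℤ} (hw : w ∈ VV) {p : PP} (h : RR w p) : OnL p ↔ ¬ UU w := by
  obtain ⟨c, hc, he⟩ := h
  constructor
  · rintro ⟨a, b, d, hli, hab, had, hp⟩ hU
    have hm := pencil_mm hli hab had
    have ha : a ≠ 0 := by
      rintro rfl
      obtain ⟨h1, -, -⟩ := indep_iff hli 1 0 0 (by simp)
      exact one_ne_zero h1
    obtain ⟨e, x, he0, hx, hex⟩ := exists_cw ha
    have hin : In w x := by
      rw [← in_cw]
      refine in_smul' hc he0 ?_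
      rw [← he, ← hex, hp]
      exact wedge_in_left a b
    refine hU x hx hin ?_
    rw [hex, mm_smul, ← cw_mm] at hm
    have h1 : cw (mm x) = 0 := (smul_eq_zero.1 hm).resolve_left (pow_ne_zero 3 he0)
    rw [← cw_zero] at h1
    exact cw_inj h1
  · intro hU
    simp only [UU] at hU
    push Not at hU
    obtain ⟨x, hx, hin, hm⟩ := hU
    obtain ⟨y, hi, hwy⟩ := VV_basis hw hx hin
    obtain ⟨v, hv, hxv⟩ := cone_pf hx hm
    have hv0 : cw v ≠ 0 := by
      intro h0
      rw [← cw_zero] at h0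
      exact unimod_ne hv (cw_inj h0)
    obtain ⟨d, hd, hk⟩ := perp_out hv0 (cw x) (cw y)
    have hpx : cw x = pf (cw v) ∨ cw x = (-1 : ℚ) • pf (cw v) := by
      rcases hxv with h1 | h1
      · left
        rw [h1, cw_pf]
      · right
        rw [h1, ← cw_pf]
        funext i
        simp [cw]
    have hiso : Iso (cw x) d := by
      rcases hpx with h1 | h1
      · rw [h1]
        exact hd
      · rw [h1]
        exact iso_smul_left _ hd
    have hwne : wedge (cw x) (cw y) ≠ 0 := by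
      rw [← cw_wedge, ← hwy]
      intro h0
      rw [← cw_zero] at h0
      exact VV_ne hw (cw_inj h0)
    refine ⟨cw x, c • cw y, d, indep_of fun r s t h0 => ?_,
      iso_comm (iso_smul_left _ (iso_comm (iso_cw.2 hi))), hiso, ?_⟩
    · have ht : t = 0 := by
        by_contra ht
        apply hk (-(r / t)) (-(s * c / t))
        funext i
        have := congrFun h0 i
        simp only [Pi.add_apply, Pi.smul_apply, smul_eq_mul, Pi.zero_apply] at this ⊢
        field_simp
        linear_combination this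
      rw [ht] at h0
      obtain ⟨q, hq⟩ := Function.ne_iff.1 hwne
      rw [Pi.zero_apply] at hq
      have a1 := congrFun h0 q.1
      have a2 := congrFun h0 q.2
      simp only [Pi.add_apply, Pi.smul_apply, smul_eq_mul, Pi.zero_apply] at a1 a2
      refine ⟨?_, ?_, ht⟩
      · have : r * wedge (cw x) (cw y) q = 0 := by
          simp only [wedge]
          linear_combination (cw y q.2) * a1 - (cw y q.1) * a2
        exact (mul_eq_zero.1 this).resolve_right hq
      · have : (s * c) * wedge (cw x) (cw y) q = 0 := by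
          simp only [wedge]
          linear_combination (cw x q.1) * a2 - (cw x q.2) * a1
        have h3 := (mul_eq_zero.1 this).resolve_right hq
        exact (mul_eq_zero.1 h3).resolve_right hc
    · rw [he, hwy, cw_wedge]
      funext q
      simp only [wedge, Pi.smul_apply, smul_eq_mul]
      ring

end Pool.Agent.KS6_53.V5
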