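import Pool.Agent.KS6_53.V5.Ub

set_option autoImplicit false
set_option linter.style.haveILetI false

namespace Pool.Agent.KS6_53.V5

open Finset

/-- the cofactors of the matrix of `z` -/
def cof (z : Fin 5 → ℤ) : Fin 3 → Fin 3 → ℤ :=
  ![![4 * z 0 * z 2 - z 1 * z 1, 2 * z 3 * z 0 + z 1 * z 2, z 3 * z 1 + 2 * z 2 * z 2],
    ![2 * z 3 * z 0 + z 1 * z 2, 4 * z 0 * z 4 - z 2 * z 2, 2 * z 4 * z 1 + z 3 * z 2],
    ![z 3 * z 1 + 2 * z 2 * z 2, 2 * z 4 * z 1 + z 3 * z 2, 4 * z 2 * z 4 - z 3 * z 3]]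

theorem cof_symm (z : Fin 5 → ℤ) (a b : Fin 3) : cof z a b = cof z b a := by
  fin_cases a <;> fin_cases b <;> rfl

theorem cof_le (z : Fin 5 → ℤ) (a b : Fin 3) : |(cof z a b : ℝ)| ≤ 5 * nz z ^ 2 := by
  have h : ∀ i j, |(z i : ℝ) * z j| ≤ nz z * nz z := fun i j => abs_mul_le (le_nz z i) (le_nz z j)
  have n0 : 0 ≤ nz z * nz z := mul_nonneg (nz_nonneg z) (nz_nonneg z)
  have h02 := abs_le.1 (h 0 2)
  have h11 := abs_le.1 (h 1 1)
  have h30 := abs_le.1 (h 3 0)
  have h12 := abs_le.1 (h 1 2)
  have h31 := abs_le.1 (h 3 1)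
  have h22 := abs_le.1 (h 2 2)
  have h04 := abs_le.1 (h 0 4)
  have h41 := abs_le.1 (h 4 1)
  have h32 := abs_le.1 (h 3 2)
  have h24 := abs_le.1 (h 2 4)
  have h33 := abs_le.1 (h 3 3)
  rw [show 5 * nz z ^ 2 = 5 * (nz z * nz z) by ring]
  clear h
  fin_cases a <;> fin_cases b <;> simp only [cof, Fin.zero_eta, Fin.mk_one, Fin.reduceFinMk,
    Matrix.cons_val] <;> push_cast <;> rw [abs_le] <;> constructor <;> linarith

theorem cof_v {z : Fin 5 → ℤ} {v : Fin 3 → ℤ} (h : ∀ k, ∑ i, z i * tg v k i = 0) (a b c : Fin 3) :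
    cof z a b * v c = cof z c b * v a := by
  have h0 := h 0
  have h1 := h 1
  have h2 := h 2
  simp only [Fin.sum_univ_five, tg, Matrix.cons_val] at h0 h1 h2
  have k001 : cof z 0 0 * v 1 = cof z 1 0 * v 0 := by
    simp only [cof, Matrix.cons_val]
    linear_combination (2 * z 0) * h1 + (z 1) * h2
  have k002 : cof z 0 0 * v 2 = cof z 2 0 * v 0 := by
    simp only [cof, Matrix.cons_val]
    linear_combination (z 1) * h1 + (2 * z 2) * h2
  have k011 : cof z 0 1 * v 1 = cof z 1 1 * v 0 := by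
    simp only [cof, Matrix.cons_val]
    linear_combination ((-2) * z 0) * h0 + ((-1) * z 2) * h2
  have k012 : cof z 0 1 * v 2 = cof z 2 1 * v 0 := by
    simp only [cof, Matrix.cons_val]
    linear_combination ((-1) * z 1) * h0 + (z 3) * h2
  have k021 : cof z 0 2 * v 1 = cof z 1 2 * v 0 := by
    simp only [cof, Matrix.cons_val]
    linear_combination ((-1) * z 1) * h0 + (z 2) * h1
  have k022 : cof z 0 2 * v 2 = cof z 2 2 * v 0 := by
    simp only [cof, Matrix.cons_val]
    linear_combination ((-2) * z 2) * h0 + ((-1) * z 3) * h1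
  have k102 : cof z 1 0 * v 2 = cof z 2 0 * v 1 := by
    simp only [cof, Matrix.cons_val]
    linear_combination ((-1) * z 2) * h1 + (z 3) * h2
  have k112 : cof z 1 1 * v 2 = cof z 2 1 * v 1 := by
    simp only [cof, Matrix.cons_val]
    linear_combination (z 2) * h0 + (2 * z 4) * h2
  have k122 : cof z 1 2 * v 2 = cof z 2 2 * v 1 := by
    simp only [cof, Matrix.cons_val]
    linear_combination ((-1) * z 3) * h0 + ((-2) * z 4) * h1
  fin_cases a <;> fin_cases b <;> fin_cases c <;>
    simp only [Fin.zero_eta, Fin.mk_one, Fin.reduceFinMk] <;>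
    first | rfl | assumption | (symm; assumption)

theorem cof_ne {z : Fin 5 → ℤ} {v : Fin 3 → ℤ} (hv : Unimod v)
    (h : ∀ k, ∑ i, z i * tg v k i = 0) (hc : cof z ≠ 0) : nz v ^ 2 ≤ 5 * nz z ^ 2 := by
  obtain ⟨e, he⟩ := id hv
  set κ : ℤ := ∑ a, ∑ b, e a * e b * cof z a b with hκ
  have key : ∀ a b, cof z a b = κ * (v a * v b) := by
    intro a b
    have e1 : ∀ a b, cof z a b = (∑ c, e c * cof z c b) * v a := by
      intro a b
      calc cof z a b = cof z a b * ∑ c, e c * v c := by rw [he, mul_one]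
        _ = ∑ c, e c * (cof z a b * v c) := by
          rw [Finset.mul_sum]
          exact Finset.sum_congr rfl fun c _ => by ring
        _ = ∑ c, e c * (cof z c b * v a) := by simp only [cof_v h a b]
        _ = _ := by
          rw [Finset.sum_mul]
          exact Finset.sum_congr rfl fun c _ => by ring
    have e2 : ∀ c, cof z c b = (∑ d, e d * cof z d c) * v b := by
      intro c
      rw [cof_symm z c b]
      exact e1 b c
    rw [e1 a b]
    have e3 : ∑ c, e c * cof z c b = κ * v b := by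
      rw [hκ, Finset.sum_mul]
      refine Finset.sum_congr rfl fun c _ => ?_
      rw [e2 c, Finset.sum_mul, Finset.sum_mul, Finset.mul_sum]
      refine Finset.sum_congr rfl fun d _ => ?_
      rw [cof_symm z d c]
      ring
    rw [e3]
    ring
  have hκ0 : κ ≠ 0 := by
    intro h0
    apply hc
    funext a b
    rw [key, h0, zero_mul]
    rfl
  obtain ⟨i, hi⟩ := exists_nz v
  have h1 := cof_le z i i
  rw [key i i] at h1
  push_cast at h1
  rw [abs_mul, abs_mul, ← hi] at h1
  have h2 : (1 : ℝ) ≤ |(κ : ℝ)| := by exact_mod_cast Int.one_le_abs hκ0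
  have h3 : 0 ≤ nz v * nz v := mul_nonneg (nz_nonneg v) (nz_nonneg v)
  nlinarith

/-- the special vector -/
def sv (z : Fin 5 → ℤ) : Fin 5 → ℤ := ![2 * z 4, z 3, 3 * z 2, z 1, 2 * z 0]

set_option maxHeartbeats 4000000 in
theorem two_in_sv {z : Fin 5 → ℤ} {v : Fin 3 → ℤ} (h : ∀ k, ∑ i, z i * tg v k i = 0)
    (hc : cof z = 0) (i j k : Fin 5) :
    2 * (sv z i * LL v z (j, k) - sv z j * LL v z (i, k) + sv z k * LL v z (i, j)) = 0 := by
  have h0 := h 0
  have h1 := h 1
  have h2 := h 2
  simp only [Fin.sum_univ_five, tg, Matrix.cons_val] at h0 h1 h2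
  have m00 : 4 * z 0 * z 2 - z 1 * z 1 = 0 := congrFun (congrFun hc 0) 0
  have m01 : 2 * z 3 * z 0 + z 1 * z 2 = 0 := congrFun (congrFun hc 0) 1
  have m02 : z 3 * z 1 + 2 * z 2 * z 2 = 0 := congrFun (congrFun hc 0) 2
  have m11 : 4 * z 0 * z 4 - z 2 * z 2 = 0 := congrFun (congrFun hc 1) 1
  have m12 : 2 * z 4 * z 1 + z 3 * z 2 = 0 := congrFun (congrFun hc 1) 2
  have m22 : 4 * z 2 * z 4 - z 3 * z 3 = 0 := congrFun (congrFun hc 2) 2
  have k012 : 2 * (sv z 0 * LL v z (1, 2) - sv z 1 * LL v z (0, 2) + sv z 2 * LL v z (0, 1)) = 0 := by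
    simp only [LL, sv, Matrix.cons_val]
    linear_combination 2 * z 4 * h0 + 2 * v 2 * m22
  have k013 : 2 * (sv z 0 * LL v z (1, 3) - sv z 1 * LL v z (0, 3) + sv z 3 * LL v z (0, 1)) = 0 := by
    simp only [LL, sv, Matrix.cons_val]
    linear_combination 2 * z 4 * h1 + 2 * v 2 * m12
  have k014 : 2 * (sv z 0 * LL v z (1, 4) - sv z 1 * LL v z (0, 4) + sv z 4 * LL v z (0, 1)) = 0 := by
    simp only [LL, sv, Matrix.cons_val]
    linear_combination -(2 * z 2) * h0 - 2 * z 3 * h1 + 2 * v 2 * m11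
  have k023 : 2 * (sv z 0 * LL v z (2, 3) - sv z 2 * LL v z (0, 3) + sv z 3 * LL v z (0, 2)) = 0 := by
    simp only [LL, sv, Matrix.cons_val]
    linear_combination 6 * z 4 * h2 + 2 * v 2 * m02 - 2 * v 2 * m11
  have k024 : 2 * (sv z 0 * LL v z (2, 4) - sv z 2 * LL v z (0, 4) + sv z 4 * LL v z (0, 2)) = 0 := by
    simp only [LL, sv, Matrix.cons_val]
    linear_combination 2 * z 1 * h0 - 4 * z 2 * h1 - 2 * z 3 * h2 + 4 * v 2 * m01 - 2 * v 1 * m11
  have k034 : 2 * (sv z 0 * LL v z (3, 4) - sv z 3 * LL v z (0, 4) + sv z 4 * LL v z (0, 3)) = 0 := by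
    simp only [LL, sv, Matrix.cons_val]
    linear_combination 4 * z 0 * h0 - 2 * z 1 * h1 + 2 * v 1 * m01
  have k123 : 2 * (sv z 1 * LL v z (2, 3) - sv z 2 * LL v z (1, 3) + sv z 3 * LL v z (1, 2)) = 0 := by
    simp only [LL, sv, Matrix.cons_val]
    linear_combination z 1 * h0 - 3 * z 2 * h1 + 3 * z 3 * h2 - 2 * v 2 * m01
  have k124 : 2 * (sv z 1 * LL v z (2, 4) - sv z 2 * LL v z (1, 4) + sv z 4 * LL v z (1, 2)) = 0 := by
    simp only [LL, sv, Matrix.cons_val]
    linear_combination 2 * z 0 * h0 - 2 * z 1 * h1 - 6 * z 2 * h2 + 2 * v 2 * m00 - 2 * v 1 * m01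
  have k134 : 2 * (sv z 1 * LL v z (3, 4) - sv z 3 * LL v z (1, 4) + sv z 4 * LL v z (1, 3)) = 0 := by
    simp only [LL, sv, Matrix.cons_val]
    linear_combination -(2 * z 0) * h1 - 2 * z 1 * h2 + 2 * v 1 * m00
  have k234 : 2 * (sv z 2 * LL v z (3, 4) - sv z 3 * LL v z (2, 4) + sv z 4 * LL v z (2, 3)) = 0 := by
    simp only [LL, sv, Matrix.cons_val]
    linear_combination 2 * z 0 * h2 + 2 * v 0 * m00
  clear h0 h1 h2 h m00 m01 m02 m11 m12 m22 hc
  have hd : ∀ i, LL v z (i, i) = 0 := by
    intro i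
    fin_cases i <;> simp [LL]
  have a10 : LL v z (1, 0) = - LL v z (0, 1) := by simp [LL]
  have a20 : LL v z (2, 0) = - LL v z (0, 2) := by simp [LL]
  have a30 : LL v z (3, 0) = - LL v z (0, 3) := by simp [LL]
  have a40 : LL v z (4, 0) = - LL v z (0, 4) := by simp [LL]
  have a21 : LL v z (2, 1) = - LL v z (1, 2) := by simp [LL]
  have a31 : LL v z (3, 1) = - LL v z (1, 3) := by simp [LL]
  have a41 : LL v z (4, 1) = - LL v z (1, 4) := by simp [LL]
  have a32 : LL v z (3, 2) = - LL v z (2, 3) := by simp [LL]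
  have a42 : LL v z (4, 2) = - LL v z (2, 4) := by simp [LL]
  have a43 : LL v z (4, 3) = - LL v z (3, 4) := by simp [LL]
  fin_cases i <;> fin_cases j <;> fin_cases k <;>
    simp only [Fin.zero_eta, Fin.mk_one, Fin.reduceFinMk, hd, a10, a20, a30, a40, a21, a31, a41,
      a32, a42, a43] <;>
    first
    | ring1
    | linear_combination k012
    | linear_combination k013
    | linear_combination k014
    | linear_combination k023
    | linear_combination k024
    | linear_combination k034
    | linear_combination k123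
    | linear_combination k124
    | linear_combination k134
    | linear_combination k234
    | linear_combination -k012
    | linear_combination -k013
    | linear_combination -k014
    | linear_combination -k023
    | linear_combination -k024
    | linear_combination -k034
    | linear_combination -k123
    | linear_combination -k124
    | linear_combination -k134
    | linear_combination -k234

/-- the second vector of the cone in the plane -/
theorem cof_eq {z : Fin 5 → ℤ} {v : Fin 3 → ℤ} (h : ∀ k, ∑ i, z i * tg v k i = 0)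
    (hc : cof z = 0) (hz : z ≠ 0) : ∃ u : Fin 3 → ℤ, Unimod u ∧ In (LL v z) (pf u) ∧
      nz u ≤ 2 * nz z := by
  have hin : In (LL v z) (sv z) := by
    intro i j k
    have := two_in_sv h hc i j k
    omega
  have m00 : 4 * z 0 * z 2 - z 1 * z 1 = 0 := congrFun (congrFun hc 0) 0
  have m01 : 2 * z 3 * z 0 + z 1 * z 2 = 0 := congrFun (congrFun hc 0) 1
  have m02 : z 3 * z 1 + 2 * z 2 * z 2 = 0 := congrFun (congrFun hc 0) 2
  have m11 : 4 * z 0 * z 4 - z 2 * z 2 = 0 := congrFun (congrFun hc 1) 1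
  have m12 : 2 * z 4 * z 1 + z 3 * z 2 = 0 := congrFun (congrFun hc 1) 2
  have m22 : 4 * z 2 * z 4 - z 3 * z 3 = 0 := congrFun (congrFun hc 2) 2
  have hz' := nz_nonneg z
  have fin : ∀ (u : Fin 3 → ℤ) (s : ℤ), s ≠ 0 → pf u = s • sv z → sv z ≠ 0 → nz u ≤ 2 * nz z →
      ∃ u : Fin 3 → ℤ, Unimod u ∧ In (LL v z) (pf u) ∧ nz u ≤ 2 * nz z := by
    intro u s hs hu hsv hle
    have hu0 : u ≠ 0 := by
      rintro rfl
      apply hsv
      have h0 : pf (0 : Fin 3 → ℤ) = 0 := by
        funext i
        fin_cases i <;> simp [pf]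
      rw [h0] at hu
      funext i
      have := congrFun hu i
      rw [Pi.zero_apply, Pi.smul_apply, smul_eq_mul] at this
      exact (mul_eq_zero.1 this.symm).resolve_left hs
    obtain ⟨g, u', hg, hu', hgu⟩ := exists_prim hu0
    refine ⟨u', hu', ?_, ?_⟩
    · have e1 : In (LL v z) (pf u) := by
        rw [hu]
        exact (in_smul_iff hs).2 hin
      rw [hgu, pf_smul] at e1
      exact (in_smul_iff (pow_ne_zero 2 hg.ne')).1 e1
    · refine le_trans ?_ hle
      rw [hgu, nz_smul]
      have : (1 : ℝ) ≤ |(g : ℝ)| := by exact_mod_cast Int.one_le_abs hg.ne'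
      nlinarith [nz_nonneg u']
  have bd : ∀ (u : Fin 3 → ℤ), (∀ i, ∃ j, |(u i : ℝ)| ≤ 2 * |(z j : ℝ)|) → nz u ≤ 2 * nz z := by
    intro u hu
    rw [nz_le_iff (by positivity)]
    intro i
    obtain ⟨j, hj⟩ := hu i
    exact hj.trans (by linarith [le_nz z j])
  have two : ∀ x : ℤ, |((2 * x : ℤ) : ℝ)| ≤ 2 * |(x : ℝ)| := fun x => by
    push_cast
    rw [abs_mul]
    norm_num
  have one : ∀ x : ℤ, |((-x : ℤ) : ℝ)| ≤ 2 * |(x : ℝ)| := fun x => by
    push_cast
    rw [abs_neg]
    linarith [abs_nonneg (x : ℝ)]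
  by_cases h4 : z 4 = 0
  · by_cases h2 : z 2 = 0
    · by_cases h0 : z 0 = 0
      · exfalso
        apply hz
        have h1 : z 1 = 0 := by
          rw [h0, h2] at m00
          simpa using m00
        have h3 : z 3 = 0 := by
          rw [h4, h2] at m22
          simpa using m22
        funext i
        fin_cases i <;> assumption
      · refine fin ![2 * z 0, -z 1, -z 2] (2 * z 0) (by simpa using h0) ?_ ?_ (bd _ ?_)
        · funext i
          fin_cases i <;> simp [pf, sv] <;>
            first | ring1 | linear_combination m11 | linear_combination -m11 |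
              linear_combination m01 | linear_combination -m01 | linear_combination m00 |
              linear_combination -m00
        · intro hsv
          have := congrFun hsv 4
          simp [sv] at this
          exact h0 this
        · intro i
          fin_cases i
          · exact ⟨0, two _⟩
          · exact ⟨1, one _⟩
          · exact ⟨2, one _⟩
    · refine fin ![-z 1, 2 * z 2, -z 3] (2 * z 2) (by simpa using h2) ?_ ?_ (bd _ ?_)
      · funext i
        fin_cases i <;> simp [pf, sv] <;>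
          first | ring1 | linear_combination m22 | linear_combination -m22 |
            linear_combination m00 | linear_combination -m00 | linear_combination m02 |
            linear_combination -m02
      · intro hsv
        have := congrFun hsv 2
        simp [sv] at this
        exact h2 this
      · intro i
        fin_cases i
        · exact ⟨1, one _⟩
        · exact ⟨2, two _⟩
        · exact ⟨3, one _⟩
  · refine fin ![-z 2, -z 3, 2 * z 4] (2 * z 4) (by simpa using h4) ?_ ?_ (bd _ ?_)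
    · funext i
      fin_cases i <;> simp [pf, sv] <;>
        first | ring1 | linear_combination m22 | linear_combination -m22 |
          linear_combination m12 | linear_combination -m12 | linear_combination m11 |
          linear_combination -m11
    · intro hsv
      have := congrFun hsv 0
      simp [sv] at this
      exact h4 this
    · intro i
      fin_cases i
      · exact ⟨2, one _⟩
      · exact ⟨3, one _⟩
      · exact ⟨4, two _⟩

/-- the planes on rational lines: a small vector -/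
theorem exists_small {w : Fin 5 × Fin 5 → ℤ} (hw : w ∈ VV) (hU : ¬ UU w) :
    ∃ v : Fin 3 → ℤ, Unimod v ∧ In w (pf v) ∧ nz v ^ 2 ≤ 170 * nz w := by
  unfold UU at hU
  push Not at hU
  obtain ⟨x, hx, hin, hm⟩ := hU
  obtain ⟨v, hv, hxv⟩ := cone_pf hx hm
  have hinv : In w (pf v) := by
    rcases hxv with rfl | rfl
    · exact hin
    · exact in_neg hin
  by_cases hle : nz v ^ 2 ≤ 170 * nz w
  · exact ⟨v, hv, hinv, hle⟩
  push Not at hle
  have hwpos : 1 ≤ nz w := one_le_nz' hw.1
  have hvpos : 1 ≤ nz v := one_le_nz' hv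
  obtain ⟨y, hiso, hwy⟩ := VV_basis hw (pf_unimod hv) hinv
  set z := ml v y with hz
  have hwz : w = LL v z := by rw [hwy, hz, wedge_pf]
  have htg := ml_tg hiso
  rw [← hz] at htg
  have hz0 : z ≠ 0 := by
    intro h0
    rw [h0, LL_zero] at hwz
    exact unimod_ne hw.1 hwz
  have h1 := nz_LL_ge v z
  rw [← hwz] at h1
  have hz1 : 1 ≤ nz z := one_le_nz hz0
  by_cases hc : cof z = 0
  · obtain ⟨u, hu, hinu, hule⟩ := cof_eq htg hc hz0
    refine ⟨u, hu, hwz ▸ hinu, ?_⟩
    have e1 : nz u ^ 2 ≤ 4 * nz z ^ 2 := by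
      have := nz_nonneg u
      nlinarith
    have e2 : nz v ^ 2 * nz z ^ 2 ≤ 3600 * nz w ^ 2 := by
      have := mul_self_le_mul_self (by positivity) h1
      nlinarith
    have e3 : 170 * nz w * nz z ^ 2 ≤ 3600 * nz w ^ 2 := by
      have : 0 ≤ nz z ^ 2 := by positivity
      nlinarith
    have e4 : 170 * nz z ^ 2 ≤ 3600 * nz w := by
      have : nz w * (170 * nz z ^ 2) ≤ nz w * (3600 * nz w) := by nlinarith
      exact le_of_mul_le_mul_left this (by linarith)
    linarith
  · have e1 := cof_ne hv htg hc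
    exfalso
    have e2 : nz v ^ 2 * nz z ^ 2 ≤ 3600 * nz w ^ 2 := by
      have := mul_self_le_mul_self (by positivity) h1
      nlinarith
    have e3 : nz v ^ 2 * nz v ^ 2 ≤ 18000 * nz w ^ 2 := by
      have : 0 ≤ nz v ^ 2 := by positivity
      nlinarith
    have e4 := mul_self_lt_mul_self (by positivity) hle
    nlinarith

end Pool.Agent.KS6_53.V5
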