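import Pool.Agent.KS6_53.V5.Alg2

set_option autoImplicit false

namespace Pool.Agent.KS6_53.V5

open Finset

section

variable {R : Type*} [CommRing R]

theorem exists_unit_of_sum [IsLocalRing R] {ι : Type*} (s : Finset ι) (f : ι → R)
    (h : ∑ i ∈ s, f i = 1) : ∃ i ∈ s, IsUnit (f i) := by
  by_contra hc
  push Not at hc
  have : (1 : R) ∈ IsLocalRing.maximalIdeal R := by
    rw [← h]
    exact Ideal.sum_mem _ fun i hi => (IsLocalRing.mem_maximalIdeal _).2 (hc i hi)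
  exact (Ideal.ne_top_iff_one _).1 (IsLocalRing.maximalIdeal.isMaximal R).ne_top this

theorem unimod_unit [IsLocalRing R] {ι : Type*} [Fintype ι] {x : ι → R} (h : Unimod x) :
    ∃ i, IsUnit (x i) := by
  obtain ⟨a, ha⟩ := h
  obtain ⟨i, -, hi⟩ := exists_unit_of_sum _ _ ha
  exact ⟨i, isUnit_of_mul_isUnit_right hi⟩

theorem unimod_of_unit {ι : Type*} [Fintype ι] [DecidableEq ι] {x : ι → R} {i : ι}
    (h : IsUnit (x i)) : Unimod x := by
  obtain ⟨u, hu⟩ := h
  refine ⟨Pi.single i ↑u⁻¹, ?_⟩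
  rw [Finset.sum_eq_single i]
  · simp [← hu]
  · intro j _ hj
    simp [Pi.single_apply, hj]
  · simp

theorem pf_unimod {l : Fin 3 → R} (h : Unimod l) : Unimod (pf l) := by
  obtain ⟨e, he⟩ := h
  rw [Fin.sum_univ_three] at he
  -- cubic monomials: l0^3,l0^2l1,l0^2l2,l0l1^2,l0l1l2,l0l2^2,l1^3,l1^2l2,l1l2^2,l2^3
  refine ⟨![3 * e 0 * e 2 ^ 2 * l 0 + 3 * e 1 * e 2 ^ 2 * l 1 + e 2 ^ 3 * l 2,
    -(3 * e 1 ^ 2 * e 2 * l 1 + 6 * e 0 * e 1 * e 2 * l 0 + e 1 ^ 3 * l 0),
    e 1 ^ 3 * l 1,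
    -(3 * e 0 * e 1 ^ 2 * l 1),
    e 0 ^ 3 * l 0 + 3 * e 0 ^ 2 * e 1 * l 1 + 3 * e 0 ^ 2 * e 2 * l 2], ?_⟩
  rw [Fin.sum_univ_five]
  simp [pf]
  linear_combination ((e 0 * l 0 + e 1 * l 1 + e 2 * l 2) ^ 2 +
    (e 0 * l 0 + e 1 * l 1 + e 2 * l 2) + 1) * he

/-- all points of the cone are of the form `c • pf l` -/
def Par (R : Type*) [CommRing R] : Prop := ∀ x : Fin 5 → R, Unimod x → mm x = 0 →
  ∃ (c : R) (l : Fin 3 → R), IsUnit c ∧ Unimod l ∧ x = c • pf l

theorem par_of_local [IsLocalRing R] : Par R := by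
  intro x hx hm
  obtain ⟨e, he⟩ := mu_unimod hx
  obtain ⟨p, -, hp⟩ := exists_unit_of_sum _ _ he
  obtain ⟨i, hi⟩ : ∃ i, IsUnit (mu x p i) := by
    by_contra hc
    push Not at hc
    have : (∑ i, e p i * mu x p i) ∈ IsLocalRing.maximalIdeal R :=
      Ideal.sum_mem _ fun i _ => Ideal.mul_mem_left _ _ ((IsLocalRing.mem_maximalIdeal _).2 (hc i))
    exact (IsLocalRing.mem_maximalIdeal _).1 this hp
  have hl : Unimod (mu x p) := unimod_of_unit hi
  have h0 : ml (mu x p) x = 0 := by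
    funext j
    rw [ml_mu, hm]
    rfl
  have hw : wedge (pf (mu x p)) x = 0 := by rw [wedge_pf, h0, LL_zero]
  obtain ⟨k, hk⟩ := unimod_unit (pf_unimod hl)
  obtain ⟨u, hu⟩ := hk
  have hxe : x = (x k * ↑u⁻¹) • pf (mu x p) := by
    funext j
    have h1 := congrFun hw (k, j)
    simp only [wedge, Pi.zero_apply] at h1
    rw [← hu] at h1
    have h2 : (u : R) * x j = x k * pf (mu x p) j := by linear_combination h1
    calc x j = ↑u⁻¹ * ((u : R) * x j) := by rw [← mul_assoc, Units.inv_mul, one_mul]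
      _ = _ := by rw [h2, Pi.smul_apply, smul_eq_mul]; ring
  refine ⟨_, _, ?_, hl, hxe⟩
  obtain ⟨j, hj⟩ := unimod_unit hx
  rw [hxe, Pi.smul_apply, smul_eq_mul] at hj
  exact isUnit_of_mul_isUnit_left hj

theorem par_prod {S : Type*} [CommRing S] (h1 : Par R) (h2 : Par S) : Par (R × S) := by
  intro x hx hm
  have hx1 : Unimod (fun i => (x i).1) := by
    obtain ⟨a, ha⟩ := hx
    refine ⟨fun i => (a i).1, ?_⟩
    have := congrArg Prod.fst ha
    simpa [Fin.sum_univ_five] using this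
  have hx2 : Unimod (fun i => (x i).2) := by
    obtain ⟨a, ha⟩ := hx
    refine ⟨fun i => (a i).2, ?_⟩
    have := congrArg Prod.snd ha
    simpa [Fin.sum_univ_five] using this
  have hm1 : mm (fun i => (x i).1) = 0 := by
    funext ⟨i, j⟩
    have := congrArg Prod.fst (congrFun hm (i, j))
    fin_cases i <;> fin_cases j <;> simpa [mm, wedge, hes] using this
  have hm2 : mm (fun i => (x i).2) = 0 := by
    funext ⟨i, j⟩
    have := congrArg Prod.snd (congrFun hm (i, j))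
    fin_cases i <;> fin_cases j <;> simpa [mm, wedge, hes] using this
  obtain ⟨c, l, hc, ⟨a, ha⟩, he⟩ := h1 _ hx1 hm1
  obtain ⟨c', l', hc', ⟨a', ha'⟩, he'⟩ := h2 _ hx2 hm2
  refine ⟨(c, c'), fun i => (l i, l' i), Prod.isUnit_iff.2 ⟨hc, hc'⟩, ⟨fun i => (a i, a' i), ?_⟩, ?_⟩
  · rw [Fin.sum_univ_three] at ha ha' ⊢
    exact Prod.ext (by simpa using ha) (by simpa using ha')
  · funext i
    have e1 := congrFun he i
    have e2 := congrFun he' i
    refine Prod.ext ?_ ?_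
    · rw [e1]
      fin_cases i <;> simp [pf]
    · rw [e2]
      fin_cases i <;> simp [pf]

theorem map_mm {S : Type*} [CommRing S] (f : R →+* S) (x : Fin 5 → R) (p : Fin 5 × Fin 5) :
    mm (fun i => f (x i)) p = f (mm x p) := by
  obtain ⟨i, j⟩ := p
  fin_cases i <;> fin_cases j <;> simp [mm, wedge, hes]

theorem map_pf {S : Type*} [CommRing S] (f : R →+* S) (l : Fin 3 → R) (i : Fin 5) :
    pf (fun i => f (l i)) i = f (pf l i) := by
  fin_cases i <;> simp [pf]

theorem map_unimod {S : Type*} [CommRing S] (f : R →+* S) {ι : Type*} [Fintype ι] {x : ι → R}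
    (h : Unimod x) : Unimod (fun i => f (x i)) := by
  obtain ⟨a, ha⟩ := h
  refine ⟨fun i => f (a i), ?_⟩
  rw [← map_one f, ← ha, map_sum]
  simp

theorem par_of_equiv {S : Type*} [CommRing S] (f : R ≃+* S) (h : Par S) : Par R := by
  intro x hx hm
  obtain ⟨c, l, hc, hl, he⟩ := h (fun i => f (x i)) (map_unimod (f : R →+* S) hx) (by
    funext p
    have := map_mm (f : R →+* S) x p
    simp only [RingHom.coe_coe] at this
    rw [this, hm]
    simp)
  refine ⟨f.symm c, fun i => f.symm (l i), hc.map f.symm, map_unimod (f.symm : S →+* R) hl, ?_⟩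
  funext i
  have h1 := congrFun he i
  have h2 := map_pf (f.symm : S →+* R) l i
  simp only [RingHom.coe_coe] at h2
  rw [Pi.smul_apply, h2, smul_eq_mul, ← map_mul]
  rw [Pi.smul_apply, smul_eq_mul] at h1
  rw [← h1, RingEquiv.symm_apply_apply]

end

end Pool.Agent.KS6_53.V5
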