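import Pool.Agent.KS6_53.V5.Defs

set_option autoImplicit false

namespace Pool.Agent.KS6_53.V5

open Finset Filter Topology

section per

variable {ι : Type*} [Fintype ι]

theorem finite_box' {ι : Type*} [Finite ι] (a : ι → ℝ) (L : ℝ) :
    {x : ι → ℤ | ∀ i, |(x i : ℝ) - a i| ≤ L}.Finite := by
  refine (Set.Finite.pi' fun i : ι => Set.finite_Icc (⌈a i - L⌉) (⌊a i + L⌋)).subset ?_
  intro x hx i
  have h := abs_le.1 (hx i)
  exact ⟨Int.ceil_le.2 (by linarith), Int.le_floor.2 (by linarith)⟩

/-- periodization -/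
noncomputable def perz (F : (ι → ℝ) → ℝ) (u : ι → ℝ) : ℝ :=
  ∑ᶠ m : ι → ℤ, F (fun i => u i + m i)

theorem supp_bdd {F : (ι → ℝ) → ℝ} (hF : HasCompactSupport F) :
    ∃ A : ℝ, 0 < A ∧ ∀ u, F u ≠ 0 → ∀ i, |u i| ≤ A := by
  obtain ⟨A, hA⟩ := (hF.isCompact.isBounded).exists_norm_le
  refine ⟨max A 1, by positivity, fun u hu i => ?_⟩
  have h1 : ‖u‖ ≤ A := hA u (subset_tsupport _ hu)
  have h2 := norm_le_pi_norm u i
  rw [Real.norm_eq_abs] at h2
  exact (h2.trans h1).trans (le_max_left _ _)

theorem perz_continuous {F : (ι → ℝ) → ℝ} (hc : Continuous F) (hF : HasCompactSupport F) :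
    Continuous (perz F) := by
  obtain ⟨A, hA, hs⟩ := supp_bdd hF
  refine continuous_finsum (fun m => hc.comp (by fun_prop)) ?_
  intro u
  refine ⟨Metric.ball u 1, Metric.ball_mem_nhds u one_pos, ?_⟩
  refine (finite_box' (fun i => - u i) (A + 1)).subset ?_
  rintro m ⟨v, hv, hv2⟩ i
  have h1 := hs _ hv i
  have h2 : |v i - u i| ≤ 1 := by
    have := norm_le_pi_norm (v - u) i
    rw [Real.norm_eq_abs, Pi.sub_apply] at this
    rw [Metric.mem_ball, dist_eq_norm] at hv2
    linarith
  have h3 : (m i : ℝ) - -u i = (v i + m i) - (v i - u i) := by ring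
  rw [h3]
  exact (abs_sub _ _).trans (by linarith)

omit [Fintype ι] in
theorem perz_add (F : (ι → ℝ) → ℝ) (u : ι → ℝ) (n : ι → ℤ) :
    perz F (fun i => u i + n i) = perz F u := by
  unfold perz
  rw [← finsum_comp_equiv (Equiv.addLeft n) (f := fun m : ι → ℤ => F fun i => u i + m i)]
  refine finsum_congr fun m => ?_
  congr 1
  funext i
  simp [add_assoc]

/-- the projection to the torus -/
def tpr (u : ι → ℝ) : UnitAddTorus ι := fun i => (u i : UnitAddCircle)

omit [Fintype ι] in
theorem tpr_quot : IsQuotientMap (tpr (ι := ι)) := by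
  have h1 : IsOpenMap (tpr (ι := ι)) :=
    IsOpenMap.piMap (f := fun _ : ι => ((↑) : ℝ → UnitAddCircle))
      (fun _ => QuotientAddGroup.isOpenMap_coe)
      (Filter.Eventually.of_forall fun _ => QuotientAddGroup.mk_surjective)
  refine h1.isQuotientMap ?_ ?_
  · exact continuous_pi fun i => (AddCircle.continuous_mk' 1).comp (continuous_apply i)
  · intro t
    choose u hu using fun i => QuotientAddGroup.mk_surjective (t i)
    exact ⟨u, funext hu⟩

omit [Fintype ι] in
theorem perz_tpr (F : (ι → ℝ) → ℝ) {u v : ι → ℝ} (h : tpr u = tpr v) : perz F u = perz F v := by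
  have h1 : ∀ i, ∃ n : ℤ, u i = v i + n := by
    intro i
    have h2 : ((u i : ℝ) : UnitAddCircle) = (v i : UnitAddCircle) := congrFun h i
    have h3 := (QuotientAddGroup.eq_iff_sub_mem (N := AddSubgroup.zmultiples (1 : ℝ))).1 h2
    obtain ⟨n, hn⟩ := AddSubgroup.mem_zmultiples_iff.1 h3
    refine ⟨n, ?_⟩
    simp at hn
    linarith
  choose n hn using h1
  rw [show u = fun i => v i + n i from funext hn, perz_add]

/-- the periodization as a function on the torus -/
theorem exists_tor {F : (ι → ℝ) → ℝ} (hc : Continuous F) (hF : HasCompactSupport F) :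
    ∃ g : C(UnitAddTorus ι, ℂ), ∀ u, g (tpr u) = perz F u := by
  have hsurj := (tpr_quot (ι := ι)).surjective
  let g : UnitAddTorus ι → ℂ := fun t => perz F (Function.surjInv hsurj t)
  have hg : ∀ u, g (tpr u) = perz F u := fun u => by
    simp only [g]
    rw [perz_tpr F (Function.surjInv_eq hsurj (tpr u))]
  refine ⟨⟨g, ?_⟩, hg⟩
  rw [tpr_quot.continuous_iff]
  have : g ∘ tpr = fun u => (perz F u : ℂ) := funext hg
  rw [this]
  exact Complex.continuous_ofReal.comp (perz_continuous hc hF)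

/-- quotient and remainder -/
noncomputable def qrEquiv (ι : Type*) (q : ℕ) [NeZero q] : (ι → ZMod q) × (ι → ℤ) ≃ (ι → ℤ) where
  toFun z := fun i => ((z.1 i).val : ℤ) + q * z.2 i
  invFun x := (red q x, fun i => x i / q)
  left_inv := by
    rintro ⟨x, m⟩
    have hq : (0 : ℤ) < q := by exact_mod_cast NeZero.pos q
    refine Prod.ext ?_ ?_
    · funext i
      simp [red]
    · funext i
      have h1 : (((x i).val : ℕ) : ℤ) < q := by exact_mod_cast ZMod.val_lt (x i)
      have h2 : (0 : ℤ) ≤ (x i).val := by positivity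
      change (((x i).val : ℤ) + q * m i) / q = m i
      rw [Int.add_mul_ediv_left _ _ hq.ne', Int.ediv_eq_zero_of_lt h2 h1, zero_add]
  right_inv := by
    intro x
    funext i
    change (((red q x i).val : ℕ) : ℤ) + q * (x i / q) = x i
    rw [red, ZMod.val_intCast]
    exact Int.emod_add_mul_ediv (x i) q

theorem supp_fin {F : (ι → ℝ) → ℝ} (hF : HasCompactSupport F) {r : ℝ} (hr : 0 < r) (s : Set (ι → ℤ)) :
    {x : ι → ℤ | x ∈ s ∧ F (fun i => (x i : ℝ) / r) ≠ 0}.Finite := by
  obtain ⟨A, hA, hs⟩ := supp_bdd hF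
  refine (finite_box' (fun _ => 0) (A * r)).subset ?_
  rintro x ⟨-, hx⟩ i
  have h1 := hs _ hx i
  rw [abs_div, abs_of_pos hr, div_le_iff₀ hr] at h1
  simpa using h1

open Classical in
theorem fib_sum {F : (ι → ℝ) → ℝ} (hF : HasCompactSupport F) (q : ℕ) [NeZero q]
    (B : Set (ι → ZMod q)) :
    ∑ᶠ x ∈ {x : ι → ℤ | red q x ∈ B}, F (fun i => (x i : ℝ) / q) =
      ∑ x ∈ univ.filter (· ∈ B), perz F (fun i => ((x i).val : ℝ) / q) := by
  have hq : (0 : ℝ) < q := by exact_mod_cast NeZero.pos q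
  rw [finsum_mem_def, ← finsum_comp_equiv (qrEquiv ι q), finsum_curry, finsum_eq_sum_of_fintype,
    Finset.sum_filter]
  · refine Finset.sum_congr rfl fun x _ => ?_
    have h1 : ∀ m : ι → ℤ, red q (qrEquiv ι q (x, m)) = x := fun m =>
      (Prod.ext_iff.1 ((qrEquiv ι q).left_inv (x, m))).1
    split_ifs with hx
    · refine finsum_congr fun m => ?_
      rw [Set.indicator_of_mem (by rw [Set.mem_ofPred_eq, h1]; exact hx)]
      congr 1
      funext i
      change (((((x i).val : ℤ) + q * m i : ℤ)) : ℝ) / q = _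
      push_cast
      field_simp
    · refine finsum_eq_zero_of_forall_eq_zero fun m => ?_
      rw [Set.indicator_of_notMem (by rw [Set.mem_ofPred_eq, h1]; exact hx)]
  · refine ((supp_fin hF hq Set.univ).preimage (f := qrEquiv ι q)
      (qrEquiv ι q).injective.injOn).subset ?_
    intro z hz
    simp only [Set.mem_preimage, Set.mem_ofPred_eq, Set.mem_univ, true_and]
    intro h
    apply hz
    change Set.indicator _ _ _ = _
    by_cases hm : red q (qrEquiv ι q z) ∈ B
    · rw [Set.indicator_of_mem (by rw [Set.mem_ofPred_eq]; exact hm), h]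
    · rw [Set.indicator_of_notMem (by rw [Set.mem_ofPred_eq]; exact hm)]

end per

end Pool.Agent.KS6_53.V5
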