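import Pool.Agent.KS6_53.V5.Alg2
import Pool.Agent.KS6_53.V5.Cnt2

set_option autoImplicit false
set_option linter.style.haveILetI false

namespace Pool.Agent.KS6_53.V5

open Finset

section

variable {R : Type*} [CommRing R]

theorem unimod_of_wedge {x y : Fin 5 → R} (h : Unimod (wedge x y)) : Unimod x := by
  obtain ⟨c, hc⟩ := h
  refine ⟨fun i => ∑ j, (c (i, j) - c (j, i)) * y j, ?_⟩
  rw [← hc, Fintype.sum_prod_type]
  simp only [wedge, Fin.sum_univ_five]
  ring

theorem in_wedge_iff {x y z : Fin 5 → R} (hw : Unimod (wedge x y)) :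
    In (wedge x y) z ↔ ∃ a b : R, z = a • x + b • y := by
  constructor
  · intro h
    obtain ⟨c, hc⟩ := hw
    refine ⟨∑ p, c p * wedge z y p, ∑ p, c p * wedge x z p, ?_⟩
    funext k
    have h1 : ∀ p : Fin 5 × Fin 5, wedge x y p * z k = wedge z y p * x k + wedge x z p * y k := by
      rintro ⟨i, j⟩
      have := h i j k
      simp only [wedge] at this ⊢
      linear_combination this
    calc z k = (∑ p, c p * wedge x y p) * z k := by rw [hc, one_mul]
      _ = ∑ p, c p * (wedge x y p * z k) := by
        rw [Finset.sum_mul]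
        exact Finset.sum_congr rfl fun p _ => by ring
      _ = ∑ p, c p * (wedge z y p * x k + wedge x z p * y k) := by simp only [h1]
      _ = _ := by
        simp only [Pi.add_apply, Pi.smul_apply, smul_eq_mul, mul_add, Finset.sum_add_distrib,
          Finset.sum_mul, mul_assoc]
  · rintro ⟨a, b, rfl⟩ i j k
    simp only [wedge, Pi.add_apply, Pi.smul_apply, smul_eq_mul]
    ring

theorem comb_unique {x y : Fin 5 → R} (hw : Unimod (wedge x y)) {a b a' b' : R}
    (h : a • x + b • y = a' • x + b' • y) : a = a' ∧ b = b' := by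
  obtain ⟨c, hc⟩ := hw
  have h1 : ∀ p, (a - a') * wedge x y p = 0 := by
    rintro ⟨i, j⟩
    have e1 := congrFun h i
    have e2 := congrFun h j
    simp only [Pi.add_apply, Pi.smul_apply, smul_eq_mul] at e1 e2
    simp only [wedge]
    linear_combination y j * e1 - y i * e2
  have h2 : ∀ p, (b - b') * wedge x y p = 0 := by
    rintro ⟨i, j⟩
    have e1 := congrFun h i
    have e2 := congrFun h j
    simp only [Pi.add_apply, Pi.smul_apply, smul_eq_mul] at e1 e2
    simp only [wedge]
    linear_combination x i * e2 - x j * e1
  constructor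
  · have : a - a' = 0 := by
      calc a - a' = (a - a') * ∑ p, c p * wedge x y p := by rw [hc, mul_one]
        _ = ∑ p, c p * ((a - a') * wedge x y p) := by
          rw [Finset.mul_sum]
          exact Finset.sum_congr rfl fun p _ => by ring
        _ = 0 := by simp [h1]
    exact sub_eq_zero.1 this
  · have : b - b' = 0 := by
      calc b - b' = (b - b') * ∑ p, c p * wedge x y p := by rw [hc, mul_one]
        _ = ∑ p, c p * ((b - b') * wedge x y p) := by
          rw [Finset.mul_sum]
          exact Finset.sum_congr rfl fun p _ => by ring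
        _ = 0 := by simp [h2]
    exact sub_eq_zero.1 this

theorem unimod_comb {x y : Fin 5 → R} (hw : Unimod (wedge x y)) (a b : R) :
    Unimod (a • x + b • y) ↔ IsCoprime a b := by
  constructor
  · rintro ⟨e, he⟩
    refine ⟨∑ i, e i * x i, ∑ i, e i * y i, ?_⟩
    rw [← he, Finset.sum_mul, Finset.sum_mul, ← Finset.sum_add_distrib]
    refine Finset.sum_congr rfl fun i _ => ?_
    simp only [Pi.add_apply, Pi.smul_apply, smul_eq_mul]
    ring
  · rintro ⟨u, v, huv⟩
    refine unimod_of_wedge (y := (-v) • x + u • y) ?_
    rw [wedge_comb]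
    have : a * u - b * -v = 1 := by linear_combination huv
    rw [this, one_smul]
    exact hw

set_option maxHeartbeats 4000000 in
/-- the isotropic vectors are in the plane `mm x` -/
theorem in_mm {x y : Fin 5 → R} (h : Iso x y) : In (mm x) y := by
  obtain ⟨h0, h1, h2⟩ := h
  have key : ∀ p, ∑ i, mm x (qq p i) * y i = 0 := by
    intro p
    have e1 : ∀ l : Fin 3 → R, ∑ i, ml l x i * y i = l 0 * b0 x y + l 1 * b1 x y + l 2 * b2 x y := by
      intro l
      simp only [ml, b0, b1, b2, Fin.sum_univ_five]
      simp
      ring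
    have e2 : ∑ i, mm x (qq p i) * y i = ∑ i, ml (mu x p) x i * y i :=
      Finset.sum_congr rfl fun i _ => by rw [ml_mu]
    rw [e2, e1, h0, h1, h2]
    ring
  have hanti : ∀ i j, mm x (j, i) = - mm x (i, j) := by
    intro i j
    simp only [mm, wedge]
    ring
  have hdiag : ∀ i, mm x (i, i) = 0 := by
    intro i
    simp only [mm, wedge]
    ring
  have k01 := key (0, 1)
  have k02 := key (0, 2)
  have k03 := key (0, 3)
  have k04 := key (0, 4)
  have k12 := key (1, 2)
  have k13 := key (1, 3)
  have k14 := key (1, 4)
  have k23 := key (2, 3)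
  have k24 := key (2, 4)
  have k34 := key (3, 4)
  simp only [Fin.sum_univ_five, qq, Matrix.cons_val] at k01 k02 k03 k04 k12 k13 k14 k23 k24 k34
  simp only [hdiag] at k01 k02 k03 k04 k12 k13 k14 k23 k24 k34
  have a10 := hanti 0 1
  have a20 := hanti 0 2
  have a30 := hanti 0 3
  have a40 := hanti 0 4
  have a21 := hanti 1 2
  have a31 := hanti 1 3
  have a41 := hanti 1 4
  have a32 := hanti 2 3
  have a42 := hanti 2 4
  have a43 := hanti 3 4
  rw [In]
  intro i j k
  fin_cases i <;> fin_cases j <;> fin_cases k <;>
    simp only [Fin.zero_eta, Fin.mk_one, Fin.reduceFinMk, hdiag, a10, a20, a30, a40, a21, a31, a41,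
      a32, a42, a43] at k01 k02 k03 k04 k12 k13 k14 k23 k24 k34 ⊢ <;>
    first
    | ring1
    | linear_combination k01
    | linear_combination k02
    | linear_combination k03
    | linear_combination k04
    | linear_combination k12
    | linear_combination k13
    | linear_combination k14
    | linear_combination k23
    | linear_combination k24
    | linear_combination k34
    | linear_combination -k01
    | linear_combination -k02
    | linear_combination -k03
    | linear_combination -k04
    | linear_combination -k12
    | linear_combination -k13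
    | linear_combination -k14
    | linear_combination -k23
    | linear_combination -k24
    | linear_combination -k34

theorem hes_in {x y : Fin 5 → R} (hi : Iso x y) (hw : Unimod (wedge x y)) :
    ∃ a b : R, hes x = a • x + b • y := by
  rw [← in_wedge_iff hw]
  intro i j k
  have := in_mm hi i j k
  simp only [mm, wedge] at this ⊢
  linear_combination -this

/-- the polarization of `hes` -/
def hh (x y : Fin 5 → R) : Fin 5 → R :=
  ![-(2 * x 1 * y 1), -x 0 * y 3 - y 0 * x 3 - x 1 * y 2 - y 1 * x 2,
    x 0 * y 4 + y 0 * x 4 - x 1 * y 3 - y 1 * x 3 - 2 * x 2 * y 2,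
    -x 1 * y 4 - y 1 * x 4 - x 2 * y 3 - y 2 * x 3, -(2 * x 3 * y 3)]

theorem hes_comb (a b : R) (x y : Fin 5 → R) :
    hes (a • x + b • y) = a ^ 2 • hes x + (a * b) • hh x y + b ^ 2 • hes y := by
  funext i
  fin_cases i <;> simp [hes, hh] <;> ring

theorem hh_in {x y : Fin 5 → R} (hi : Iso x y) (hw : Unimod (wedge x y)) :
    ∃ a b : R, hh x y = a • x + b • y := by
  obtain ⟨a1, b1, h1⟩ := hes_in hi hw
  obtain ⟨a2, b2, h2⟩ := hes_in (iso_comm hi) (by
    rw [wedge_comm]
    obtain ⟨c, hc⟩ := hw
    exact ⟨fun p => -c p, by simpa using hc⟩)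
  have hi3 : Iso (x + y) y := by
    have := iso_comb 1 1 0 1 hi
    simpa using this
  have hw3 : wedge (x + y) y = wedge x y := by
    have := wedge_comb 1 1 0 1 x y
    simpa using this
  obtain ⟨a3, b3, h3⟩ := hes_in hi3 (by rw [hw3]; exact hw)
  have h4 := hes_comb 1 1 x y
  simp only [one_smul, one_pow, mul_one] at h4
  refine ⟨a3 - a1 - b2, a3 + b3 - b1 - a2, ?_⟩
  have h5 : hh x y = hes (x + y) - hes x - hes y := by rw [h4]; abel
  rw [h5, h1, h2, h3]
  funext i
  simp only [Pi.add_apply, Pi.sub_apply, Pi.smul_apply, smul_eq_mul]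
  ring

end

/-- no planes on the cone over a field -/
theorem no_plane {F : Type*} [Field F] {x y : Fin 5 → F} {a b : F} (h1 : hes x = a • x)
    (h2 : hh x y = a • y + b • x) (h3 : hes y = b • y) : wedge x y = 0 := by
  by_cases hab : a = 0 ∧ b = 0
  · obtain ⟨rfl, rfl⟩ := hab
    simp only [zero_smul, add_zero] at h1 h2 h3
    have x0 := congrFun h1 0
    have x2 := congrFun h1 2
    have x4 := congrFun h1 4
    have y0 := congrFun h3 0
    have y2 := congrFun h3 2
    have y4 := congrFun h3 4
    have z2 := congrFun h2 2
    simp [hes, hh] at x0 x2 x4 y0 y2 y4 z2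
    simp only [x0, x4, y0, y4, mul_zero, sub_zero] at x2 y2 z2
    have e02 : x 0 * y 2 - x 2 * y 0 = 0 := by
      apply pow_eq_zero_iff (two_ne_zero) |>.1
      linear_combination (-(x 0 ^ 2)) * y2 - y 0 ^ 2 * x2 + x 0 * y 0 * z2
    have e24 : x 2 * y 4 - x 4 * y 2 = 0 := by
      apply pow_eq_zero_iff (two_ne_zero) |>.1
      linear_combination (-(x 4 ^ 2)) * y2 - y 4 ^ 2 * x2 + x 4 * y 4 * z2
    have e04 : x 0 * y 4 - x 4 * y 0 = 0 := by
      apply pow_eq_zero_iff (two_ne_zero) |>.1
      linear_combination (x 0 * y 4 + y 0 * x 4 + 2 * x 2 * y 2) * z2 - 4 * x 0 * x 4 * y2 -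
        4 * y 2 ^ 2 * x2
    funext ⟨i, j⟩
    fin_cases i <;> fin_cases j <;> simp [wedge, x0, x4, y0, y4] <;>
      first
      | ring1
      | linear_combination e02
      | linear_combination e24
      | linear_combination e04
      | linear_combination -e02
      | linear_combination -e24
      | linear_combination -e04
  · set u : Fin 5 → F := b • x - a • y with hu
    have hu0 : hes u = 0 := by
      have := hes_comb b (-a) x y
      rw [hu, sub_eq_add_neg, ← neg_smul, this, h1, h2, h3]
      funext i
      simp only [Pi.add_apply, Pi.smul_apply, smul_eq_mul, Pi.zero_apply]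
      ring
    have u1 : u 1 = 0 := by
      have := congrFun hu0 0
      simpa [hes] using this
    have u3 : u 3 = 0 := by
      have := congrFun hu0 4
      simpa [hes] using this
    have hx : hh u x = a • u := by
      have e1 : hh u x = (2 * b) • hes x - a • hh x y := by
        rw [hu]
        funext i
        fin_cases i <;> simp [hes, hh] <;> ring
      rw [e1, h1, h2, hu]
      funext i
      simp only [Pi.add_apply, Pi.smul_apply, smul_eq_mul, Pi.sub_apply]
      ring
    have hy : hh u y = b • u := by
      have e1 : hh u y = b • hh x y - (2 * a) • hes y := by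
        rw [hu]
        funext i
        fin_cases i <;> simp [hes, hh] <;> ring
      rw [e1, h3, h2, hu]
      funext i
      simp only [Pi.add_apply, Pi.smul_apply, smul_eq_mul, Pi.sub_apply]
      ring
    have u0 : u 0 = 0 := by
      have e1 := congrFun hx 0
      have e2 := congrFun hy 0
      simp [hh, u1] at e1 e2
      tauto
    have u4 : u 4 = 0 := by
      have e1 := congrFun hx 4
      have e2 := congrFun hy 4
      simp [hh, u3] at e1 e2
      tauto
    have u2 : u 2 = 0 := by
      have e1 := congrFun hu0 2
      simpa [hes, u0, u1, u3, u4] using e1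
    have hu' : ∀ i, b * x i = a * y i := by
      intro i
      have : u i = 0 := by fin_cases i <;> assumption
      rw [hu] at this
      simp only [Pi.sub_apply, Pi.smul_apply, smul_eq_mul] at this
      linear_combination this
    have ha : ∀ p, a * wedge x y p = 0 := by
      rintro ⟨i, j⟩
      simp only [wedge]
      linear_combination -(x i) * hu' j + x j * hu' i
    have hb : ∀ p, b * wedge x y p = 0 := by
      rintro ⟨i, j⟩
      simp only [wedge]
      linear_combination (y j) * hu' i - y i * hu' j
    funext p
    have e1 := ha p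
    have e2 := hb p
    rw [Pi.zero_apply]
    rcases mul_eq_zero.1 e1 with h | h
    · rcases mul_eq_zero.1 e2 with h' | h'
      · exact absurd ⟨h, h'⟩ hab
      · exact h'
    · exact h

end Pool.Agent.KS6_53.V5
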