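import Mathlib

set_option autoImplicit false

namespace Pool.Agent.KS6_53.V5

open Finset

/-- three zeros of a quadratic polynomial in a short interval -/
theorem three_zeros {a b c d : ℤ} {x y z : ℤ} (hx : d ∣ a * x ^ 2 + b * x + c)
    (hy : d ∣ a * y ^ 2 + b * y + c) (hz : d ∣ a * z ^ 2 + b * z + c) :
    d ∣ a * ((y - x) * (z - x) * (z - y)) := by
  have : a * ((y - x) * (z - x) * (z - y)) = (a * x ^ 2 + b * x + c) * (z - y) -
      (a * y ^ 2 + b * y + c) * (z - x) + (a * z ^ 2 + b * z + c) * (y - x) := by ring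
  rw [this]
  exact dvd_add (dvd_sub (Dvd.dvd.mul_right hx _) (Dvd.dvd.mul_right hy _)) (Dvd.dvd.mul_right hz _)

theorem card_block_le (a b c : ℤ) (ha : a ≠ 0) (d L s : ℕ) (hL : |a| * (L : ℤ) ^ 3 < d) :
    ((Finset.Ico s (s + L)).filter fun k : ℕ => (d : ℤ) ∣ a * (k : ℤ) ^ 2 + b * k + c).card ≤ 2 := by
  by_contra hc
  push Not at hc
  obtain ⟨x, hx, y, hy, z, hz, hxy, hxz, hyz⟩ := Finset.two_lt_card.1 hc
  simp only [Finset.mem_filter, Finset.mem_Ico] at hx hy hz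
  have h1 := three_zeros hx.2 hy.2 hz.2
  have h2 : a * (((y : ℤ) - x) * (z - x) * (z - y)) ≠ 0 := by
    have e1 : ((y : ℤ) - x) ≠ 0 := by omega
    have e2 : ((z : ℤ) - x) ≠ 0 := by omega
    have e3 : ((z : ℤ) - y) ≠ 0 := by omega
    exact mul_ne_zero ha (mul_ne_zero (mul_ne_zero e1 e2) e3)
  have h3 := Int.le_of_dvd (abs_pos.2 h2) ((dvd_abs _ _).2 h1)
  rw [abs_mul, abs_mul, abs_mul] at h3
  have e1 : |(y : ℤ) - x| ≤ L := by rw [abs_le]; omega
  have e2 : |(z : ℤ) - x| ≤ L := by rw [abs_le]; omega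
  have e3 : |(z : ℤ) - y| ≤ L := by rw [abs_le]; omega
  have h4 : |a| * (|(y : ℤ) - x| * |(z : ℤ) - x| * |(z : ℤ) - y|) ≤ |a| * (L : ℤ) ^ 3 := by
    refine mul_le_mul_of_nonneg_left ?_ (abs_nonneg a)
    calc |(y : ℤ) - x| * |(z : ℤ) - x| * |(z : ℤ) - y| ≤ (L : ℤ) * L * L :=
          mul_le_mul (mul_le_mul e1 e2 (abs_nonneg _) (by positivity)) e3 (abs_nonneg _)
            (by positivity)
      _ = (L : ℤ) ^ 3 := by ring
  linarith

/-- the number of zeros of a quadratic polynomial modulo `d` -/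
theorem card_zeros_le (a b c : ℤ) (ha : a ≠ 0) (d : ℕ) (hd : 0 < d) :
    (((Finset.range d).filter fun k : ℕ => (d : ℤ) ∣ a * (k : ℤ) ^ 2 + b * k + c).card : ℝ) ≤
      (8 * |a| + 2 : ℤ) * (d : ℝ) ^ (2 / 3 : ℝ) := by
  set S := (Finset.range d).filter fun k : ℕ => (d : ℤ) ∣ a * (k : ℤ) ^ 2 + b * k + c with hS
  have hd' : (0 : ℝ) < d := by exact_mod_cast hd
  have ha' : (0 : ℝ) < |(a : ℝ)| := abs_pos.2 (by exact_mod_cast ha)
  have ha1 : (1 : ℝ) ≤ |(a : ℝ)| := by exact_mod_cast Int.one_le_abs ha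
  set t : ℝ := (d / (2 * |(a : ℝ)|)) ^ (1 / 3 : ℝ) with ht
  have ht0 : 0 < t := by positivity
  have ht3 : t ^ 3 = d / (2 * |(a : ℝ)|) := by
    rw [ht, ← Real.rpow_natCast, ← Real.rpow_mul (by positivity)]
    norm_num
  have hd23 : (d : ℝ) ^ (2 / 3 : ℝ) = (2 * |(a : ℝ)|) ^ (2 / 3 : ℝ) * t ^ 2 := by
    rw [ht, ← Real.rpow_natCast, ← Real.rpow_mul (by positivity),
      show (1 / 3 : ℝ) * ((2 : ℕ) : ℝ) = 2 / 3 by norm_num, ← Real.mul_rpow (by positivity)
      (by positivity)]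
    congr 1
    field_simp
  have hd1 : (1 : ℝ) ≤ (d : ℝ) ^ (2 / 3 : ℝ) :=
    Real.one_le_rpow (by exact_mod_cast hd) (by norm_num)
  push_cast
  by_cases h1 : t < 1
  · -- `d` is small
    have hsm : (d : ℝ) ≤ 2 * |(a : ℝ)| := by
      have : t ^ 3 < 1 := pow_lt_one₀ ht0.le h1 (by norm_num)
      rw [ht3, div_lt_one (by positivity)] at this
      exact this.le
    calc (S.card : ℝ) ≤ d := by
          exact_mod_cast (Finset.card_filter_le _ _).trans (Finset.card_range d).le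
      _ ≤ (8 * |(a : ℝ)| + 2) * 1 := by linarith
      _ ≤ _ := mul_le_mul_of_nonneg_left hd1 (by positivity)
  · push Not at h1
    set L : ℕ := ⌊t⌋₊ with hL
    have hL1 : 1 ≤ L := Nat.le_floor (by exact_mod_cast h1)
    have hLt : (L : ℝ) ≤ t := Nat.floor_le ht0.le
    have hL2 : t ≤ 2 * L := by
      have : t < L + 1 := Nat.lt_floor_add_one t
      have : (1 : ℝ) ≤ L := by exact_mod_cast hL1
      linarith
    have hcond : |a| * (L : ℤ) ^ 3 < d := by
      have : |(a : ℝ)| * (L : ℝ) ^ 3 < d := by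
        calc |(a : ℝ)| * (L : ℝ) ^ 3 ≤ |(a : ℝ)| * t ^ 3 :=
              mul_le_mul_of_nonneg_left (pow_le_pow_left₀ (by positivity) hLt 3) ha'.le
          _ = d / 2 := by rw [ht3]; field_simp
          _ < d := by linarith
      exact_mod_cast this
    have hcov : S ⊆ (Finset.range (d / L + 1)).biUnion fun j =>
        (Finset.Ico (j * L) (j * L + L)).filter fun k : ℕ =>
          (d : ℤ) ∣ a * (k : ℤ) ^ 2 + b * k + c := by
      intro k hk
      simp only [hS, Finset.mem_filter, Finset.mem_range] at hk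
      simp only [Finset.mem_biUnion, Finset.mem_range, Finset.mem_filter, Finset.mem_Ico]
      refine ⟨k / L, ?_, ⟨?_, ?_⟩, hk.2⟩
      · exact Nat.lt_succ_of_le (Nat.div_le_div_right hk.1.le)
      · exact Nat.div_mul_le_self k L
      · have := Nat.lt_div_mul_add (a := k) (b := L) (by omega)
        omega
    have h2 : S.card ≤ (d / L + 1) * 2 := by
      calc S.card ≤ _ := Finset.card_le_card hcov
        _ ≤ ∑ j ∈ Finset.range (d / L + 1), 2 := Finset.card_biUnion_le.trans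
            (Finset.sum_le_sum fun j _ => card_block_le a b c ha d L (j * L) hcond)
        _ = _ := by rw [Finset.sum_const, Finset.card_range, smul_eq_mul]
    have h3 : ((d / L : ℕ) : ℝ) ≤ d / L := Nat.cast_div_le
    have h4 : (d : ℝ) / L ≤ 2 * d / t := by
      rw [div_le_div_iff₀ (by exact_mod_cast hL1) ht0]
      nlinarith
    have h5 : (d : ℝ) / t = 2 * |(a : ℝ)| * t ^ 2 := by
      rw [div_eq_iff ht0.ne']
      have : 2 * |(a : ℝ)| * t ^ 2 * t = 2 * |(a : ℝ)| * t ^ 3 := by ring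
      rw [this, ht3]
      field_simp
    have h6 : (2 * |(a : ℝ)|) ≤ (2 * |(a : ℝ)|) * (2 * |(a : ℝ)|) ^ (2 / 3 : ℝ) := by
      have : (1 : ℝ) ≤ (2 * |(a : ℝ)|) ^ (2 / 3 : ℝ) :=
        Real.one_le_rpow (by linarith) (by norm_num)
      nlinarith
    calc (S.card : ℝ) ≤ (((d / L + 1) * 2 : ℕ) : ℝ) := by exact_mod_cast h2
      _ = 2 * ((d / L : ℕ) : ℝ) + 2 := by push_cast; ring
      _ ≤ 4 * (d / t) + 2 := by
          have : 2 * (d : ℝ) / t = 2 * (d / t) := by ring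
          linarith
      _ = 4 * (2 * |(a : ℝ)|) * t ^ 2 + 2 := by rw [h5]; ring
      _ ≤ 4 * ((2 * |(a : ℝ)|) * (2 * |(a : ℝ)|) ^ (2 / 3 : ℝ)) * t ^ 2 + 2 := by
          have : 0 ≤ t ^ 2 := by positivity
          nlinarith
      _ = 8 * |(a : ℝ)| * (d : ℝ) ^ (2 / 3 : ℝ) + 2 := by rw [hd23]; ring
      _ ≤ (8 * |(a : ℝ)| + 2) * (d : ℝ) ^ (2 / 3 : ℝ) := by linarith

end Pool.Agent.KS6_53.V5
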