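import Pool.Agent.KS6_53.V5.Quad
import Pool.Agent.KS6_53.V5.Cnt2

set_option autoImplicit false
set_option linter.style.haveILetI false

namespace Pool.Agent.KS6_53.V5

open Finset

theorem card_zeros_mul (a b c : ℤ) (ha : a ≠ 0) (d : ℕ) (hd : 0 < d) (m : ℕ) :
    (((Finset.range (d * m)).filter fun k : ℕ => (d : ℤ) ∣ a * (k : ℤ) ^ 2 + b * k + c).card : ℝ) ≤
      m * ((8 * |a| + 2 : ℤ) * (d : ℝ) ^ (2 / 3 : ℝ)) := by
  induction m with
  | zero => simp
  | succ m ih =>
    have h1 : (Finset.range (d * (m + 1))).filter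
        (fun k : ℕ => (d : ℤ) ∣ a * (k : ℤ) ^ 2 + b * k + c) ⊆
        ((Finset.range (d * m)).filter fun k : ℕ => (d : ℤ) ∣ a * (k : ℤ) ^ 2 + b * k + c) ∪
        ((Finset.range d).filter fun k : ℕ => (d : ℤ) ∣ a * (k : ℤ) ^ 2 +
          (2 * a * (d * m) + b) * k + (a * (d * m) ^ 2 + b * (d * m) + c)).image
            (fun k => k + d * m) := by
      intro k hk
      simp only [Finset.mem_filter, Finset.mem_range, Finset.mem_union, Finset.mem_image] at hk ⊢
      by_cases hlt : k < d * m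
      · exact Or.inl ⟨hlt, hk.2⟩
      · right
        push Not at hlt
        refine ⟨k - d * m, ⟨?_, ?_⟩, Nat.sub_add_cancel hlt⟩
        · have : d * (m + 1) = d * m + d := by ring
          omega
        · have e1 : ((k - d * m : ℕ) : ℤ) = (k : ℤ) - d * m := by
            rw [Nat.cast_sub hlt]
            push_cast
            ring
          rw [e1]
          have e2 : a * ((k : ℤ) - d * m) ^ 2 + (2 * a * (d * m) + b) * ((k : ℤ) - d * m) +
              (a * (d * m) ^ 2 + b * (d * m) + c) = a * (k : ℤ) ^ 2 + b * k + c := by ring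
          rw [e2]
          exact hk.2
    have h2 := card_zeros_le a (2 * a * (d * m) + b) (a * (d * m) ^ 2 + b * (d * m) + c) ha d hd
    calc (((Finset.range (d * (m + 1))).filter
        (fun k : ℕ => (d : ℤ) ∣ a * (k : ℤ) ^ 2 + b * k + c)).card : ℝ)
        ≤ (((((Finset.range (d * m)).filter fun k : ℕ => (d : ℤ) ∣ a * (k : ℤ) ^ 2 + b * k + c)).card +
          ((((Finset.range d).filter fun k : ℕ => (d : ℤ) ∣ a * (k : ℤ) ^ 2 +
          (2 * a * (d * m) + b) * k + (a * (d * m) ^ 2 + b * (d * m) + c))).card) : ℕ) : ℝ) := by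
          exact_mod_cast (Finset.card_le_card h1).trans ((Finset.card_union_le _ _).trans
            (Nat.add_le_add_left Finset.card_image_le _))
      _ ≤ m * ((8 * |a| + 2 : ℤ) * (d : ℝ) ^ (2 / 3 : ℝ)) +
          (8 * |a| + 2 : ℤ) * (d : ℝ) ^ (2 / 3 : ℝ) := by
          push_cast at ih h2 ⊢
          exact add_le_add ih h2
      _ = _ := by push_cast; ring

/-- the quadratic form of a dual vector -/
def qf (h : Fin 5 → ℤ) (l : Fin 3 → ℤ) : ℤ := ∑ i, h i * pf l i

theorem qf_ne (h : Fin 5 → ℤ) (hh : h ≠ 0) : ∃ e : Fin 3 → ℤ, qf h e ≠ 0 := by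
  by_contra hc
  push Not at hc
  apply hh
  have e0 := hc ![1, 0, 0]
  have e1 := hc ![0, 0, 1]
  have e2 := hc ![0, 1, 0]
  have e3 := hc ![1, 1, 0]
  have e4 := hc ![0, 1, 1]
  simp [qf, pf, Fin.sum_univ_five] at e0 e1 e2 e3 e4
  funext i
  fin_cases i <;> simp <;> linarith

theorem qf_line (h : Fin 5 → ℤ) (v e : Fin 3 → ℤ) : ∃ B : ℤ, ∀ k : ℤ,
    qf h (fun i => v i + k * e i) = qf h e * k ^ 2 + B * k + qf h v := by
  refine ⟨h 0 * (2 * v 2 * e 2) + h 1 * (-(v 1 * e 2) - v 2 * e 1) +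
    h 2 * (2 * v 1 * e 1 - v 0 * e 2 - v 2 * e 0) + h 3 * (-(v 0 * e 1) - v 1 * e 0) +
    h 4 * (2 * v 0 * e 0), fun k => ?_⟩
  simp [qf, pf, Fin.sum_univ_five]
  ring

theorem qf_congr (h : Fin 5 → ℤ) {v v' : Fin 3 → ℤ} {f : ℤ} (hv : ∀ i, f ∣ v i - v' i) :
    f ∣ qf h v - qf h v' := by
  have h0 := hv 0
  have h1 := hv 1
  have h2 := hv 2
  obtain ⟨a, ha⟩ := h0
  obtain ⟨b, hb⟩ := h1
  obtain ⟨c, hc⟩ := h2
  have ea : v 0 = v' 0 + f * a := by linarith
  have eb : v 1 = v' 1 + f * b := by linarith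
  have ec : v 2 = v' 2 + f * c := by linarith
  simp only [qf, pf, Fin.sum_univ_five, Matrix.cons_val]
  rw [ea, eb, ec]
  refine ⟨h 0 * (2 * v' 2 * c + f * c ^ 2) + h 1 * (-(v' 1 * c) - v' 2 * b - f * b * c) +
    h 2 * (2 * v' 1 * b + f * b ^ 2 - v' 0 * c - v' 2 * a - f * a * c) +
    h 3 * (-(v' 0 * b) - v' 1 * a - f * a * b) + h 4 * (2 * v' 0 * a + f * a ^ 2), ?_⟩
  ring

/-- the number of zeros of the quadratic form modulo `f` -/
theorem card_qf (h : Fin 5 → ℤ) (hh : h ≠ 0) : ∃ C : ℝ, 0 < C ∧ ∀ (q f : ℕ) [NeZero q], f ∣ q →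
    ((univ.filter fun l : Fin 3 → ZMod q => (f : ℤ) ∣ qf h (fun i => ((l i).val : ℤ))).card : ℝ) ≤
      C * (q : ℝ) ^ 3 * (f : ℝ) ^ (-(1 / 3) : ℝ) := by
  obtain ⟨e, he⟩ := qf_ne h hh
  refine ⟨((8 * |qf h e| + 2 : ℤ) : ℝ), by positivity, fun q f _ hf => ?_⟩
  have hq : 0 < q := NeZero.pos q
  have hf0 : 0 < f := Nat.pos_of_dvd_of_pos hf hq
  obtain ⟨m, rfl⟩ := hf
  have hf' : (0 : ℝ) < f := by exact_mod_cast hf0
  set S := univ.filter fun l : Fin 3 → ZMod (f * m) => (f : ℤ) ∣ qf h (fun i => ((l i).val : ℤ))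
    with hS
  -- shifts
  have hshift : ∀ k : ℕ, S.card = ((univ : Finset (Fin 3 → ZMod (f * m))).filter fun l =>
      (f : ℤ) ∣ qf h (fun i => ((l i).val : ℤ) + k * e i)).card := by
    intro k
    refine Finset.card_bij (fun l _ => fun i => l i - (k : ZMod (f * m)) * (e i : ZMod (f * m)))
      ?_ ?_ ?_
    · intro l hl
      simp only [hS, mem_filter, mem_univ, true_and] at hl ⊢
      have h1 := qf_congr h (f := f)
        (v := fun i => (((l i - (k : ZMod (f * m)) * (e i : ZMod (f * m))).val : ℕ) : ℤ) + k * e i)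
        (v' := fun i => ((l i).val : ℤ)) (fun i => by
          have h2 : ((f * m : ℕ) : ℤ) ∣ ((((l i - (k : ZMod (f * m)) *
              (e i : ZMod (f * m))).val : ℕ) : ℤ) + k * e i) - ((l i).val : ℤ) := by
            rw [← ZMod.intCast_zmod_eq_zero_iff_dvd]
            push_cast
            rw [ZMod.natCast_zmod_val, ZMod.natCast_zmod_val]
            ring
          exact (Int.natCast_dvd_natCast.2 (dvd_mul_right f m)).trans h2)
      exact (dvd_iff_dvd_of_dvd_sub h1).2 hl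
    · intro l _ l' _ hll
      funext i
      have := congrFun hll i
      simpa using this
    · intro l hl
      simp only [hS, mem_filter, mem_univ, true_and] at hl ⊢
      refine ⟨fun i => l i + (k : ZMod (f * m)) * (e i : ZMod (f * m)), ?_, ?_⟩
      · have h1 := qf_congr h (f := f)
          (v := fun i => (((l i + (k : ZMod (f * m)) * (e i : ZMod (f * m))).val : ℕ) : ℤ))
          (v' := fun i => ((l i).val : ℤ) + k * e i) (fun i => by
            have h2 : ((f * m : ℕ) : ℤ) ∣ ((((l i + (k : ZMod (f * m)) *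
                (e i : ZMod (f * m))).val : ℕ) : ℤ)) - (((l i).val : ℤ) + k * e i) := by
              rw [← ZMod.intCast_zmod_eq_zero_iff_dvd]
              push_cast
              rw [ZMod.natCast_zmod_val, ZMod.natCast_zmod_val]
              ring
            exact (Int.natCast_dvd_natCast.2 (dvd_mul_right f m)).trans h2)
        exact (dvd_iff_dvd_of_dvd_sub h1).2 hl
      · funext i
        simp
  have hsum : ((f * m : ℕ) : ℝ) * S.card = ∑ l : Fin 3 → ZMod (f * m),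
      (((Finset.range (f * m)).filter fun k : ℕ =>
        (f : ℤ) ∣ qf h (fun i => ((l i).val : ℤ) + k * e i)).card : ℝ) := by
    have h1 : ∑ k ∈ Finset.range (f * m), S.card = (f * m) * S.card := by
      rw [Finset.sum_const, Finset.card_range, smul_eq_mul]
    have h2 : ∑ k ∈ Finset.range (f * m), S.card = ∑ l : Fin 3 → ZMod (f * m),
        ((Finset.range (f * m)).filter fun k : ℕ =>
        (f : ℤ) ∣ qf h (fun i => ((l i).val : ℤ) + k * e i)).card := by
      rw [Finset.sum_congr rfl fun k _ => hshift k]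
      simp only [Finset.card_filter]
      rw [Finset.sum_comm]
    rw [h1] at h2
    exact_mod_cast h2
  have hbd : ∀ l : Fin 3 → ZMod (f * m), (((Finset.range (f * m)).filter fun k : ℕ =>
        (f : ℤ) ∣ qf h (fun i => ((l i).val : ℤ) + k * e i)).card : ℝ) ≤
      m * (((8 * |qf h e| + 2 : ℤ) : ℝ) * (f : ℝ) ^ (2 / 3 : ℝ)) := by
    intro l
    obtain ⟨B, hB⟩ := qf_line h (fun i => ((l i).val : ℤ)) e
    simp only [hB]
    exact card_zeros_mul (qf h e) B _ he f hf0 m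
  have h3 : ((f * m : ℕ) : ℝ) * S.card ≤ ((f * m : ℕ) : ℝ) ^ 3 *
      (m * (((8 * |qf h e| + 2 : ℤ) : ℝ) * (f : ℝ) ^ (2 / 3 : ℝ))) := by
    rw [hsum]
    calc _ ≤ ∑ l : Fin 3 → ZMod (f * m),
          m * (((8 * |qf h e| + 2 : ℤ) : ℝ) * (f : ℝ) ^ (2 / 3 : ℝ)) :=
          Finset.sum_le_sum fun l _ => hbd l
      _ = _ := by
          rw [Finset.sum_const, Finset.card_univ, Fintype.card_fun, ZMod.card, Fintype.card_fin,
            nsmul_eq_mul]
          push_cast
          ring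
  have hq' : (0 : ℝ) < ((f * m : ℕ) : ℝ) := by exact_mod_cast hq
  have h4 : (f : ℝ) ^ (2 / 3 : ℝ) = f * (f : ℝ) ^ (-(1 / 3) : ℝ) := by
    rw [show (2 / 3 : ℝ) = 1 + (-(1 / 3)) by norm_num, Real.rpow_add hf', Real.rpow_one]
  have h5 : ((f * m : ℕ) : ℝ) ^ 3 *
      (m * (((8 * |qf h e| + 2 : ℤ) : ℝ) * (f : ℝ) ^ (2 / 3 : ℝ))) =
      ((f * m : ℕ) : ℝ) * (((8 * |qf h e| + 2 : ℤ) : ℝ) * ((f * m : ℕ) : ℝ) ^ 3 *
        (f : ℝ) ^ (-(1 / 3) : ℝ)) := by
    rw [h4]
    push_cast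
    ring
  rw [h5] at h3
  exact le_of_mul_le_mul_left h3 hq'

end Pool.Agent.KS6_53.V5
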