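import Pool.Agent.KS6_53.V5.Riem
import Pool.Agent.KS6_53.V5.Fs

set_option autoImplicit false

namespace Pool.Agent.KS6_53.V5

open Finset Filter Topology MeasureTheory

section

variable {h : ℝ → ℝ}

theorem supp_bdd1 (hh : HasCompactSupport h) : ∃ A : ℝ, 0 < A ∧ ∀ u, h u ≠ 0 → |u| ≤ A := by
  obtain ⟨A, hA⟩ := (hh.isCompact.isBounded).exists_norm_le
  refine ⟨max A 1, by positivity, fun u hu => ?_⟩
  have h1 : ‖u‖ ≤ A := hA u (subset_tsupport _ hu)
  rw [Real.norm_eq_abs] at h1
  exact h1.trans (le_max_left _ _)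

theorem riemann1 (hc : Continuous h) (hh : HasCompactSupport h) :
    Tendsto (fun t : ℝ => (∑ᶠ n : ℤ, h ((n : ℝ) / t)) / t) atTop (𝓝 (∫ s, h s)) := by
  let F : (Fin 1 → ℝ) → ℝ := fun u => h (u 0)
  have hFc : Continuous F := hc.comp (continuous_apply 0)
  have hFs : HasCompactSupport F := by
    have : F = h ∘ (Homeomorph.funUnique (Fin 1) ℝ) := by
      funext u
      simp [F]
    rw [this]
    exact hh.comp_homeomorph _
  have hint : ∫ u, F u = ∫ s, h s := by
    have := (volume_preserving_funUnique (Fin 1) ℝ).integral_comp' (g := h)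
    rw [← this]
    refine integral_congr_ae (Filter.Eventually.of_forall fun u => ?_)
    simp [F]
  have key := riemann hFc hFs
  rw [hint] at key
  refine key.congr fun t => ?_
  rw [Fintype.card_fin, pow_one]
  congr 1
  rw [← finsum_comp_equiv (Equiv.funUnique (Fin 1) ℤ)]
  refine finsum_congr fun x => ?_
  simp [F]

theorem intbox_card (N : ℤ) (hN : 0 ≤ N) : {n : ℤ | |n| ≤ N}.Finite ∧
    (({n : ℤ | |n| ≤ N}.ncard : ℕ) : ℝ) ≤ 2 * N + 1 := by
  have h : {n : ℤ | |n| ≤ N} = ((Finset.Icc (-N) N : Finset ℤ) : Set ℤ) := by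
    ext z
    simp only [Set.mem_ofPred_eq, Finset.coe_Icc, Set.mem_Icc, abs_le]
  rw [h]
  refine ⟨Finset.finite_toSet _, ?_⟩
  rw [Set.ncard_coe_finset, Int.card_Icc]
  have e : (((N + 1 - -N).toNat : ℕ) : ℝ) = 2 * N + 1 := by
    rw [← Int.cast_natCast, Int.toNat_of_nonneg (by omega)]
    push_cast
    ring
  rw [e]

theorem riemann_shift (hc : Continuous h) (hh : HasCompactSupport h) (c : ℝ) :
    Tendsto (fun t : ℝ => (∑ᶠ n : ℤ, h (((n : ℝ) + c) / t)) / t) atTop (𝓝 (∫ s, h s)) := by
  have key := riemann1 hc hh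
  obtain ⟨A, hA, hs⟩ := supp_bdd1 hh
  have huc := hc.uniformContinuous_of_tendsto_cocompact hh.is_zero_at_infty
  have hdiff : Tendsto (fun t : ℝ => (∑ᶠ n : ℤ, h (((n : ℝ) + c) / t)) / t -
      (∑ᶠ n : ℤ, h ((n : ℝ) / t)) / t) atTop (𝓝 0) := by
    rw [Metric.tendsto_atTop]
    intro ε hε
    set η : ℝ := ε / (2 * (2 * A + 2 * |c| + 3)) with hη
    have hη0 : 0 < η := by positivity
    obtain ⟨δ, hδ, hδ2⟩ := Metric.uniformContinuous_iff.1 huc η hη0
    refine ⟨max 1 ((|c| + 1) / δ), fun t ht => ?_⟩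
    have ht1 : 1 ≤ t := (le_max_left _ _).trans ht
    have ht0 : 0 < t := by linarith
    have ht2 : (|c| + 1) / δ ≤ t := (le_max_right _ _).trans ht
    rw [div_le_iff₀ hδ] at ht2
    rw [Real.dist_eq, sub_zero, ← sub_div, abs_div, abs_of_pos ht0, div_lt_iff₀ ht0]
    set N : ℤ := ⌊A * t + |c|⌋ + 1 with hN
    have hfl0 : 0 ≤ ⌊A * t + |c|⌋ := Int.floor_nonneg.2 (by positivity)
    have hN0 : 0 ≤ N := by omega
    have hN1 : A * t + |c| ≤ N := by
      have := (Int.lt_floor_add_one (A * t + |c|)).le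
      rw [hN]
      push_cast
      exact this
    have hN2 : (N : ℝ) ≤ A * t + |c| + 1 := by
      have := Int.floor_le (A * t + |c|)
      rw [hN]
      push_cast
      linarith
    obtain ⟨b1, b2⟩ := intbox_card N hN0
    have h1 := fs_sub_le (f := fun n : ℤ => h (((n : ℝ) + c) / t)) (g := fun n : ℤ => h ((n : ℝ) / t))
      (s := Set.univ) (M := η) (fun n _ => by
        rw [← Real.dist_eq]
        refine (hδ2 ?_).le
        rw [Real.dist_eq, ← sub_div, add_sub_cancel_left, abs_div, abs_of_pos ht0, div_lt_iff₀ ht0]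
        linarith) b1 (fun n _ hn => by
        have := hs _ hn
        rw [abs_div, abs_of_pos ht0, div_le_iff₀ ht0] at this
        have h2 : |(n : ℝ)| ≤ N := by
          have e : (n : ℝ) = (n + c) - c := by ring
          rw [e]
          refine (abs_sub _ _).trans ?_
          linarith
        rw [Set.mem_ofPred_eq]
        exact_mod_cast h2) (fun n _ hn => by
        have := hs _ hn
        rw [abs_div, abs_of_pos ht0, div_le_iff₀ ht0] at this
        have h2 : |(n : ℝ)| ≤ N := by
          have := abs_nonneg c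
          linarith
        rw [Set.mem_ofPred_eq]
        exact_mod_cast h2) hη0.le
    rw [finsum_mem_univ, finsum_mem_univ] at h1
    refine lt_of_le_of_lt h1 ?_
    calc η * ({n : ℤ | |n| ≤ N}.ncard : ℝ) ≤ η * (2 * N + 1) := mul_le_mul_of_nonneg_left b2 hη0.le
      _ ≤ η * ((2 * A + 2 * |c| + 3) * t) := by
        refine mul_le_mul_of_nonneg_left ?_ hη0.le
        have := abs_nonneg c
        nlinarith
      _ = ε / 2 * t := by
        rw [hη]
        field_simp
      _ < ε * t := by nlinarith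
  have := hdiff.add key
  simpa using this

/-- the number of residues coprime to `P`, normalized -/
noncomputable def cP (P : ℕ) : ℝ := (((Finset.range P).filter fun r => Nat.Coprime r P).card : ℝ) / P

theorem coprime_riemann (hc : Continuous h) (hh : HasCompactSupport h) (hpos : ∀ s, h s ≠ 0 → 0 < s)
    (P : ℕ) (hP : 0 < P) :
    Tendsto (fun t : ℝ => (∑ᶠ q ∈ {q : ℕ | Nat.Coprime q P}, h ((q : ℝ) / t)) / t) atTop
      (𝓝 (cP P * ∫ s, h s)) := by
  classical
  have hP0 : (0 : ℝ) < P := by exact_mod_cast hP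
  obtain ⟨A, hA, hs⟩ := supp_bdd1 hh
  -- the residue classes
  have h1 : ∀ r : ℕ, Tendsto (fun t : ℝ => (∑ᶠ n : ℤ, h (((r : ℝ) + P * n) / t)) / t) atTop
      (𝓝 ((∫ s, h s) / P)) := by
    intro r
    have := ((riemann_shift hc hh ((r : ℝ) / P)).comp (tendsto_id.atTop_div_const hP0)).div_const
      (P : ℝ)
    refine this.congr' ?_
    filter_upwards [eventually_gt_atTop 0] with t ht
    simp only [Function.comp, id]
    have e : ∀ n : ℤ, ((n : ℝ) + r / P) / (t / P) = ((r : ℝ) + P * n) / t := by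
      intro n
      field_simp
      ring
    simp only [e]
    field_simp
  have h2 : Tendsto (fun t : ℝ => ∑ r ∈ (Finset.range P).filter (fun r => Nat.Coprime r P),
      (∑ᶠ n : ℤ, h (((r : ℝ) + P * n) / t)) / t) atTop
      (𝓝 (∑ r ∈ (Finset.range P).filter (fun r => Nat.Coprime r P), (∫ s, h s) / P)) :=
    tendsto_finsetSum _ fun r _ => h1 r
  rw [Finset.sum_const, nsmul_eq_mul] at h2
  have e0 : cP P * ∫ s, h s = (((Finset.range P).filter (fun r => Nat.Coprime r P)).card : ℝ) *
      ((∫ s, h s) / P) := by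
    rw [cP]
    ring
  rw [e0]
  refine h2.congr' ?_
  filter_upwards [eventually_gt_atTop 0] with t ht
  rw [← Finset.sum_div]
  congr 1
  set J : Finset ℕ := Finset.range (⌊A * t⌋₊ + 1) with hJ
  have hJm : ∀ q : ℕ, h ((q : ℝ) / t) ≠ 0 → q ∈ J := by
    intro q hq
    have := hs _ hq
    rw [abs_div, abs_of_pos ht, div_le_iff₀ ht, abs_of_nonneg (by positivity)] at this
    rw [hJ, Finset.mem_range]
    exact Nat.lt_succ_of_le (Nat.le_floor this)
  have e1 : ∀ r ∈ (Finset.range P).filter (fun r => Nat.Coprime r P),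
      ∑ᶠ n : ℤ, h (((r : ℝ) + P * n) / t) = ∑ q ∈ J, if q % P = r then h ((q : ℝ) / t) else 0 := by
    intro r hr
    rw [Finset.mem_filter, Finset.mem_range] at hr
    have e2 : ∑ᶠ n : ℤ, h (((r : ℝ) + P * n) / t) =
        ∑ᶠ q ∈ {q : ℕ | q % P = r}, h ((q : ℝ) / t) := by
      rw [← finsum_mem_support (fun n : ℤ => h (((r : ℝ) + P * n) / t)),
        ← finsum_mem_inter_support (fun q : ℕ => h ((q : ℝ) / t)) {q : ℕ | q % P = r}]
      have hcast : ∀ n : ℤ, h (((r : ℝ) + P * n) / t) ≠ 0 → 0 < (r : ℤ) + P * n := by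
        intro n hn
        have := hpos _ hn
        have h3 : 0 < (r : ℝ) + P * n := by
          by_contra hc
          push Not at hc
          have := div_nonpos_of_nonpos_of_nonneg hc ht.le
          linarith
        exact_mod_cast h3
      have hval : ∀ n : ℤ, h (((r : ℝ) + P * n) / t) ≠ 0 →
          (((((r : ℤ) + P * n).toNat : ℕ)) : ℝ) = (r : ℝ) + P * n := by
        intro n hn
        have h4 := Int.toNat_of_nonneg (hcast n hn).le
        have h5 : (((((r : ℤ) + P * n).toNat : ℕ) : ℤ) : ℝ) = (((r : ℤ) + P * n : ℤ) : ℝ) := by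
          rw [h4]
        push_cast at h5
        exact h5
      refine finsum_mem_eq_of_bijOn (fun n : ℤ => ((r : ℤ) + P * n).toNat) ⟨?_, ?_, ?_⟩ ?_
      · intro n hn
        rw [Function.mem_support] at hn
        refine ⟨?_, ?_⟩
        · have h4 := Int.toNat_of_nonneg (hcast n hn).le
          have h5 : ((((r : ℤ) + P * n).toNat % P : ℕ) : ℤ) = r := by
            push_cast
            rw [h4, Int.add_mul_emod_self_left]
            exact Int.emod_eq_of_lt (by positivity) (by exact_mod_cast hr.1)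
          exact_mod_cast h5
        · rw [Function.mem_support, hval n hn]
          exact hn
      · intro n hn n' hn' he
        rw [Function.mem_support] at hn hn'
        have h4 := Int.toNat_of_nonneg (hcast n hn).le
        have h5 := Int.toNat_of_nonneg (hcast n' hn').le
        simp only at he
        rw [he, h5] at h4
        have hPz : (P : ℤ) ≠ 0 := by exact_mod_cast hP.ne'
        exact (mul_left_cancel₀ hPz (add_left_cancel h4)).symm
      · rintro q ⟨hq1, hq2⟩
        rw [Function.mem_support] at hq2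
        have h6 : (r : ℤ) + P * ((q : ℤ) / P) = q := by
          have := Int.emod_add_mul_ediv (q : ℤ) P
          have h7 : (q : ℤ) % P = r := by exact_mod_cast hq1
          rw [h7] at this
          exact this
        have h8 : ((r : ℝ) + P * (((q : ℤ) / P : ℤ) : ℝ)) = q := by exact_mod_cast h6
        refine ⟨(q : ℤ) / P, ?_, ?_⟩
        · rw [Function.mem_support, h8]
          exact hq2
        · simp only
          rw [h6]
          simp
      · intro n hn
        rw [Function.mem_support] at hn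
        rw [hval n hn]
    rw [e2, fs_eq _ _ J (fun q _ hq => hJm q hq)]
    refine Finset.sum_congr rfl fun q _ => ?_
    by_cases h7 : q % P = r
    · rw [if_pos h7]
      exact if_pos h7
    · rw [if_neg h7]
      exact if_neg h7
  rw [Finset.sum_congr rfl e1, Finset.sum_comm]
  have e3 := fs_eq (fun q : ℕ => h ((q : ℝ) / t)) {q : ℕ | Nat.Coprime q P} J (fun q _ hq => hJm q hq)
  simp only [Set.mem_ofPred_eq] at e3 ⊢
  rw [e3]
  refine Finset.sum_congr rfl fun q _ => ?_
  rw [Finset.sum_ite_eq]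
  have h9 : Nat.Coprime (q % P) P ↔ Nat.Coprime q P := by
    rw [Nat.Coprime, Nat.Coprime, ← Nat.gcd_rec, Nat.gcd_comm]
  simp only [Finset.mem_filter, Finset.mem_range, Nat.mod_lt _ hP, true_and, h9]
  by_cases h10 : Nat.Coprime q P
  · rw [if_pos h10, if_pos h10]
  · rw [if_neg h10, if_neg h10]

theorem cP_nonneg (P : ℕ) : 0 ≤ cP P := by
  rw [cP]
  positivity

theorem cP_le (P : ℕ) : cP P ≤ 1 := by
  rw [cP]
  rcases Nat.eq_zero_or_pos P with rfl | hP
  · simp
  · rw [div_le_one (by exact_mod_cast hP)]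
    have := Finset.card_filter_le (Finset.range P) (fun r => Nat.Coprime r P)
    rw [Finset.card_range] at this
    exact_mod_cast this

end

end Pool.Agent.KS6_53.V5
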